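import Pool.Agent.H75.UL.L4

/-!
# Project UL (MP_978914_al), module L5

`n_α(t) x_α(u) n_α(t)⁻¹ = x_{-α}(t⁻² u)` in the adjoint group.

Enough: `nmat α t * X α u = X (-α) (t⁻¹^2 * u) * nmat α t` (then `nn_xg`). This follows from
`nmat * E α = t⁻² • (E (-α) * nmat)` and `nmat * F α = t⁻⁴ • (F (-α) * nmat)` (casts of integer
matrices). On the basis: `n E_α e_{-α} = n (-h_α) = h_α` and `t⁻² E_{-α} n e_{-α} = E_{-α} e_α =
-h_{-α} = h_α`; `n E_α h_j = -(α_j,α) t⁻² e_{-α}` and
`t⁻² E_{-α} (h_j - (α_j,α) h_α) = t⁻² (α_j,α) (1 - 2) e_{-α}`; `ip α β = -1`: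
`n E_α e_β = ε n e_{α+β} = ε cs(α,α+β) t⁻¹ e_β = ε(α,β) ε(α,α+β) t⁻¹ e_β = -t⁻¹ e_β` and
`t⁻² E_{-α} n e_β = t⁻² ε t E_{-α} e_{α+β} = t⁻¹ ε ε(-α,α+β) e_β = -t⁻¹ e_β`; all other basis
vectors are killed by both sides.
-/

set_option autoImplicit false
open Matrix
universe u
namespace Pool.Agent.H75.UL

namespace SLC
variable {n : ℕ} (C : SLC n)

theorem L5_refl_of_neg (α β : C.Root) (h : β.1 = -α.1) : C.refl α β = α := by
  have hβ : β = -α := Root.ext (by rw [Root.neg_val]; exact h)
  rw [hβ, refl_neg, refl_self, neg_neg_root]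

theorem L5_refl_iff (α β : C.Root) : C.refl α β = α ↔ β.1 = -α.1 := by
  constructor
  · intro h
    have h1 := C.refl_refl α β
    rw [h, refl_self] at h1
    rw [← h1, Root.neg_val]
  · exact C.L5_refl_of_neg α β

theorem L5_cs_of_neg (α β : C.Root) (h : β.1 = -α.1) : C.cs α β = 1 := by
  unfold cs
  rw [h, ip_neg_right, α.2]
  norm_num

theorem L5_ip_of_neg (α β : C.Root) (h : β.1 = -α.1) : C.ip α.1 β.1 = -2 := by
  rw [h, ip_neg_right, α.2]

theorem L5_cs_self (α : C.Root) : C.cs α α = 1 := by
  unfold cs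
  rw [α.2]
  norm_num

theorem L5_sum (α : C.Root) (K : Type*) [Field K] :
    ∑ k, (α.1 k : K) * (C.ip (Pi.single k 1) α.1 : K) = 2 := by
  have h := C.sum_ip_single α.1 α.1
  rw [α.2] at h
  have h2 := congrArg (Int.cast : ℤ → K) h
  push_cast at h2
  exact h2

theorem L5_E (K : Type*) [Field K] (α : C.Root) (t : K) (ht : t ≠ 0) :
    C.nmat K α t * (C.E α).map (Int.cast : ℤ → K) =
      (t⁻¹ ^ 2) • ((C.E (-α)).map (Int.cast : ℤ → K) * C.nmat K α t) := by
  ext a b
  rw [Matrix.mul_apply, Fintype.sum_sum_type, Matrix.smul_apply, Matrix.mul_apply,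
    Fintype.sum_sum_type]
  rcases a with i | γ <;> rcases b with j | β
  · simp [nmat, E]
  · -- (inl i) (inr β)
    simp only [nmat, E, Matrix.map_apply, Root.neg_val, zero_mul, mul_zero, Finset.sum_const_zero,
      add_zero, zero_add, neg_neg, Pi.neg_apply]
    by_cases hβ : β.1 = -α.1
    · simp only [hβ, if_true]
      rw [Finset.sum_eq_single (C.refl α β)]
      · have hr := C.L5_refl_of_neg α β hβ
        rw [if_pos (by rw [hr]), if_pos rfl, C.L5_cs_of_neg α β hβ]
        have hip : C.ip α.1 (-α.1) = -2 := by rw [ip_neg_right, α.2]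
        rw [hip]
        have e1 : ∀ k, ((if i = k then (1 : K) else 0) - (α.1 i : K) *
            (C.ip (Pi.single k 1) α.1 : K)) * ((-α.1 k : ℤ) : K) =
            (α.1 i : K) * ((α.1 k : K) * (C.ip (Pi.single k 1) α.1 : K)) -
              (if i = k then (α.1 k : K) else 0) := by
          intro k
          push_cast
          split_ifs <;> ring
        rw [Finset.sum_congr rfl fun k _ => e1 k, Finset.sum_sub_distrib, ← Finset.mul_sum,
          C.L5_sum α K, Finset.sum_ite_eq, if_pos (Finset.mem_univ i)]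
        have e2 : t ^ (-(-2 : ℤ)) = t ^ 2 := by norm_num
        rw [e2, smul_eq_mul]
        push_cast
        field_simp
        ring
      · intro δ _ hδ
        rw [if_neg hδ, mul_zero]
      · intro h
        exact absurd (Finset.mem_univ _) h
    · simp only [hβ, if_false, Int.cast_zero, mul_zero, Finset.sum_const_zero]
      symm
      rw [smul_eq_mul]
      apply mul_eq_zero_of_right
      apply Finset.sum_eq_zero
      intro δ _
      by_cases hδ : δ = C.refl α β
      · rw [if_neg, Int.cast_zero, zero_mul]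
        intro h
        apply hβ
        rw [← C.L5_refl_iff α β, ← hδ]
        exact Root.ext h
      · rw [if_neg hδ, mul_zero]
  · -- (inr γ) (inl j)
    simp only [nmat, E, Matrix.map_apply, Root.neg_val, zero_mul, mul_zero, Finset.sum_const_zero,
      add_zero, zero_add, ip_neg_right, neg_neg]
    rw [Finset.sum_eq_single α]
    · rw [if_pos rfl, refl_self, L5_cs_self, α.2]
      by_cases hγ : γ = -α
      · have hγ' : γ.1 = -α.1 := by rw [hγ, Root.neg_val]
        rw [if_pos hγ]
        simp only [hγ', if_true]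
        have e1 : ∀ k, ((C.ip (Pi.single k 1) α.1 : ℤ) : K) * ((if k = j then (1 : K) else 0) -
            (α.1 k : K) * (C.ip (Pi.single j 1) α.1 : K)) =
            (if k = j then (C.ip (Pi.single k 1) α.1 : K) else 0) -
            ((α.1 k : K) * (C.ip (Pi.single k 1) α.1 : K)) * (C.ip (Pi.single j 1) α.1 : K) := by
          intro k
          split_ifs <;> ring
        rw [Finset.sum_congr rfl fun k _ => e1 k, Finset.sum_sub_distrib, ← Finset.sum_mul,
          C.L5_sum α K, Finset.sum_ite_eq', if_pos (Finset.mem_univ j)]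
        have e2 : t ^ (-(2 : ℤ)) = t⁻¹ ^ 2 := by
              rw [_root_.zpow_neg, inv_pow, ← zpow_natCast t 2]; norm_num
        rw [e2, smul_eq_mul]
        push_cast
        ring
      · have hγ' : γ.1 ≠ -α.1 := fun h => hγ (Root.ext (by rw [Root.neg_val]; exact h))
        rw [if_neg hγ]
        simp only [hγ', if_false, Int.cast_zero, zero_mul, Finset.sum_const_zero, smul_zero]
    · intro δ _ hδ
      rw [if_neg (fun h => hδ (Root.ext h)), Int.cast_zero, mul_zero]
    · intro h
      exact absurd (Finset.mem_univ _) h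
  · -- (inr γ) (inr β)
    simp only [nmat, E, Matrix.map_apply, Root.neg_val, zero_mul, mul_zero, Finset.sum_const_zero,
      zero_add]
    rw [Finset.sum_eq_single (C.refl α β) (f := fun δ => (((if γ.1 = -α.1 + δ.1 then
      C.eps (-α.1) δ.1 else 0 : ℤ)) : K) * (if δ = C.refl α β then (C.cs α β : K) *
        t ^ (-C.ip α.1 β.1) else 0))]
    · rw [if_pos rfl]
      by_cases h : C.ip α.1 β.1 = -1
      · obtain ⟨δ, hδ⟩ := C.exists_add α β h
        rw [Finset.sum_eq_single δ]
        · rw [if_pos hδ]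
          have hiδ : C.ip α.1 δ.1 = 1 := by rw [hδ, ip_add_right, α.2, h]; norm_num
          have hrδ : (C.refl α δ).1 = β.1 := by
            rw [refl_val, hiδ, hδ]
            simp
          have hrβ : (C.refl α β).1 = β.1 + α.1 := by
            rw [refl_val, h]
            simp
          have hcsδ : C.cs α δ = - C.eps α.1 β.1 := by
            unfold cs
            rw [if_pos (Or.inl hiδ), hδ, eps_add_right, eps_self]
            ring
          have hcsβ : C.cs α β = C.eps α.1 β.1 := by
            unfold cs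
            rw [if_pos (Or.inr h)]
          have hsq : (C.eps α.1 β.1 : K) * (C.eps α.1 β.1 : K) = 1 := by
            have := C.eps_sq α.1 β.1
            exact_mod_cast congrArg (Int.cast : ℤ → K) this
          by_cases hγ : γ = β
          · have h1 : γ = C.refl α δ := by
              rw [hγ]; exact (Root.ext hrδ).symm
            have h2 : γ.1 = -α.1 + (C.refl α β).1 := by
              rw [hrβ, hγ]; abel
            rw [if_pos h1, if_pos h2, hcsδ, hcsβ, hiδ, h, hrβ, eps_neg_left, eps_add_right,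
              eps_self, smul_eq_mul]
            have e1 : t ^ (-(1 : ℤ)) = t⁻¹ := _root_.zpow_neg_one t
            have e2 : t ^ (-(-1 : ℤ)) = t := by norm_num
            rw [e1, e2]
            push_cast
            have e3 : t⁻¹ ^ 2 * ((C.eps α.1 β.1 : K) * -1 * ((C.eps α.1 β.1 : K) * t)) =
                -((C.eps α.1 β.1 : K) * (C.eps α.1 β.1 : K)) * (t⁻¹ * (t⁻¹ * t)) := by ring
            rw [e3, inv_mul_cancel₀ ht, hsq]
            have e4 : -(C.eps α.1 β.1 : K) * t⁻¹ * (C.eps α.1 β.1 : K) =
                -((C.eps α.1 β.1 : K) * (C.eps α.1 β.1 : K)) * t⁻¹ := by ring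
            rw [e4, hsq]
            ring
          · have h1 : ¬ γ = C.refl α δ := by
              intro h3
              exact hγ (h3.trans (Root.ext hrδ))
            have h2 : ¬ γ.1 = -α.1 + (C.refl α β).1 := by
              intro h3
              apply hγ
              apply Root.ext
              rw [h3, hrβ]; abel
            rw [if_neg h1, if_neg h2]
            simp
        · intro δ' _ hδ'
          rw [if_neg (c := δ'.1 = α.1 + β.1) (fun h3 => hδ' (Root.ext (h3.trans hδ.symm))),
            Int.cast_zero, mul_zero]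
        · intro h3
          exact absurd (Finset.mem_univ _) h3
      · rw [Finset.sum_eq_zero]
        · rw [if_neg, Int.cast_zero, zero_mul, smul_zero]
          intro h3
          have h4 := C.ip_add_root (-α) (C.refl α β) γ (by rw [Root.neg_val]; exact h3)
          rw [Root.neg_val, ip_neg_left, ip_refl, neg_neg] at h4
          exact h h4
        · intro δ _
          rw [if_neg (c := δ.1 = α.1 + β.1), Int.cast_zero, mul_zero]
          intro h3
          exact h (C.ip_add_root α β δ h3)
    · intro δ _ hδ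
      rw [if_neg hδ, mul_zero]
    · intro h
      exact absurd (Finset.mem_univ _) h

theorem L5_F (K : Type*) [Field K] (α : C.Root) (t : K) (ht : t ≠ 0) :
    C.nmat K α t * (C.F α).map (Int.cast : ℤ → K) =
      ((t⁻¹ ^ 2) ^ 2) • ((C.F (-α)).map (Int.cast : ℤ → K) * C.nmat K α t) := by
  ext a b
  rw [Matrix.mul_apply, Fintype.sum_sum_type, Matrix.smul_apply, Matrix.mul_apply,
    Fintype.sum_sum_type]
  rcases a with i | γ <;> rcases b with j | β
  · simp [nmat, F]
  · simp [nmat, F]
  · simp [nmat, F]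
  · simp only [nmat, F, Matrix.map_apply, Root.neg_val, mul_zero, Int.cast_zero,
      Finset.sum_const_zero, zero_add, neg_neg]
    rw [Finset.sum_eq_single α, Finset.sum_eq_single α]
    · rw [refl_self, L5_cs_self, α.2]
      by_cases hβ : β.1 = -α.1
      · have hr := C.L5_refl_of_neg α β hβ
        rw [hr, if_pos rfl, C.L5_cs_of_neg α β hβ, C.L5_ip_of_neg α β hβ]
        by_cases hγ : γ = -α
        · have hγ' : γ.1 = -α.1 := by rw [hγ, Root.neg_val]
          rw [if_pos hγ, if_pos ⟨rfl, hβ⟩, if_pos ⟨hγ', rfl⟩, smul_eq_mul]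
          have e1 : t ^ (-(2 : ℤ)) = t⁻¹ ^ 2 := by
              rw [_root_.zpow_neg, inv_pow, ← zpow_natCast t 2]; norm_num
          have e2 : t ^ (-(-2 : ℤ)) = t ^ 2 := by norm_num
          rw [e1, e2]
          push_cast
          field_simp
        · have hγ' : γ.1 ≠ -α.1 := fun h => hγ (Root.ext (by rw [Root.neg_val]; exact h))
          rw [if_neg hγ, if_neg (c := γ.1 = -α.1 ∧ _) (fun h => hγ' h.1)]
          simp
      · have hr : ¬ α = C.refl α β := fun h => hβ ((C.L5_refl_iff α β).1 h.symm)
        rw [if_neg hr, if_neg (c := _ ∧ β.1 = -α.1) (fun h => hβ h.2)]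
        simp
    · intro δ _ hδ
      rw [if_neg (c := γ.1 = -α.1 ∧ δ.1 = α.1) (fun h => hδ (Root.ext h.2)), Int.cast_zero,
        zero_mul]
    · intro h
      exact absurd (Finset.mem_univ _) h
    · intro δ _ hδ
      rw [if_neg (c := δ.1 = α.1 ∧ β.1 = -α.1) (fun h => hδ (Root.ext h.1)), Int.cast_zero,
        mul_zero]
    · intro h
      exact absurd (Finset.mem_univ _) h

theorem L5_X (K : Type*) [Field K] (α : C.Root) (t u : K) (ht : t ≠ 0) :
    C.nmat K α t * C.X K α u = C.X K (-α) (t⁻¹ ^ 2 * u) * C.nmat K α t := by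
  unfold X
  rw [mul_add, mul_add, mul_one, add_mul, add_mul, one_mul, mul_smul_comm, mul_smul_comm,
    smul_mul_assoc, smul_mul_assoc, C.L5_E K α t ht, C.L5_F K α t ht, smul_smul, smul_smul]
  have e1 : t⁻¹ ^ 2 * u = u * t⁻¹ ^ 2 := mul_comm _ _
  have e2 : (t⁻¹ ^ 2 * u) ^ 2 = u ^ 2 * (t⁻¹ ^ 2) ^ 2 := by ring
  rw [e2, e1]

theorem n_conj_xg (K : Type*) [Field K] (α : C.Root) (t u : K) (ht : t ≠ 0) :
    nn (C.xg K) α t * C.xg K α u * (nn (C.xg K) α t)⁻¹ = C.xg K (-α) (t⁻¹ ^ 2 * u) := by
  have hN := C.nn_xg K α t ht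
  rw [mul_inv_eq_iff_eq_mul]
  apply Units.ext
  rw [Units.val_mul, Units.val_mul, hN]
  exact C.L5_X K α t u ht

end SLC

end Pool.Agent.H75.UL
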