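import Pool.Agent.H75.UL.L3
import Pool.Agent.H75.UL.L5

/-!
# Project UL (MP_978914_al), module Ad

The Steinberg system of the adjoint group (assembly).
-/

set_option autoImplicit false
open Matrix
universe u
namespace Pool.Agent.H75.UL

namespace SLC
variable {n : ℕ} (C : SLC n)

theorem xg_map_add (K : Type*) [Field K] (β : C.Root) (s t : K) :
    C.xg K β (s + t) = C.xg K β s * C.xg K β t := Units.ext (C.X_add K β s t)

theorem xg_comm (K : Type*) [Field K] (α β : C.Root) (s t : K) (h : 0 ≤ C.ip α.1 β.1) :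
    C.xg K α s * C.xg K β t = C.xg K β t * C.xg K α s := Units.ext (C.X_comm K α β s t h)

theorem xg_comm_add (K : Type*) [Field K] (α β γ : C.Root) (s t : K) (h : γ.1 = α.1 + β.1) :
    C.xg K α s * C.xg K β t * (C.xg K α s)⁻¹ * (C.xg K β t)⁻¹ =
      C.xg K γ (C.eps α.1 β.1 * s * t) := by
  rw [mul_inv_eq_iff_eq_mul, mul_inv_eq_iff_eq_mul, mul_assoc]
  exact Units.ext (C.X_comm_add K α β γ s t h)

theorem xg_h_mul (K : Type*) [Field K] (α : C.Root) (s t : K) (hs : s ≠ 0) (ht : t ≠ 0) :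
    hh (C.xg K) α s * hh (C.xg K) α t = hh (C.xg K) α (s * t) := by
  apply Units.ext
  rw [Units.val_mul, hh_xg _ _ _ _ hs, hh_xg _ _ _ _ ht, hh_xg _ _ _ _ (mul_ne_zero hs ht),
    diagonal_mul_diagonal]
  congr 1
  funext a
  rcases a with i | γ
  · simp
  · simp [mul_zpow]

/-- The Steinberg system of the adjoint group. -/
noncomputable def adS (K : Type*) [Field K] : StSys C K (GL C.Idx K) where
  x := C.xg K
  map_add := C.xg_map_add K
  comm := C.xg_comm K
  comm_add := C.xg_comm_add K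
  n_conj := C.n_conj_xg K
  h_mul := C.xg_h_mul K

@[simp] theorem adS_x (K : Type*) [Field K] : (C.adS K).x = C.xg K := rfl

theorem gen_adS (K : Type*) [Field K] : (C.adS K).gen = C.Gad K := by
  unfold StSys.gen Gad
  congr 1
  ext g
  constructor
  · rintro ⟨β, t, rfl⟩
    exact ⟨(β, t), rfl⟩
  · rintro ⟨⟨β, t⟩, rfl⟩
    exact ⟨β, t, rfl⟩

end SLC

end Pool.Agent.H75.UL
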