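import Pool.Agent.H75.UL.S2
import Pool.Agent.H75.UL.Ad

/-!
# Project UL (MP_978914_al), module G1

The universal group `GU C K`: tautological system and universal property.

`GU.sys`: the relations hold by `PresentedGroup` (each relator is `1`; `nn`, `hh` commute with the
quotient map). `GU.lift`: `PresentedGroup.toGroup` for the map `(β, t) ↦ S.x β t`; the five kinds of
relators are sent to `1` by the axioms of `S`. `GU.gen_eq`: the `PresentedGroup.of` generate.
`lift_range`. `GU.map f` for a homomorphism of fields: the lift of the system `f^* sys`: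
`x β t ↦ GU.x β (f t)`.
-/

set_option autoImplicit false
open Matrix
universe u
namespace Pool.Agent.H75.UL

namespace GU
variable {n : ℕ} (C : SLC n) (K : Type u) [Field K]

/-- The quotient map from the free group. -/
private def G1_q : FreeGroup (C.Root × K) →* GU C K := PresentedGroup.mk {r | Rel C K r}

private theorem G1_q_fx (β : C.Root) (t : K) : G1_q C K (fx C K β t) = GU.x C K β t := rfl

private theorem G1_q_nn (α : C.Root) (t : K) :
    G1_q C K (nn (fx C K) α t) = nn (GU.x C K) α t := by
  unfold nn
  simp only [map_mul, G1_q_fx]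

private theorem G1_q_hh (α : C.Root) (t : K) :
    G1_q C K (hh (fx C K) α t) = hh (GU.x C K) α t := by
  unfold hh
  simp only [map_mul, G1_q_nn]

private theorem G1_q_rel {r : FreeGroup (C.Root × K)} (h : Rel C K r) : G1_q C K r = 1 :=
  PresentedGroup.one_of_mem (rels := {r | Rel C K r}) h

/-- The tautological Steinberg system of the universal group. -/
def sys : StSys C K (GU C K) where
  x := GU.x C K
  map_add := by
    intro β s t
    have h := G1_q_rel C K (Rel.map_add β s t)
    rw [map_mul, map_inv, map_mul, mul_inv_eq_one] at h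
    exact h
  comm := by
    intro α β s t h0
    have h := G1_q_rel C K (Rel.comm α β s t h0)
    rw [map_mul, map_inv, map_mul, map_mul, mul_inv_eq_one] at h
    exact h
  comm_add := by
    intro α β γ s t h0
    have h := G1_q_rel C K (Rel.comm_add α β γ s t h0)
    simp only [map_mul, map_inv] at h
    rw [mul_inv_eq_one] at h
    exact h
  n_conj := by
    intro α t u h0
    have h := G1_q_rel C K (Rel.n_conj α t u h0)
    simp only [map_mul, map_inv, G1_q_nn] at h
    rw [mul_inv_eq_one] at h
    exact h
  h_mul := by
    intro α s t hs ht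
    have h := G1_q_rel C K (Rel.h_mul α s t hs ht)
    simp only [map_mul, map_inv, G1_q_hh] at h
    rw [mul_inv_eq_one] at h
    exact h

theorem gen_eq : (sys C K).gen = ⊤ := by
  rw [eq_top_iff]
  intro g _
  refine PresentedGroup.generated_by {r | Rel C K r} (sys C K).gen ?_ g
  rintro ⟨β, t⟩
  exact Subgroup.subset_closure ⟨β, t, rfl⟩

variable {C K}

private theorem G1_lift_nn {H : Type*} [Group H] (f : C.Root × K → H) (α : C.Root) (t : K) :
    FreeGroup.lift f (nn (fx C K) α t) = nn (fun β t => f (β, t)) α t := by
  unfold nn fx
  simp only [map_mul, FreeGroup.lift_apply_of]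

private theorem G1_lift_hh {H : Type*} [Group H] (f : C.Root × K → H) (α : C.Root) (t : K) :
    FreeGroup.lift f (hh (fx C K) α t) = hh (fun β t => f (β, t)) α t := by
  unfold hh
  simp only [map_mul, G1_lift_nn]

omit [Field K] in
private theorem G1_lift_fx {H : Type*} [Group H] (f : C.Root × K → H) (α : C.Root) (t : K) :
    FreeGroup.lift f (fx C K α t) = f (α, t) := FreeGroup.lift_apply_of

private theorem G1_lift_rel {H : Type*} [Group H] (S : StSys C K H) :
    ∀ r ∈ {r | Rel C K r}, FreeGroup.lift (fun p : C.Root × K => S.x p.1 p.2) r = 1 := by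
  intro r hr
  have hr' : Rel C K r := hr
  cases hr' with
  | map_add β s t =>
    simp only [map_mul, map_inv, G1_lift_fx]
    rw [S.map_add, mul_inv_eq_one]
  | comm α β s t h =>
    simp only [map_mul, map_inv, G1_lift_fx]
    rw [S.comm α β s t h, mul_inv_eq_one]
  | comm_add α β γ s t h =>
    simp only [map_mul, map_inv, G1_lift_fx]
    rw [S.comm_add α β γ s t h, mul_inv_eq_one]
  | n_conj α t u h =>
    simp only [map_mul, map_inv, G1_lift_fx, G1_lift_nn]
    rw [mul_inv_eq_one]
    exact S.n_conj α t u h
  | h_mul α s t hs ht =>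
    simp only [map_mul, map_inv, G1_lift_hh]
    rw [mul_inv_eq_one]
    exact S.h_mul α s t hs ht

/-- The homomorphism from the universal group given by a Steinberg system. -/
def lift {H : Type*} [Group H] (S : StSys C K H) : GU C K →* H :=
  PresentedGroup.toGroup (rels := {r | Rel C K r}) (f := fun p => S.x p.1 p.2) (by
    exact G1_lift_rel S)

theorem lift_x {H : Type*} [Group H] (S : StSys C K H) (β : C.Root) (t : K) :
    lift S (GU.x C K β t) = S.x β t := by
  unfold lift GU.x
  exact PresentedGroup.toGroup.of _

theorem hom_ext {H : Type*} [Group H] (f g : GU C K →* H)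
    (h : ∀ β t, f (GU.x C K β t) = g (GU.x C K β t)) : f = g := by
  apply MonoidHom.eq_of_eqOn_top
  rw [← gen_eq C K]
  unfold StSys.gen
  have h1 : Set.EqOn f g (Subgroup.closure {g | ∃ (β : C.Root) (t : K), g = (sys C K).x β t}) := by
    apply MonoidHom.eqOn_closure
    rintro a ⟨β, t, rfl⟩
    exact h β t
  exact h1

theorem lift_range {H : Type*} [Group H] (S : StSys C K H) : (lift S).range = S.gen := by
  rw [MonoidHom.range_eq_map, ← gen_eq C K]
  unfold StSys.gen
  rw [MonoidHom.map_closure]
  congr 1
  ext a
  constructor
  · rintro ⟨b, ⟨β, t, rfl⟩, rfl⟩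
    exact ⟨β, t, lift_x S β t⟩
  · rintro ⟨β, t, rfl⟩
    exact ⟨GU.x C K β t, ⟨β, t, rfl⟩, lift_x S β t⟩

private theorem G1_map_nn {K' : Type u} [Field K'] (f : K →+* K') (α : C.Root) (t : K) :
    nn (fun (β : C.Root) (t : K) => GU.x C K' β (f t)) α t = nn (GU.x C K') α (f t) := by
  unfold nn
  simp only [map_inv₀]

private theorem G1_map_hh {K' : Type u} [Field K'] (f : K →+* K') (α : C.Root) (t : K) :
    hh (fun (β : C.Root) (t : K) => GU.x C K' β (f t)) α t = hh (GU.x C K') α (f t) := by
  unfold hh
  rw [G1_map_nn, G1_map_nn, map_neg, map_one]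

/-- Functoriality in the field. -/
def map {K' : Type u} [Field K'] (f : K →+* K') : GU C K →* GU C K' :=
  lift { x := fun β t => GU.x C K' β (f t)
         map_add := by
          intro β s t
          rw [_root_.map_add f]
          exact (sys C K').map_add β _ _
         comm := by
          intro α β s t h
          exact (sys C K').comm α β _ _ h
         comm_add := by
          intro α β γ s t h
          rw [_root_.map_mul f, _root_.map_mul f, map_intCast]
          exact (sys C K').comm_add α β γ _ _ h
         n_conj := by
          intro α t u h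
          rw [G1_map_nn, _root_.map_mul f, map_pow, map_inv₀]
          exact (sys C K').n_conj α _ _ ((map_ne_zero f).2 h)
         h_mul := by
          intro α s t hs ht
          rw [G1_map_hh, G1_map_hh, G1_map_hh, _root_.map_mul f]
          exact (sys C K').h_mul α _ _ ((map_ne_zero f).2 hs) ((map_ne_zero f).2 ht) }

theorem map_x {K' : Type u} [Field K'] (f : K →+* K') (β : C.Root) (t : K) :
    map f (GU.x C K β t) = GU.x C K' β (f t) := lift_x _ β t

end GU

end Pool.Agent.H75.UL
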