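import Pool.Agent.H75.UL.S6

/-!
# Project UL (MP_978914_al), module S7

Finite fields give finite groups.

`U 1` is finite: by `exists_lp` it is the image of the finite set of functions `C.Root → K`. `T` is
finite: it is commutative (`T_comm`), generated by the finite set of the `hh α t`, and each has finite
order (`hh α t ^ k = hh α (t ^ k)` for `k ≥ 1`, and `hh α 1 = 1` since `nn α 1 * nn α (-1) = 1`).
`N` is finite: every `ν ∈ N` is `nword l * τ`; if `wd l = wd l'` then `nword l⁻¹ * nword l' ∈ T`: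
`nword l'⁻¹ ∈ nword (reverse l') * T`, `wd (reverse l' ++ l) = 1`, `nword_mem_T`; so `N` is covered by
the sets `nword (l_w) * T`, one for each `w ∈ C.W` (finite: `Equiv.Perm C.Root` is finite). Then
`bruhat` shows that `gen` is finite.
-/

set_option autoImplicit false
open Matrix
universe u
namespace Pool.Agent.H75.UL

namespace StSys
variable {n : ℕ} {C : SLC n} {K : Type*} [Field K] {H : Type*} [Group H] (S : StSys C K H)

theorem finite_U [Finite K] : Finite (S.U 1) := by
  have h : (S.U 1 : Set H) ⊆ Set.range (fun t : C.Root → K => S.lp C.posList t) := by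
    intro u hu
    obtain ⟨t, -, ht⟩ := S.exists_lp 1 le_rfl u hu
    exact ⟨t, ht.symm⟩
  exact ((Set.finite_range _).subset h).to_subtype

private theorem S7_hh_one (α : C.Root) : hh S.x α 1 = 1 := by
  unfold hh
  rw [← S.nn_inv, mul_inv_cancel]

private theorem S7_hh_pow (α : C.Root) (t : K) (ht : t ≠ 0) (k : ℕ) :
    hh S.x α t ^ k = hh S.x α (t ^ k) := by
  induction k with
  | zero => rw [pow_zero, pow_zero, S.S7_hh_one]
  | succ k ih => rw [pow_succ, pow_succ, ih, S.h_mul α _ _ (pow_ne_zero k ht) ht]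

private theorem S7_hh_order [Finite K] (α : C.Root) (t : K) (ht : t ≠ 0) :
    IsOfFinOrder (hh S.x α t) := by
  obtain ⟨k, hk, hk'⟩ := (isOfFinOrder_iff_pow_eq_one.1 (isOfFinOrder_of_finite (Units.mk0 t ht)))
  refine isOfFinOrder_iff_pow_eq_one.2 ⟨k, hk, ?_⟩
  have h : t ^ k = 1 := by
    have := congrArg Units.val hk'
    simpa using this
  rw [S.S7_hh_pow α t ht, h, S.S7_hh_one]

private theorem S7_T_order [Finite K] (g : H) (hg : g ∈ S.T) : IsOfFinOrder g := by
  unfold T at hg
  induction hg using Subgroup.closure_induction with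
  | mem x hx =>
    obtain ⟨α, t, ht, rfl⟩ := hx
    exact S.S7_hh_order α t ht
  | one => exact IsOfFinOrder.one
  | mul x y hx hy h1 h2 => exact Commute.isOfFinOrder_mul (S.T_comm x y hx hy) h1 h2
  | inv x hx h => exact h.inv

theorem finite_T [Finite K] : Finite S.T := by
  let inst : CommGroup S.T :=
    { (inferInstance : Group S.T) with
      mul_comm := fun a b => Subtype.ext (S.T_comm a.1 b.1 a.2 b.2) }
  have hfg : Group.FG S.T := by
    rw [Group.fg_iff_subgroup_fg, Subgroup.fg_iff]
    refine ⟨_, rfl, ?_⟩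
    refine (Set.finite_range (fun p : C.Root × K => hh S.x p.1 p.2)).subset ?_
    rintro g ⟨α, t, -, rfl⟩
    exact ⟨(α, t), rfl⟩
  have htor : IsMulTorsion S.T := fun g => by
    obtain ⟨k, hk, h⟩ := isOfFinOrder_iff_pow_eq_one.1 (S.S7_T_order g.1 g.2)
    exact isOfFinOrder_iff_pow_eq_one.2 ⟨k, hk, Subtype.ext h⟩
  exact CommGroup.finite_of_fg_isMulTorsion S.T htor

private theorem S7_nword_append (l l' : List (Fin n)) :
    S.nword (l ++ l') = S.nword l * S.nword l' := by
  unfold nword
  rw [List.map_append, List.prod_append]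

private theorem S7_nword_inv (l : List (Fin n)) :
    ∃ τ ∈ S.T, (S.nword l)⁻¹ = S.nword l.reverse * τ := by
  induction l with
  | nil => exact ⟨1, S.T.one_mem, by simp [nword]⟩
  | cons i l ih =>
    obtain ⟨τ, hτ, h⟩ := ih
    set g := nn S.x (C.simple i) 1 with hg
    have hgN : g ∈ S.N := Subgroup.subset_closure ⟨C.simple i, 1, one_ne_zero, rfl⟩
    have h1 : g⁻¹ * g⁻¹ ∈ S.T := by
      have h2 : g⁻¹ * g⁻¹ = hh S.x (C.simple i) (-1) := by
        rw [hg, S.nn_inv]
        rfl
      rw [h2]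
      exact Subgroup.subset_closure ⟨C.simple i, -1, by simp, rfl⟩
    have h3 : g⁻¹ * τ * g ∈ S.T := by
      have := S.N_conj_T g⁻¹ τ (S.N.inv_mem hgN) hτ
      rwa [inv_inv] at this
    refine ⟨(g⁻¹ * τ * g) * (g⁻¹ * g⁻¹), S.T.mul_mem h3 h1, ?_⟩
    have h4 : S.nword (i :: l) = g * S.nword l := by simp [nword, hg]
    have h5 : S.nword (i :: l).reverse = S.nword l.reverse * g := by
      rw [List.reverse_cons, S7_nword_append]
      simp [nword, hg]
    rw [h4, h5, _root_.mul_inv_rev, h]
    group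

private theorem S7_wd_reverse (l : List (Fin n)) : C.wd l.reverse = (C.wd l)⁻¹ := by
  unfold SLC.wd
  rw [List.prod_inv_reverse, List.map_map, List.map_reverse]
  have h : (l.map fun i => C.reflE (C.simple i)) =
      l.map ((fun x => x⁻¹) ∘ fun i => C.reflE (C.simple i)) := by
    apply List.map_congr_left
    intro i _
    exact eq_inv_of_mul_eq_one_left (C.reflE_mul_self (C.simple i))
  rw [h]

private theorem S7_wd_append (l l' : List (Fin n)) : C.wd (l ++ l') = C.wd l * C.wd l' := by
  unfold SLC.wd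
  rw [List.map_append, List.prod_append]

private theorem S7_same (l l' : List (Fin n)) (h : C.wd l = C.wd l') :
    (S.nword l')⁻¹ * S.nword l ∈ S.T := by
  obtain ⟨τ, hτ, h1⟩ := S.S7_nword_inv l'
  have h2 : S.nword (l'.reverse ++ l) ∈ S.T := by
    apply S.nword_mem_T
    rw [S7_wd_append, S7_wd_reverse, h, inv_mul_cancel]
  have h3 : (S.nword l)⁻¹ * τ * S.nword l ∈ S.T := by
    have := S.N_conj_T (S.nword l)⁻¹ τ (S.N.inv_mem (S.nword_mem l)) hτ
    rwa [inv_inv] at this
  have h4 : (S.nword l')⁻¹ * S.nword l =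
      S.nword (l'.reverse ++ l) * ((S.nword l)⁻¹ * τ * S.nword l) := by
    rw [S7_nword_append, h1]
    group
  rw [h4]
  exact S.T.mul_mem h2 h3

theorem finite_N [Finite K] : Finite S.N := by
  classical
  have hT := S.finite_T
  have hT' : (S.T : Set H).Finite := Set.toFinite _
  have hch : ∀ w : Equiv.Perm C.Root, ∃ l : List (Fin n), (∃ l', C.wd l' = w) → C.wd l = w := by
    intro w
    by_cases h : ∃ l', C.wd l' = w
    · obtain ⟨l', hl'⟩ := h
      exact ⟨l', fun _ => hl'⟩
    · exact ⟨[], fun h' => absurd h' h⟩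
  choose f hf using hch
  have h : (S.N : Set H) ⊆
      ⋃ w : Equiv.Perm C.Root, (fun τ => S.nword (f w) * τ) '' (S.T : Set H) := by
    intro ν hν
    obtain ⟨l, τ, hτ, h1⟩ := S.N_word ν hν
    rw [Set.mem_iUnion]
    refine ⟨C.wd l, (S.nword (f (C.wd l)))⁻¹ * S.nword l * τ, ?_, ?_⟩
    · exact S.T.mul_mem (S.S7_same l _ (hf _ ⟨l, rfl⟩).symm) hτ
    · show S.nword (f (C.wd l)) * ((S.nword (f (C.wd l)))⁻¹ * S.nword l * τ) = ν
      rw [h1]
      group
  exact ((Set.finite_iUnion fun w => hT'.image _).subset h).to_subtype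

theorem finite_gen [Finite K] : Finite S.gen := by
  have hU := S.finite_U
  have hN := S.finite_N
  have hU' : (S.U 1 : Set H).Finite := Set.toFinite _
  have hN' : (S.N : Set H).Finite := Set.toFinite _
  have h : (S.gen : Set H) ⊆ (fun p : H × H × H => p.1 * p.2.1 * p.2.2) ''
      ((S.U 1 : Set H) ×ˢ ((S.N : Set H) ×ˢ (S.U 1 : Set H))) := by
    intro g hg
    obtain ⟨u, hu, ν, hν, v, hv, h1⟩ := S.bruhat g hg
    exact ⟨(u, ν, v), ⟨hu, hν, hv⟩, h1.symm⟩
  exact (((hU'.prod (hN'.prod hU')).image _).subset h).to_subtype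

end StSys

end Pool.Agent.H75.UL
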