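import Pool.Agent.H75.UL.R4a

/-!
# Project UL (MP_978914_al), module R5

Coweights and coefficients.

`exists_coweight`: `v = ∑ j, b j • y j` with `y` from `exists_dual` (`ip (single i) (y j) =
det * (single i) j`). `exists_adjacent`: `C.conn` with `S = {i}` (`S ≠ univ` as `n ≥ 2`), and `C.off`.
`exists_coeff_ne_zero`: in characteristic `0` because `β ≠ 0`. In characteristic `p`, if all `β_i`
are divisible by `p` then `β = p • v`, `2 = ip β β = p^2 * ip v v`, impossible (`p^2 ≥ 4`,
`ip v v ≥ 1`).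
`exists_sum`: for `n ≥ 2` every root is a sum of two roots: by `exists_W_simple` (import R4a) it is
enough to do `α_i`: with `j` adjacent to `i`, `α_i = (α_i + α_j) + (-α_j)`.
-/

set_option autoImplicit false
open Matrix
universe u
namespace Pool.Agent.H75.UL

namespace SLC
variable {n : ℕ} (C : SLC n)

theorem exists_coweight (b : Fin n → ℤ) :
    ∃ v : Fin n → ℤ, ∀ i, C.ip (Pi.single i 1) v = C.A.det * b i := by
  choose y hy using C.exists_dual
  refine ⟨∑ j, b j • y j, fun i => ?_⟩
  have h1 : C.ip (Pi.single i 1) (∑ j, b j • y j) = ∑ j, b j * C.ip (Pi.single i 1) (y j) := by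
    simp only [← C.ip_smul_right]
    unfold ip
    rw [Matrix.mulVec_sum, dotProduct_sum]
  rw [h1]
  simp only [hy]
  rw [Finset.sum_eq_single i]
  · rw [Pi.single_eq_same]; ring
  · intro j _ hj
    rw [Pi.single_eq_of_ne hj]; ring
  · intro h
    exact absurd (Finset.mem_univ i) h

theorem exists_adjacent (hn : 2 ≤ n) (i : Fin n) : ∃ j, j ≠ i ∧ C.A i j = -1 := by
  obtain ⟨i', hi', j, hj, hA⟩ := C.conn {i} (Finset.singleton_nonempty i) (by
    intro h
    have h1 := congrArg Finset.card h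
    rw [Finset.card_singleton, Finset.card_univ, Fintype.card_fin] at h1
    omega)
  rw [Finset.mem_singleton] at hi' hj
  subst hi'
  refine ⟨j, hj, ?_⟩
  rcases C.off i' j (fun h => hj h.symm) with h | h
  · exact absurd h hA
  · exact h

theorem exists_coeff_ne_zero (β : C.Root) (F : Type*) [Field F] : ∃ i, (β.1 i : F) ≠ 0 := by
  by_contra hcon
  push Not at hcon
  have hch : ∀ i, ((ringChar F : ℕ) : ℤ) ∣ β.1 i := fun i =>
    (CharP.intCast_eq_zero_iff F (ringChar F) (β.1 i)).1 (hcon i)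
  choose v hv using hch
  have h1 : β.1 = ((ringChar F : ℕ) : ℤ) • v := by
    funext i
    rw [Pi.smul_apply, smul_eq_mul]
    exact hv i
  have h2 := β.2
  rw [h1, C.ip_smul_left, C.ip_smul_right] at h2
  have h3 : ringChar F ≠ 1 := CharP.ringChar_ne_one
  have h4 := C.ip_nonneg v
  rcases Nat.lt_or_ge (ringChar F) 2 with h5 | h5
  · have h6 : ringChar F = 0 := by omega
    rw [h6] at h2
    simp at h2
  · have h7 : (2 : ℤ) ≤ ((ringChar F : ℕ) : ℤ) := by exact_mod_cast h5
    rcases h4.lt_or_eq with h8 | h8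
    · have h9 : (1 : ℤ) ≤ C.ip v v := h8
      have h10 : 2 * 2 ≤ ((ringChar F : ℕ) : ℤ) * ((ringChar F : ℕ) : ℤ) :=
        mul_le_mul h7 h7 (by norm_num) (by linarith)
      nlinarith
    · rw [← h8] at h2
      simp at h2

theorem exists_sum (hn : 2 ≤ n) (β : C.Root) : ∃ γ δ : C.Root, β.1 = γ.1 + δ.1 := by
  obtain ⟨w, hw, i, hwi⟩ := C.exists_W_simple β
  obtain ⟨j, _, hA⟩ := C.exists_adjacent hn i
  obtain ⟨γ, hγ⟩ := C.exists_add (C.simple i) (C.simple j) (by
    rw [simple_val, simple_val, C.ip_single]; exact hA)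
  have h1 : (C.simple i).1 = γ.1 + (-(C.simple j)).1 := by
    rw [hγ, Root.neg_val]; abel
  have h2 := C.W_add w hw γ (-(C.simple j)) (C.simple i) h1
  rw [hwi] at h2
  exact ⟨_, _, h2⟩

end SLC

end Pool.Agent.H75.UL
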