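import Pool.Agent.H75.UL.Base

/-!
# Project UL (MP_978914_al), module R2

Positivity of roots.

`pos_or_neg`: write `v = p - q` with `p i = max (v i) 0`, `q i = max (-v i) 0`. `ip p q ≤ 0` (the
diagonal terms `p i * 2 * q i` vanish, the others are `≤ 0` by `C.off`). If `p ≠ 0` and `q ≠ 0` then
`ip p p ≥ 2` and `ip q q ≥ 2` (positive and even: `ip w w = 2 * hf w w` by `hf_add_hf`), so
`2 = ip v v = ip p p + ip q q - 2 ip p q ≥ 4`, contradiction.
`exists_descent`: `0 < 2 = ip β β = ∑ i, β_i * ip α_i β` (`sum_ip_single`) with all `β_i ≥ 0`, so some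
`i` has `β_i > 0` and `ip α_i β > 0`; it is not `2` (`ip_eq_two_iff`), so it is `1` and
`γ = β - α_i` is a root (`exists_sub`). Some `β_j > 0` with `j ≠ i` (otherwise `β = β_i • α_i`, norm
`2 β_i^2 = 2`, so `β = α_i`), hence `γ_j > 0` and `γ` is positive by `pos_or_neg`.
`refl_simple_pos`: the reflection in `α_i` changes only the `i`-th coordinate; some `β_j > 0`, `j ≠ i`.
-/

set_option autoImplicit false
open Matrix
universe u
namespace Pool.Agent.H75.UL

namespace SLC
variable {n : ℕ} (C : SLC n)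

private theorem R2_two_le (w : Fin n → ℤ) (h : w ≠ 0) : 2 ≤ C.ip w w := by
  have h1 := C.ip_pos w h
  have h2 := C.hf_add_hf w w
  omega

private theorem R2_ip_sum (v w : Fin n → ℤ) : C.ip v w = ∑ i, ∑ j, v i * (C.A i j * w j) := by
  unfold ip
  simp only [dotProduct, mulVec, Finset.mul_sum]

private theorem R2_ip_nonpos (p q : Fin n → ℤ) (hp : ∀ i, 0 ≤ p i) (hq : ∀ i, 0 ≤ q i)
    (h : ∀ i, p i * q i = 0) : C.ip p q ≤ 0 := by
  rw [R2_ip_sum]
  refine Finset.sum_nonpos fun i _ => Finset.sum_nonpos fun j _ => ?_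
  by_cases hij : i = j
  · subst hij
    have h1 : p i * (C.A i i * q i) = C.A i i * (p i * q i) := by ring
    rw [h1, h i, mul_zero]
  · have h1 : 0 ≤ p i * q j := mul_nonneg (hp i) (hq j)
    rcases C.off i j hij with h2 | h2
    · rw [h2]
      simp
    · rw [h2]
      have h3 : p i * (-1 * q j) = -(p i * q j) := by ring
      rw [h3]
      omega

theorem pos_or_neg (β : C.Root) : (∀ i, 0 ≤ β.1 i) ∨ (∀ i, β.1 i ≤ 0) := by
  by_contra hcon
  rw [not_or] at hcon
  obtain ⟨h1, h2⟩ := hcon
  simp only [not_forall, not_le] at h1 h2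
  obtain ⟨i, hi⟩ := h1
  obtain ⟨j, hj⟩ := h2
  have hpq : β.1 = (fun i => max (β.1 i) 0) - (fun i => max (-β.1 i) 0) := by
    funext k
    simp only [Pi.sub_apply]
    omega
  have h3 := C.R2_ip_nonpos (fun i => max (β.1 i) 0) (fun i => max (-β.1 i) 0)
    (fun k => le_max_right _ _) (fun k => le_max_right _ _) (fun k => by
      rcases le_total (β.1 k) 0 with h | h
      · simp [max_eq_right h]
      · have h' : -β.1 k ≤ 0 := by omega
        simp [max_eq_right h'])
  have h4 := C.R2_two_le (fun i => max (β.1 i) 0) (fun h => by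
    have := congrFun h j
    simp only [Pi.zero_apply] at this
    omega)
  have h5 := C.R2_two_le (fun i => max (-β.1 i) 0) (fun h => by
    have := congrFun h i
    simp only [Pi.zero_apply] at this
    omega)
  have h6 := β.2
  rw [hpq, ip_sub_left, ip_sub_right, ip_sub_right,
    C.ip_comm (fun i => max (-β.1 i) 0) (fun i => max (β.1 i) 0)] at h6
  omega

private theorem R2_ht_pos (v : Fin n → ℤ) (h : ∀ i, 0 ≤ v i) (h0 : v ≠ 0) : 0 < ht v := by
  obtain ⟨i, hi⟩ := Function.ne_iff.mp h0
  have h1 : v i ≤ ht v := Finset.single_le_sum (f := v) (fun j _ => h j) (Finset.mem_univ i)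
  have h2 := h i
  have h3 : v i ≠ 0 := hi
  omega

theorem pos_iff (β : C.Root) : C.Pos β ↔ ∀ i, 0 ≤ β.1 i := by
  constructor
  · intro h
    rcases C.pos_or_neg β with h1 | h1
    · exact h1
    · exfalso
      have h2 : ht β.1 ≤ 0 := Finset.sum_nonpos fun i _ => h1 i
      unfold Pos at h
      omega
  · intro h
    exact R2_ht_pos β.1 h (C.root_ne_zero β)

theorem ht_ne_zero (β : C.Root) : ht β.1 ≠ 0 := by
  rcases C.pos_or_neg β with h | h
  · have := (C.pos_iff β).mpr h
    unfold Pos at this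
    omega
  · have h1 : C.Pos (-β) := (C.pos_iff (-β)).mpr fun i => by
      have := h i
      simp only [Root.neg_val, Pi.neg_apply]
      omega
    unfold Pos at h1
    rw [Root.neg_val, ht_neg] at h1
    omega

theorem not_pos_iff (β : C.Root) : ¬ C.Pos β ↔ C.Pos (-β) := by
  have h := C.ht_ne_zero β
  unfold Pos
  rw [Root.neg_val, ht_neg]
  omega

private theorem R2_eq_smul (v : Fin n → ℤ) (i : Fin n) (h : ∀ j, j ≠ i → v j = 0) :
    v = v i • (Pi.single i 1 : Fin n → ℤ) := by
  funext j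
  by_cases hj : j = i
  · subst hj
    simp
  · simp [h j hj, Pi.single_eq_of_ne hj]

private theorem R2_supp_one (β : C.Root) (i : Fin n) (h : ∀ j, j ≠ i → β.1 j = 0) :
    β = C.simple i ∨ β = -(C.simple i) := by
  have h1 := R2_eq_smul β.1 i h
  have h2 := β.2
  rw [h1, ip_smul_left, ip_smul_right, ip_single, C.diag] at h2
  have h3 : β.1 i * β.1 i = 1 := by
    have h4 : (β.1 i * β.1 i - 1) * 2 = 0 := by linear_combination h2
    rcases mul_eq_zero.mp h4 with h5 | h5
    · omega
    · omega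
  rcases mul_self_eq_one_iff.mp h3 with h4 | h4
  · left
    apply Root.ext
    rw [h1, h4, simple_val, one_smul]
  · right
    apply Root.ext
    rw [h1, h4, Root.neg_val, simple_val]
    module

theorem eq_simple_of_ht_one (β : C.Root) (h : ht β.1 = 1) : ∃ i, β = C.simple i := by
  have hp : C.Pos β := by
    unfold Pos
    omega
  have h0 := (C.pos_iff β).mp hp
  obtain ⟨i, hi⟩ := Function.ne_iff.mp (C.root_ne_zero β)
  have hi' : β.1 i ≠ 0 := hi
  have h1 := h0 i
  have hz : ∀ j, j ≠ i → β.1 j = 0 := by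
    intro j hj
    have h2 : β.1 i + ∑ k ∈ Finset.univ.erase i, β.1 k = ht β.1 :=
      Finset.add_sum_erase Finset.univ β.1 (Finset.mem_univ i)
    have h3 : β.1 j ≤ ∑ k ∈ Finset.univ.erase i, β.1 k :=
      Finset.single_le_sum (f := β.1) (fun k _ => h0 k)
        (Finset.mem_erase.mpr ⟨hj, Finset.mem_univ j⟩)
    have h4 := h0 j
    omega
  refine ⟨i, ?_⟩
  rcases C.R2_supp_one β i hz with h2 | h2
  · exact h2
  · exfalso
    rw [h2, Root.neg_val, ht_neg, ht_simple] at h
    omega

/-- A root supported at one place is `±` a simple root. -/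
theorem exists_other (β : C.Root) (i : Fin n) (h1 : β ≠ C.simple i) (h2 : β ≠ -(C.simple i)) :
    ∃ j, j ≠ i ∧ β.1 j ≠ 0 := by
  by_contra hcon
  have hz : ∀ j, j ≠ i → β.1 j = 0 := by
    intro j hj
    by_contra h3
    exact hcon ⟨j, hj, h3⟩
  rcases C.R2_supp_one β i hz with h | h
  · exact h1 h
  · exact h2 h

theorem exists_descent (β : C.Root) (hβ : C.Pos β) (h : ∀ i, β ≠ C.simple i) :
    ∃ (i : Fin n) (γ : C.Root), C.Pos γ ∧ β.1 = (C.simple i).1 + γ.1 := by
  have h0 := (C.pos_iff β).mp hβ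
  have h1 : ∃ i, 0 < β.1 i * C.ip (Pi.single i 1) β.1 := by
    by_contra hcon
    simp only [not_exists, not_lt] at hcon
    have h2 := C.sum_ip_single β.1 β.1
    have h3 : ∑ i, β.1 i * C.ip (Pi.single i 1) β.1 ≤ 0 := Finset.sum_nonpos fun i _ => hcon i
    rw [h2, β.2] at h3
    omega
  obtain ⟨i, hi⟩ := h1
  have h2 : 0 < C.ip (C.simple i).1 β.1 := by
    rw [simple_val]
    by_contra hcon
    rw [not_lt] at hcon
    have := mul_nonpos_of_nonneg_of_nonpos (h0 i) hcon
    omega
  have h3 : C.ip (C.simple i).1 β.1 ≠ 2 := fun h3 => h i ((C.ip_eq_two_iff _ _).mp h3).symm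
  have h4 : C.ip (C.simple i).1 β.1 = 1 := by
    have := C.ip_cases (C.simple i) β
    omega
  obtain ⟨γ, hγ⟩ := C.exists_sub (C.simple i) β h4
  have hne : β ≠ -(C.simple i) := by
    intro h5
    have h6 := hβ
    unfold Pos at h6
    rw [h5, Root.neg_val, ht_neg, ht_simple] at h6
    omega
  obtain ⟨j, hj, hj0⟩ := C.exists_other β i (h i) hne
  refine ⟨i, γ, ?_, ?_⟩
  · rw [pos_iff]
    rcases C.pos_or_neg γ with h5 | h5
    · exact h5
    · exfalso
      have h6 := h5 j
      rw [hγ] at h6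
      simp only [Pi.sub_apply, simple_val, Pi.single_eq_of_ne hj] at h6
      have h7 := h0 j
      omega
  · rw [hγ]
    abel

theorem refl_simple_pos (i : Fin n) (β : C.Root) (hβ : C.Pos β) (h : β ≠ C.simple i) :
    C.Pos (C.refl (C.simple i) β) := by
  have h0 := (C.pos_iff β).mp hβ
  have hne : β ≠ -(C.simple i) := by
    intro h5
    have h6 := hβ
    unfold Pos at h6
    rw [h5, Root.neg_val, ht_neg, ht_simple] at h6
    omega
  obtain ⟨j, hj, hj0⟩ := C.exists_other β i h hne
  rw [pos_iff]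
  rcases C.pos_or_neg (C.refl (C.simple i) β) with h5 | h5
  · exact h5
  · exfalso
    have h6 := h5 j
    rw [refl_val] at h6
    simp only [Pi.sub_apply, Pi.smul_apply, simple_val, Pi.single_eq_of_ne hj, smul_zero,
      sub_zero] at h6
    have h7 := h0 j
    omega

theorem refl_simple_ne (i : Fin n) (β : C.Root) (hβ : C.Pos β) :
    C.refl (C.simple i) β ≠ C.simple i := by
  intro h
  have h1 := C.refl_refl (C.simple i) β
  rw [h, refl_self] at h1
  have h6 := hβ
  unfold Pos at h6
  rw [← h1, Root.neg_val, ht_neg, ht_simple] at h6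
  omega

end SLC

end Pool.Agent.H75.UL
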