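import Pool.Agent.H75.UL.S1
import Pool.Agent.H75.UL.R2

/-!
# Project UL (MP_978914_al), module S3

The structure of `U m` (`m ≥ 1`): normality and ordered products.

`U_conj`: for `ht γ ≥ 1`, `ht β ≥ m ≥ 1` one has `β ≠ -γ`, and `x_γ(s) x_β(t) x_γ(s)⁻¹` is `x_β(t)`
(`comm`) or `x_{γ+β}(..) x_β(t)` (`comm_add`, `ht (γ+β) ≥ m`); closure induction on `u`, then on `g`
(`x_γ(s)⁻¹ = x_γ(-s)`).
`mem_posList`, `posList_sorted`, `posList_nodup`: from `List.mem_insertionSort` etc.
`exists_lp`: let `N` bound all heights. Downward induction on `m`, from `m > N` (`U m = ⊥`, `t = 0`).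
Step: suppose it holds for `m + 1`. Let `L` be the list of positive roots of height `m`
(`posList.filter`). Claim: every `g ∈ U m` is `lp L t * u'`, `u' ∈ U (m + 1)`. Closure induction,
left multiplication by a generator `x_β(s)` (or its inverse): if `ht β ≥ m + 1`, move it to the right
of `lp L t` with `U_conj`. If `ht β = m`: `x_β(s) x_γ(r) = x_γ(r) x_β(s)` up to an element of
`U (2m) ≤ U (m+1)` (`ht γ = m`), which is moved to the right (`U_conj`), until `x_β(s)` meets
`x_β(t_β)` and is absorbed (`map_add`). Finally, as `posList` is sorted, for `t` supported in heights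
`≥ m`: `lp posList t = lp L t * lp posList t'` with `t'` the restriction to heights `≥ m + 1`
(`lp_split`: the factors with `t β = 0` are `1`).
`lp_split` in general: for `t = t₁ + t₂` with `t₁` supported in heights `≤ m` and `t₂` in heights
`> m`, `lp posList t = lp posList t₁ * lp posList t₂`.
-/

set_option autoImplicit false
open Matrix
universe u
namespace Pool.Agent.H75.UL

namespace StSys
variable {n : ℕ} {C : SLC n} {K : Type*} [Field K] {H : Type*} [Group H] (S : StSys C K H)

theorem _root_.Pool.Agent.H75.UL.SLC.mem_posList {n : ℕ} (C : SLC n) (β : C.Root) :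
    β ∈ C.posList ↔ C.Pos β := by
  unfold SLC.posList
  rw [List.mem_insertionSort, Finset.mem_toList, Finset.mem_filter]
  simp

theorem _root_.Pool.Agent.H75.UL.SLC.posList_nodup {n : ℕ} (C : SLC n) : C.posList.Nodup := by
  unfold SLC.posList
  rw [(List.perm_insertionSort _ _).nodup_iff]
  exact Finset.nodup_toList _

theorem _root_.Pool.Agent.H75.UL.SLC.posList_sorted {n : ℕ} (C : SLC n) :
    C.posList.Pairwise (fun a b => ht a.1 ≤ ht b.1) := by
  unfold SLC.posList
  have : Std.Total (fun a b : C.Root => ht a.1 ≤ ht b.1) := ⟨fun a b => le_total _ _⟩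
  have : IsTrans C.Root (fun a b : C.Root => ht a.1 ≤ ht b.1) := ⟨fun a b c h1 h2 => h1.trans h2⟩
  exact List.pairwise_insertionSort _ _

private theorem s3_mem (m : ℤ) (β : C.Root) (t : K) (h : m ≤ ht β.1) : S.x β t ∈ S.U m :=
  Subgroup.subset_closure ⟨β, t, h, rfl⟩

private theorem s3_mono {m k : ℤ} (h : m ≤ k) : S.U k ≤ S.U m := by
  unfold U
  apply Subgroup.closure_mono
  rintro g ⟨β, t, hβ, rfl⟩
  exact ⟨β, t, h.trans hβ, rfl⟩

/-- conjugation by one root element -/
private theorem s3_conj_gen (m : ℤ) (hm : 1 ≤ m) (γ : C.Root) (s : K) (hγ : 1 ≤ ht γ.1) (u : H)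
    (hu : u ∈ S.U m) : S.x γ s * u * (S.x γ s)⁻¹ ∈ S.U m := by
  unfold U at hu
  induction hu using Subgroup.closure_induction with
  | mem u hu =>
    obtain ⟨β, t, hβ, rfl⟩ := hu
    rcases C.ip_cases γ β with h | h | h
    · exfalso
      rw [C.ip_eq_neg_two_iff] at h
      rw [h, SLC.Root.neg_val, ht_neg] at hβ
      omega
    · obtain ⟨δ, hδ⟩ := C.exists_add γ β h
      have h1 := S.comm_add γ β δ s t hδ
      have h2 : S.x γ s * S.x β t * (S.x γ s)⁻¹
          = S.x δ (C.eps γ.1 β.1 * s * t) * S.x β t := by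
        rw [← h1]
        group
      rw [h2]
      refine mul_mem (S.s3_mem m δ _ ?_) (S.s3_mem m β t hβ)
      rw [hδ, ht_add]
      omega
    · have h0 : 0 ≤ C.ip γ.1 β.1 := by omega
      rw [S.comm γ β s t h0, mul_inv_cancel_right]
      exact S.s3_mem m β t hβ
  | one => simpa using one_mem _
  | mul a b _ _ ha hb =>
    have : S.x γ s * (a * b) * (S.x γ s)⁻¹
        = (S.x γ s * a * (S.x γ s)⁻¹) * (S.x γ s * b * (S.x γ s)⁻¹) := by group
    rw [this]
    exact mul_mem ha hb
  | inv a _ ha =>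
    have : S.x γ s * a⁻¹ * (S.x γ s)⁻¹ = (S.x γ s * a * (S.x γ s)⁻¹)⁻¹ := by group
    rw [this]
    exact inv_mem ha

theorem U_conj (m : ℤ) (hm : 1 ≤ m) (g u : H) (hg : g ∈ S.U 1) (hu : u ∈ S.U m) :
    g * u * g⁻¹ ∈ S.U m := by
  have key : ∀ g ∈ S.U 1, (∀ u ∈ S.U m, g * u * g⁻¹ ∈ S.U m) ∧
      (∀ u ∈ S.U m, g⁻¹ * u * g⁻¹⁻¹ ∈ S.U m) := by
    intro g hg
    unfold U at hg
    induction hg using Subgroup.closure_induction with
    | mem g hg =>
      obtain ⟨γ, s, hγ, rfl⟩ := hg
      refine ⟨fun u hu => S.s3_conj_gen m hm γ s hγ u hu, fun u hu => ?_⟩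
      rw [← S.x_neg]
      exact S.s3_conj_gen m hm γ (-s) hγ u hu
    | one => exact ⟨fun u hu => by simpa using hu, fun u hu => by simpa using hu⟩
    | mul a b _ _ ha hb =>
      refine ⟨fun u hu => ?_, fun u hu => ?_⟩
      · have : a * b * u * (a * b)⁻¹ = a * (b * u * b⁻¹) * a⁻¹ := by group
        rw [this]
        exact ha.1 _ (hb.1 u hu)
      · have : (a * b)⁻¹ * u * (a * b)⁻¹⁻¹ = b⁻¹ * (a⁻¹ * u * a⁻¹⁻¹) * b⁻¹⁻¹ := by group
        rw [this]
        exact hb.2 _ (ha.2 u hu)
    | inv a _ ha =>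
      refine ⟨ha.2, fun u hu => ?_⟩
      rw [inv_inv]
      exact ha.1 u hu
  exact (key g hg).1 u hu

/-- For large `m` the group `U m` is trivial. -/
theorem exists_U_eq_bot : ∃ m : ℤ, 1 ≤ m ∧ (∀ β : C.Root, ht β.1 < m) ∧ S.U m = ⊥ := by
  refine ⟨1 + ∑ β : C.Root, |ht β.1|, ?_, ?_, ?_⟩
  · have : 0 ≤ ∑ β : C.Root, |ht β.1| := Finset.sum_nonneg fun _ _ => abs_nonneg _
    omega
  · intro β
    have h1 : |ht β.1| ≤ ∑ β : C.Root, |ht β.1| :=
      Finset.single_le_sum (f := fun β : C.Root => |ht β.1|) (fun _ _ => abs_nonneg _)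
        (Finset.mem_univ β)
    have h2 := le_abs_self (ht β.1)
    omega
  · unfold U
    rw [Subgroup.closure_eq_bot_iff]
    rintro g ⟨β, t, hβ, -⟩
    exfalso
    have h1 : |ht β.1| ≤ ∑ β : C.Root, |ht β.1| :=
      Finset.single_le_sum (f := fun β : C.Root => |ht β.1|) (fun _ _ => abs_nonneg _)
        (Finset.mem_univ β)
    have h2 := le_abs_self (ht β.1)
    omega

theorem lp_mem (m : ℤ) (t : C.Root → K) (h : ∀ β, ht β.1 < m → t β = 0) :
    S.lp C.posList t ∈ S.U m := by
  unfold lp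
  apply Subgroup.list_prod_mem
  intro g hg
  rw [List.mem_map] at hg
  obtain ⟨β, -, rfl⟩ := hg
  by_cases hβ : m ≤ ht β.1
  · exact S.s3_mem m β _ hβ
  · rw [h β (not_le.mp hβ), S.x_zero]
    exact one_mem _

theorem lp_zero (l : List C.Root) (t : C.Root → K) (h : ∀ β ∈ l, t β = 0) :
    S.lp l t = 1 := by
  unfold lp
  apply List.prod_eq_one
  intro g hg
  rw [List.mem_map] at hg
  obtain ⟨β, hβ, rfl⟩ := hg
  rw [h β hβ, S.x_zero]

theorem lp_congr (l : List C.Root) (t t' : C.Root → K) (h : ∀ β ∈ l, t β = t' β) :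
    S.lp l t = S.lp l t' := by
  unfold lp
  congr 1
  apply List.map_congr_left
  intro β hβ
  rw [h β hβ]

private theorem s3_cons (β : C.Root) (l : List C.Root) (t : C.Root → K) :
    S.lp (β :: l) t = S.x β (t β) * S.lp l t := by
  unfold lp
  rw [List.map_cons, List.prod_cons]

private theorem s3_split (m : ℤ) (t : C.Root → K) (l : List C.Root)
    (hl : l.Pairwise (fun a b => ht a.1 ≤ ht b.1)) :
    S.lp l t = S.lp l (fun β => if ht β.1 ≤ m then t β else 0) *
      S.lp l (fun β => if ht β.1 ≤ m then 0 else t β) := by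
  induction l with
  | nil => simp [lp]
  | cons β l ih =>
    rw [List.pairwise_cons] at hl
    have ih' := ih hl.2
    by_cases hβ : ht β.1 ≤ m
    · rw [s3_cons, s3_cons, s3_cons]
      simp only [if_pos hβ, S.x_zero, one_mul]
      rw [ih']
      group
    · rw [S.lp_zero (β :: l) (fun β => if ht β.1 ≤ m then t β else 0), one_mul]
      · apply S.lp_congr
        intro γ hγ
        have : ¬ ht γ.1 ≤ m := by
          rw [List.mem_cons] at hγ
          rcases hγ with rfl | hγ
          · exact hβ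
          · have := hl.1 γ hγ
            omega
        simp only [if_neg this]
      · intro γ hγ
        have : ¬ ht γ.1 ≤ m := by
          rw [List.mem_cons] at hγ
          rcases hγ with rfl | hγ
          · exact hβ
          · have := hl.1 γ hγ
            omega
        simp only [if_neg this]

theorem lp_split (m : ℤ) (t : C.Root → K) :
    S.lp C.posList t = S.lp C.posList (fun β => if ht β.1 ≤ m then t β else 0) *
      S.lp C.posList (fun β => if ht β.1 ≤ m then 0 else t β) :=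
  S.s3_split m t C.posList C.posList_sorted

private theorem s3_conj' (m : ℤ) (hm : 1 ≤ m) (g u : H) (hg : g ∈ S.U 1) (hu : u ∈ S.U m) :
    g⁻¹ * u * g ∈ S.U m := by
  have := S.U_conj m hm g⁻¹ u (inv_mem hg) hu
  rwa [inv_inv] at this

/-- commutator of a root element with an element of `U m` -/
private theorem s3_comm_gen (m : ℤ) (hm : 1 ≤ m) (β : C.Root) (s : K) (hβ : m ≤ ht β.1) (b : H)
    (hb : b ∈ S.U m) : S.x β s * b * (S.x β s)⁻¹ * b⁻¹ ∈ S.U (m + 1) := by
  unfold U at hb
  induction hb using Subgroup.closure_induction with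
  | mem b hb =>
    obtain ⟨γ, t, hγ, rfl⟩ := hb
    rcases C.ip_cases β γ with h | h | h
    · exfalso
      rw [C.ip_eq_neg_two_iff] at h
      rw [h, SLC.Root.neg_val, ht_neg] at hγ
      omega
    · obtain ⟨δ, hδ⟩ := C.exists_add β γ h
      rw [S.comm_add β γ δ s t hδ]
      refine S.s3_mem (m + 1) δ _ ?_
      rw [hδ, ht_add]
      omega
    · have h0 : 0 ≤ C.ip β.1 γ.1 := by omega
      rw [S.comm β γ s t h0, mul_inv_cancel_right, mul_inv_cancel]
      exact one_mem _
  | one => simpa using one_mem _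
  | mul b1 b2 h1 h2 ih1 ih2 =>
    have e : S.x β s * (b1 * b2) * (S.x β s)⁻¹ * (b1 * b2)⁻¹
        = (S.x β s * b1 * (S.x β s)⁻¹ * b1⁻¹) *
          (b1 * (S.x β s * b2 * (S.x β s)⁻¹ * b2⁻¹) * b1⁻¹) := by group
    rw [e]
    refine mul_mem ih1 (S.U_conj (m + 1) (by omega) b1 _ (S.s3_mono hm h1) ih2)
  | inv b1 h1 ih1 =>
    have e : S.x β s * b1⁻¹ * (S.x β s)⁻¹ * b1⁻¹⁻¹
        = b1⁻¹ * (S.x β s * b1 * (S.x β s)⁻¹ * b1⁻¹)⁻¹ * b1 := by group
    rw [e]
    exact S.s3_conj' (m + 1) (by omega) b1 _ (S.s3_mono hm h1) (inv_mem ih1)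

/-- additivity modulo `U (m + 1)` -/
private theorem s3_add (m : ℤ) (hm : 1 ≤ m) (t t' : C.Root → K) (h : ∀ β, ht β.1 ≠ m → t β = 0)
    (h' : ∀ β, ht β.1 ≠ m → t' β = 0) (l : List C.Root) :
    (S.lp l t * S.lp l t')⁻¹ * S.lp l (fun β => t β + t' β) ∈ S.U (m + 1) := by
  have hmem : ∀ (l : List C.Root) (s : C.Root → K), (∀ β, ht β.1 ≠ m → s β = 0) →
      S.lp l s ∈ S.U m := by
    intro l s hs
    unfold lp
    apply Subgroup.list_prod_mem
    intro g hg
    rw [List.mem_map] at hg
    obtain ⟨β, -, rfl⟩ := hg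
    by_cases hβ : ht β.1 = m
    · exact S.s3_mem m β _ hβ.ge
    · rw [hs β hβ, S.x_zero]
      exact one_mem _
  induction l with
  | nil => simp [lp]
  | cons β l ih =>
    rw [s3_cons, s3_cons, s3_cons]
    set A := S.lp l t with hA
    set B := S.lp l t' with hB
    set D := S.lp l (fun β => t β + t' β) with hD
    have hAm : A ∈ S.U 1 := S.s3_mono hm (hmem l t h)
    have hAm' : A ∈ S.U m := hmem l t h
    have hBm : B ∈ S.U 1 := S.s3_mono hm (hmem l t' h')
    simp only [S.map_add]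
    by_cases hβ : ht β.1 = m
    · have h1 := S.s3_comm_gen m hm β (t' β) hβ.ge A hAm'
      have e : (S.x β (t β) * A * (S.x β (t' β) * B))⁻¹ * (S.x β (t β) * S.x β (t' β) * D)
          = (B⁻¹ * ((S.x β (t' β))⁻¹ * (A⁻¹ * (S.x β (t' β) * A * (S.x β (t' β))⁻¹ * A⁻¹) * A)
              * S.x β (t' β)) * B) * ((A * B)⁻¹ * D) := by group
      rw [e]
      refine mul_mem ?_ ih
      refine S.s3_conj' (m + 1) (by omega) B _ hBm ?_
      refine S.s3_conj' (m + 1) (by omega) _ _ (S.s3_mem 1 β _ (by omega)) ?_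
      exact S.s3_conj' (m + 1) (by omega) A _ hAm h1
    · rw [h β hβ, h' β hβ, S.x_zero]
      simpa using ih

/-- Products of the same height: `lp` is additive modulo `U (m + 1)`. -/
private theorem s3_add_layer (m : ℤ) (hm : 1 ≤ m) (t t' : C.Root → K)
    (h : ∀ β, ht β.1 ≠ m → t β = 0)
    (h' : ∀ β, ht β.1 ≠ m → t' β = 0) : ∃ u' ∈ S.U (m + 1),
      S.lp C.posList (fun β => t β + t' β) = S.lp C.posList t * S.lp C.posList t' * u' :=
  ⟨_, S.s3_add m hm t t' h h' C.posList, by group⟩

private theorem s3_single (β : C.Root) (s : K) (l : List C.Root) (hl : l.Nodup) (hβ : β ∈ l) :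
    S.lp l (fun γ => if γ = β then s else 0) = S.x β s := by
  induction l with
  | nil => simp at hβ
  | cons γ l ih =>
    rw [s3_cons]
    rw [List.nodup_cons] at hl
    by_cases h : γ = β
    · subst h
      rw [S.lp_zero l, if_pos rfl, mul_one]
      intro δ hδ
      rw [if_neg]
      rintro rfl
      exact hl.1 hδ
    · rw [if_neg h, S.x_zero, one_mul]
      refine ih hl.2 ?_
      rw [List.mem_cons] at hβ
      rcases hβ with rfl | hβ
      · exact absurd rfl h
      · exact hβ

/-- One height: an element of `U m` is an ordered product at height `m` times an element of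
`U (m + 1)`. -/
theorem exists_layer (m : ℤ) (hm : 1 ≤ m) (u : H) (hu : u ∈ S.U m) :
    ∃ t : C.Root → K, (∀ β, ht β.1 ≠ m → t β = 0) ∧ ∃ u' ∈ S.U (m + 1),
      u = S.lp C.posList t * u' := by
  have step : ∀ (β : C.Root) (s : K), m ≤ ht β.1 → ∀ y : H,
      (∃ t : C.Root → K, (∀ β, ht β.1 ≠ m → t β = 0) ∧ ∃ u' ∈ S.U (m + 1),
        y = S.lp C.posList t * u') →
      (∃ t : C.Root → K, (∀ β, ht β.1 ≠ m → t β = 0) ∧ ∃ u' ∈ S.U (m + 1),
        S.x β s * y = S.lp C.posList t * u') := by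
    rintro β s hβ y ⟨t, ht0, u', hu', rfl⟩
    by_cases hβm : ht β.1 = m
    · have hpos : β ∈ C.posList := by
        rw [C.mem_posList]
        unfold SLC.Pos
        omega
      have h1 := S.s3_single β s C.posList C.posList_nodup hpos
      have h2 : ∀ γ : C.Root, ht γ.1 ≠ m → (if γ = β then s else 0) = 0 := by
        intro γ hγ
        rw [if_neg]
        rintro rfl
        exact hγ hβm
      obtain ⟨u'', hu'', h3⟩ := S.s3_add_layer m hm (fun γ => if γ = β then s else 0) t h2 ht0
      refine ⟨fun γ => (if γ = β then s else 0) + t γ, fun γ hγ => ?_, u''⁻¹ * u',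
        mul_mem (inv_mem hu'') hu', ?_⟩
      · simp only [h2 γ hγ, ht0 γ hγ, add_zero]
      · rw [h3, h1]
        group
    · refine ⟨t, ht0, ((S.lp C.posList t)⁻¹ * S.x β s * S.lp C.posList t) * u', ?_, by group⟩
      refine mul_mem ?_ hu'
      refine S.s3_conj' (m + 1) (by omega) _ _ ?_ (S.s3_mem (m + 1) β s (by omega))
      refine S.lp_mem 1 t fun γ hγ => ht0 γ ?_
      omega
  unfold U at hu
  induction hu using Subgroup.closure_induction_left with
  | one =>
    refine ⟨fun _ => 0, fun _ _ => rfl, 1, one_mem _, ?_⟩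
    rw [S.lp_zero _ _ (fun _ _ => rfl), mul_one]
  | mul_left x hx y _ ih =>
    obtain ⟨β, s, hβ, rfl⟩ := hx
    exact step β s hβ y ih
  | inv_mul_cancel x hx y _ ih =>
    obtain ⟨β, s, hβ, rfl⟩ := hx
    rw [← S.x_neg]
    exact step β (-s) hβ y ih

theorem exists_lp (m : ℤ) (hm : 1 ≤ m) (u : H) (hu : u ∈ S.U m) :
    ∃ t : C.Root → K, (∀ β, ht β.1 < m → t β = 0) ∧ u = S.lp C.posList t := by
  obtain ⟨M, hM1, hM2, hM3⟩ := S.exists_U_eq_bot
  have key : ∀ k : ℕ, ∀ m : ℤ, 1 ≤ m → M ≤ m + k → ∀ u ∈ S.U m,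
      ∃ t : C.Root → K, (∀ β, ht β.1 < m → t β = 0) ∧ u = S.lp C.posList t := by
    intro k
    induction k with
    | zero =>
      intro m hm hMm u hu
      have h1 : u ∈ S.U M := S.s3_mono (by simpa using hMm) hu
      rw [hM3, Subgroup.mem_bot] at h1
      refine ⟨fun _ => 0, fun _ _ => rfl, ?_⟩
      rw [h1, S.lp_zero _ _ (fun _ _ => rfl)]
    | succ k ih =>
      intro m hm hMm u hu
      obtain ⟨t, ht0, u', hu', rfl⟩ := S.exists_layer m hm u hu
      obtain ⟨t', ht', rfl⟩ := ih (m + 1) (by omega) (by push_cast at hMm; omega) u' hu'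
      refine ⟨fun β => if ht β.1 ≤ m then t β else t' β, fun β hβ => ?_, ?_⟩
      · simp only [if_pos hβ.le]
        exact ht0 β hβ.ne
      · rw [S.lp_split m (fun β => if ht β.1 ≤ m then t β else t' β)]
        congr 1
        · apply S.lp_congr
          intro β _
          by_cases hβ : ht β.1 ≤ m
          · simp only [if_pos hβ]
          · simp only [if_neg hβ]
            exact ht0 β (by omega)
        · apply S.lp_congr
          intro β _
          by_cases hβ : ht β.1 ≤ m
          · simp only [if_pos hβ]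
            exact ht' β (by omega)
          · simp only [if_neg hβ]
  exact key (M - m).toNat m hm (by have := Int.self_le_toNat (M - m); omega) u hu

/-- Products of the same height: `lp` is additive modulo `U (m + 1)`. -/
theorem lp_add_layer (m : ℤ) (hm : 1 ≤ m) (t t' : C.Root → K) (h : ∀ β, ht β.1 ≠ m → t β = 0)
    (h' : ∀ β, ht β.1 ≠ m → t' β = 0) : ∃ u' ∈ S.U (m + 1),
      S.lp C.posList (fun β => t β + t' β) = S.lp C.posList t * S.lp C.posList t' * u' :=
  S.s3_add_layer m hm t t' h h'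

end StSys

end Pool.Agent.H75.UL
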