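import Pool.Agent.H75.UL.T2
import Pool.Agent.H75.UL.S3
import Pool.Agent.H75.UL.R5

/-!
# Project UL (MP_978914_al), module T3

Uniqueness of the coordinates in ordered products.

`lp_entry`: all factors `x_γ(t_γ)` with `t_γ ≠ 0` (`γ` positive, so `ht γ ≥ m`) satisfy
`Fil m (x - 1)`; modulo `Fil (2m) ≤ Fil (m+1)` the map `u ↦ u - 1` is additive on products, and the
entry of `x_γ(t) - 1 = t E_γ + t² F_γ` at `(inl i, inr (-β))` is `-t β_i` if `γ = β` and `0`
otherwise. `lp_unique`: strong induction on the height of `β`: if `t`, `t'` agree on positive roots of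
height `< m`, then by `lp_split (m - 1)` and cancellation the products with `t`, `t'` restricted to
heights `≥ m` agree; `lp_entry` gives `t β * β_i = t' β * β_i` for all `i`, and some `β_i ≠ 0` in `K`
(`exists_coeff_ne_zero`). `coord_of_Fil`: let `m₀ < m` be minimal with some positive `β` of height
`m₀` with `t β ≠ 0` (replace `t` by `0` at non positive roots, `lp_congr`); `lp_entry` at height `m₀`
contradicts `Fil m`.
-/

set_option autoImplicit false
open Matrix
universe u
namespace Pool.Agent.H75.UL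

namespace SLC
variable {n : ℕ} (C : SLC n) {K : Type*} [Field K]

private theorem T3_Fil_sum (t : C.Root → K) (m : ℤ) (h0 : ∀ γ : C.Root, ht γ.1 < m → t γ = 0)
    (l : List C.Root) :
    C.Fil m ((l.map fun γ => t γ • (C.E γ).map (Int.cast : ℤ → K)).sum) := by
  induction l with
  | nil =>
    rw [List.map_nil, List.sum_nil]
    exact C.Fil_zero m
  | cons γ l ih =>
    rw [List.map_cons, List.sum_cons]
    refine C.Fil_add ?_ ih
    by_cases h : ht γ.1 < m
    · rw [h0 γ h, zero_smul]
      exact C.Fil_zero m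
    · exact C.Fil_smul _ (C.Fil_mono (not_lt.mp h) (C.Fil_E K γ))

private theorem T3_lp (t : C.Root → K) (m : ℤ) (hm : 1 ≤ m)
    (h0 : ∀ γ : C.Root, ht γ.1 < m → t γ = 0) (l : List C.Root) :
    C.Fil (m + 1) (((C.adS K).lp l t : Matrix C.Idx C.Idx K) - 1 -
      (l.map fun γ => t γ • (C.E γ).map (Int.cast : ℤ → K)).sum) := by
  induction l with
  | nil =>
    have e : (((C.adS K).lp [] t : GL C.Idx K) : Matrix C.Idx C.Idx K) - 1 -
        (([] : List C.Root).map fun γ => t γ • (C.E γ).map (Int.cast : ℤ → K)).sum = 0 := by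
      simp [StSys.lp]
    rw [e]
    exact C.Fil_zero _
  | cons γ l ih =>
    have hM : C.Fil m (((C.adS K).lp l t : Matrix C.Idx C.Idx K) - 1) := by
      have h1 := C.Fil_add (C.Fil_mono (by omega : m ≤ m + 1) ih) (C.T3_Fil_sum t m h0 l)
      rwa [sub_add_cancel] at h1
    have hA : C.Fil m (t γ • (C.E γ).map (Int.cast : ℤ → K)) := by
      by_cases h : ht γ.1 < m
      · rw [h0 γ h, zero_smul]
        exact C.Fil_zero m
      · exact C.Fil_smul _ (C.Fil_mono (not_lt.mp h) (C.Fil_E K γ))
    have hx : C.Fil (m + 1) ((C.xg K γ (t γ) : Matrix C.Idx C.Idx K) - 1 -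
        t γ • (C.E γ).map (Int.cast : ℤ → K)) := by
      have e : (C.xg K γ (t γ) : Matrix C.Idx C.Idx K) - 1 -
          t γ • (C.E γ).map (Int.cast : ℤ → K) = (t γ) ^ 2 • (C.F γ).map (Int.cast : ℤ → K) := by
        change C.X K γ (t γ) - 1 - _ = _
        unfold X
        abel
      rw [e]
      by_cases h : ht γ.1 < m
      · rw [h0 γ h, zero_pow (by norm_num), zero_smul]
        exact C.Fil_zero _
      · exact C.Fil_smul _ (C.Fil_mono (by omega) (C.Fil_F K γ))
    have hx1 : C.Fil m ((C.xg K γ (t γ) : Matrix C.Idx C.Idx K) - 1) := by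
      have h1 := C.Fil_add (C.Fil_mono (by omega : m ≤ m + 1) hx) hA
      rwa [sub_add_cancel] at h1
    have key : (((C.adS K).lp (γ :: l) t : GL C.Idx K) : Matrix C.Idx C.Idx K) - 1 -
        ((γ :: l).map fun γ => t γ • (C.E γ).map (Int.cast : ℤ → K)).sum =
        ((C.xg K γ (t γ) : Matrix C.Idx C.Idx K) - 1 - t γ • (C.E γ).map (Int.cast : ℤ → K)) +
        (((C.adS K).lp l t : Matrix C.Idx C.Idx K) - 1 -
          (l.map fun γ => t γ • (C.E γ).map (Int.cast : ℤ → K)).sum) +
        ((C.xg K γ (t γ) : Matrix C.Idx C.Idx K) - 1) *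
          (((C.adS K).lp l t : Matrix C.Idx C.Idx K) - 1) := by
      have e2 : (C.adS K).lp (γ :: l) t = C.xg K γ (t γ) * (C.adS K).lp l t := by
        simp [StSys.lp]
      rw [e2, Units.val_mul, List.map_cons, List.sum_cons, sub_mul, mul_sub, mul_one, one_mul]
      abel
    rw [key]
    exact C.Fil_add (C.Fil_add hx ih) (C.Fil_mono (by omega) (C.Fil_mul hx1 hM))

private theorem T3_sum_apply (l : List C.Root) (f : C.Root → Matrix C.Idx C.Idx K)
    (a b : C.Idx) : (l.map f).sum a b = (l.map fun γ => f γ a b).sum := by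
  induction l with
  | nil => rfl
  | cons γ l ih => rw [List.map_cons, List.sum_cons, Matrix.add_apply, ih, List.map_cons,
      List.sum_cons]

theorem lp_entry (t : C.Root → K) (m : ℤ) (hm : 1 ≤ m) (h0 : ∀ γ, ht γ.1 < m → t γ = 0)
    (β : C.Root) (hβ : ht β.1 = m) (i : Fin n) :
    ((C.adS K).lp C.posList t : Matrix C.Idx C.Idx K) (Sum.inl i) (Sum.inr (-β)) =
      - (t β * (β.1 i : K)) := by
  have h1 := C.T3_lp t m hm h0 C.posList (Sum.inl i) (Sum.inr (-β)) (by
    simp only [hti, Sum.elim_inl, Sum.elim_inr, Root.neg_val, ht_neg]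
    omega)
  rw [Matrix.sub_apply, Matrix.sub_apply, Matrix.one_apply_ne (by simp), sub_zero, sub_eq_zero,
    T3_sum_apply] at h1
  rw [h1, ← List.sum_toFinset _ C.posList_nodup, Finset.sum_eq_single β]
  · simp [E]
  · intro γ _ hne
    have h2 : ¬ ((-β).1 = -γ.1) := by
      intro h3
      apply hne
      apply Root.ext
      rw [Root.neg_val] at h3
      exact (neg_injective h3).symm
    simp only [Matrix.smul_apply, Matrix.map_apply, E, if_neg h2, Int.cast_zero, smul_zero]
  · intro h2
    exfalso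
    apply h2
    rw [List.mem_toFinset, mem_posList]
    unfold Pos
    omega

theorem lp_unique (t t' : C.Root → K)
    (h : (C.adS K).lp C.posList t = (C.adS K).lp C.posList t') (β : C.Root) (hβ : C.Pos β) :
    t β = t' β := by
  have main : ∀ k : ℕ, ∀ β : C.Root, C.Pos β → (ht β.1).toNat = k → t β = t' β := by
    intro k
    induction k using Nat.strong_induction_on with
    | _ k ih =>
      intro β hβ hk
      have hp : 0 < ht β.1 := hβ
      have e1 : (C.adS K).lp C.posList (fun γ => if ht γ.1 ≤ ht β.1 - 1 then t γ else 0) =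
          (C.adS K).lp C.posList (fun γ => if ht γ.1 ≤ ht β.1 - 1 then t' γ else 0) := by
        apply StSys.lp_congr
        intro γ hγ
        split_ifs with h2
        · have h3 : C.Pos γ := (C.mem_posList γ).mp hγ
          have h4 : 0 < ht γ.1 := h3
          exact ih (ht γ.1).toNat (by omega) γ h3 rfl
        · rfl
      have h5 := h
      rw [StSys.lp_split _ (ht β.1 - 1) t, StSys.lp_split _ (ht β.1 - 1) t', e1] at h5
      have h6 := mul_left_cancel h5
      obtain ⟨i, hi⟩ := C.exists_coeff_ne_zero β K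
      have h7 := C.lp_entry (fun γ => if ht γ.1 ≤ ht β.1 - 1 then 0 else t γ) (ht β.1) (by omega)
        (fun γ hγ => if_pos (by omega)) β rfl i
      have h8 := C.lp_entry (fun γ => if ht γ.1 ≤ ht β.1 - 1 then 0 else t' γ) (ht β.1) (by omega)
        (fun γ hγ => if_pos (by omega)) β rfl i
      rw [h6] at h7
      have h9 := h7.symm.trans h8
      simp only [if_neg (show ¬ (ht β.1 ≤ ht β.1 - 1) by omega)] at h9
      exact mul_right_cancel₀ hi (neg_injective h9)
  exact main _ β hβ rfl

theorem coord_of_Fil (t : C.Root → K) (m : ℤ)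
    (h : C.Fil m (((C.adS K).lp C.posList t : Matrix C.Idx C.Idx K) - 1)) (β : C.Root)
    (hβ : C.Pos β) (hm : ht β.1 < m) : t β = 0 := by
  have main : ∀ k : ℕ, ∀ β : C.Root, C.Pos β → ht β.1 < m → (ht β.1).toNat = k → t β = 0 := by
    intro k
    induction k using Nat.strong_induction_on with
    | _ k ih =>
      intro β hβ hm hk
      have hp : 0 < ht β.1 := hβ
      have e1 : (C.adS K).lp C.posList t =
          (C.adS K).lp C.posList (fun γ => if ht γ.1 < ht β.1 then 0 else t γ) := by
        apply StSys.lp_congr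
        intro γ hγ
        split_ifs with h2
        · have h3 : C.Pos γ := (C.mem_posList γ).mp hγ
          have h4 : 0 < ht γ.1 := h3
          exact ih (ht γ.1).toNat (by omega) γ h3 (by omega) rfl
        · rfl
      obtain ⟨i, hi⟩ := C.exists_coeff_ne_zero β K
      have h7 := C.lp_entry (fun γ => if ht γ.1 < ht β.1 then 0 else t γ) (ht β.1) (by omega)
        (fun γ hγ => if_pos hγ) β rfl i
      have h8 := h (Sum.inl i) (Sum.inr (-β)) (by
        simp only [hti, Sum.elim_inl, Sum.elim_inr, Root.neg_val, ht_neg]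
        omega)
      rw [Matrix.sub_apply, Matrix.one_apply_ne (by simp), sub_zero, e1, h7] at h8
      simp only [lt_self_iff_false, if_false] at h8
      exact (mul_eq_zero.mp (neg_eq_zero.mp h8)).resolve_right hi
  exact main _ β hβ hm rfl

theorem mem_U_of_Fil (m : ℤ) (hm : 1 ≤ m) (u : GL C.Idx K) (hu : u ∈ (C.adS K).U 1)
    (h : C.Fil m ((u : Matrix C.Idx C.Idx K) - 1)) : u ∈ (C.adS K).U m := by
  have _ := hm
  obtain ⟨t, ht0, rfl⟩ := (C.adS K).exists_lp 1 le_rfl u hu
  apply StSys.lp_mem
  intro β hβ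
  by_cases h1 : ht β.1 < 1
  · exact ht0 β h1
  · exact C.coord_of_Fil t m h β (by unfold Pos; omega) hβ

end SLC

end Pool.Agent.H75.UL
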