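import Pool.Agent.H75.UL.T7
import Pool.Agent.H75.UL.T3

/-!
# Project UL (MP_978914_al), module S9

The kernel of a map to the adjoint group is central.

`y ∈ gen`, Bruhat (`StSys.bruhat` for `S`): `y = u ν v`. `p u, p v ∈ (adS K).U 1`, `p ν ∈ (adS K).N`
(closure maps; `p (nn S.x α t) = nn (xg K) α t`). `p ν = (p u)⁻¹ (p v)⁻¹` satisfies `Fil 0`, and if
`w` is as in `S.N_acts ν`, then `(adS K).Acts (p ν) w`; as in `upper`, `w = 1`; so `ν = τ ∈ S.T`.
Write `y = τ u'` with `u' = (τ⁻¹ u τ) v ∈ S.U 1`, `u' = S.lp posList t` (`exists_lp`).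
`1 = p τ * p u'`, `Fil 1 (p u' - 1)` and `p τ` diagonal (`T_diag`): so `p τ = 1` and `p u' = 1`;
`p u' = (adS K).lp posList t`, so `t β = 0` for all positive `β` (`lp_unique` with `t' = 0`) and
`u' = 1`. So `y = τ`; `τ x_β(u) τ⁻¹ = x_β(c_β u)` (`S.T_acts'`), apply `p`: `xg β u = xg β (c_β u)`,
so `c_β = 1` (`xg_inj`), `τ` commutes with all generators.
-/

set_option autoImplicit false
open Matrix
universe u
namespace Pool.Agent.H75.UL

namespace SLC
variable {n : ℕ} (C : SLC n) {K : Type*} [Field K]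

theorem S9_nn {H : Type*} [Group H] (S : StSys C K H) (p : H →* GL C.Idx K)
    (hp : ∀ β t, p (S.x β t) = C.xg K β t) (α : C.Root) (t : K) :
    p (nn S.x α t) = nn (C.xg K) α t := by
  unfold nn
  rw [map_mul, map_mul, hp, hp]

theorem S9_hh {H : Type*} [Group H] (S : StSys C K H) (p : H →* GL C.Idx K)
    (hp : ∀ β t, p (S.x β t) = C.xg K β t) (α : C.Root) (t : K) :
    p (hh S.x α t) = hh (C.xg K) α t := by
  unfold hh
  rw [map_mul, C.S9_nn S p hp, C.S9_nn S p hp]

theorem S9_U {H : Type*} [Group H] (S : StSys C K H) (p : H →* GL C.Idx K)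
    (hp : ∀ β t, p (S.x β t) = C.xg K β t) (m : ℤ) (u : H) (hu : u ∈ S.U m) :
    p u ∈ (C.adS K).U m := by
  have h : S.U m ≤ ((C.adS K).U m).comap p := by
    unfold StSys.U
    rw [Subgroup.closure_le]
    rintro g ⟨β, t, hβ, rfl⟩
    rw [SetLike.mem_coe, Subgroup.mem_comap, hp]
    exact Subgroup.subset_closure ⟨β, t, hβ, rfl⟩
  exact h hu

theorem S9_N {H : Type*} [Group H] (S : StSys C K H) (p : H →* GL C.Idx K)
    (hp : ∀ β t, p (S.x β t) = C.xg K β t) (u : H) (hu : u ∈ S.N) :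
    p u ∈ (C.adS K).N := by
  have h : S.N ≤ ((C.adS K).N).comap p := by
    unfold StSys.N
    rw [Subgroup.closure_le]
    rintro g ⟨β, t, hβ, rfl⟩
    rw [SetLike.mem_coe, Subgroup.mem_comap, C.S9_nn S p hp]
    exact Subgroup.subset_closure ⟨β, t, hβ, rfl⟩
  exact h hu

theorem S9_T {H : Type*} [Group H] (S : StSys C K H) (p : H →* GL C.Idx K)
    (hp : ∀ β t, p (S.x β t) = C.xg K β t) (u : H) (hu : u ∈ S.T) :
    p u ∈ (C.adS K).T := by
  have h : S.T ≤ ((C.adS K).T).comap p := by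
    unfold StSys.T
    rw [Subgroup.closure_le]
    rintro g ⟨β, t, hβ, rfl⟩
    rw [SetLike.mem_coe, Subgroup.mem_comap, C.S9_hh S p hp]
    exact Subgroup.subset_closure ⟨β, t, hβ, rfl⟩
  exact h hu

theorem S9_lp {H : Type*} [Group H] (S : StSys C K H) (p : H →* GL C.Idx K)
    (hp : ∀ β t, p (S.x β t) = C.xg K β t) (l : List C.Root) (t : C.Root → K) :
    p (S.lp l t) = (C.adS K).lp l t := by
  unfold StSys.lp
  rw [map_list_prod, List.map_map]
  congr 1
  apply List.map_congr_left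
  intro β _
  show p (S.x β (t β)) = _
  rw [hp, adS_x]

theorem S9_T_one (τ : GL C.Idx K) (hτ : τ ∈ (C.adS K).T) (hu : τ ∈ (C.adS K).U 1) : τ = 1 := by
  obtain ⟨c, hc⟩ := C.T_diag τ hτ
  have hF := C.Fil_U 1 le_rfl τ hu
  have hd : ∀ a, (τ : Matrix C.Idx C.Idx K) a a = 1 := by
    intro a
    have h1 := hF a a (by omega)
    rw [Matrix.sub_apply, Matrix.one_apply_eq, sub_eq_zero] at h1
    exact h1
  apply Units.ext
  rw [hc] at hd ⊢
  ext a b
  by_cases hab : a = b
  · subst hab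
    rw [hd a, Units.val_one, Matrix.one_apply_eq]
  · rw [Matrix.diagonal_apply_ne _ hab, Units.val_one, Matrix.one_apply_ne hab]

theorem ker_central {H : Type*} [Group H] (S : StSys C K H) (hgen : S.gen = ⊤)
    (p : H →* GL C.Idx K) (hp : ∀ β t, p (S.x β t) = C.xg K β t) (y : H) (hy : p y = 1) :
    y ∈ Subgroup.center H := by
  have hy' : y ∈ S.gen := by rw [hgen]; exact Subgroup.mem_top y
  obtain ⟨u, hu, ν, hν, v, hv, rfl⟩ := S.bruhat y hy'
  have hpu := C.S9_U S p hp 1 u hu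
  have hpv := C.S9_U S p hp 1 v hv
  have hpν := C.S9_N S p hp ν hν
  rw [map_mul, map_mul] at hy
  have e1 : p ν = (p u)⁻¹ * (p v)⁻¹ := by
    rw [eq_inv_mul_iff_mul_eq, eq_inv_iff_mul_eq_one]
    exact hy
  have hF : C.Fil 0 ((p ν : GL C.Idx K) : Matrix C.Idx C.Idx K) := by
    apply C.Fil_U_zero
    rw [e1]
    exact mul_mem (inv_mem hpu) (inv_mem hpv)
  obtain ⟨w, hw, hacts, hwT⟩ := S.N_acts ν hν
  have hacts' : (C.adS K).Acts (p ν) w := by
    obtain ⟨c, hc, hc2⟩ := hacts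
    refine ⟨c, hc, fun β t => ?_⟩
    have h1 := congrArg p (hc2 β t)
    rw [map_mul, map_mul, map_inv, hp, hp] at h1
    exact h1
  obtain ⟨-, -, -, -, hne⟩ := C.N_mono (p ν) w hacts' hpν
  have hw1 : w = 1 := by
    apply C.eq_one_of_pos w hw
    intro i
    by_contra hneg
    apply hne (C.simple i)
    apply hF
    unfold Pos at hneg
    have h1 := C.ht_simple i
    show ht (w (C.simple i)).1 < ht (C.simple i).1 + 0
    omega
  have hνT := hwT hw1
  set u' := ν⁻¹ * u * ν * v with hu'def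
  have hu' : u' ∈ S.U 1 := by
    apply mul_mem _ hv
    have h1 := S.T_conj_U 1 ν⁻¹ u (inv_mem hνT) hu
    rwa [inv_inv] at h1
  have hy2 : u * ν * v = ν * u' := by
    rw [hu'def]
    group
  have hpu' := C.S9_U S p hp 1 u' hu'
  have e2 : p ν * p u' = 1 := by
    rw [← map_mul, ← hy2, map_mul, map_mul]
    exact hy
  have hν1 : p ν = 1 := by
    apply C.S9_T_one _ (C.S9_T S p hp ν hνT)
    rw [eq_inv_of_mul_eq_one_left e2]
    exact inv_mem hpu'
  have hu1 : p u' = 1 := by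
    rw [hν1, one_mul] at e2
    exact e2
  obtain ⟨t, ht0, htu⟩ := S.exists_lp 1 le_rfl u' hu'
  have hlp : (C.adS K).lp C.posList t = (C.adS K).lp C.posList (fun _ => 0) := by
    rw [(C.adS K).lp_zero C.posList (fun _ => 0) (fun _ _ => rfl), ← C.S9_lp S p hp, ← htu, hu1]
  have hu'1 : u' = 1 := by
    rw [htu]
    apply S.lp_zero
    intro β hβ
    exact C.lp_unique t (fun _ => 0) hlp β ((C.mem_posList β).1 hβ)
  rw [hy2, hu'1, mul_one]
  obtain ⟨c, hc, -, hc2⟩ := S.T_acts' ν hνT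
  have hcomm : ∀ β t, ν * S.x β t * ν⁻¹ = S.x β t := by
    intro β t
    rw [hc2 β t]
    have h1 := congrArg p (hc2 β 1)
    rw [map_mul, map_mul, map_inv, hp, hp, hν1, one_mul, inv_one, mul_one] at h1
    have h2 := (C.xg_inj β β 1 (c β * 1) one_ne_zero h1).2
    rw [mul_one] at h2
    rw [← h2, one_mul]
  rw [Subgroup.mem_center_iff]
  intro g
  have hg : g ∈ S.gen := by rw [hgen]; exact Subgroup.mem_top g
  have hle : S.gen ≤ Subgroup.centralizer {ν} := by
    unfold StSys.gen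
    rw [Subgroup.closure_le]
    rintro x ⟨β, t, rfl⟩
    rw [SetLike.mem_coe, Subgroup.mem_centralizer_iff]
    intro z hz
    rw [Set.mem_singleton_iff] at hz
    subst hz
    have h1 := hcomm β t
    rw [mul_inv_eq_iff_eq_mul] at h1
    exact h1
  have h1 := hle hg
  rw [Subgroup.mem_centralizer_iff] at h1
  exact (h1 ν rfl).symm

end SLC

end Pool.Agent.H75.UL
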