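import Pool.Agent.H75.UL.T7
import Pool.Agent.H75.UL.R5

/-!
# Project UL (MP_978914_al), module T10

The adjoint group has trivial centralizer.

`z` commutes with `t E_β + t² F_β` for all `t`, so (two values of `t` with `t₁ t₂ (t₂ - t₁) ≠ 0`, `K`
infinite) with `E_β` and `F_β` (cast to `K`). From `z F_β = F_β z`: the column `inr β` of `z` is
`λ_β e_β` (`F_β e_{-β} = e_β`). From `z E_β = E_β z` on `e_{-β}` (`E_β e_{-β} = -h_β`):
`z h_β = λ_{-β} h_β`. So `z` is upper triangular (`Fil 0`: the columns `inl j` are `z h_{α_j} =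
λ h_{α_j}`; note `h_{α_j} = inl j` basis vector), `z = τ u` (`upper`), hence the diagonal entry at
`inl j` is `1`: `λ_{-α_j} = 1` for all `j`, i.e. `z h_j = h_j`. Then for every root `β` and `j` with
`(α_j, β) ≠ 0` in `K`: `z E_β h_j = E_β z h_j`, `-(α_j,β) z e_β = -(α_j,β) e_β`, so `λ_β = 1`; to
have such a `j` when `char K = 2` use instead `z E_α e_β = E_α z e_β`: `λ_{α+β} = λ_β` whenever
`α + β` is a root, and `λ_{-α_j} = 1`, `λ_{α_j} = 1` (the same argument with `β = -α_j`:
`z h = λ_{α_j} h`). Every root is reached from a simple root or a negative simple root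
(`exists_descent`). So `z = 1`.
-/

set_option autoImplicit false
open Matrix
universe u
namespace Pool.Agent.H75.UL

namespace SLC
variable {n : ℕ} (C : SLC n) {K : Type*} [Field K]

theorem T10_EF [Infinite K] (z : GL C.Idx K) (h : ∀ β t, z * C.xg K β t = C.xg K β t * z)
    (β : C.Root) :
    (z : Matrix C.Idx C.Idx K) * (C.E β).map (Int.cast : ℤ → K) =
        (C.E β).map (Int.cast : ℤ → K) * (z : Matrix C.Idx C.Idx K) ∧
      (z : Matrix C.Idx C.Idx K) * (C.F β).map (Int.cast : ℤ → K) =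
        (C.F β).map (Int.cast : ℤ → K) * (z : Matrix C.Idx C.Idx K) := by
  classical
  set Z : Matrix C.Idx C.Idx K := (z : Matrix C.Idx C.Idx K) with hZ
  set E' : Matrix C.Idx C.Idx K := (C.E β).map (Int.cast : ℤ → K) with hE'
  set F' : Matrix C.Idx C.Idx K := (C.F β).map (Int.cast : ℤ → K) with hF'
  have key : ∀ t : K, t • (Z * E' - E' * Z) + t ^ 2 • (Z * F' - F' * Z) = 0 := by
    intro t
    have h1 : Z * C.X K β t = C.X K β t * Z := congrArg Units.val (h β t)
    unfold X at h1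
    rw [← hE', ← hF', mul_add, mul_add, add_mul, add_mul, mul_one, one_mul, mul_smul_comm,
      mul_smul_comm, smul_mul_assoc, smul_mul_assoc] at h1
    rw [← sub_eq_zero.2 h1]
    module
  obtain ⟨t, ht⟩ := Infinite.exists_notMem_finset ({0, 1} : Finset K)
  simp only [Finset.mem_insert, Finset.mem_singleton, not_or] at ht
  have k1 := key 1
  have k2 := key t
  rw [one_smul, one_pow, one_smul] at k1
  have hB : Z * F' - F' * Z = 0 := by
    have e : (t * (t - 1)) • (Z * F' - F' * Z) = 0 := by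
      have e2 : (t * (t - 1)) • (Z * F' - F' * Z) =
          (t • (Z * E' - E' * Z) + t ^ 2 • (Z * F' - F' * Z)) -
            t • ((Z * E' - E' * Z) + (Z * F' - F' * Z)) := by module
      rw [e2, k1, k2, smul_zero, sub_zero]
    rcases smul_eq_zero.1 e with e3 | e3
    · exfalso
      rcases mul_eq_zero.1 e3 with e4 | e4
      · exact ht.1 e4
      · exact ht.2 (sub_eq_zero.1 e4)
    · exact e3
  rw [hB, add_zero] at k1
  exact ⟨sub_eq_zero.1 k1, sub_eq_zero.1 hB⟩

theorem T10_col [Infinite K] (z : GL C.Idx K) (h : ∀ β t, z * C.xg K β t = C.xg K β t * z)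
    (β : C.Root) (a : C.Idx) : (z : Matrix C.Idx C.Idx K) a (Sum.inr β) =
      if a = Sum.inr β then (z : Matrix C.Idx C.Idx K) (Sum.inr (-β)) (Sum.inr (-β)) else 0 := by
  have h1 := congrFun (congrFun (C.T10_EF z h β).2 a) (Sum.inr (-β))
  rw [Matrix.mul_apply, Matrix.mul_apply, Fintype.sum_sum_type, Fintype.sum_sum_type] at h1
  have e1 : ∑ i : Fin n, (z : Matrix C.Idx C.Idx K) a (Sum.inl i) *
      (C.F β).map (Int.cast : ℤ → K) (Sum.inl i) (Sum.inr (-β)) = 0 := by
    apply Finset.sum_eq_zero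
    intro i _
    simp [F]
  have e2 : ∑ γ : C.Root, (z : Matrix C.Idx C.Idx K) a (Sum.inr γ) *
      (C.F β).map (Int.cast : ℤ → K) (Sum.inr γ) (Sum.inr (-β)) =
        (z : Matrix C.Idx C.Idx K) a (Sum.inr β) := by
    rw [Finset.sum_eq_single β]
    · simp [F]
    · intro γ _ hγ
      have hne : ¬ γ.1 = β.1 := fun h2 => hγ (Root.ext h2)
      simp [F, hne]
    · intro h2
      exact absurd (Finset.mem_univ _) h2
  rw [e1, e2, zero_add] at h1
  rw [h1]
  rcases a with i | γ
  · rw [if_neg (by simp)]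
    simp [F]
  · have e3 : ∑ i : Fin n, (C.F β).map (Int.cast : ℤ → K) (Sum.inr γ) (Sum.inl i) *
        (z : Matrix C.Idx C.Idx K) (Sum.inl i) (Sum.inr (-β)) = 0 := by
      apply Finset.sum_eq_zero
      intro i _
      simp [F]
    rw [e3, zero_add, Finset.sum_eq_single (-β)]
    · by_cases hγ : γ = β
      · subst hγ
        simp [F]
      · have hne : ¬ γ.1 = β.1 := fun h2 => hγ (Root.ext h2)
        simp [F, hne, hγ]
    · intro δ _ hδ
      have hne : ¬ δ.1 = -β.1 := fun h2 => hδ (Root.ext (by rw [Root.neg_val]; exact h2))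
      simp [F, hne]
    · intro h2
      exact absurd (Finset.mem_univ _) h2

theorem T10_neg [Infinite K] (z : GL C.Idx K) (h : ∀ β t, z * C.xg K β t = C.xg K β t * z)
    (β : C.Root) : (z : Matrix C.Idx C.Idx K) (Sum.inr β) (Sum.inr β) =
      (z : Matrix C.Idx C.Idx K) (Sum.inr (-β)) (Sum.inr (-β)) := by
  have h1 := C.T10_col z h β (Sum.inr β)
  rwa [if_pos rfl] at h1

theorem T10_colh [Infinite K] (z : GL C.Idx K) (h : ∀ β t, z * C.xg K β t = C.xg K β t * z)
    (j : Fin n) (a : C.Idx) : (z : Matrix C.Idx C.Idx K) a (Sum.inl j) =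
      if a = Sum.inl j then
        (z : Matrix C.Idx C.Idx K) (Sum.inr (C.simple j)) (Sum.inr (C.simple j)) else 0 := by
  have h1 := congrFun (congrFun (C.T10_EF z h (C.simple j)).1 a) (Sum.inr (-C.simple j))
  rw [Matrix.mul_apply, Matrix.mul_apply, Fintype.sum_sum_type, Fintype.sum_sum_type] at h1
  have e1 : ∑ i : Fin n, (z : Matrix C.Idx C.Idx K) a (Sum.inl i) *
      (C.E (C.simple j)).map (Int.cast : ℤ → K) (Sum.inl i) (Sum.inr (-C.simple j)) =
        -(z : Matrix C.Idx C.Idx K) a (Sum.inl j) := by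
    rw [Finset.sum_eq_single j]
    · simp [E]
    · intro i _ hi
      simp [E, hi]
    · intro h2
      exact absurd (Finset.mem_univ _) h2
  have e2 : ∑ γ : C.Root, (z : Matrix C.Idx C.Idx K) a (Sum.inr γ) *
      (C.E (C.simple j)).map (Int.cast : ℤ → K) (Sum.inr γ) (Sum.inr (-C.simple j)) = 0 := by
    apply Finset.sum_eq_zero
    intro γ _
    have hne : ¬ γ.1 = (C.simple j).1 + (-C.simple j).1 := by
      rw [Root.neg_val, add_neg_cancel]
      exact C.root_ne_zero γ
    simp only [E, Matrix.map_apply]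
    rw [if_neg hne]
    simp
  rw [e1, e2, add_zero] at h1
  have e3 : ∑ i : Fin n, (C.E (C.simple j)).map (Int.cast : ℤ → K) a (Sum.inl i) *
      (z : Matrix C.Idx C.Idx K) (Sum.inl i) (Sum.inr (-C.simple j)) = 0 := by
    apply Finset.sum_eq_zero
    intro i _
    rw [C.T10_col z h, if_neg (by simp), mul_zero]
  have e4 : ∑ γ : C.Root, (C.E (C.simple j)).map (Int.cast : ℤ → K) a (Sum.inr γ) *
      (z : Matrix C.Idx C.Idx K) (Sum.inr γ) (Sum.inr (-C.simple j)) =
      (C.E (C.simple j)).map (Int.cast : ℤ → K) a (Sum.inr (-C.simple j)) *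
        (z : Matrix C.Idx C.Idx K) (Sum.inr (C.simple j)) (Sum.inr (C.simple j)) := by
    rw [Finset.sum_eq_single (-C.simple j), ← C.T10_neg z h (C.simple j)]
    · intro γ _ hγ
      rw [C.T10_col z h, if_neg (by simpa using hγ), mul_zero]
    · intro h2
      exact absurd (Finset.mem_univ _) h2
  rw [e3, e4, zero_add] at h1
  have h2 : (z : Matrix C.Idx C.Idx K) a (Sum.inl j) =
      -((C.E (C.simple j)).map (Int.cast : ℤ → K) a (Sum.inr (-C.simple j)) *
        (z : Matrix C.Idx C.Idx K) (Sum.inr (C.simple j)) (Sum.inr (C.simple j))) := by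
    rw [← h1, neg_neg]
  rw [h2]
  rcases a with i | γ
  · by_cases hi : i = j
    · subst hi
      simp [E]
    · simp [E, hi]
  · have hne : ¬ γ.1 = (C.simple j).1 + (-C.simple j).1 := by
      rw [Root.neg_val, add_neg_cancel]
      exact C.root_ne_zero γ
    rw [if_neg (by simp)]
    simp only [E, Matrix.map_apply]
    rw [if_neg hne]
    simp

theorem T10_add [Infinite K] (z : GL C.Idx K) (h : ∀ β t, z * C.xg K β t = C.xg K β t * z)
    (α β γ : C.Root) (hγ : γ.1 = α.1 + β.1) :
    (z : Matrix C.Idx C.Idx K) (Sum.inr γ) (Sum.inr γ) =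
      (z : Matrix C.Idx C.Idx K) (Sum.inr β) (Sum.inr β) := by
  have h1 := congrFun (congrFun (C.T10_EF z h α).1 (Sum.inr γ)) (Sum.inr β)
  rw [Matrix.mul_apply, Matrix.mul_apply, Fintype.sum_sum_type, Fintype.sum_sum_type] at h1
  have e1 : ∑ i : Fin n, (z : Matrix C.Idx C.Idx K) (Sum.inr γ) (Sum.inl i) *
      (C.E α).map (Int.cast : ℤ → K) (Sum.inl i) (Sum.inr β) = 0 := by
    apply Finset.sum_eq_zero
    intro i _
    rw [C.T10_colh z h, if_neg (by simp), zero_mul]
  have e2 : ∑ δ : C.Root, (z : Matrix C.Idx C.Idx K) (Sum.inr γ) (Sum.inr δ) *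
      (C.E α).map (Int.cast : ℤ → K) (Sum.inr δ) (Sum.inr β) =
        (z : Matrix C.Idx C.Idx K) (Sum.inr γ) (Sum.inr γ) * (C.eps α.1 β.1 : K) := by
    rw [Finset.sum_eq_single γ]
    · simp only [E, Matrix.map_apply]
      rw [if_pos hγ]
    · intro δ _ hδ
      rw [C.T10_col z h, if_neg (by simpa using fun h2 => hδ h2.symm), zero_mul]
    · intro h2
      exact absurd (Finset.mem_univ _) h2
  have e3 : ∑ i : Fin n, (C.E α).map (Int.cast : ℤ → K) (Sum.inr γ) (Sum.inl i) *
      (z : Matrix C.Idx C.Idx K) (Sum.inl i) (Sum.inr β) = 0 := by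
    apply Finset.sum_eq_zero
    intro i _
    rw [C.T10_col z h, if_neg (by simp), mul_zero]
  have e4 : ∑ δ : C.Root, (C.E α).map (Int.cast : ℤ → K) (Sum.inr γ) (Sum.inr δ) *
      (z : Matrix C.Idx C.Idx K) (Sum.inr δ) (Sum.inr β) =
        (C.eps α.1 β.1 : K) * (z : Matrix C.Idx C.Idx K) (Sum.inr β) (Sum.inr β) := by
    rw [Finset.sum_eq_single β]
    · simp only [E, Matrix.map_apply]
      rw [if_pos hγ]
    · intro δ _ hδ
      rw [C.T10_col z h, if_neg (by simpa using hδ), mul_zero]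
    · intro h2
      exact absurd (Finset.mem_univ _) h2
  rw [e1, e2, e3, e4, zero_add, zero_add, mul_comm] at h1
  have hsq : (C.eps α.1 β.1 : K) * (C.eps α.1 β.1 : K) = 1 := by
    have h2 := C.eps_sq α.1 β.1
    exact_mod_cast congrArg (Int.cast : ℤ → K) h2
  have hne : (C.eps α.1 β.1 : K) ≠ 0 := by
    intro h2
    rw [h2, zero_mul] at hsq
    exact zero_ne_one hsq
  exact mul_left_cancel₀ hne h1

theorem T10_diag_pos [Infinite K] (z : GL C.Idx K)
    (h : ∀ β t, z * C.xg K β t = C.xg K β t * z)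
    (hs : ∀ j, (z : Matrix C.Idx C.Idx K) (Sum.inr (C.simple j)) (Sum.inr (C.simple j)) = 1) :
    ∀ (k : ℕ) (β : C.Root), C.Pos β → (ht β.1).toNat = k →
      (z : Matrix C.Idx C.Idx K) (Sum.inr β) (Sum.inr β) = 1 := by
  intro k
  induction k using Nat.strong_induction_on with
  | _ k ih =>
    intro β hβ hk
    by_cases hsim : ∀ i, β ≠ C.simple i
    · obtain ⟨i, γ, hγ, hβγ⟩ := C.exists_descent β hβ hsim
      rw [C.T10_add z h (C.simple i) γ β hβγ]
      have h1 : ht β.1 = ht (C.simple i).1 + ht γ.1 := by rw [hβγ, ht_add]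
      rw [C.ht_simple] at h1
      unfold Pos at hγ hβ
      exact ih (ht γ.1).toNat (by omega) γ hγ rfl
    · push Not at hsim
      obtain ⟨i, rfl⟩ := hsim
      exact hs i

theorem center_trivial [Infinite K] (z : GL C.Idx K) (hz : z ∈ C.Gad K)
    (h : ∀ β t, z * C.xg K β t = C.xg K β t * z) : z = 1 := by
  have hF : C.Fil 0 (z : Matrix C.Idx C.Idx K) := by
    intro a b hab
    rcases b with j | β
    · rw [C.T10_colh z h, if_neg]
      rintro rfl
      omega
    · rw [C.T10_col z h, if_neg]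
      rintro rfl
      omega
  obtain ⟨τ, hτ, u, hu, hz2⟩ := C.upper z hz hF
  obtain ⟨c, hc⟩ := C.T_diag τ hτ
  have hFu := C.Fil_U 1 le_rfl u hu
  have hh1 : ∀ j : Fin n, (z : Matrix C.Idx C.Idx K) (Sum.inl j) (Sum.inl j) = 1 := by
    intro j
    rw [hz2, Units.val_mul, hc, Matrix.diagonal_mul, Sum.elim_inl, one_mul]
    have h1 := hFu (Sum.inl j) (Sum.inl j) (by omega)
    rw [Matrix.sub_apply, Matrix.one_apply_eq, sub_eq_zero] at h1
    exact h1
  have hs : ∀ j, (z : Matrix C.Idx C.Idx K) (Sum.inr (C.simple j)) (Sum.inr (C.simple j)) = 1 := by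
    intro j
    have h1 := C.T10_colh z h j (Sum.inl j)
    rw [if_pos rfl, hh1] at h1
    exact h1.symm
  have hd : ∀ β : C.Root, (z : Matrix C.Idx C.Idx K) (Sum.inr β) (Sum.inr β) = 1 := by
    intro β
    by_cases hβ : C.Pos β
    · exact C.T10_diag_pos z h hs _ β hβ rfl
    · rw [C.T10_neg z h β]
      exact C.T10_diag_pos z h hs _ (-β) ((C.not_pos_iff β).1 hβ) rfl
  apply Units.ext
  ext a b
  rw [Units.val_one]
  rcases b with j | β
  · rw [C.T10_colh z h, hs]
    by_cases ha : a = Sum.inl j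
    · rw [if_pos ha, ha, Matrix.one_apply_eq]
    · rw [if_neg ha, Matrix.one_apply_ne ha]
  · rw [C.T10_col z h, hd]
    by_cases ha : a = Sum.inr β
    · rw [if_pos ha, ha, Matrix.one_apply_eq]
    · rw [if_neg ha, Matrix.one_apply_ne ha]

end SLC

end Pool.Agent.H75.UL
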