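import Pool.Agent.H75.UL.C0
import Pool.Agent.H75.UL.G1
import Pool.Agent.H75.UL.T10
import Pool.Agent.H75.UL.S9
import Pool.Agent.H75.UL.S7

/-!
# Project UL (MP_978914_al), module C1

Good systems: generating, with central kernel of the map from the universal group.

`isChev_iff`: given `Z` and `e : G ≃* GU ⧸ Z`, the system `x β t = e.symm (mk (GU.x β t))` is good
(its lift is `e.symm ∘ mk`, with kernel `Z`); conversely `G ≃* GU ⧸ ker (lift S)`
(`QuotientGroup.quotientKerEquivOfSurjective`).
`Good.exists_ad` (`K` infinite): `ker (lift S)` is central in `GU`, so its image under `lift (adS K)`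
commutes with all `xg β t` and is in `Gad`; it is `1` (`center_trivial`); so `lift (adS K)` factors
through `lift S`, which is surjective (`gen = ⊤`): `p : G →* GL`, `p (S.x β t) = xg β t`. Its range
is `Gad`; its kernel is central (`ker_central`).
`Good.finite`: `K` finite implies `G` finite (`finite_gen`).
`Good.twist`: put `τ₀ = lift (sys.twist 1 π c)`, an endomorphism of `GU`. It is bijective: the inverse
is given by `π⁻¹` and `c'_i = (c (π⁻¹ i))⁻¹`: the composites map `x β t` to `x β (f β * t)` with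
`f β = eta π⁻¹ (lmap π β) * eta π β` and `f` is multiplicative on the lattice (`eta_add` twice) and
`1` on simple roots, so `1`. With `lift S (â) = a`: `lift (S.twist a π c) y = a * lift S (τ₀ y) * a⁻¹`
(`hom_ext`); so if it is `1`, `τ₀ y` is in the kernel of `lift S`, central, and `y` is central.
-/

set_option autoImplicit false
open Matrix
universe u
namespace Pool.Agent.H75.UL

variable {n : ℕ} {C : SLC n}

/-- The image of a Steinberg system under a homomorphism. -/
private def C1_map {K : Type*} [Field K] {H H' : Type*} [Group H] [Group H'] (S : StSys C K H)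
    (f : H →* H') : StSys C K H' where
  x := fun β t => f (S.x β t)
  map_add := fun β s t => by rw [S.map_add, map_mul]
  comm := fun α β s t h => by rw [← map_mul, ← map_mul, S.comm α β s t h]
  comm_add := fun α β γ s t h => by
    rw [← S.comm_add α β γ s t h]; simp only [map_mul, map_inv]
  n_conj := fun α t u ht => by
    rw [← S.n_conj α t u ht]; simp only [nn, map_mul, map_inv]
  h_mul := fun α s t hs ht => by
    have h := congrArg f (S.h_mul α s t hs ht)
    simpa only [hh, nn, map_mul] using h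

/-- A generating Steinberg system for which the kernel of `GU C K → G` is central. -/
structure Good {K : Type u} [Field K] {G : Type u} [Group G] (S : StSys C K G) : Prop where
  gen : S.gen = ⊤
  ker : (GU.lift S).ker ≤ Subgroup.center (GU C K)

theorem isChev_iff (G : Type u) [Group G] :
    IsChev C G ↔ ∃ (K : Type u) (_ : Field K) (S : StSys C K G), Good S := by
  constructor
  · rintro ⟨K, hK, Z, hZ, hc, ⟨e⟩⟩
    let φ : GU C K →* G := e.symm.toMonoidHom.comp (QuotientGroup.mk' Z)
    have hφ : Function.Surjective φ :=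
      e.symm.surjective.comp (QuotientGroup.mk'_surjective Z)
    have hl : GU.lift (C1_map (GU.sys C K) φ) = φ := by
      apply GU.hom_ext
      intro β t
      rw [GU.lift_x]
      rfl
    refine ⟨K, hK, C1_map (GU.sys C K) φ, ?_, ?_⟩
    · rw [← GU.lift_range, hl]
      exact MonoidHom.range_eq_top.mpr hφ
    · rw [hl]
      intro y hy
      apply hc
      have h1 : e.symm (QuotientGroup.mk' Z y) = 1 := hy
      have h2 : QuotientGroup.mk' Z y = 1 := by
        rw [← e.symm.map_one] at h1
        exact e.symm.injective h1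
      rwa [← MonoidHom.mem_ker, QuotientGroup.ker_mk'] at h2
  · rintro ⟨K, hK, S, hS⟩
    have hs : Function.Surjective (GU.lift S) := by
      rw [← MonoidHom.range_eq_top, GU.lift_range, hS.gen]
    exact ⟨K, hK, (GU.lift S).ker, inferInstance, hS.ker,
      ⟨(QuotientGroup.quotientKerEquivOfSurjective (GU.lift S) hs).symm⟩⟩

theorem Good.finite {K : Type u} [Field K] [Finite K] {G : Type u} [Group G] {S : StSys C K G}
    (hS : Good S) : Finite G := by
  have h : Finite S.gen := S.finite_gen
  rw [hS.gen] at h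
  exact Finite.of_equiv _ (Subgroup.topEquiv (G := G)).toEquiv

theorem Good.exists_ad {K : Type u} [Field K] [Infinite K] {G : Type u} [Group G]
    {S : StSys C K G} (hS : Good S) : ∃ p : G →* GL C.Idx K,
      (∀ β t, p (S.x β t) = C.xg K β t) ∧ p.range = C.Gad K ∧ p.ker ≤ Subgroup.center G := by
  have hs : Function.Surjective (GU.lift S) := by
    rw [← MonoidHom.range_eq_top, GU.lift_range, hS.gen]
  have hk : (GU.lift S).ker ≤ (GU.lift (C.adS K)).ker := by
    intro z hz
    have hz' := hS.ker hz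
    rw [Subgroup.mem_center_iff] at hz'
    rw [MonoidHom.mem_ker]
    apply C.center_trivial
    · rw [← C.gen_adS, ← GU.lift_range]
      exact ⟨z, rfl⟩
    · intro β t
      have h := congrArg (GU.lift (C.adS K)) (hz' (GU.x C K β t))
      rw [map_mul, map_mul, GU.lift_x] at h
      exact h.symm
  let p : G →* GL C.Idx K :=
    (MonoidHom.liftOfSurjective (GU.lift S) hs) ⟨GU.lift (C.adS K), hk⟩
  have hp : ∀ y, p (GU.lift S y) = GU.lift (C.adS K) y := fun y =>
    MonoidHom.liftOfRightInverse_comp_apply (GU.lift S) _ _ ⟨GU.lift (C.adS K), hk⟩ y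
  have hpx : ∀ β t, p (S.x β t) = C.xg K β t := by
    intro β t
    rw [← GU.lift_x S β t, hp, GU.lift_x]
    rfl
  refine ⟨p, hpx, ?_, ?_⟩
  · rw [← C.gen_adS, ← GU.lift_range]
    ext g
    constructor
    · rintro ⟨x, rfl⟩
      obtain ⟨y, rfl⟩ := hs x
      exact ⟨y, (hp y).symm⟩
    · rintro ⟨y, rfl⟩
      exact ⟨GU.lift S y, hp y⟩
  · intro y hy
    exact C.ker_central S hS.gen p hpx y hy

private theorem C1_lmap_symm (π : Equiv.Perm (Fin n)) (v : Fin n → ℤ) :
    SLC.lmap π⁻¹ (SLC.lmap π v) = v := by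
  funext i
  change v (π.symm (π⁻¹.symm i)) = v i
  congr 1
  exact π.symm_apply_apply i

private theorem C1_f_one (π : Equiv.Perm (Fin n)) (hπ : ∀ i j, C.A (π i) (π j) = C.A i j)
    (hπ' : ∀ i j, C.A (π⁻¹ i) (π⁻¹ j) = C.A i j) (v : Fin n → ℤ) :
    C.eta π⁻¹ (SLC.lmap π v) * C.eta π v = 1 := by
  let f : (Fin n → ℤ) → ℤ := fun v => C.eta π⁻¹ (SLC.lmap π v) * C.eta π v
  have hadd : ∀ v w, f (v + w) = f v * f w := by
    intro v w
    have h1 := C.eta_add π hπ v w
    have h2 := C.eta_add π⁻¹ hπ' (SLC.lmap π v) (SLC.lmap π w)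
    rw [C1_lmap_symm, C1_lmap_symm, ← SLC.lmap_add] at h2
    have h3 := C.eps_ne_zero v w
    have h4 := C.eps_ne_zero (SLC.lmap π v) (SLC.lmap π w)
    have h5 : f (v + w) * (C.eps v w * C.eps (SLC.lmap π v) (SLC.lmap π w)) =
        f v * f w * (C.eps v w * C.eps (SLC.lmap π v) (SLC.lmap π w)) := by
      calc f (v + w) * (C.eps v w * C.eps (SLC.lmap π v) (SLC.lmap π w))
          = (C.eta π⁻¹ (SLC.lmap π (v + w)) * C.eps (SLC.lmap π v) (SLC.lmap π w)) *
            (C.eta π (v + w) * C.eps v w) := by simp only [f]; ring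
        _ = _ := by rw [h1, h2]; simp only [f]; ring
    exact mul_right_cancel₀ (mul_ne_zero h3 h4) h5
  have h0 : f 0 = 1 := by
    have h1 := hadd 0 0
    rw [add_zero] at h1
    have h2 : f 0 * f 0 = 1 := by
      have h3 := C.eta_sq π 0
      have h4 := C.eta_sq π⁻¹ (SLC.lmap π 0)
      calc f 0 * f 0 = (C.eta π⁻¹ (SLC.lmap π 0) * C.eta π⁻¹ (SLC.lmap π 0)) *
            (C.eta π 0 * C.eta π 0) := by simp only [f]; ring
        _ = 1 := by rw [h3, h4]; norm_num
    rw [h1, h2]
  let A : AddSubgroup (Fin n → ℤ) :=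
    { carrier := {v | f v = 1}
      zero_mem' := h0
      add_mem' := by
        intro a b ha hb
        change f (a + b) = 1
        rw [hadd, show f a = 1 from ha, show f b = 1 from hb, mul_one]
      neg_mem' := by
        intro a ha
        change f (-a) = 1
        have h := hadd (-a) a
        rw [neg_add_cancel, h0, show f a = 1 from ha, mul_one] at h
        exact h.symm }
  have hs : ∀ i : Fin n, (Pi.single i 1 : Fin n → ℤ) ∈ A := by
    intro i
    change C.eta π⁻¹ (SLC.lmap π (Pi.single i 1)) * C.eta π (Pi.single i 1) = 1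
    rw [SLC.lmap_single, C.eta_single, C.eta_single, mul_one]
  have hv : v ∈ A := by
    have h : v = ∑ i, v i • (Pi.single i 1 : Fin n → ℤ) := by
      funext j
      simp [Finset.sum_apply, Pi.single_apply]
    rw [h]
    exact AddSubgroup.sum_mem _ fun i _ => AddSubgroup.zsmul_mem _ (hs i) _
  exact hv

private theorem C1_inv {K : Type u} [Field K] (π : Equiv.Perm (Fin n))
    (hπ : ∀ i j, C.A (π i) (π j) = C.A i j) (c : Fin n → K) (hc : ∀ i, c i ≠ 0) :
    Function.Injective (GU.lift ((GU.sys C K).twist 1 π hπ c hc)) := by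
  have hπ' : ∀ i j, C.A (π⁻¹ i) (π⁻¹ j) = C.A i j := by
    intro i j
    have h := hπ (π⁻¹ i) (π⁻¹ j)
    have e : ∀ k, π (π⁻¹ k) = k := fun k => π.apply_symm_apply k
    rw [e, e] at h
    exact h.symm
  let c' : Fin n → K := fun i => (c (π.symm i))⁻¹
  have hc' : ∀ i, c' i ≠ 0 := fun i => inv_ne_zero (hc _)
  have key : (GU.lift ((GU.sys C K).twist 1 π⁻¹ hπ' c' hc')).comp
      (GU.lift ((GU.sys C K).twist 1 π hπ c hc)) = MonoidHom.id _ := by
    apply GU.hom_ext
    intro β t
    rw [MonoidHom.comp_apply, GU.lift_x, StSys.twist_x, map_mul, map_mul, map_inv, map_one,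
      one_mul, inv_one, mul_one]
    change GU.lift _ (GU.x C K _ _) = _
    rw [GU.lift_x, StSys.twist_x, one_mul, inv_one, mul_one, MonoidHom.id_apply]
    change GU.x C K _ _ = _
    have h1 : C.rmap π⁻¹ hπ' (C.rmap π hπ β) = β := by
      apply SLC.Root.ext
      exact C1_lmap_symm π β.1
    have h2 : (∏ i, c' i ^ (C.rmap π hπ β).1 i) * (∏ i, c i ^ β.1 i) = 1 := by
      have h3 : (∏ i, c' i ^ (C.rmap π hπ β).1 i) = ∏ i, ((c i)⁻¹) ^ β.1 i := by
        apply Fintype.prod_equiv π.symm
        intro i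
        rfl
      rw [h3, ← Finset.prod_mul_distrib]
      apply Finset.prod_eq_one
      intro i _
      rw [← mul_zpow, inv_mul_cancel₀ (hc i), _root_.one_zpow]
    have h4 : ((C.eta π⁻¹ (C.rmap π hπ β).1 : ℤ) : K) * ((C.eta π β.1 : ℤ) : K) = 1 := by
      rw [← Int.cast_mul]
      have := C1_f_one (C := C) π hπ hπ' β.1
      change ((C.eta π⁻¹ (SLC.lmap π β.1) * C.eta π β.1 : ℤ) : K) = 1
      rw [this, Int.cast_one]
    rw [h1]
    congr 1
    calc _ = (((C.eta π⁻¹ (C.rmap π hπ β).1 : ℤ) : K) * ((C.eta π β.1 : ℤ) : K)) *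
          ((∏ i, c' i ^ (C.rmap π hπ β).1 i) * (∏ i, c i ^ β.1 i)) * t := by ring
      _ = t := by rw [h2, h4, one_mul, one_mul]
  intro x y hxy
  have hx := DFunLike.congr_fun key x
  have hy := DFunLike.congr_fun key y
  rw [MonoidHom.comp_apply, MonoidHom.id_apply] at hx hy
  rw [← hx, ← hy, hxy]

theorem Good.twist {K : Type u} [Field K] {G : Type u} [Group G] {S : StSys C K G} (hS : Good S)
    (a : G) (π : Equiv.Perm (Fin n)) (hπ : ∀ i j, C.A (π i) (π j) = C.A i j) (c : Fin n → K)
    (hc : ∀ i, c i ≠ 0) : Good (S.twist a π hπ c hc) := by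
  constructor
  · rw [StSys.twist_gen S a (by rw [hS.gen]; exact Subgroup.mem_top a), hS.gen]
  · have key : GU.lift (S.twist a π hπ c hc) = (MulAut.conj a).toMonoidHom.comp
        ((GU.lift S).comp (GU.lift ((GU.sys C K).twist 1 π hπ c hc))) := by
      apply GU.hom_ext
      intro β t
      rw [GU.lift_x, StSys.twist_x, MonoidHom.comp_apply, MonoidHom.comp_apply, GU.lift_x,
        StSys.twist_x, one_mul, inv_one, mul_one]
      change _ = a * GU.lift S (GU.x C K _ _) * a⁻¹
      rw [GU.lift_x]
    intro y hy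
    rw [MonoidHom.mem_ker, key, MonoidHom.comp_apply, MonoidHom.comp_apply] at hy
    have h1 : GU.lift S (GU.lift ((GU.sys C K).twist 1 π hπ c hc) y) = 1 := by
      apply (MulAut.conj a).injective
      rw [map_one]
      exact hy
    have h2 := hS.ker ((MonoidHom.mem_ker).mpr h1)
    rw [Subgroup.mem_center_iff] at h2 ⊢
    intro z
    apply C1_inv π hπ c hc
    rw [map_mul, map_mul]
    exact h2 _

end Pool.Agent.H75.UL
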