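import Pool.Agent.H75.UL.T7
import Pool.Agent.H75.UL.T10

/-!
# Project UL (MP_978914_al), module M0

Base change.

`mp f` applies the ring homomorphism `f` to the entries. `mp_xg`: `X` has entries polynomial in `t`
with integer coefficients. The subgroups `Gad`, `U m`, `T`, `N` are closures, so `Subgroup.map` of
them is contained in the corresponding subgroup (`map_nn`: `mp f (nn (xg K) α t) = nn (xg L) α (f t)`,
`f t⁻¹ = (f t)⁻¹`). `Fil` and nilpotency are preserved, and reflected if `f` is injective.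
`mp_acts`: if `ν ∈ N` acts by `w` then so does `mp f ν` (take `w'` with `Acts (mp f ν) w'` from
`N_acts`; compare on `xg β 1` with `xg_inj`).
-/

set_option autoImplicit false
open Matrix
universe u
namespace Pool.Agent.H75.UL

namespace SLC
variable {n : ℕ} (C : SLC n)

/-- Apply a ring homomorphism to the entries. -/
noncomputable def mp {R R' : Type*} [CommRing R] [CommRing R'] (f : R →+* R') : GL C.Idx R →* GL C.Idx R' :=
  Matrix.GeneralLinearGroup.map f

theorem mp_val {R R' : Type*} [CommRing R] [CommRing R'] (f : R →+* R') (g : GL C.Idx R) :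
    ((C.mp f g : GL C.Idx R') : Matrix C.Idx C.Idx R') = (g : Matrix C.Idx C.Idx R).map f := by
  ext i j
  exact Matrix.GeneralLinearGroup.map_apply f i j g

theorem mp_xg {R R' : Type*} [CommRing R] [CommRing R'] (f : R →+* R') (β : C.Root) (t : R) :
    C.mp f (C.xg R β t) = C.xg R' β (f t) := by
  apply Units.ext
  rw [mp_val]
  change (C.X R β t).map f = C.X R' β (f t)
  unfold X
  ext a b
  simp [Matrix.one_apply, apply_ite f]

theorem mp_Gad {R R' : Type*} [CommRing R] [CommRing R'] (f : R →+* R') (g : GL C.Idx R)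
    (hg : g ∈ C.Gad R) : C.mp f g ∈ C.Gad R' := by
  have h1 : C.Gad R ≤ (C.Gad R').comap (C.mp f) := by
    unfold Gad
    rw [Subgroup.closure_le]
    rintro x ⟨p, rfl⟩
    change C.mp f (C.xg R p.1 p.2) ∈ C.Gad R'
    rw [mp_xg]
    exact Subgroup.subset_closure ⟨(p.1, f p.2), rfl⟩
  exact h1 hg

theorem mp_injective {R R' : Type*} [CommRing R] [CommRing R'] (f : R →+* R')
    (hf : Function.Injective f) : Function.Injective (C.mp f) := by
  intro g h hgh
  apply Units.ext
  have h1 : ((C.mp f g : GL C.Idx R') : Matrix C.Idx C.Idx R') =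
      ((C.mp f h : GL C.Idx R') : Matrix C.Idx C.Idx R') := congrArg _ hgh
  rw [mp_val, mp_val] at h1
  exact Matrix.map_injective hf h1

theorem Fil_map_iff {R R' : Type*} [CommRing R] [CommRing R'] (f : R →+* R')
    (hf : Function.Injective f) (m : ℤ) (M : Matrix C.Idx C.Idx R) :
    C.Fil m (M.map f) ↔ C.Fil m M := by
  constructor
  · intro h a b hab
    have h1 := h a b hab
    rw [Matrix.map_apply] at h1
    exact (map_eq_zero_iff f hf).mp h1
  · intro h a b hab
    rw [Matrix.map_apply, h a b hab, map_zero]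

theorem nilpotent_map_iff {R R' : Type*} [CommRing R] [CommRing R'] (f : R →+* R')
    (hf : Function.Injective f) (M : Matrix C.Idx C.Idx R) :
    IsNilpotent (M.map f) ↔ IsNilpotent M := by
  exact IsNilpotent.map_iff (f := f.mapMatrix) (Matrix.map_injective hf)

section field
variable {K L : Type*} [Field K] [Field L] (f : K →+* L)

theorem mp_U (m : ℤ) (u : GL C.Idx K) (hu : u ∈ (C.adS K).U m) : C.mp f u ∈ (C.adS L).U m := by
  have h1 : (C.adS K).U m ≤ ((C.adS L).U m).comap (C.mp f) := by
    unfold StSys.U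
    rw [Subgroup.closure_le]
    rintro x ⟨β, t, hβ, rfl⟩
    change C.mp f (C.xg K β t) ∈ (C.adS L).U m
    rw [mp_xg]
    exact Subgroup.subset_closure ⟨β, f t, hβ, rfl⟩
  exact h1 hu

theorem mp_T (τ : GL C.Idx K) (hτ : τ ∈ (C.adS K).T) : C.mp f τ ∈ (C.adS L).T := by
  have h1 : (C.adS K).T ≤ ((C.adS L).T).comap (C.mp f) := by
    unfold StSys.T
    rw [Subgroup.closure_le]
    rintro x ⟨α, t, ht, rfl⟩
    refine Subgroup.subset_closure ⟨α, f t, by rwa [Ne, map_eq_zero], ?_⟩
    change C.mp f (hh (C.xg K) α t) = hh (C.xg L) α (f t)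
    unfold hh nn
    simp only [map_mul, mp_xg, map_inv₀, map_neg, map_one]
  exact h1 hτ

theorem mp_N (ν : GL C.Idx K) (hν : ν ∈ (C.adS K).N) : C.mp f ν ∈ (C.adS L).N := by
  have h1 : (C.adS K).N ≤ ((C.adS L).N).comap (C.mp f) := by
    unfold StSys.N
    rw [Subgroup.closure_le]
    rintro x ⟨α, t, ht, rfl⟩
    refine Subgroup.subset_closure ⟨α, f t, by rwa [Ne, map_eq_zero], ?_⟩
    change C.mp f (nn (C.xg K) α t) = nn (C.xg L) α (f t)
    unfold nn
    simp only [map_mul, mp_xg, map_inv₀]
  exact h1 hν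

theorem mp_acts (ν : GL C.Idx K) (w : Equiv.Perm C.Root) (hν : ν ∈ (C.adS K).N)
    (h : (C.adS K).Acts ν w) : (C.adS L).Acts (C.mp f ν) w := by
  obtain ⟨c, hc, hact⟩ := h
  obtain ⟨w', _, hA, _⟩ := (C.adS L).N_acts (C.mp f ν) (C.mp_N f ν hν)
  have hw : w' = w := by
    obtain ⟨c', hc', hact'⟩ := hA
    apply Equiv.ext
    intro β
    have h1 := congrArg (C.mp f) (hact β 1)
    have h2 := hact' β 1
    rw [adS_x] at h1 h2
    rw [map_mul, map_mul, map_inv, mp_xg, mp_xg, map_one] at h1
    rw [h2] at h1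
    refine (C.xg_inj _ _ _ _ ?_ h1).1
    rw [mul_one]
    exact hc' β
  rw [← hw]
  exact hA

theorem mp_lp (t : C.Root → K) : C.mp f ((C.adS K).lp C.posList t) =
    (C.adS L).lp C.posList (fun β => f (t β)) := by
  unfold StSys.lp
  rw [map_list_prod, List.map_map]
  congr 1
  apply List.map_congr_left
  intro β _
  change C.mp f (C.xg K β (t β)) = C.xg L β (f (t β))
  rw [mp_xg]

theorem chi_map (M : Matrix C.Idx C.Idx K) (γ : C.Root) : C.chi (M.map f) γ = f (C.chi M γ) := by
  rfl

end field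

end SLC

end Pool.Agent.H75.UL
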