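import Pool.Agent.H75.UL.T8
import Pool.Agent.H75.UL.T3

/-!
# Project UL (MP_978914_al), module P3a

Strongly regular torus elements and conjugation of the torus.

Data as given by `coords` (P2): `Ψ`, `π`, `φ` with `chi (Ψ (tor v t)) (simple (π i)) =
φ t ^ ip α_i v`.
`exists_regular`: by `chi_prod`, `chi (Ψ (tor v t)) γ = φ t ^ e` with
`e = ∑ i, ip α_i v * γ_{π i}`. Take `v` with `ip α_i v = det * B ^ i` (`exists_coweight`), where
`B = 2 M + 1` and `|γ_j| ≤ M` for all roots (or any integer vector `b` avoiding the finitely many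
hyperplanes `∑ b_i x_{π i} = 0`, `x` a root or a difference of two distinct roots): the exponents
`e_γ` are nonzero and distinct. `k` is infinite, so there is `t ≠ 0` with `t ^ m ≠ 1` for the finitely
many nonzero integers `m = e_γ`, `e_γ - e_γ'` (each excludes finitely many `t`); `φ` is injective.
`exists_semiregular`: `v` with `ip α_i v = 0`, `ip α_j v = det` for `j ≠ i`.
`conj_torus`: `h₀ = tor v t` from `exists_regular`; `Ψ h₀ = τ u` (`upper`), `chi τ = chi (Ψ h₀)`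
(`chi_mul_U`); `conj_T` gives `w ∈ U 1`, `w⁻¹ Ψ(h₀) w = τ`. For `h ∈ S.T`, `h` commutes with `h₀`
(`T_comm`), so `w⁻¹ Ψ(h) w` commutes with `τ`, is in `Gad` and satisfies `Fil 0`: it is in `T`
(`centralizer_B`).
-/

set_option autoImplicit false
open Matrix
universe u
namespace Pool.Agent.H75.UL

namespace SLC
variable {n : ℕ} (C : SLC n) {K : Type*} [Field K]

theorem exists_pow_ne_one {k : Type*} [Field k] [Infinite k] (s : Finset ℤ) (hs : ∀ m ∈ s, m ≠ 0) :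
    ∃ t : k, t ≠ 0 ∧ ∀ m ∈ s, t ^ m ≠ 1 := by
  classical
  obtain ⟨t, ht⟩ := Infinite.exists_notMem_finset
    (insert (0 : k) (s.biUnion fun m => (Polynomial.nthRoots m.natAbs (1 : k)).toFinset))
  rw [Finset.mem_insert, not_or] at ht
  refine ⟨t, ht.1, fun m hm h1 => ht.2 ?_⟩
  rw [Finset.mem_biUnion]
  refine ⟨m, hm, ?_⟩
  have hm0 := hs m hm
  rw [Multiset.mem_toFinset, Polynomial.mem_nthRoots (Int.natAbs_pos.2 hm0)]
  rcases Int.natAbs_eq m with h | h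
  · rw [h, zpow_natCast] at h1
    exact h1
  · rw [h, _root_.zpow_neg, zpow_natCast, inv_eq_one] at h1
    exact h1

private theorem P3a_generic {ι : Type*} [Fintype ι] (x : ι → Fin n → ℤ) (hx : ∀ a, x a ≠ 0) :
    ∃ b : Fin n → ℤ, ∀ a, ∑ i, b i * x a i ≠ 0 := by
  classical
  have hp : ∀ a, (∑ i : Fin n, Polynomial.C (x a i) * Polynomial.X ^ (i : ℕ) :
      Polynomial ℤ) ≠ 0 := by
    intro a h
    apply hx a
    funext i
    have h1 := congrArg (fun p => Polynomial.coeff p (i : ℕ)) h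
    simp only [Polynomial.finsetSum_coeff, Polynomial.coeff_C_mul_X_pow,
      Polynomial.coeff_zero] at h1
    rw [Finset.sum_eq_single i] at h1
    · simpa using h1
    · intro j _ hj
      rw [if_neg]
      intro h2
      exact hj (Fin.ext h2.symm)
    · intro h2
      exact absurd (Finset.mem_univ i) h2
  have hQ : (∏ a, (∑ i : Fin n, Polynomial.C (x a i) * Polynomial.X ^ (i : ℕ) :
      Polynomial ℤ)) ≠ 0 := Finset.prod_ne_zero_iff.2 fun a _ => hp a
  obtain ⟨B, hB⟩ : ∃ B : ℤ, (∏ a, (∑ i : Fin n, Polynomial.C (x a i) * Polynomial.X ^ (i : ℕ) :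
      Polynomial ℤ)).eval B ≠ 0 := by
    by_contra hcon
    push Not at hcon
    exact hQ (Polynomial.funext fun r => by rw [hcon r, Polynomial.eval_zero])
  refine ⟨fun i => B ^ (i : ℕ), fun a h => ?_⟩
  rw [Polynomial.eval_prod, Finset.prod_ne_zero_iff] at hB
  apply hB a (Finset.mem_univ a)
  rw [Polynomial.eval_finsetSum, ← h]
  refine Finset.sum_congr rfl fun i _ => ?_
  rw [Polynomial.eval_mul, Polynomial.eval_C, Polynomial.eval_pow, Polynomial.eval_X, mul_comm]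

private theorem P3a_gad {k : Type*} [Field k] {H : Type*} [Group H]
    (S : StSys C k H) (Ψ : H →* GL C.Idx K) (hΨ : ∀ β t, Ψ (S.x β t) ∈ C.Gad K) {h : H}
    (hh : h ∈ S.T) : Ψ h ∈ C.Gad K := by
  have h1 : S.gen ≤ (C.Gad K).comap Ψ := by
    unfold StSys.gen
    rw [Subgroup.closure_le]
    rintro _ ⟨β, t, rfl⟩
    exact hΨ β t
  exact h1 (S.T_le_gen hh)

private theorem P3a_zpow_sum {F : Type*} [Field F] {ι : Type*} (s : Finset ι) {a : F} (ha : a ≠ 0)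
    (e : ι → ℤ) : ∏ i ∈ s, a ^ e i = a ^ ∑ i ∈ s, e i := by
  classical
  induction s using Finset.induction_on with
  | empty => simp
  | insert i s hi ih => rw [Finset.prod_insert hi, Finset.sum_insert hi, ih, zpow_add₀ ha]

private theorem P3a_chi_tor {k : Type*} [Field k] {H : Type*} [Group H]
    (S : StSys C k H) (Ψ : H →* GL C.Idx K) (hΨ : ∀ β t, Ψ (S.x β t) ∈ C.Gad K)
    (hT : ∀ h ∈ S.T, C.Fil 0 (Ψ h : Matrix C.Idx C.Idx K))
    (π : Equiv.Perm (Fin n)) (φ : k →+* K)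
    (hchi : ∀ v t, t ≠ 0 → ∀ i, C.chi (Ψ (S.tor v t) : Matrix C.Idx C.Idx K) (C.simple (π i)) =
        φ t ^ (C.ip (Pi.single i 1) v)) (v : Fin n → ℤ) (t : k) (ht : t ≠ 0) (γ : C.Root) :
    C.chi (Ψ (S.tor v t) : Matrix C.Idx C.Idx K) γ =
      φ t ^ (∑ i, C.ip (Pi.single i 1) v * γ.1 (π i)) := by
  have hmem := S.tor_mem v t ht
  rw [C.chi_prod _ (C.P3a_gad S Ψ hΨ hmem) (hT _ hmem) γ, ← Equiv.prod_comp π,
    ← P3a_zpow_sum _ ((map_ne_zero φ).2 ht)]
  refine Finset.prod_congr rfl fun i _ => ?_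
  rw [hchi v t ht i, _root_.zpow_mul]

theorem exists_regular {k : Type*} [Field k] [Infinite k] {H : Type*} [Group H]
    (S : StSys C k H) (Ψ : H →* GL C.Idx K) (hΨ : ∀ β t, Ψ (S.x β t) ∈ C.Gad K)
    (hT : ∀ h ∈ S.T, C.Fil 0 (Ψ h : Matrix C.Idx C.Idx K))
    (π : Equiv.Perm (Fin n)) (φ : k →+* K)
    (hchi : ∀ v t, t ≠ 0 → ∀ i, C.chi (Ψ (S.tor v t) : Matrix C.Idx C.Idx K) (C.simple (π i)) =
        φ t ^ (C.ip (Pi.single i 1) v)) :
    ∃ (v : Fin n → ℤ) (t : k), t ≠ 0 ∧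
      (∀ γ, C.chi (Ψ (S.tor v t) : Matrix C.Idx C.Idx K) γ ≠ 1) ∧
      Function.Injective (C.chi (Ψ (S.tor v t) : Matrix C.Idx C.Idx K)) := by
  classical
  obtain ⟨b, hb⟩ := P3a_generic (n := n)
    (Sum.elim (fun γ : C.Root => fun i => γ.1 (π i))
      (fun q : {q : C.Root × C.Root // q.1 ≠ q.2} => fun i => q.1.1.1 (π i) - q.1.2.1 (π i)))
    (by
      rintro (γ | ⟨⟨γ, γ'⟩, hne⟩) h
      · apply C.root_ne_zero γ
        funext j
        have h1 := congrFun h (π.symm j)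
        simpa using h1
      · apply hne
        apply Root.ext
        funext j
        have h1 := congrFun h (π.symm j)
        simp only [Sum.elim_inr, Equiv.apply_symm_apply, Pi.zero_apply] at h1
        show γ.1 j = γ'.1 j
        omega)
  obtain ⟨v, hv⟩ := C.exists_coweight b
  obtain ⟨t, ht0, ht⟩ := exists_pow_ne_one (k := k)
    (Finset.univ.image fun a => C.A.det * ∑ i, b i *
      (Sum.elim (fun γ : C.Root => fun i => γ.1 (π i))
      (fun q : {q : C.Root × C.Root // q.1 ≠ q.2} => fun i =>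
        q.1.1.1 (π i) - q.1.2.1 (π i)) a) i) (by
      intro m hm
      obtain ⟨a, _, rfl⟩ := Finset.mem_image.1 hm
      exact mul_ne_zero C.det_ne_zero (hb a))
  have hexp : ∀ γ : C.Root, ∑ i, C.ip (Pi.single i 1) v * γ.1 (π i) =
      C.A.det * ∑ i, b i * γ.1 (π i) := by
    intro γ
    rw [Finset.mul_sum]
    refine Finset.sum_congr rfl fun i _ => ?_
    rw [hv i, mul_assoc]
  refine ⟨v, t, ht0, fun γ h => ?_, fun γ γ' h => ?_⟩
  · rw [C.P3a_chi_tor S Ψ hΨ hT π φ hchi v t ht0 γ, ← map_zpow₀, hexp] at h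
    have h1 : t ^ (C.A.det * ∑ i, b i * γ.1 (π i)) = 1 := by
      apply φ.injective
      rw [h, map_one]
    exact ht _ (Finset.mem_image.2 ⟨Sum.inl γ, Finset.mem_univ _, rfl⟩) h1
  · by_contra hne
    rw [C.P3a_chi_tor S Ψ hΨ hT π φ hchi v t ht0 γ, C.P3a_chi_tor S Ψ hΨ hT π φ hchi v t ht0 γ',
      ← map_zpow₀, ← map_zpow₀, hexp, hexp] at h
    have h1 := φ.injective h
    have h2 : t ^ (C.A.det * ∑ i, b i * (γ.1 (π i) - γ'.1 (π i))) = 1 := by
      have h3 : C.A.det * ∑ i, b i * (γ.1 (π i) - γ'.1 (π i)) =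
          C.A.det * ∑ i, b i * γ.1 (π i) - C.A.det * ∑ i, b i * γ'.1 (π i) := by
        rw [← mul_sub, ← Finset.sum_sub_distrib]
        congr 1
        refine Finset.sum_congr rfl fun i _ => ?_
        ring
      rw [h3, zpow_sub₀ ht0, h1, div_self]
      exact zpow_ne_zero _ ht0
    exact ht _ (Finset.mem_image.2 ⟨Sum.inr ⟨(γ, γ'), hne⟩, Finset.mem_univ _, rfl⟩) h2

theorem chi_tor {k : Type*} [Field k] {H : Type*} [Group H]
    (S : StSys C k H) (Ψ : H →* GL C.Idx K) (hΨ : ∀ β t, Ψ (S.x β t) ∈ C.Gad K)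
    (hT : ∀ h ∈ S.T, C.Fil 0 (Ψ h : Matrix C.Idx C.Idx K))
    (π : Equiv.Perm (Fin n)) (φ : k →+* K)
    (hchi : ∀ v t, t ≠ 0 → ∀ i, C.chi (Ψ (S.tor v t) : Matrix C.Idx C.Idx K) (C.simple (π i)) =
        φ t ^ (C.ip (Pi.single i 1) v)) (v : Fin n → ℤ) (t : k) (ht : t ≠ 0) (γ : C.Root) :
    C.chi (Ψ (S.tor v t) : Matrix C.Idx C.Idx K) γ =
      φ t ^ (∑ i, C.ip (Pi.single i 1) v * γ.1 (π i)) :=
  C.P3a_chi_tor S Ψ hΨ hT π φ hchi v t ht γ

theorem exists_semiregular {k : Type*} [Field k] [Infinite k] {H : Type*} [Group H]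
    (S : StSys C k H) (Ψ : H →* GL C.Idx K) (hΨ : ∀ β t, Ψ (S.x β t) ∈ C.Gad K)
    (hT : ∀ h ∈ S.T, C.Fil 0 (Ψ h : Matrix C.Idx C.Idx K))
    (π : Equiv.Perm (Fin n)) (φ : k →+* K)
    (hchi : ∀ v t, t ≠ 0 → ∀ i, C.chi (Ψ (S.tor v t) : Matrix C.Idx C.Idx K) (C.simple (π i)) =
        φ t ^ (C.ip (Pi.single i 1) v)) (i : Fin n) :
    ∃ (v : Fin n → ℤ) (t : k), t ≠ 0 ∧ C.ip v (C.simple i).1 = 0 ∧
      (∀ γ : C.Root, γ ≠ C.simple (π i) → γ ≠ -(C.simple (π i)) →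
        C.chi (Ψ (S.tor v t) : Matrix C.Idx C.Idx K) γ ≠ 1) ∧
      C.chi (Ψ (S.tor v t) : Matrix C.Idx C.Idx K) (C.simple (π i)) = 1 ∧
      C.chi (Ψ (S.tor v t) : Matrix C.Idx C.Idx K) (-(C.simple (π i))) = 1 := by
  classical
  obtain ⟨v, hv⟩ := C.exists_coweight (fun j => if j = i then 0 else 1)
  have hexp : ∀ γ : C.Root, ∑ j, C.ip (Pi.single j 1) v * γ.1 (π j) =
      C.A.det * ∑ j, (if j = i then 0 else γ.1 (π j)) := by
    intro γ
    rw [Finset.mul_sum]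
    refine Finset.sum_congr rfl fun j _ => ?_
    rw [hv j]
    split_ifs <;> ring
  obtain ⟨t, ht0, ht⟩ := exists_pow_ne_one (k := k)
    ((Finset.univ.filter fun γ : C.Root => γ ≠ C.simple (π i) ∧ γ ≠ -(C.simple (π i))).image
      fun γ => C.A.det * ∑ j, (if j = i then 0 else γ.1 (π j))) (by
      intro m hm
      obtain ⟨γ, hγ, rfl⟩ := Finset.mem_image.1 hm
      obtain ⟨h1, h2⟩ := (Finset.mem_filter.1 hγ).2
      refine mul_ne_zero C.det_ne_zero ?_
      obtain ⟨j', hj', hne⟩ := C.exists_other γ (π i) h1 h2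
      obtain ⟨j, rfl⟩ := π.surjective j'
      have hji : j ≠ i := fun h => hj' (by rw [h])
      rcases C.pos_or_neg γ with hp | hn
      · have h3 : (if j = i then 0 else γ.1 (π j)) ≤ ∑ j, (if j = i then 0 else γ.1 (π j)) := by
          refine Finset.single_le_sum (f := fun j => if j = i then (0 : ℤ) else γ.1 (π j))
            (fun j _ => ?_) (Finset.mem_univ j)
          show 0 ≤ if j = i then (0 : ℤ) else γ.1 (π j)
          split_ifs
          · exact le_rfl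
          · exact hp _
        rw [if_neg hji] at h3
        have := hp (π j)
        omega
      · have h3 : -(if j = i then 0 else γ.1 (π j)) ≤
            ∑ j, -(if j = i then 0 else γ.1 (π j)) := by
          refine Finset.single_le_sum (f := fun j => -(if j = i then (0 : ℤ) else γ.1 (π j)))
            (fun j _ => ?_) (Finset.mem_univ j)
          show 0 ≤ -(if j = i then (0 : ℤ) else γ.1 (π j))
          split_ifs
          · norm_num
          · have := hn (π j)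
            omega
        rw [if_neg hji, Finset.sum_neg_distrib] at h3
        have := hn (π j)
        omega)
  have hvi : C.ip (Pi.single i 1) v = 0 := by
    rw [hv i, if_pos rfl, mul_zero]
  refine ⟨v, t, ht0, ?_, fun γ h1 h2 h => ?_, ?_, ?_⟩
  · rw [C.ip_comm]
    exact hvi
  · rw [C.P3a_chi_tor S Ψ hΨ hT π φ hchi v t ht0 γ, ← map_zpow₀, hexp] at h
    have h3 : t ^ (C.A.det * ∑ j, (if j = i then 0 else γ.1 (π j))) = 1 := by
      apply φ.injective
      rw [h, map_one]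
    exact ht _ (Finset.mem_image.2 ⟨γ, Finset.mem_filter.2 ⟨Finset.mem_univ _, h1, h2⟩, rfl⟩) h3
  · rw [hchi v t ht0 i, hvi, zpow_zero]
  · rw [C.P3a_chi_tor S Ψ hΨ hT π φ hchi v t ht0, hexp]
    have h3 : ∑ j, (if j = i then 0 else (-(C.simple (π i))).1 (π j)) = 0 := by
      refine Finset.sum_eq_zero fun j _ => ?_
      split_ifs with h4
      · rfl
      · have h5 : π j ≠ π i := fun h => h4 (π.injective h)
        rw [Root.neg_val, simple_val, Pi.neg_apply, Pi.single_eq_of_ne h5, neg_zero]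
    rw [h3, mul_zero, zpow_zero]

theorem conj_torus {k : Type*} [Field k] [Infinite k] {H : Type*} [Group H]
    (S : StSys C k H) (Ψ : H →* GL C.Idx K) (hΨ : ∀ β t, Ψ (S.x β t) ∈ C.Gad K)
    (hT : ∀ h ∈ S.T, C.Fil 0 (Ψ h : Matrix C.Idx C.Idx K))
    (π : Equiv.Perm (Fin n)) (φ : k →+* K)
    (hchi : ∀ v t, t ≠ 0 → ∀ i, C.chi (Ψ (S.tor v t) : Matrix C.Idx C.Idx K) (C.simple (π i)) =
        φ t ^ (C.ip (Pi.single i 1) v)) :
    ∃ w ∈ (C.adS K).U 1, ∀ h ∈ S.T, w⁻¹ * Ψ h * w ∈ (C.adS K).T := by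
  obtain ⟨v, t, ht0, hr1, _⟩ := C.exists_regular S Ψ hΨ hT π φ hchi
  have hmem := S.tor_mem v t ht0
  obtain ⟨τ, hτ, u, hu, hτu⟩ := C.upper (Ψ (S.tor v t)) (C.P3a_gad S Ψ hΨ hmem) (hT _ hmem)
  have hreg : ∀ γ, C.Pos γ → C.chi (τ : Matrix C.Idx C.Idx K) γ ≠ 1 := by
    intro γ _
    rw [← C.chi_mul_U τ u hτ hu γ, ← hτu]
    exact hr1 γ
  obtain ⟨w, hw, hwt⟩ := C.conj_T τ u hτ hu hreg
  refine ⟨w, hw, fun h hh => ?_⟩
  have hwg : w ∈ C.Gad K := by
    rw [← C.gen_adS K]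
    exact (C.adS K).U_le_gen 1 hw
  have hb : w⁻¹ * Ψ h * w ∈ C.Gad K :=
    mul_mem (mul_mem (inv_mem hwg) (C.P3a_gad S Ψ hΨ hh)) hwg
  have hb0 : C.Fil 0 ((w⁻¹ * Ψ h * w : GL C.Idx K) : Matrix C.Idx C.Idx K) := by
    have h1 := C.Fil_mul (C.Fil_mul (C.Fil_U_zero w⁻¹ (inv_mem hw)) (hT h hh)) (C.Fil_U_zero w hw)
    rw [Units.val_mul, Units.val_mul]
    exact h1
  refine C.centralizer_B τ (w⁻¹ * Ψ h * w) hτ hb hb0 hreg ?_
  rw [← hτu] at hwt
  have hcomm : Ψ (S.tor v t) * Ψ h = Ψ h * Ψ (S.tor v t) := by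
    rw [← map_mul, ← map_mul, S.T_comm _ _ hmem hh]
  calc τ * (w⁻¹ * Ψ h * w) = w⁻¹ * Ψ (S.tor v t) * w * (w⁻¹ * Ψ h * w) := by rw [hwt]
    _ = w⁻¹ * (Ψ (S.tor v t) * Ψ h) * w := by group
    _ = w⁻¹ * (Ψ h * Ψ (S.tor v t)) * w := by rw [hcomm]
    _ = w⁻¹ * Ψ h * w * (w⁻¹ * Ψ (S.tor v t) * w) := by group
    _ = w⁻¹ * Ψ h * w * τ := by rw [hwt]

end SLC

end Pool.Agent.H75.UL
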