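import Pool.Agent.H75.UL.Defs

/-!
# Project UL (MP_978914_al), module P3f

Two field lemmas.

`pow_mem_of_fixed`: let `f = minpoly K x`. Every root `y` of `f` in `L` is `σ x` for some
`σ : L ≃ₐ[K] L` (`L` is an algebraic closure, normal over `K`; e.g. `minpoly.exists_algEquiv_of_root'`
or `exists_algEquiv...`), so `y = x`; so `f` has a single root in `L`, its separable degree is `1` and
`minpoly.natSepDegree_eq_one_iff_pow_mem` (Mathlib) gives `x ^ q ^ m ∈ K`.
`eigenvalue_mem`: `A` over `K`, `A_L = g D g⁻¹` with `D` diagonal, `D a = x`, `x ^ Q ∈ K` where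
`Q = q ^ m`, `q` the exponential characteristic. Over `L`: `A_L ^ Q - x ^ Q = (A_L - x) ^ Q`
(`sub_pow_expChar_pow` for commuting elements) is singular (its conjugate has the diagonal entry
`0`), and it is the image of a matrix over `K` (if `x ^ Q = algebraMap y`: `A ^ Q - y`), so there is
`v ≠ 0` over `K` with `(A ^ Q - y) v = 0` (determinant zero). So `(A_L - x)^Q v = 0`, and since
`A_L - x` is diagonalizable, `(A_L - x) v = 0` (`D' = D - x`: `D'^Q z = 0 → D' z = 0`). So
`x v = A v` has coordinates in `K`; `v` has a nonzero coordinate in `K`: `x ∈ K`.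
-/

set_option autoImplicit false
open Matrix
universe u
namespace Pool.Agent.H75.UL

theorem pow_mem_of_fixed {K L : Type*} [Field K] [Field L] [Algebra K L] [IsAlgClosure K L] (q : ℕ)
    [ExpChar K q] (x : L) (hx : ∀ σ : L ≃ₐ[K] L, σ x = x) :
    ∃ m : ℕ, x ^ q ^ m ∈ Set.range (algebraMap K L) := by
  classical
  have h1 : IsAlgClosed L := IsAlgClosure.isAlgClosed K
  have h2 : Algebra.IsAlgebraic K L := IsAlgClosure.isAlgebraic
  have h3 : Normal K L := inferInstance
  have h4 : (minpoly K x).natSepDegree = 1 := by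
    rw [Polynomial.natSepDegree_eq_of_isAlgClosed (E := L), Finset.card_eq_one]
    refine ⟨x, ?_⟩
    ext y
    rw [Multiset.mem_toFinset, Polynomial.mem_aroots, Finset.mem_singleton]
    constructor
    · rintro ⟨_, hy⟩
      obtain ⟨σ, hσ⟩ := minpoly.exists_algEquiv_of_root' (h2.isAlgebraic x) hy
      rw [← hσ]
      exact hx σ
    · rintro rfl
      exact ⟨minpoly.ne_zero (h2.isAlgebraic y).isIntegral, minpoly.aeval K y⟩
  obtain ⟨m, y, hy⟩ := (minpoly.natSepDegree_eq_one_iff_pow_mem q).1 h4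
  exact ⟨m, y, hy⟩

theorem eigenvalue_mem {K L ι : Type*} [Field K] [Field L] [Algebra K L] [Fintype ι]
    [DecidableEq ι] (q : ℕ) [ExpChar K q] (A : Matrix ι ι K) (g : GL ι L) (D : ι → L)
    (h : A.map (algebraMap K L) = (g : Matrix ι ι L) * Matrix.diagonal D * ((g⁻¹ : GL ι L) : Matrix ι ι L))
    (a : ι) (m : ℕ) (hx : D a ^ q ^ m ∈ Set.range (algebraMap K L)) :
    D a ∈ Set.range (algebraMap K L) := by
  obtain ⟨y, hy⟩ := hx
  have hq : ExpChar L q := expChar_of_injective_algebraMap (algebraMap K L).injective q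
  have hgg : ((g⁻¹ : GL ι L) : Matrix ι ι L) * (g : Matrix ι ι L) = 1 := by
    rw [← Units.val_mul, inv_mul_cancel, Units.val_one]
  have hgg' : (g : Matrix ι ι L) * ((g⁻¹ : GL ι L) : Matrix ι ι L) = 1 := by
    rw [← Units.val_mul, mul_inv_cancel, Units.val_one]
  -- `A_L g = g D`
  have hA : A.map (algebraMap K L) * (g : Matrix ι ι L) = g * Matrix.diagonal D := by
    rw [h, mul_assoc, hgg, mul_one]
  have hpow : ∀ k : ℕ, (A.map (algebraMap K L)) ^ k * (g : Matrix ι ι L) =
      g * Matrix.diagonal (fun i => D i ^ k) := by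
    intro k
    induction k with
    | zero => simp
    | succ k ih =>
      rw [pow_succ, mul_assoc, hA, ← mul_assoc, ih, mul_assoc, Matrix.diagonal_mul_diagonal]
      congr 1
      ext i j
      by_cases hij : i = j
      · subst hij
        simp [pow_succ]
      · simp [hij]
  set N : Matrix ι ι K := A ^ q ^ m - y • (1 : Matrix ι ι K) with hN
  have hmap : (algebraMap K L).mapMatrix N =
      (A.map (algebraMap K L)) ^ q ^ m - (D a ^ q ^ m) • (1 : Matrix ι ι L) := by
    rw [hN, map_sub, map_pow, ← hy]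
    congr 1
    ext i j
    by_cases hij : i = j
    · subst hij
      simp
    · simp [hij]
  have hNg : (algebraMap K L).mapMatrix N * (g : Matrix ι ι L) =
      g * Matrix.diagonal (fun i => D i ^ q ^ m - D a ^ q ^ m) := by
    rw [hmap, sub_mul, hpow, smul_mul_assoc, one_mul]
    have h1 : Matrix.diagonal (fun i => D i ^ q ^ m - D a ^ q ^ m) =
        Matrix.diagonal (fun i => D i ^ q ^ m) - (D a ^ q ^ m) • (1 : Matrix ι ι L) := by
      ext i j
      by_cases hij : i = j
      · subst hij
        simp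
      · simp [hij]
    rw [h1, mul_sub, mul_smul_comm, mul_one]
  have hdet : N.det = 0 := by
    have h1 := congrArg Matrix.det hNg
    rw [Matrix.det_mul, Matrix.det_mul, Matrix.det_diagonal,
      Finset.prod_eq_zero (Finset.mem_univ a) (sub_self _), mul_zero] at h1
    have h2 : (g : Matrix ι ι L).det ≠ 0 := by
      intro h3
      have h4 := congrArg Matrix.det hgg
      rw [Matrix.det_mul, h3, mul_zero, Matrix.det_one] at h4
      exact zero_ne_one h4
    rcases mul_eq_zero.1 h1 with h3 | h3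
    · rw [← RingHom.map_det] at h3
      exact (map_eq_zero_iff _ (algebraMap K L).injective).1 h3
    · exact absurd h3 h2
  obtain ⟨v, hv0, hv⟩ := Matrix.exists_mulVec_eq_zero_iff.2 hdet
  set v' : ι → L := fun i => algebraMap K L (v i) with hv'
  set w : ι → L := ((g⁻¹ : GL ι L) : Matrix ι ι L) *ᵥ v' with hw
  have hgw : (g : Matrix ι ι L) *ᵥ w = v' := by
    rw [hw, Matrix.mulVec_mulVec, hgg', Matrix.one_mulVec]
  have hNv : (algebraMap K L).mapMatrix N *ᵥ v' = 0 := by
    funext i
    have h1 := RingHom.map_mulVec (algebraMap K L) N v i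
    rw [hv] at h1
    rw [Pi.zero_apply, map_zero] at h1
    rw [Pi.zero_apply]
    exact h1.symm
  have hDw : ∀ i, (D i ^ q ^ m - D a ^ q ^ m) * w i = 0 := by
    have h1 : (g : Matrix ι ι L) *ᵥ (Matrix.diagonal (fun i => D i ^ q ^ m - D a ^ q ^ m) *ᵥ w) = 0 := by
      rw [Matrix.mulVec_mulVec, ← hNg, ← Matrix.mulVec_mulVec, hgw, hNv]
    have h2 : Matrix.diagonal (fun i => D i ^ q ^ m - D a ^ q ^ m) *ᵥ w = 0 := by
      have h3 := congrArg (fun u => ((g⁻¹ : GL ι L) : Matrix ι ι L) *ᵥ u) h1
      simp only [Matrix.mulVec_mulVec, Matrix.mulVec_zero] at h3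
      rwa [← mul_assoc, hgg, one_mul] at h3
    intro i
    have h3 := congrFun h2 i
    rwa [Matrix.mulVec_diagonal, Pi.zero_apply] at h3
  have hDw' : Matrix.diagonal D *ᵥ w = D a • w := by
    funext i
    rw [Matrix.mulVec_diagonal, Pi.smul_apply, smul_eq_mul]
    have h1 := hDw i
    rw [← sub_pow_expChar_pow] at h1
    rcases mul_eq_zero.1 h1 with h2 | h2
    · have h3 : D i - D a = 0 := by
        by_contra h4
        exact pow_ne_zero _ h4 h2
      rw [sub_eq_zero.1 h3]
    · rw [h2, mul_zero, mul_zero]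
  have hAv : A.map (algebraMap K L) *ᵥ v' = D a • v' := by
    rw [← hgw, Matrix.mulVec_mulVec, hA, ← Matrix.mulVec_mulVec, hDw', Matrix.mulVec_smul]
  obtain ⟨i, hi⟩ := Function.ne_iff.1 hv0
  rw [Pi.zero_apply] at hi
  refine ⟨(A *ᵥ v) i / v i, ?_⟩
  have h1 := congrFun hAv i
  have h2 := RingHom.map_mulVec (algebraMap K L) A v i
  have h3 : algebraMap K L ((A *ᵥ v) i) = D a * algebraMap K L (v i) := by
    rw [h2]
    exact h1
  have h4 : algebraMap K L (v i) ≠ 0 := (map_ne_zero_iff _ (algebraMap K L).injective).2 hi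
  rw [map_div₀, h3, mul_div_cancel_right₀ _ h4]

end Pool.Agent.H75.UL
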