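import Pool.Agent.H75.UL.M0
import Pool.Agent.H75.UL.P3f
import Pool.Agent.H75.UL.P3a

/-!
# Project UL (MP_978914_al), module P3b

The field embedding has values in `K`.

Notation: `L` is an algebraic closure of `K`, `mp = C.mp (algebraMap K L)`. It is enough to show
`φ t ∈ range (algebraMap K L)` for all `t ≠ 0` (the range is a subfield; then lift `φ`, e.g. with
`RingHom.codRestrict` and the inverse of `algebraMap` on its range). Let `i = 0`, `j` adjacent to `i`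
(`exists_adjacent`, `n ≥ 2`), `v = -single j`, so `ip α_i v = 1`; `h = S.tor v t ∈ S.T`,
`M = g⁻¹ mp(Ψ h) g ∈ T` diagonal (`T_diag`), `φ t = chi M (simple (π i))`.
(1) `φ t` is fixed by every `σ : L ≃ₐ[K] L`: let `g' = C.mp σ g ∈ Gad L`. For `u ∈ S.U 1`,
`g'⁻¹ mp(Ψ u) g' = C.mp σ (g⁻¹ mp(Ψ u) g)` (entries of `mp(Ψ u)` are in `K`) satisfies `Fil 0`, so by
`huniq`, `b = g⁻¹ g'` satisfies `Fil 0`. `C.mp σ M = g'⁻¹ mp(Ψ h) g' = b⁻¹ M b`, so
`chi (C.mp σ M) γ = chi M γ` (`chi_mul`, `upper_inv`), and `chi (C.mp σ M) γ = σ (chi M γ)`.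
(2) `pow_mem_of_fixed` and `eigenvalue_mem` (with `A = Ψ h`, `D` the diagonal of `M`).
-/

set_option autoImplicit false
open Matrix
universe u
namespace Pool.Agent.H75.UL

namespace SLC
variable {n : ℕ} (C : SLC n)

theorem P3b_mp_fix {K L : Type*} [Field K] [Field L] [Algebra K L] (σ : L ≃ₐ[K] L)
    (x : GL C.Idx K) : C.mp (σ : L →+* L) (C.mp (algebraMap K L) x) =
      C.mp (algebraMap K L) x := by
  apply Units.ext
  rw [mp_val, mp_val]
  ext a b
  simp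

theorem P3b_T_le {L : Type*} [Field L] (τ : GL C.Idx L) (hτ : τ ∈ (C.adS L).T) :
    τ ∈ C.Gad L := by
  rw [← gen_adS]
  exact (C.adS L).T_le_gen hτ

/-- Conjugation by an upper triangular element does not change the diagonal entries. -/
theorem P3b_chi_conj {L : Type*} [Field L] (M b : GL C.Idx L) (hM : M ∈ C.Gad L)
    (hM0 : C.Fil 0 (M : Matrix C.Idx C.Idx L)) (hb : b ∈ C.Gad L)
    (hb0 : C.Fil 0 (b : Matrix C.Idx C.Idx L)) (γ : C.Root) :
    C.chi ((b⁻¹ * M * b : GL C.Idx L) : Matrix C.Idx C.Idx L) γ =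
      C.chi (M : Matrix C.Idx C.Idx L) γ := by
  have hbi : b⁻¹ ∈ C.Gad L := inv_mem hb
  have hbi0 := C.upper_inv b hb hb0
  have h1 : C.Fil 0 ((b⁻¹ * M : GL C.Idx L) : Matrix C.Idx C.Idx L) := by
    have h := C.Fil_mul hbi0 hM0
    rw [add_zero] at h
    exact h
  rw [C.chi_mul (b⁻¹ * M) b (mul_mem hbi hM) hb h1 hb0, C.chi_mul b⁻¹ M hbi hM hbi0 hM0]
  have h2 := C.chi_mul b⁻¹ b hbi hb hbi0 hb0 γ
  rw [inv_mul_cancel] at h2
  have h3 : C.chi ((1 : GL C.Idx L) : Matrix C.Idx C.Idx L) γ = 1 := by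
    simp [chi]
  rw [h3] at h2
  linear_combination (-C.chi (M : Matrix C.Idx C.Idx L) γ) * h2

/-- The diagonal entries of the torus elements are fixed by all automorphisms. -/
theorem P3b_fixed {k : Type*} [Field k] {H : Type*} [Group H]
    (S : StSys C k H) {K L : Type*} [Field K] [Field L] [Algebra K L]
    (Ψ : H →* GL C.Idx K) (g : GL C.Idx L) (hg : g ∈ C.Gad L)
    (hU : ∀ u ∈ S.U 1, g⁻¹ * C.mp (algebraMap K L) (Ψ u) * g ∈ (C.adS L).U 1)
    (huniq : ∀ g' ∈ C.Gad L, (∀ u ∈ S.U 1, C.Fil 0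
      ((g'⁻¹ * C.mp (algebraMap K L) (Ψ u) * g' : GL C.Idx L) : Matrix C.Idx C.Idx L)) →
      C.Fil 0 ((g⁻¹ * g' : GL C.Idx L) : Matrix C.Idx C.Idx L))
    (h : H) (hT : g⁻¹ * C.mp (algebraMap K L) (Ψ h) * g ∈ (C.adS L).T) (σ : L ≃ₐ[K] L)
    (γ : C.Root) :
    σ (C.chi ((g⁻¹ * C.mp (algebraMap K L) (Ψ h) * g : GL C.Idx L) :
      Matrix C.Idx C.Idx L) γ) =
    C.chi ((g⁻¹ * C.mp (algebraMap K L) (Ψ h) * g : GL C.Idx L) :
      Matrix C.Idx C.Idx L) γ := by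
  have hg' : C.mp (σ : L →+* L) g ∈ C.Gad L := C.mp_Gad _ g hg
  have hconj : ∀ x : GL C.Idx K, (C.mp (σ : L →+* L) g)⁻¹ * C.mp (algebraMap K L) x *
      C.mp (σ : L →+* L) g = C.mp (σ : L →+* L) (g⁻¹ * C.mp (algebraMap K L) x * g) := by
    intro x
    rw [map_mul, map_mul, map_inv, C.P3b_mp_fix σ x]
  have hb0 := huniq _ hg' (by
    intro u hu
    rw [hconj]
    exact C.Fil_U_zero _ (C.mp_U _ 1 _ (hU u hu)))
  have h1 := C.P3b_chi_conj _ (g⁻¹ * C.mp (σ : L →+* L) g) (C.P3b_T_le _ hT) (C.Fil_T _ hT)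
    (mul_mem (inv_mem hg) hg') hb0 γ
  have h2 : (g⁻¹ * C.mp (σ : L →+* L) g)⁻¹ * (g⁻¹ * C.mp (algebraMap K L) (Ψ h) * g) *
      (g⁻¹ * C.mp (σ : L →+* L) g) = C.mp (σ : L →+* L)
        (g⁻¹ * C.mp (algebraMap K L) (Ψ h) * g) := by
    rw [← hconj]
    group
  rw [h2, mp_val, chi_map] at h1
  exact h1

theorem phi_mem (hn : 2 ≤ n) {k : Type*} [Field k] {H : Type*} [Group H]
    (S : StSys C k H) {K L : Type*} [Field K] [Field L] [Algebra K L] [IsAlgClosure K L]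
    (Ψ : H →* GL C.Idx K) (hΨ : ∀ β t, Ψ (S.x β t) ∈ C.Gad K) (g : GL C.Idx L)
    (hg : g ∈ C.Gad L)
    (hU : ∀ u ∈ S.U 1, g⁻¹ * C.mp (algebraMap K L) (Ψ u) * g ∈ (C.adS L).U 1)
    (huniq : ∀ g' ∈ C.Gad L, (∀ u ∈ S.U 1, C.Fil 0
      ((g'⁻¹ * C.mp (algebraMap K L) (Ψ u) * g' : GL C.Idx L) : Matrix C.Idx C.Idx L)) →
      C.Fil 0 ((g⁻¹ * g' : GL C.Idx L) : Matrix C.Idx C.Idx L))
    (hT : ∀ h ∈ S.T, g⁻¹ * C.mp (algebraMap K L) (Ψ h) * g ∈ (C.adS L).T)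
    (π : Equiv.Perm (Fin n)) (φ : k →+* L)
    (hchi : ∀ v t, t ≠ 0 → ∀ i,
      C.chi ((g⁻¹ * C.mp (algebraMap K L) (Ψ (S.tor v t)) * g : GL C.Idx L) :
        Matrix C.Idx C.Idx L) (C.simple (π i)) = φ t ^ (C.ip (Pi.single i 1) v)) :
    ∃ φ₀ : k →+* K, (algebraMap K L).comp φ₀ = φ := by
  -- the diagonal entry
  have key : ∀ t : k, t ≠ 0 → φ t ∈ Set.range (algebraMap K L) := by
    intro t ht
    have i₀ : Fin n := ⟨0, by omega⟩
    obtain ⟨j, _, hj⟩ := C.exists_adjacent hn i₀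
    have hv : C.ip (Pi.single i₀ 1) (-Pi.single j 1) = 1 := by
      rw [ip_neg_right, ip_single, hj]
      norm_num
    have hh := S.tor_mem (-Pi.single j 1) t ht
    have hM := hT _ hh
    have h1 := hchi (-Pi.single j 1) t ht i₀
    rw [hv, zpow_one] at h1
    have h2 : ∀ σ : L ≃ₐ[K] L, σ (φ t) = φ t := by
      intro σ
      rw [← h1]
      exact C.P3b_fixed S Ψ g hg hU huniq _ hM σ _
    obtain ⟨m, hm⟩ := pow_mem_of_fixed (ringExpChar K) (φ t) h2
    obtain ⟨D, hD⟩ : ∃ D : C.Idx → L,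
        ((g⁻¹ * C.mp (algebraMap K L) (Ψ (S.tor (-Pi.single j 1) t)) * g : GL C.Idx L) :
          Matrix C.Idx C.Idx L) = Matrix.diagonal D := by
      obtain ⟨c, hc⟩ := C.T_diag _ hM
      exact ⟨_, hc⟩
    rw [hD] at h1
    have h3 : D (Sum.inr (C.simple (π i₀))) = φ t := by
      rw [← h1]
      unfold chi
      rw [diagonal_apply_eq]
    have h4 : ((Ψ (S.tor (-Pi.single j 1) t) : GL C.Idx K) : Matrix C.Idx C.Idx K).map
        (algebraMap K L) = (g : Matrix C.Idx C.Idx L) * Matrix.diagonal D *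
          ((g⁻¹ : GL C.Idx L) : Matrix C.Idx C.Idx L) := by
      rw [← hD, ← mp_val, ← Units.val_mul, ← Units.val_mul]
      congr 1
      group
    have h5 := eigenvalue_mem (ringExpChar K) _ g D h4 (Sum.inr (C.simple (π i₀))) m
      (by rw [h3]; exact hm)
    rw [h3] at h5
    exact h5
  have key' : ∀ t : k, ∃ s : K, algebraMap K L s = φ t := by
    intro t
    by_cases ht : t = 0
    · exact ⟨0, by rw [ht, map_zero, map_zero]⟩
    · exact key t ht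
  choose ψ hψ using key'
  have hinj := (algebraMap K L).injective
  refine ⟨{ toFun := ψ
            map_one' := hinj (by rw [hψ, map_one, map_one])
            map_mul' := fun a b => hinj (by rw [hψ, map_mul, map_mul, hψ, hψ])
            map_zero' := hinj (by rw [hψ, map_zero, map_zero])
            map_add' := fun a b => hinj (by rw [hψ, map_add, map_add, hψ, hψ]) }, ?_⟩
  ext t
  exact hψ t

end SLC

end Pool.Agent.H75.UL
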