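import Pool.Agent.H75.UL.R4a

/-!
# Project UL (MP_978914_al), module R4b

Exchange lemma.

`exchange`: induction on `l`. `l = []`: `wd [] = 1` and `simple k` is positive, contradiction.
`l = i :: l'`: if `wd l' α_k` is not positive, use the induction hypothesis (`l₁` becomes `i :: l₁`).
If it is positive, `s_i` maps it to a non positive root, so it is `α_i` (`refl_simple_pos`): take
`l₁ = []`, `j = i`, `l₂ = l'`.
`wd_delete`: `wd l₂ α_k = α_j` gives `reflE α_j = wd l₂ * reflE α_k * (wd l₂)⁻¹` (`reflE_conj`), so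
`wd (l₁ ++ j :: l₂ ++ [k]) = wd l₁ * s_j * wd l₂ * s_k = wd l₁ * s_j * s_j * wd l₂ = wd (l₁ ++ l₂)`.
`eq_one_of_pos`: take a word `l` of minimal length with `w = wd l` (`exists_wd`, `Nat.find`). If
`l ≠ []`, `l = l' ++ [k]` and `w α_k = - wd l' α_k` is positive, so `wd l' α_k` is not positive and
`exchange`, `wd_delete` give a shorter word.
`eq_one_word`: if `wd (l' ++ [k]) = 1` then `wd l' α_k = s_k α_k = -α_k` is not positive, `exchange`.
-/

set_option autoImplicit false
open Matrix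
universe u
namespace Pool.Agent.H75.UL

namespace SLC
variable {n : ℕ} (C : SLC n)

private theorem R4b_wd_cons (i : Fin n) (l : List (Fin n)) :
    C.wd (i :: l) = C.reflE (C.simple i) * C.wd l := by
  simp [wd]

private theorem R4b_wd_append (l₁ l₂ : List (Fin n)) :
    C.wd (l₁ ++ l₂) = C.wd l₁ * C.wd l₂ := by
  simp [wd]

private theorem R4b_wd_single (k : Fin n) : C.wd [k] = C.reflE (C.simple k) := by
  simp [wd]

private theorem R4b_wd_nil : C.wd [] = 1 := by
  simp [wd]

theorem exchange (l : List (Fin n)) (k : Fin n) (h : ¬ C.Pos (C.wd l (C.simple k))) :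
    ∃ (l₁ : List (Fin n)) (j : Fin n) (l₂ : List (Fin n)), l = l₁ ++ j :: l₂ ∧
      C.wd l₂ (C.simple k) = C.simple j := by
  induction l with
  | nil =>
    exfalso
    apply h
    rw [R4b_wd_nil]
    exact C.simple_pos k
  | cons i l' ih =>
    by_cases h1 : C.Pos (C.wd l' (C.simple k))
    · by_cases h2 : C.wd l' (C.simple k) = C.simple i
      · exact ⟨[], i, l', rfl, h2⟩
      · exfalso
        apply h
        have h3 := C.refl_simple_pos i _ h1 h2
        rw [R4b_wd_cons]
        exact h3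
    · obtain ⟨l₁, j, l₂, e, h2⟩ := ih h1
      exact ⟨i :: l₁, j, l₂, by rw [e]; rfl, h2⟩

theorem wd_delete (l₁ l₂ : List (Fin n)) (j k : Fin n) (h : C.wd l₂ (C.simple k) = C.simple j) :
    C.wd (l₁ ++ j :: l₂ ++ [k]) = C.wd (l₁ ++ l₂) := by
  have h1 : C.reflE (C.simple j) = C.wd l₂ * C.reflE (C.simple k) * (C.wd l₂)⁻¹ := by
    rw [← h]
    exact C.reflE_conj _ (C.wd_mem_W l₂) _
  have h2 : C.reflE (C.simple j) * C.wd l₂ * C.reflE (C.simple k) = C.wd l₂ := by
    rw [h1, inv_mul_cancel_right, mul_assoc, reflE_mul_self, mul_one]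
  rw [R4b_wd_append, R4b_wd_append, R4b_wd_cons, R4b_wd_single, R4b_wd_append, mul_assoc, h2]

theorem eq_one_of_pos (w : Equiv.Perm C.Root) (hw : w ∈ C.W)
    (h : ∀ i, C.Pos (w (C.simple i))) : w = 1 := by
  classical
  have hex : ∃ m : ℕ, ∃ l : List (Fin n), l.length = m ∧ w = C.wd l := by
    obtain ⟨l, hl⟩ := C.exists_wd w hw
    exact ⟨l.length, l, rfl, hl⟩
  obtain ⟨l, hl1, hl2⟩ := Nat.find_spec hex
  rcases List.eq_nil_or_concat l with h0 | ⟨l', k, h0⟩
  · rw [hl2, h0, R4b_wd_nil]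
  · exfalso
    rw [List.concat_eq_append] at h0
    have h1 : ¬ C.Pos (C.wd l' (C.simple k)) := by
      have h3 := h k
      rw [hl2, h0, R4b_wd_append, R4b_wd_single, Equiv.Perm.mul_apply, reflE_apply, refl_self,
        C.W_neg _ (C.wd_mem_W l')] at h3
      exact (C.not_pos_iff _).mpr h3
    obtain ⟨l₁, j, l₂, e, h2⟩ := C.exchange l' k h1
    have h3 : w = C.wd (l₁ ++ l₂) := by
      rw [hl2, h0, e]
      exact C.wd_delete l₁ l₂ j k h2
    have h4 := Nat.find_min' hex ⟨l₁ ++ l₂, rfl, h3⟩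
    rw [← hl1, h0, e] at h4
    simp only [List.length_append, List.length_cons, List.length_nil] at h4
    omega

theorem eq_one_word (l : List (Fin n)) (hl : l ≠ []) (h : C.wd l = 1) :
    ∃ (l₁ : List (Fin n)) (j : Fin n) (l₂ : List (Fin n)) (k : Fin n),
      l = l₁ ++ j :: l₂ ++ [k] ∧ C.wd l₂ (C.simple k) = C.simple j ∧ C.wd (l₁ ++ l₂) = 1 := by
  rcases List.eq_nil_or_concat l with h0 | ⟨l', k, h0⟩
  · exact absurd h0 hl
  · rw [List.concat_eq_append] at h0
    have h5 : C.wd l' * C.reflE (C.simple k) = 1 := by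
      rw [← R4b_wd_single, ← R4b_wd_append, ← h0]
      exact h
    have h6 : C.wd l' = C.reflE (C.simple k) := by
      have h7 := congrArg (fun z => z * C.reflE (C.simple k)) h5
      simp only [mul_assoc, reflE_mul_self, mul_one, one_mul] at h7
      exact h7
    have h1 : ¬ C.Pos (C.wd l' (C.simple k)) := by
      rw [h6, reflE_apply, refl_self, not_pos_iff, neg_neg_root]
      exact C.simple_pos k
    obtain ⟨l₁, j, l₂, e, h2⟩ := C.exchange l' k h1
    refine ⟨l₁, j, l₂, k, by rw [h0, e], h2, ?_⟩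
    rw [← C.wd_delete l₁ l₂ j k h2, ← e, ← h0]
    exact h

end SLC

end Pool.Agent.H75.UL
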