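import Pool.Agent.H75.UL.C1

/-!
# Project UL (MP_978914_al), module C3

The direct limit.

`Pool.Agent.H62.CA.Limit_dirlim` (Pool/Agent/H62/CA/Limit.lean; copy its proof here or import it)
gives a field `KK`, `p i : K i →+* KK` with `(p (i+1)).comp (φ i) = p i`, every element of `KK` is
some `p i y`. `x β t := (S i).x β y` for `t = p i y`: independent of the choice (for `i ≤ j` transport
`y` to `K j`, `hcomp`; `p j` injective). The relations hold because finitely many elements of `KK`
come from a common `K i` (`y ≠ 0` when `p i y ≠ 0`; `p i` is a field homomorphism). `gen = ⊤`: every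
`g ∈ H i` is a product of `(S i).x β y`. Kernel: every `y ∈ GU C KK` is `GU.map (p i) y_i` for some
`i` (closure induction with `GU.gen_eq`), then also for all `j ≥ i` with `y_j = GU.map .. y_i`;
`lift S (GU.map (p j) y_j) = (lift (S j) y_j : G)` (`hom_ext`). If it is `1` then `y_j` is central in
`GU C (K j)` for all `j ≥ i`; any `z ∈ GU C KK` comes from some `z_j`, `j ≥ i`, so `y z = z y`.
-/

set_option autoImplicit false
open Matrix
universe u
namespace Pool.Agent.H75.UL

variable {n : ℕ} {C : SLC n}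

/-- the transition maps -/
private noncomputable def C3_f (K : ℕ → Type u) [∀ i, Field (K i)] (σ : ∀ i, K i →+* K (i + 1))
    (i j : ℕ) (h : i ≤ j) : K i →+* K j :=
  Nat.leRecOn (C := fun k => K i →+* K k) h (fun {k} g => (σ k).comp g) (RingHom.id _)

private theorem C3_f_self (K : ℕ → Type u) [∀ i, Field (K i)] (σ : ∀ i, K i →+* K (i + 1))
    (i : ℕ) (h : i ≤ i) : C3_f K σ i i h = RingHom.id _ := by
  unfold C3_f
  exact Nat.leRecOn_self _

private theorem C3_f_succ (K : ℕ → Type u) [∀ i, Field (K i)] (σ : ∀ i, K i →+* K (i + 1))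
    (i j : ℕ) (h : i ≤ j) (h' : i ≤ j + 1) :
    C3_f K σ i (j + 1) h' = (σ j).comp (C3_f K σ i j h) := by
  unfold C3_f
  exact Nat.leRecOn_succ h _

private theorem C3_f_comp (K : ℕ → Type u) [∀ i, Field (K i)] (σ : ∀ i, K i →+* K (i + 1))
    (i j k : ℕ) (hij : i ≤ j) (hjk : j ≤ k) (hik : i ≤ k) (x : K i) :
    C3_f K σ j k hjk (C3_f K σ i j hij x) = C3_f K σ i k hik x := by
  induction k, hjk using Nat.le_induction with
  | base => rw [C3_f_self]; rfl
  | succ k hk ih =>
    rw [C3_f_succ K σ j k hk, C3_f_succ K σ i k (hij.trans hk)]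
    rw [RingHom.comp_apply, RingHom.comp_apply, ih (hij.trans hk)]

private theorem C3_dirlim (K : ℕ → Type u) [∀ i, Field (K i)] (σ : ∀ i, K i →+* K (i + 1)) :
    ∃ (KK : Type u) (_ : Field KK) (p : ∀ i, K i →+* KK),
      (∀ i, (p (i + 1)).comp (σ i) = p i) ∧ ∀ x, ∃ i y, p i y = x := by
  have hds : DirectedSystem K (fun i j h => C3_f K σ i j h) :=
    { map_self := fun i x => by rw [C3_f_self]; rfl
      map_map := fun i j k hij hjk x => C3_f_comp K σ _ _ _ hij hjk _ x }
  refine ⟨Ring.DirectLimit K (fun i j h => C3_f K σ i j h),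
    Field.DirectLimit.field K (fun i j h => C3_f K σ i j h),
    fun i => Ring.DirectLimit.of K (fun i j h => C3_f K σ i j h) i, ?_, ?_⟩
  · intro i
    ext x
    have h1 := Ring.DirectLimit.of_f (G := K) (f := fun i j h => C3_f K σ i j h)
      (Nat.le_succ i) x
    rw [← h1]
    have h2 : C3_f K σ i (i + 1) (Nat.le_succ i) x = σ i x := by
      rw [C3_f_succ K σ i i le_rfl, C3_f_self]
      rfl
    change Ring.DirectLimit.of K (fun i j h => C3_f K σ i j h) (i + 1) (σ i x) =
      Ring.DirectLimit.of K (fun i j h => C3_f K σ i j h) (i + 1)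
        (C3_f K σ i (i + 1) (Nat.le_succ i) x)
    rw [h2]
  · intro x
    exact Ring.DirectLimit.exists_of x

private theorem C3_map_eq_inv {K K' : Type u} [Field K] [Field K'] (p : K →+* K') (t : K) :
    (p t)⁻¹ = p t⁻¹ := (map_inv₀ p t).symm

theorem limit {G : Type u} [Group G] (H : ℕ → Subgroup G) (hH : ∀ i, H i ≤ H (i + 1))
    (hG : ∀ g : G, ∃ i, g ∈ H i) (K : ℕ → Type u) [∀ i, Field (K i)]
    (S : ∀ i, StSys C (K i) (H i)) (hS : ∀ i, Good (S i)) (φ : ∀ i, K i →+* K (i + 1))
    (hcomp : ∀ i β t, Subgroup.inclusion (hH i) ((S i).x β t) = (S (i + 1)).x β (φ i t)) :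
    IsChev C G := by
  obtain ⟨KK, hKK, p, hp, hps⟩ := C3_dirlim K φ
  have hp' : ∀ i x, p (i + 1) (φ i x) = p i x := fun i x => by
    rw [← hp i]; rfl
  have hc' : ∀ i β t, (((S (i + 1)).x β (φ i t) : H (i + 1)) : G) = ((S i).x β t : H i) := by
    intro i β t
    rw [← hcomp i β t]
    rfl
  -- transport of scalars
  have htr : ∀ i j (_ : i ≤ j) (y : K i), ∃ y' : K j, p j y' = p i y ∧
      ∀ β, (((S j).x β y' : H j) : G) = ((S i).x β y : H i) := by
    intro i j hij y
    induction j, hij using Nat.le_induction with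
    | base => exact ⟨y, rfl, fun _ => rfl⟩
    | succ j _ ih =>
      obtain ⟨y', h1, h2⟩ := ih
      exact ⟨φ j y', (hp' j y').trans h1, fun β => (hc' j β y').trans (h2 β)⟩
  have hwd : ∀ i j (y : K i) (y' : K j), p i y = p j y' → ∀ β,
      (((S i).x β y : H i) : G) = ((S j).x β y' : H j) := by
    intro i j y y' h β
    obtain ⟨y1, h1, h2⟩ := htr i (max i j) (le_max_left _ _) y
    obtain ⟨y2, h3, h4⟩ := htr j (max i j) (le_max_right _ _) y'
    have h5 : y1 = y2 := (p (max i j)).injective (by rw [h1, h3, h])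
    rw [← h2 β, ← h4 β, h5]
  choose ii yy hyy using hps
  -- the root elements
  set x : C.Root → KK → G := fun β t => (((S (ii t)).x β (yy t) : H (ii t)) : G) with hx
  have hxp : ∀ i (y : K i) β, x β (p i y) = (((S i).x β y : H i) : G) := fun i y β =>
    hwd _ _ _ _ (hyy (p i y)) β
  have hcom : ∀ s t : KK, ∃ k, ∃ s' t' : K k, p k s' = s ∧ p k t' = t := by
    intro s t
    obtain ⟨s', h1, -⟩ := htr (ii s) (max (ii s) (ii t)) (le_max_left _ _) (yy s)
    obtain ⟨t', h2, -⟩ := htr (ii t) (max (ii s) (ii t)) (le_max_right _ _) (yy t)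
    exact ⟨_, s', t', h1.trans (hyy s), h2.trans (hyy t)⟩
  have hnn : ∀ k (t : K k) α, nn x α (p k t) = ((nn (S k).x α t : H k) : G) := by
    intro k t α
    unfold nn
    rw [C3_map_eq_inv, hxp, hxp]
    rfl
  have hhh : ∀ k (t : K k) α, hh x α (p k t) = ((hh (S k).x α t : H k) : G) := by
    intro k t α
    have h1 : (-1 : KK) = p k (-1) := by rw [map_neg, map_one]
    unfold hh
    rw [h1, hnn, hnn]
    rfl
  let SS : StSys C KK G :=
    { x := x
      map_add := by
        intro β s t
        obtain ⟨k, s', t', rfl, rfl⟩ := hcom s t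
        rw [← map_add, hxp, hxp, hxp, (S k).map_add]
        rfl
      comm := by
        intro α β s t h
        obtain ⟨k, s', t', rfl, rfl⟩ := hcom s t
        rw [hxp, hxp]
        exact congrArg Subtype.val ((S k).comm α β s' t' h)
      comm_add := by
        intro α β γ s t h
        obtain ⟨k, s', t', rfl, rfl⟩ := hcom s t
        have h1 : (C.eps α.1 β.1 : KK) * p k s' * p k t' = p k ((C.eps α.1 β.1 : K k) * s' * t') := by
          rw [map_mul, map_mul, map_intCast]
        rw [h1, hxp, hxp, hxp]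
        exact congrArg Subtype.val ((S k).comm_add α β γ s' t' h)
      n_conj := by
        intro α t u ht
        obtain ⟨k, t', u', rfl, rfl⟩ := hcom t u
        have ht' : t' ≠ 0 := fun h => ht (by rw [h, map_zero])
        have h1 : (p k t')⁻¹ ^ 2 * p k u' = p k (t'⁻¹ ^ 2 * u') := by
          rw [map_mul, map_pow, map_inv₀]
        rw [h1, hnn, hxp, hxp]
        exact congrArg Subtype.val ((S k).n_conj α t' u' ht')
      h_mul := by
        intro α s t hs ht
        obtain ⟨k, s', t', rfl, rfl⟩ := hcom s t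
        have hs' : s' ≠ 0 := fun h => hs (by rw [h, map_zero])
        have ht' : t' ≠ 0 := fun h => ht (by rw [h, map_zero])
        rw [← map_mul, hhh, hhh, hhh]
        exact congrArg Subtype.val ((S k).h_mul α s' t' hs' ht') }
  have hSSx : ∀ β t, SS.x β t = x β t := fun _ _ => rfl
  -- the maps between the universal groups
  have hmapσ : ∀ i (y : GU C (K i)), GU.map (p (i + 1)) (GU.map (φ i) y) = GU.map (p i) y := by
    intro i y
    have h1 : (GU.map (C := C) (p (i + 1))).comp (GU.map (φ i)) = GU.map (p i) := by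
      apply GU.hom_ext
      intro β t
      rw [MonoidHom.comp_apply, GU.map_x, GU.map_x, GU.map_x, hp']
    rw [← h1]
    rfl
  have hGtr : ∀ i j (_ : i ≤ j) (y : GU C (K i)), ∃ y' : GU C (K j),
      GU.map (p j) y' = GU.map (p i) y := by
    intro i j hij y
    induction j, hij using Nat.le_induction with
    | base => exact ⟨y, rfl⟩
    | succ j _ ih =>
      obtain ⟨y', h1⟩ := ih
      exact ⟨GU.map (φ j) y', (hmapσ j y').trans h1⟩
  have hGsurj : ∀ y : GU C KK, ∃ i, ∃ y' : GU C (K i), GU.map (p i) y' = y := by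
    intro y
    have hy : y ∈ (GU.sys C KK).gen := by
      rw [GU.gen_eq]
      exact Subgroup.mem_top y
    unfold StSys.gen at hy
    induction hy using Subgroup.closure_induction with
    | mem y hy =>
      obtain ⟨β, t, rfl⟩ := hy
      refine ⟨ii t, GU.x C (K (ii t)) β (yy t), ?_⟩
      rw [GU.map_x, hyy]
      rfl
    | one => exact ⟨0, 1, map_one _⟩
    | mul a b _ _ ha hb =>
      obtain ⟨i, a', rfl⟩ := ha
      obtain ⟨j, b', rfl⟩ := hb
      obtain ⟨a1, h1⟩ := hGtr i (max i j) (le_max_left _ _) a'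
      obtain ⟨b1, h2⟩ := hGtr j (max i j) (le_max_right _ _) b'
      exact ⟨max i j, a1 * b1, by rw [map_mul, h1, h2]⟩
    | inv a _ ha =>
      obtain ⟨i, a', rfl⟩ := ha
      exact ⟨i, a'⁻¹, map_inv _ _⟩
  have hlift : ∀ i (y : GU C (K i)), GU.lift SS (GU.map (p i) y) = ((GU.lift (S i) y : H i) : G) := by
    intro i y
    have h1 : (GU.lift SS).comp (GU.map (p i)) = (H i).subtype.comp (GU.lift (S i)) := by
      apply GU.hom_ext
      intro β t
      rw [MonoidHom.comp_apply, MonoidHom.comp_apply, GU.map_x, GU.lift_x, GU.lift_x, hSSx, hxp]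
      rfl
    have h2 := congrArg (fun f : GU C (K i) →* G => f y) h1
    exact h2
  rw [isChev_iff]
  refine ⟨KK, hKK, SS, ?_, ?_⟩
  · rw [eq_top_iff]
    intro g _
    obtain ⟨i, hi⟩ := hG g
    have h1 : (⟨g, hi⟩ : H i) ∈ (S i).gen := by
      rw [(hS i).gen]
      exact Subgroup.mem_top _
    have h2 : ∀ h : H i, h ∈ (S i).gen → (h : G) ∈ SS.gen := by
      intro h hh'
      unfold StSys.gen at hh'
      induction hh' using Subgroup.closure_induction with
      | mem h hh' =>
        obtain ⟨β, t, rfl⟩ := hh'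
        refine Subgroup.subset_closure ⟨β, p i t, ?_⟩
        rw [hSSx, hxp]
      | one => exact one_mem _
      | mul a b _ _ ha hb => exact mul_mem ha hb
      | inv a _ ha => exact inv_mem ha
    exact h2 ⟨g, hi⟩ h1
  · intro y hy
    rw [MonoidHom.mem_ker] at hy
    rw [Subgroup.mem_center_iff]
    intro z
    obtain ⟨i, y', rfl⟩ := hGsurj y
    obtain ⟨j, z', rfl⟩ := hGsurj z
    obtain ⟨y1, h1⟩ := hGtr i (max i j) (le_max_left _ _) y'
    obtain ⟨z1, h2⟩ := hGtr j (max i j) (le_max_right _ _) z'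
    rw [← h1] at hy ⊢
    rw [← h2]
    rw [hlift] at hy
    have h3 : GU.lift (S (max i j)) y1 = 1 := Subtype.ext hy
    have h4 : y1 ∈ Subgroup.center (GU C (K (max i j))) :=
      (hS (max i j)).ker ((MonoidHom.mem_ker).2 h3)
    rw [← map_mul, ← map_mul, Subgroup.mem_center_iff.mp h4 z1]

end Pool.Agent.H75.UL
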