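import Pool.Agent.H75.UL.C2
import Pool.Agent.H75.UL.C3

/-!
# Project UL (MP_978914_al), module C4

The theorem for one type.

Pass to a subsequence as in Pool/Agent/Results/MP_978914_al/TypeA.lean: a strictly increasing `ψ k`
with `IsChev C (H (ψ k))`, starting after an infinite member. `isChev_iff`: fields `K k`, good systems.
`K 0` is infinite: otherwise `H (ψ 0)` is finite (`Good.finite`). Recursion with `chain_step` (choose
for every `k` and every good system `S` of `H (ψ k)` over `K k` with `K k` infinite a ring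
homomorphism and a good system of `H (ψ (k+1))` over `K (k+1)`; all `K k` are infinite), then `limit`.
`finite_types`: the matrices `C.A` have entries in `{2, 0, -1}`, so `SLC r` is finite; if for every
`m` some `i ≥ m` has `IsChev C (H i)` for some `C`, then one `C` occurs for infinitely many `i`.
-/

set_option autoImplicit false
open Matrix
universe u
namespace Pool.Agent.H75.UL

variable {n : ℕ} {C : SLC n}

theorem main_one (hn : 2 ≤ n) (G : Type u) [Group G] (H : ℕ → Subgroup G) (hH : Monotone H)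
    (hG : ∀ g : G, ∃ i, g ∈ H i) (hA : ∀ m : ℕ, ∃ i, m ≤ i ∧ IsChev C (H i))
    (hinf : ∃ i, Infinite (H i)) : IsChev C G := by
  obtain ⟨i₀, hi₀⟩ := hinf
  choose φ hφ hφA using hA
  -- a subsequence of members of type `C`
  let ψ : ℕ → ℕ := fun k => Nat.rec (φ i₀) (fun _ m => φ (m + 1)) k
  have hψ0 : ψ 0 = φ i₀ := rfl
  have hψA : ∀ k, IsChev C (H (ψ k)) := by
    intro k
    cases k with
    | zero => exact hφA i₀
    | succ k => exact hφA (ψ k + 1)
  have hψlt : ∀ k, ψ k < ψ (k + 1) := fun k => Nat.lt_of_succ_le (hφ (ψ k + 1))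
  have hψmono : StrictMono ψ := strictMono_nat_of_lt_succ hψlt
  have hψi : i₀ ≤ ψ 0 := hφ i₀
  have hψC : ∀ k, ∃ (K : Type u) (_ : Field K) (S : StSys C K (H (ψ k))), Good S :=
    fun k => (isChev_iff (H (ψ k))).mp (hψA k)
  choose K hKf S hS using hψC
  have hle : ∀ k, H (ψ k) ≤ H (ψ (k + 1)) := fun k => hH (hψlt k).le
  have hK : ∀ k, Infinite (K k) := by
    intro k
    induction k with
    | zero =>
      by_contra hfin
      rw [not_infinite_iff_finite] at hfin
      have h1 : Infinite (H (ψ 0)) :=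
        Infinite.of_injective _ (Subgroup.inclusion_injective (hH hψi))
      exact not_finite_iff_infinite.mpr h1 (hS 0).finite
    | succ k ih =>
      exact (chain_step hn (hS k) (hS (k + 1)) (Subgroup.inclusion (hle k))
        (Subgroup.inclusion_injective (hle k))).1
  have step : ∀ (k : ℕ) (T : {T : StSys C (K k) (H (ψ k)) // Good T}),
      ∃ (f : K k →+* K (k + 1)) (T' : {T : StSys C (K (k + 1)) (H (ψ (k + 1))) // Good T}),
        ∀ β t, Subgroup.inclusion (hle k) (T.1.x β t) = T'.1.x β (f t) := by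
    intro k T
    have := hK k
    obtain ⟨-, f, T', hT', h⟩ := chain_step hn T.2 (hS (k + 1)) (Subgroup.inclusion (hle k))
      (Subgroup.inclusion_injective (hle k))
    exact ⟨f, ⟨T', hT'⟩, h⟩
  choose f F hF using step
  let T : ∀ k : ℕ, {T : StSys C (K k) (H (ψ k)) // Good T} := fun k =>
    Nat.rec (motive := fun k => {T : StSys C (K k) (H (ψ k)) // Good T}) ⟨S 0, hS 0⟩ F k
  refine limit (fun k => H (ψ k)) hle ?_ K (fun k => (T k).1) (fun k => (T k).2)
    (fun k => f k (T k)) (fun k β t => hF k (T k) β t)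
  intro g
  obtain ⟨i, hi⟩ := hG g
  exact ⟨i, hH (hψmono.id_le i) hi⟩

theorem finite_types (r : ℕ) : Finite (SLC r) := by
  have h1 : ∀ (C : SLC r) (i j : Fin r), C.A i j ∈ Set.Icc (-1 : ℤ) 2 := by
    intro C i j
    by_cases h : i = j
    · subst h
      rw [C.diag]
      norm_num
    · rcases C.off i j h with h | h <;> rw [h] <;> norm_num
  have : Finite (Fin r → Fin r → Set.Icc (-1 : ℤ) 2) := inferInstance
  refine Finite.of_injective (β := Fin r → Fin r → Set.Icc (-1 : ℤ) 2)
    (fun C i j => ⟨C.A i j, h1 C i j⟩) ?_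
  intro C C' h
  have h2 : C.A = C'.A := by
    ext i j
    exact congrArg Subtype.val (congrFun (congrFun h i) j)
  cases C
  cases C'
  subst h2
  rfl

theorem main_rank (r : ℕ) (hr : 2 ≤ r) (G : Type u) [Group G] (H : ℕ → Subgroup G)
    (hH : Monotone H) (hG : ∀ g : G, ∃ i, g ∈ H i)
    (hA : ∀ m : ℕ, ∃ i, m ≤ i ∧ ∃ C : SLC r, IsChev C (H i))
    (hinf : ∃ i, Infinite (H i)) : ∃ C : SLC r, IsChev C G := by
  have hfin := finite_types r
  by_cases h : ∃ C : SLC r, ∀ m : ℕ, ∃ i, m ≤ i ∧ IsChev C (H i)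
  · obtain ⟨C, hC⟩ := h
    exact ⟨C, main_one hr G H hH hG hC hinf⟩
  · exfalso
    push Not at h
    choose m hm using h
    obtain ⟨M, hM⟩ := (Set.finite_range m).bddAbove
    obtain ⟨i, hi, C, hC⟩ := hA M
    exact hm C i ((hM ⟨C, rfl⟩).trans hi) hC

end Pool.Agent.H75.UL
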