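import Pool.Agent.H75.UL.S5
import Pool.Agent.H75.UL.S3

/-!
# Project UL (MP_978914_al), module S6

Bruhat decomposition (existence).

Let `n_i = nn α_i 1`, `α_i = simple i`, `U = U 1`, and `Q_i` the subgroup generated by the `x_β(t)`
with `β` positive, `β ≠ α_i`.
(1) `x_{α_i}(s)` normalizes `Q_i` (`α_i + β ≠ α_i` is positive of larger height), so every `u ∈ U` is
`u' * x_{α_i}(s)` with `u' ∈ Q_i` (closure induction).
(2) `n_i Q_i n_i⁻¹ ≤ U` (`n_conj_all`, `refl_simple_pos`).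
(3) `X = {u * ν * v | u, v ∈ U, ν ∈ N}` is closed under left multiplication by `U` (clear), by `T`
(`τ u ν v = (τ u τ⁻¹) (τ ν) v`) and by `n_i`: `u = u' * x_{α_i}(s)`, `n_i u ν v =
(n_i u' n_i⁻¹) * (n_i x_{α_i}(s) ν v)`, so it is enough that `n_i x_{α_i}(s) ν v ∈ X`. Let `w ∈ W`
with `Acts ν w` (`N_acts`). If `Pos (w⁻¹ α_i)`: `x_{α_i}(s) ν = ν * x_{w⁻¹α_i}(..)`, done. If `s = 0`,
done. Otherwise `s ≠ 0` and `¬ Pos (w⁻¹ α_i)`: `n_i x_{α_i}(s) = x_{-α_i}(s) n_i` (`n_conj`, `t = 1`)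
and `x_{-α_i}(s) = x_{α_i}(-t) n_{α_i}(t) x_{α_i}(-t)` with `t = s⁻¹` (definition of `nn`). So
`n_i x_{α_i}(s) ν v = x_{α_i}(-t) * nn α_i t * x_{α_i}(-t) * (n_i ν) v`, and `n_i ν` acts by
`w' = s_i w`, `w'⁻¹ α_i = w⁻¹ (-α_i) = - w⁻¹ α_i` is positive (`not_pos_iff`), so
`x_{α_i}(-t) (n_i ν) = (n_i ν) * (element of U)`.
(4) `X` contains `1` and is closed under left multiplication by `x_{α_i}(t)`, `x_{-α_i}(t)`
(`= n_i x_{α_i}(..) n_i⁻¹`), `T`, `n_i`, `n_i⁻¹`, hence by every `x_β(t)`: `β = w α_i` (`R4a`), and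
`x_β(t) = ν x_{α_i}(..) ν⁻¹` with `ν = nword l`. So `X` contains `gen`.
`mul_mem_X` may be stated for the set `{g | ∃ u ∈ U, ∃ ν ∈ N, ∃ v ∈ U, g = u * ν * v}`.
-/

set_option autoImplicit false
open Matrix
universe u
namespace Pool.Agent.H75.UL

namespace StSys
variable {n : ℕ} {C : SLC n} {K : Type*} [Field K] {H : Type*} [Group H] (S : StSys C K H)

private theorem s6_mem (β : C.Root) (t : K) (h : C.Pos β) : S.x β t ∈ S.U 1 :=
  Subgroup.subset_closure ⟨β, t, h, rfl⟩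

/-- the subgroup generated by the positive root elements different from `α_i` -/
private def s6Q (i : Fin n) : Subgroup H :=
  Subgroup.closure {g | ∃ (β : C.Root) (t : K), C.Pos β ∧ β ≠ C.simple i ∧ g = S.x β t}

private theorem s6_Q_le (i : Fin n) : S.s6Q i ≤ S.U 1 := by
  unfold s6Q
  rw [Subgroup.closure_le]
  rintro g ⟨β, t, hβ, -, rfl⟩
  exact S.s6_mem β t hβ

private theorem s6_Q_norm (i : Fin n) (s : K) (q : H) (hq : q ∈ S.s6Q i) :
    S.x (C.simple i) s * q * (S.x (C.simple i) s)⁻¹ ∈ S.s6Q i := by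
  unfold s6Q at hq
  induction hq using Subgroup.closure_induction with
  | mem q hq =>
    obtain ⟨β, t, hβ, hne, rfl⟩ := hq
    have hmem : S.x β t ∈ S.s6Q i := Subgroup.subset_closure ⟨β, t, hβ, hne, rfl⟩
    rcases C.ip_cases (C.simple i) β with h | h | h
    · exfalso
      rw [C.ip_eq_neg_two_iff] at h
      unfold SLC.Pos at hβ
      rw [h, SLC.Root.neg_val, ht_neg, C.ht_simple] at hβ
      omega
    · obtain ⟨δ, hδ⟩ := C.exists_add (C.simple i) β h
      have h1 := S.comm_add (C.simple i) β δ s t hδ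
      have h2 : S.x (C.simple i) s * S.x β t * (S.x (C.simple i) s)⁻¹
          = S.x δ (C.eps (C.simple i).1 β.1 * s * t) * S.x β t := by
        rw [← h1]
        group
      rw [h2]
      refine mul_mem (Subgroup.subset_closure ⟨δ, _, ?_, ?_, rfl⟩) hmem
      · unfold SLC.Pos at hβ ⊢
        rw [hδ, ht_add, C.ht_simple]
        omega
      · rintro rfl
        have h3 := congrArg ht hδ
        rw [ht_add] at h3
        unfold SLC.Pos at hβ
        omega
    · have h0 : 0 ≤ C.ip (C.simple i).1 β.1 := by omega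
      rw [S.comm (C.simple i) β s t h0, mul_inv_cancel_right]
      exact hmem
  | one =>
    rw [mul_one, mul_inv_cancel]
    exact one_mem _
  | mul a b _ _ ha hb =>
    have : S.x (C.simple i) s * (a * b) * (S.x (C.simple i) s)⁻¹
        = (S.x (C.simple i) s * a * (S.x (C.simple i) s)⁻¹) *
          (S.x (C.simple i) s * b * (S.x (C.simple i) s)⁻¹) := by group
    rw [this]
    exact mul_mem ha hb
  | inv a _ ha =>
    have : S.x (C.simple i) s * a⁻¹ * (S.x (C.simple i) s)⁻¹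
        = (S.x (C.simple i) s * a * (S.x (C.simple i) s)⁻¹)⁻¹ := by group
    rw [this]
    exact inv_mem ha

private theorem s6_dec (i : Fin n) (u : H) (hu : u ∈ S.U 1) :
    ∃ q ∈ S.s6Q i, ∃ s : K, u = q * S.x (C.simple i) s := by
  have step : ∀ (β : C.Root) (t : K), C.Pos β → ∀ y : H,
      (∃ q ∈ S.s6Q i, ∃ s : K, y = q * S.x (C.simple i) s) →
      ∃ q ∈ S.s6Q i, ∃ s : K, S.x β t * y = q * S.x (C.simple i) s := by
    rintro β t hβ y ⟨q, hq, s, rfl⟩
    by_cases h : β = C.simple i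
    · subst h
      refine ⟨_, S.s6_Q_norm i t q hq, t + s, ?_⟩
      rw [S.map_add]
      group
    · refine ⟨S.x β t * q, mul_mem (Subgroup.subset_closure ⟨β, t, hβ, h, rfl⟩) hq, s, ?_⟩
      rw [mul_assoc]
  unfold U at hu
  induction hu using Subgroup.closure_induction_left with
  | one => exact ⟨1, one_mem _, 0, by rw [S.x_zero, mul_one]⟩
  | mul_left x hx y _ ih =>
    obtain ⟨β, t, hβ, rfl⟩ := hx
    exact step β t hβ y ih
  | inv_mul_cancel x hx y _ ih =>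
    obtain ⟨β, t, hβ, rfl⟩ := hx
    rw [← S.x_neg]
    exact step β (-t) hβ y ih

private theorem s6_Q_conj (i : Fin n) (q : H) (hq : q ∈ S.s6Q i) :
    nn S.x (C.simple i) 1 * q * (nn S.x (C.simple i) 1)⁻¹ ∈ S.U 1 := by
  unfold s6Q at hq
  induction hq using Subgroup.closure_induction with
  | mem q hq =>
    obtain ⟨β, t, hβ, hne, rfl⟩ := hq
    rw [S.n_conj_all (C.simple i) β 1 t one_ne_zero]
    exact S.s6_mem _ _ (C.refl_simple_pos i β hβ hne)
  | one =>
    rw [mul_one, mul_inv_cancel]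
    exact one_mem _
  | mul a b _ _ ha hb =>
    have : nn S.x (C.simple i) 1 * (a * b) * (nn S.x (C.simple i) 1)⁻¹
        = (nn S.x (C.simple i) 1 * a * (nn S.x (C.simple i) 1)⁻¹) *
          (nn S.x (C.simple i) 1 * b * (nn S.x (C.simple i) 1)⁻¹) := by group
    rw [this]
    exact mul_mem ha hb
  | inv a _ ha =>
    have : nn S.x (C.simple i) 1 * a⁻¹ * (nn S.x (C.simple i) 1)⁻¹
        = (nn S.x (C.simple i) 1 * a * (nn S.x (C.simple i) 1)⁻¹)⁻¹ := by group
    rw [this]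
    exact inv_mem ha

/-- the set of all products `u * ν * v` -/
private def s6X : Set H := {g | ∃ u ∈ S.U 1, ∃ ν ∈ S.N, ∃ v ∈ S.U 1, g = u * ν * v}

private theorem s6_U_X (u g : H) (hu : u ∈ S.U 1) (hg : g ∈ S.s6X) : u * g ∈ S.s6X := by
  obtain ⟨u1, hu1, ν, hν, v, hv, rfl⟩ := hg
  exact ⟨u * u1, mul_mem hu hu1, ν, hν, v, hv, by simp only [mul_assoc]⟩

private theorem s6_T_X (τ g : H) (hτ : τ ∈ S.T) (hg : g ∈ S.s6X) : τ * g ∈ S.s6X := by
  obtain ⟨u1, hu1, ν, hν, v, hv, rfl⟩ := hg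
  refine ⟨τ * u1 * τ⁻¹, S.T_conj_U 1 τ u1 hτ hu1, τ * ν, mul_mem (S.T_le_N hτ) hν, v, hv, ?_⟩
  group

private theorem s6_nn_mem (α : C.Root) (t : K) (ht : t ≠ 0) : nn S.x α t ∈ S.N :=
  Subgroup.subset_closure ⟨α, t, ht, rfl⟩

/-- moving a root element through `ν` -/
private theorem s6_move (ν : H) (w : Equiv.Perm C.Root) (h : S.Acts ν w) (α : C.Root) (s : K) :
    ∃ s' : K, S.x α s * ν = ν * S.x (w⁻¹ α) s' := by
  obtain ⟨c, hc, h1⟩ := h
  refine ⟨(c (w⁻¹ α))⁻¹ * s, ?_⟩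
  have h2 := h1 (w⁻¹ α) ((c (w⁻¹ α))⁻¹ * s)
  have h3 : w (w⁻¹ α) = α := by
    rw [← Equiv.Perm.mul_apply, mul_inv_cancel, Equiv.Perm.one_apply]
  rw [h3, ← mul_assoc (c (w⁻¹ α)), mul_inv_cancel₀ (hc _), one_mul] at h2
  rw [← h2]
  group

private theorem s6_n_X0 (i : Fin n) (s : K) (ν v : H) (hν : ν ∈ S.N) (hv : v ∈ S.U 1) :
    nn S.x (C.simple i) 1 * (S.x (C.simple i) s * ν * v) ∈ S.s6X := by
  obtain ⟨w, hw, hact, -⟩ := S.N_acts ν hν
  have hn := S.s6_nn_mem (C.simple i) 1 one_ne_zero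
  by_cases hs : s = 0
  · subst hs
    refine ⟨1, one_mem _, nn S.x (C.simple i) 1 * ν, mul_mem hn hν, v, hv, ?_⟩
    rw [S.x_zero]
    group
  by_cases hp : C.Pos (w⁻¹ (C.simple i))
  · obtain ⟨s', hs'⟩ := S.s6_move ν w hact (C.simple i) s
    refine ⟨1, one_mem _, nn S.x (C.simple i) 1 * ν, mul_mem hn hν, S.x (w⁻¹ (C.simple i)) s' * v,
      mul_mem (S.s6_mem _ _ hp) hv, ?_⟩
    rw [hs']
    group
  · -- the essential case
    have ht : s⁻¹ ≠ 0 := inv_ne_zero hs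
    have e1 : nn S.x (C.simple i) 1 * S.x (C.simple i) s
        = S.x (-(C.simple i)) s * nn S.x (C.simple i) 1 := by
      have h := S.n_conj (C.simple i) 1 s one_ne_zero
      rw [inv_one, one_pow, one_mul] at h
      rw [← h]
      group
    have e2 : S.x (-(C.simple i)) s = S.x (C.simple i) (-s⁻¹) * nn S.x (C.simple i) s⁻¹ *
        S.x (C.simple i) (-s⁻¹) := by
      unfold nn
      rw [inv_inv, S.x_neg]
      group
    have e3 : S.x (C.simple i) (-s⁻¹) * nn S.x (C.simple i) 1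
        = nn S.x (C.simple i) 1 * S.x (-(C.simple i)) (-s⁻¹) := by
      have h := S.n_conj (C.simple i) (-1) (-s⁻¹) (by simp)
      have h0 : nn S.x (C.simple i) (-1) = (nn S.x (C.simple i) 1)⁻¹ := by rw [S.nn_inv]
      rw [h0, inv_inv] at h
      have h3 : ((-1 : K)⁻¹) ^ 2 * (-s⁻¹) = -s⁻¹ := by
        rw [inv_neg, inv_one]
        ring
      rw [h3] at h
      rw [← h]
      group
    obtain ⟨s', hs'⟩ := S.s6_move ν w hact (-(C.simple i)) (-s⁻¹)
    have hpos : C.Pos (w⁻¹ (-(C.simple i))) := by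
      rw [C.W_neg w⁻¹ (inv_mem hw)]
      exact (C.not_pos_iff _).1 hp
    refine ⟨S.x (C.simple i) (-s⁻¹), S.s6_mem _ _ (C.simple_pos i),
      nn S.x (C.simple i) s⁻¹ * nn S.x (C.simple i) 1 * ν,
      mul_mem (mul_mem (S.s6_nn_mem _ _ ht) hn) hν, S.x (w⁻¹ (-(C.simple i))) s' * v,
      mul_mem (S.s6_mem _ _ hpos) hv, ?_⟩
    calc nn S.x (C.simple i) 1 * (S.x (C.simple i) s * ν * v)
        = (nn S.x (C.simple i) 1 * S.x (C.simple i) s) * ν * v := by group
      _ = S.x (C.simple i) (-s⁻¹) * nn S.x (C.simple i) s⁻¹ *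
          (S.x (C.simple i) (-s⁻¹) * nn S.x (C.simple i) 1) * ν * v := by
          rw [e1, e2]
          simp only [mul_assoc]
      _ = S.x (C.simple i) (-s⁻¹) * nn S.x (C.simple i) s⁻¹ *
          nn S.x (C.simple i) 1 * (S.x (-(C.simple i)) (-s⁻¹) * ν) * v := by
          rw [e3]
          simp only [mul_assoc]
      _ = _ := by
          rw [hs']
          simp only [mul_assoc]

private theorem s6_n_X (i : Fin n) (g : H) (hg : g ∈ S.s6X) :
    nn S.x (C.simple i) 1 * g ∈ S.s6X := by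
  obtain ⟨u, hu, ν, hν, v, hv, rfl⟩ := hg
  obtain ⟨q, hq, s, rfl⟩ := S.s6_dec i u hu
  have h1 := S.s6_U_X _ _ (S.s6_Q_conj i q hq) (S.s6_n_X0 i s ν v hν hv)
  convert h1 using 1
  group

private theorem s6_ninv_X (i : Fin n) (g : H) (hg : g ∈ S.s6X) :
    (nn S.x (C.simple i) 1)⁻¹ * g ∈ S.s6X := by
  have hτ : hh S.x (C.simple i) (-1) ∈ S.T :=
    Subgroup.subset_closure ⟨C.simple i, -1, by simp, rfl⟩
  have h1 := S.s6_n_X i _ (S.s6_T_X _ g hτ hg)
  convert h1 using 1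
  unfold hh
  rw [← S.nn_inv]
  group

private theorem s6_nword_X (l : List (Fin n)) : ∀ g ∈ S.s6X, S.nword l * g ∈ S.s6X := by
  induction l with
  | nil =>
    intro g hg
    unfold nword
    simpa using hg
  | cons i l ih =>
    intro g hg
    have h1 := S.s6_n_X i _ (ih g hg)
    convert h1 using 1
    unfold nword
    rw [List.map_cons, List.prod_cons, mul_assoc]

private theorem s6_nwordinv_X (l : List (Fin n)) : ∀ g ∈ S.s6X, (S.nword l)⁻¹ * g ∈ S.s6X := by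
  induction l with
  | nil =>
    intro g hg
    unfold nword
    simpa using hg
  | cons i l ih =>
    intro g hg
    have h1 := ih _ (S.s6_ninv_X i g hg)
    convert h1 using 1
    unfold nword
    rw [List.map_cons, List.prod_cons, _root_.mul_inv_rev, mul_assoc]

private theorem s6_x_X (β : C.Root) (t : K) (g : H) (hg : g ∈ S.s6X) :
    S.x β t * g ∈ S.s6X := by
  obtain ⟨w, hw, i, hwi⟩ := C.exists_W_simple β
  obtain ⟨l, rfl⟩ := C.exists_wd w hw
  obtain ⟨c, hc, h1⟩ := S.nword_acts l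
  have h2 := h1 (C.simple i) ((c (C.simple i))⁻¹ * t)
  rw [hwi, ← mul_assoc (c (C.simple i)), mul_inv_cancel₀ (hc _), one_mul] at h2
  have h3 := S.s6_nword_X l _ (S.s6_U_X _ _
    (S.s6_mem (C.simple i) ((c (C.simple i))⁻¹ * t) (C.simple_pos i)) (S.s6_nwordinv_X l g hg))
  convert h3 using 1
  rw [← h2]
  simp only [mul_assoc]

theorem bruhat (g : H) (hg : g ∈ S.gen) :
    ∃ u ∈ S.U 1, ∃ ν ∈ S.N, ∃ v ∈ S.U 1, g = u * ν * v := by
  change g ∈ S.s6X
  unfold gen at hg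
  induction hg using Subgroup.closure_induction_left with
  | one => exact ⟨1, one_mem _, 1, one_mem _, 1, one_mem _, by simp⟩
  | mul_left x hx y _ ih =>
    obtain ⟨β, t, rfl⟩ := hx
    exact S.s6_x_X β t y ih
  | inv_mul_cancel x hx y _ ih =>
    obtain ⟨β, t, rfl⟩ := hx
    rw [← S.x_neg]
    exact S.s6_x_X β (-t) y ih

end StSys

end Pool.Agent.H75.UL
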