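import Pool.Agent.H75.UL.S1

/-!
# Project UL (MP_978914_al), module S2

Consequences of Steinberg's relations, II: the torus.

`h_conj`: `n_conj_all` twice (`hh = nn t * nn (-1)`), `refl_refl`; the sign
`cs(α,β) cs(α,s_αβ) (-1)^{(α,β)}` is `1` in all five cases. `T_comm`: conjugation by `h_α(s)` maps
`n_β(t)` to `n_β(a t)` with `a = s^{(α,β)}`, and `n_β(-1)` to `n_β(-a)`, so `h_β(t)` to
`n_β(a t) n_β(-a) = h_β(a t) h_β(a)⁻¹ = h_β(t)` (`h_mul`; `n_β(a t) n_β(-1) (n_β(a) n_β(-1))⁻¹ =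
n_β(a t) n_β(a)⁻¹`); then closure induction. `T_acts'`: every `τ ∈ T` conjugates `x β u` to
`x β (c β * u)` with `c (-β) = (c β)⁻¹`. `tor_conj`: `h_conj` and `sum_ip_single`
(`ip v β = ∑ v_i ip α_i β`), list product over `finRange`.
-/

set_option autoImplicit false
open Matrix
universe u
namespace Pool.Agent.H75.UL

namespace StSys
variable {n : ℕ} {C : SLC n} {K : Type*} [Field K] {H : Type*} [Group H] (S : StSys C K H)

private theorem S2_sign (α β : C.Root) :
    (C.cs α (C.refl α β) : K) * ((C.cs α β : K) * (-1 : K) ^ (- C.ip α.1 β.1)) = 1 := by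
  rcases C.ip_cases α β with h | h | h | h | h
  · have h' : C.ip α.1 (C.refl α β).1 = 2 := by rw [C.ip_refl, h]; norm_num
    simp [SLC.cs, h, h']
  · have h' : C.ip α.1 (C.refl α β).1 = 1 := by rw [C.ip_refl, h]; norm_num
    have h2 : C.eps α.1 (C.refl α β).1 = - C.eps α.1 β.1 := by
      rw [C.refl_val, h, C.eps_sub_right, show ((-1 : ℤ) • α.1) = -α.1 by module,
        C.eps_neg_right, C.eps_self]
      ring
    have h3 : (C.eps α.1 β.1 : K) * (C.eps α.1 β.1 : K) = 1 := by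
      have := congrArg (Int.cast : ℤ → K) (C.eps_sq α.1 β.1)
      push_cast at this
      exact this
    simp only [SLC.cs, h, h', h2]
    simp
    linear_combination h3
  · have h' : C.ip α.1 (C.refl α β).1 = 0 := by rw [C.ip_refl, h]; norm_num
    simp [SLC.cs, h, h']
  · have h' : C.ip α.1 (C.refl α β).1 = -1 := by rw [C.ip_refl, h]
    have h2 : C.eps α.1 (C.refl α β).1 = - C.eps α.1 β.1 := by
      rw [C.refl_val, h, C.eps_sub_right, show ((1 : ℤ) • α.1) = α.1 by module,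
        C.eps_self]
      ring
    have h3 : (C.eps α.1 β.1 : K) * (C.eps α.1 β.1 : K) = 1 := by
      have := congrArg (Int.cast : ℤ → K) (C.eps_sq α.1 β.1)
      push_cast at this
      exact this
    simp only [SLC.cs, h, h', h2]
    simp
    linear_combination h3
  · have h' : C.ip α.1 (C.refl α β).1 = -2 := by rw [C.ip_refl, h]
    simp [SLC.cs, h, h']

theorem h_conj (α β : C.Root) (t u : K) (ht : t ≠ 0) :
    hh S.x α t * S.x β u * (hh S.x α t)⁻¹ = S.x β (t ^ (C.ip α.1 β.1) * u) := by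
  have h1 : hh S.x α t * S.x β u * (hh S.x α t)⁻¹ =
      nn S.x α t * (nn S.x α (-1) * S.x β u * (nn S.x α (-1))⁻¹) * (nn S.x α t)⁻¹ := by
    unfold hh
    group
  rw [h1, S.n_conj_all α β (-1) u (by norm_num), S.n_conj_all _ _ _ _ ht, C.refl_refl, C.ip_refl,
    neg_neg]
  congr 1
  have h2 := S2_sign (K := K) α β
  linear_combination (t ^ (C.ip α.1 β.1) * u) * h2

private theorem S2_nn_conj (g : H) (c : K) (hc : c ≠ 0) (β : C.Root)
    (h1 : ∀ u, g * S.x β u * g⁻¹ = S.x β (c * u))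
    (h2 : ∀ u, g * S.x (-β) u * g⁻¹ = S.x (-β) (c⁻¹ * u)) (t : K) :
    g * nn S.x β t * g⁻¹ = nn S.x β (c * t) := by
  unfold nn
  rw [mul_inv, ← h1, ← h2]
  group

private theorem S2_gen_comm (α β : C.Root) (s t : K) (hs : s ≠ 0) (ht : t ≠ 0) :
    hh S.x α s * hh S.x β t = hh S.x β t * hh S.x α s := by
  set c : K := s ^ (C.ip α.1 β.1) with hc
  have hc0 : c ≠ 0 := zpow_ne_zero _ hs
  have e1 : ∀ u, hh S.x α s * S.x β u * (hh S.x α s)⁻¹ = S.x β (c * u) :=
    fun u => S.h_conj α β s u hs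
  have e2 : ∀ u, hh S.x α s * S.x (-β) u * (hh S.x α s)⁻¹ = S.x (-β) (c⁻¹ * u) := by
    intro u
    rw [S.h_conj α (-β) s u hs, SLC.Root.neg_val, C.ip_neg_right, _root_.zpow_neg]
  have h1 := S.S2_nn_conj (hh S.x α s) c hc0 β e1 e2 t
  have h2 := S.S2_nn_conj (hh S.x α s) c hc0 β e1 e2 (-1)
  have h3 : hh S.x α s * hh S.x β t * (hh S.x α s)⁻¹ = nn S.x β (c * t) * nn S.x β (c * (-1)) := by
    rw [← h1, ← h2]
    conv_lhs => unfold hh
    conv_rhs => unfold hh
    group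
  have h4 : nn S.x β (c * t) * nn S.x β (c * (-1)) = hh S.x β t := by
    have h5 := S.h_mul β t c ht hc0
    have h6 : hh S.x β t = hh S.x β (t * c) * (hh S.x β c)⁻¹ := by
      rw [← h5, mul_assoc, mul_inv_cancel, mul_one]
    rw [h6]
    unfold hh
    rw [mul_neg, mul_one, ← S.nn_inv, mul_comm t c]
    group
  rw [h4] at h3
  exact mul_inv_eq_iff_eq_mul.mp h3

theorem T_comm (a b : H) (ha : a ∈ S.T) (hb : b ∈ S.T) : a * b = b * a := by
  have h1 : S.T ≤ Subgroup.centralizer {g | ∃ (α : C.Root) (t : K), t ≠ 0 ∧ g = hh S.x α t} := by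
    unfold T
    rw [Subgroup.closure_le]
    rintro g ⟨α, s, hs, rfl⟩
    rw [SetLike.mem_coe, Subgroup.mem_centralizer_iff]
    rintro h ⟨β, t, ht, rfl⟩
    exact S.S2_gen_comm β α t s ht hs
  have h2 : S.T ≤ Subgroup.centralizer {b} := by
    conv_lhs => unfold T
    rw [Subgroup.closure_le]
    intro g hg
    rw [SetLike.mem_coe, Subgroup.mem_centralizer_iff]
    intro h hh
    rw [Set.mem_singleton_iff] at hh
    subst hh
    exact ((Subgroup.mem_centralizer_iff.mp (h1 hb)) g hg).symm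
  exact ((Subgroup.mem_centralizer_iff.mp (h2 ha)) b rfl).symm

theorem T_le_N : S.T ≤ S.N := by
  unfold T
  rw [Subgroup.closure_le]
  rintro g ⟨α, t, ht, rfl⟩
  exact S.N.mul_mem (Subgroup.subset_closure ⟨α, t, ht, rfl⟩)
    (Subgroup.subset_closure ⟨α, -1, by norm_num, rfl⟩)

theorem N_le_gen : S.N ≤ S.gen := by
  unfold N
  rw [Subgroup.closure_le]
  rintro g ⟨α, t, ht, rfl⟩
  exact S.gen.mul_mem (S.gen.mul_mem (Subgroup.subset_closure ⟨α, t, rfl⟩)
    (Subgroup.subset_closure ⟨-α, t⁻¹, rfl⟩)) (Subgroup.subset_closure ⟨α, t, rfl⟩)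

theorem T_le_gen : S.T ≤ S.gen := S.T_le_N.trans S.N_le_gen

theorem U_le_gen (m : ℤ) : S.U m ≤ S.gen := by
  apply Subgroup.closure_mono
  rintro g ⟨β, t, _, rfl⟩
  exact ⟨β, t, rfl⟩

theorem U_mono {m k : ℤ} (h : m ≤ k) : S.U k ≤ S.U m := by
  apply Subgroup.closure_mono
  rintro g ⟨β, t, hβ, rfl⟩
  exact ⟨β, t, h.trans hβ, rfl⟩

theorem T_acts' (τ : H) (hτ : τ ∈ S.T) : ∃ c : C.Root → K, (∀ β, c β ≠ 0) ∧
    (∀ β, c (-β) = (c β)⁻¹) ∧ ∀ β u, τ * S.x β u * τ⁻¹ = S.x β (c β * u) := by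
  unfold T at hτ
  induction hτ using Subgroup.closure_induction with
  | mem g hg =>
    obtain ⟨α, t, ht, rfl⟩ := hg
    refine ⟨fun β => t ^ (C.ip α.1 β.1), fun β => zpow_ne_zero _ ht, fun β => ?_,
      fun β u => S.h_conj α β t u ht⟩
    simp only [SLC.Root.neg_val, C.ip_neg_right, _root_.zpow_neg]
  | one => exact ⟨fun _ => 1, fun _ => one_ne_zero, fun _ => by simp, fun β u => by simp⟩
  | mul a b _ _ iha ihb =>
    obtain ⟨c, h1, h2, h3⟩ := iha
    obtain ⟨d, g1, g2, g3⟩ := ihb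
    refine ⟨fun β => c β * d β, fun β => mul_ne_zero (h1 β) (g1 β), fun β => ?_, fun β u => ?_⟩
    · simp only [h2, g2, mul_inv]
    · have : a * b * S.x β u * (a * b)⁻¹ = a * (b * S.x β u * b⁻¹) * a⁻¹ := by group
      rw [this, g3, h3, mul_assoc]
  | inv a _ iha =>
    obtain ⟨c, h1, h2, h3⟩ := iha
    refine ⟨fun β => (c β)⁻¹, fun β => inv_ne_zero (h1 β), fun β => ?_, fun β u => ?_⟩
    · simp only [h2]
    · have h4 := h3 β ((c β)⁻¹ * u)
      rw [mul_inv_cancel_left₀ (h1 β)] at h4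
      rw [← h4]
      group

theorem tor_mem (v : Fin n → ℤ) (t : K) (ht : t ≠ 0) : S.tor v t ∈ S.T := by
  unfold tor
  apply Subgroup.list_prod_mem
  intro g hg
  obtain ⟨i, _, rfl⟩ := List.mem_map.mp hg
  exact S.T.zpow_mem (Subgroup.subset_closure ⟨C.simple i, t, ht, rfl⟩) _

private theorem S2_zpow (g : H) (c : K) (hc : c ≠ 0) (β : C.Root)
    (h1 : ∀ u, g * S.x β u * g⁻¹ = S.x β (c * u)) (k : ℤ) :
    ∀ u, g ^ k * S.x β u * (g ^ k)⁻¹ = S.x β (c ^ k * u) := by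
  have hn : ∀ k : ℕ, ∀ u, g ^ k * S.x β u * (g ^ k)⁻¹ = S.x β (c ^ k * u) := by
    intro k
    induction k with
    | zero => intro u; simp
    | succ k ih =>
      intro u
      have : g ^ (k + 1) * S.x β u * (g ^ (k + 1))⁻¹ =
          g * (g ^ k * S.x β u * (g ^ k)⁻¹) * g⁻¹ := by
        rw [pow_succ']
        group
      rw [this, ih, h1, pow_succ', mul_assoc]
  intro u
  rcases Int.eq_nat_or_neg k with ⟨m, rfl | rfl⟩
  · rw [zpow_natCast, zpow_natCast]
    exact hn m u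
  · have h3 := hn m ((c ^ m)⁻¹ * u)
    rw [mul_inv_cancel_left₀ (pow_ne_zero m hc)] at h3
    rw [_root_.zpow_neg, zpow_natCast, _root_.zpow_neg, zpow_natCast, ← h3]
    group

private theorem S2_tor (v : Fin n → ℤ) (t : K) (ht : t ≠ 0) (β : C.Root) (l : List (Fin n)) :
    ∀ u, (l.map fun i => hh S.x (C.simple i) t ^ v i).prod * S.x β u *
      ((l.map fun i => hh S.x (C.simple i) t ^ v i).prod)⁻¹ =
        S.x β (t ^ ((l.map fun i => v i * C.ip (Pi.single i 1) β.1).sum) * u) := by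
  induction l with
  | nil => intro u; simp
  | cons i l ih =>
    intro u
    simp only [List.map_cons, List.prod_cons, List.sum_cons]
    set P := (l.map fun i => hh S.x (C.simple i) t ^ v i).prod with hP
    have h1 : hh S.x (C.simple i) t ^ v i * P * S.x β u * (hh S.x (C.simple i) t ^ v i * P)⁻¹ =
        hh S.x (C.simple i) t ^ v i * (P * S.x β u * P⁻¹) * (hh S.x (C.simple i) t ^ v i)⁻¹ := by
      group
    rw [h1, ih, S.S2_zpow _ (t ^ (C.ip (C.simple i).1 β.1)) (zpow_ne_zero _ ht) β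
      (fun u => S.h_conj _ β t u ht)]
    congr 1
    rw [← _root_.zpow_mul, ← mul_assoc, ← zpow_add₀ ht, SLC.simple_val, mul_comm (C.ip _ _) (v i)]

theorem tor_conj (v : Fin n → ℤ) (t : K) (ht : t ≠ 0) (β : C.Root) (u : K) :
    S.tor v t * S.x β u * (S.tor v t)⁻¹ = S.x β (t ^ (C.ip v β.1) * u) := by
  unfold tor
  rw [S.S2_tor v t ht β (List.finRange n) u, ← C.sum_ip_single v β.1, Fin.sum_univ_def]

theorem T_conj_U (m : ℤ) (τ u : H) (hτ : τ ∈ S.T) (hu : u ∈ S.U m) :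
    τ * u * τ⁻¹ ∈ S.U m := by
  obtain ⟨c, _, _, h3⟩ := S.T_acts' τ hτ
  unfold U at hu ⊢
  induction hu using Subgroup.closure_induction with
  | mem g hg =>
    obtain ⟨β, t, hβ, rfl⟩ := hg
    rw [h3]
    exact Subgroup.subset_closure ⟨β, _, hβ, rfl⟩
  | one => simp
  | mul a b _ _ iha ihb =>
    have : τ * (a * b) * τ⁻¹ = (τ * a * τ⁻¹) * (τ * b * τ⁻¹) := by group
    rw [this]
    exact Subgroup.mul_mem _ iha ihb
  | inv a _ iha =>
    have : τ * a⁻¹ * τ⁻¹ = (τ * a * τ⁻¹)⁻¹ := by group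
    rw [this]
    exact Subgroup.inv_mem _ iha

end StSys

end Pool.Agent.H75.UL
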