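import Pool.Agent.H75.UL.T1
import Pool.Agent.H75.UL.Ad
import Pool.Agent.H75.UL.S2
import Pool.Agent.H75.UL.R2

/-!
# Project UL (MP_978914_al), module T2

Unitriangular elements of the adjoint group and their leading parts.

`Fil_U`: `X β t - 1 = t E + t² F` satisfies `Fil (ht β)` when `ht β ≥ 1`; closure induction
(`u v - 1 = (u - 1) v + (v - 1)`, `Fil_inv`). `xi_mul`: the entry of `u v` at
`(inl j, inr (-α_j))`, heights `0` and `-1`: only middle indices of height `0` and `-1` contribute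
(`Fil 1 (u - 1)`, `Fil 1 (v - 1)`), and at these `u (inl j) (inl j') = δ`,
`v (inr (-α_k)) (inr (-α_j)) = δ`; so it is the sum of the two entries (roots of height `-1` are the
`-α_k`; no root has height `0`). `xi_xg`: `E β` has the entry `-β_j` at `(inl j, inr (-β))`.
`lead_U`: for generators (`ht β = 1`: `β = α_i` by `eq_simple_of_ht_one`, `ld = t E_i`; `ht β ≥ 2`:
`ld = 0`), and `ld` is additive on products by `xi_mul`; `u v - 1 - ld u - ld v =
(u - 1 - ld u) + (v - 1 - ld v) + (u - 1)(v - 1)`. `xi_eq_zero_of_mem_U_two`: `Fil 2 (u - 1)`.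
-/

set_option autoImplicit false
open Matrix
universe u
namespace Pool.Agent.H75.UL

namespace SLC
variable {n : ℕ} (C : SLC n) {K : Type*} [Field K]

private theorem T2_Fil_xg (m : ℤ) (hm : 1 ≤ m) (β : C.Root) (t : K) (hβ : m ≤ ht β.1) :
    C.Fil m ((C.xg K β t : Matrix C.Idx C.Idx K) - 1) := by
  have h : (C.xg K β t : Matrix C.Idx C.Idx K) - 1 =
      t • (C.E β).map (Int.cast : ℤ → K) + t ^ 2 • (C.F β).map (Int.cast : ℤ → K) := by
    show C.X K β t - 1 = _
    unfold X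
    abel
  rw [h]
  exact C.Fil_add (C.Fil_mono hβ (C.Fil_smul t (C.Fil_E K β)))
    (C.Fil_mono (by omega) (C.Fil_smul (t ^ 2) (C.Fil_F K β)))

private theorem T2_mul_sub (A B : Matrix C.Idx C.Idx K) :
    A * B - 1 = (A - 1) * (B - 1) + (A - 1) + (B - 1) := by
  rw [sub_mul, mul_sub, mul_one, one_mul]
  abel

theorem Fil_U (m : ℤ) (hm : 1 ≤ m) (u : GL C.Idx K) (hu : u ∈ (C.adS K).U m) :
    C.Fil m ((u : Matrix C.Idx C.Idx K) - 1) := by
  unfold StSys.U at hu
  induction hu using Subgroup.closure_induction with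
  | mem g hg =>
    obtain ⟨β, t, hβ, rfl⟩ := hg
    exact C.T2_Fil_xg m hm β t hβ
  | one =>
    rw [Units.val_one, sub_self]
    exact C.Fil_zero m
  | mul x y _ _ hx hy =>
    rw [Units.val_mul, T2_mul_sub]
    exact C.Fil_add (C.Fil_add (C.Fil_mono (by omega) (C.Fil_mul hx hy)) hx) hy
  | inv x _ hx => exact C.Fil_inv x m hm hx

theorem Fil_U_zero (u : GL C.Idx K) (hu : u ∈ (C.adS K).U 1) :
    C.Fil 0 (u : Matrix C.Idx C.Idx K) := by
  have h := C.Fil_U 1 le_rfl u hu
  have h1 : (u : Matrix C.Idx C.Idx K) = ((u : Matrix C.Idx C.Idx K) - 1) + 1 := by abel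
  rw [h1]
  exact C.Fil_add (C.Fil_mono (by omega) h) C.Fil_one

private theorem T2_xi_add (j : Fin n) (A B : Matrix C.Idx C.Idx K) :
    C.xi j (A + B) = C.xi j A + C.xi j B := by
  unfold xi
  rw [Matrix.add_apply, neg_add]

private theorem T2_xi_zero (j : Fin n) (M : Matrix C.Idx C.Idx K) (h : C.Fil 2 M) :
    C.xi j M = 0 := by
  unfold xi
  rw [h (Sum.inl j) (Sum.inr (-(C.simple j))), neg_zero]
  show (0 : ℤ) < ht (-(C.simple j)).1 + 2
  rw [Root.neg_val, ht_neg, C.ht_simple]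
  norm_num

theorem xi_one (j : Fin n) : C.xi j (1 : Matrix C.Idx C.Idx K) = 0 := by
  unfold xi
  rw [Matrix.one_apply_ne (by simp), neg_zero]

private theorem T2_xi_sub_one (j : Fin n) (M : Matrix C.Idx C.Idx K) :
    C.xi j (M - 1) = C.xi j M := by
  have h := C.T2_xi_add j (M - 1) 1
  rw [sub_add_cancel, xi_one, add_zero] at h
  exact h.symm

private theorem T2_xi_mul (j : Fin n) (A B : Matrix C.Idx C.Idx K) (hA : C.Fil 1 (A - 1))
    (hB : C.Fil 1 (B - 1)) : C.xi j (A * B) = C.xi j A + C.xi j B := by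
  rw [← C.T2_xi_sub_one j (A * B), T2_mul_sub, T2_xi_add, T2_xi_add, T2_xi_sub_one, T2_xi_sub_one,
    C.T2_xi_zero j _ (C.Fil_mul hA hB), zero_add]

theorem xi_mul (j : Fin n) (u v : GL C.Idx K) (hu : u ∈ (C.adS K).U 1)
    (hv : v ∈ (C.adS K).U 1) : C.xi j ((u * v : GL C.Idx K) : Matrix C.Idx C.Idx K) =
      C.xi j (u : Matrix C.Idx C.Idx K) + C.xi j (v : Matrix C.Idx C.Idx K) := by
  rw [Units.val_mul]
  exact C.T2_xi_mul j _ _ (C.Fil_U 1 le_rfl u hu) (C.Fil_U 1 le_rfl v hv)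

theorem xi_xg (j : Fin n) (β : C.Root) (hβ : C.Pos β) (t : K) :
    C.xi j (C.xg K β t : Matrix C.Idx C.Idx K) = if β = C.simple j then t else 0 := by
  show C.xi j (C.X K β t) = _
  unfold xi X
  rw [Matrix.add_apply, Matrix.add_apply, Matrix.one_apply_ne (by simp), Matrix.smul_apply,
    Matrix.smul_apply, Matrix.map_apply, Matrix.map_apply]
  have hF : C.F β (Sum.inl j) (Sum.inr (-(C.simple j))) = 0 := rfl
  have hE : C.E β (Sum.inl j) (Sum.inr (-(C.simple j))) =
      if (-(C.simple j)).1 = -β.1 then - β.1 j else 0 := rfl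
  rw [hF, hE]
  by_cases h : β = C.simple j
  · subst h
    rw [if_pos rfl, if_pos (Root.neg_val C (C.simple j)), simple_val, Pi.single_eq_same]
    simp
  · rw [if_neg h, if_neg]
    · simp
    · intro h1
      apply h
      apply Root.ext
      rw [Root.neg_val] at h1
      exact (neg_injective h1).symm

theorem xi_inv (j : Fin n) (u : GL C.Idx K) (hu : u ∈ (C.adS K).U 1) :
    C.xi j ((u⁻¹ : GL C.Idx K) : Matrix C.Idx C.Idx K) =
      - C.xi j (u : Matrix C.Idx C.Idx K) := by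
  have h := C.xi_mul j u u⁻¹ hu (inv_mem hu)
  rw [mul_inv_cancel, Units.val_one, xi_one] at h
  exact eq_neg_of_add_eq_zero_right h.symm

theorem xi_eq_zero_of_Fil (j : Fin n) (M : Matrix C.Idx C.Idx K) (h : C.Fil 2 (M - 1)) :
    C.xi j M = 0 := by
  rw [← T2_xi_sub_one]
  exact C.T2_xi_zero j _ h

theorem Fil_ld (M : Matrix C.Idx C.Idx K) : C.Fil 1 (C.ld M) := by
  unfold ld
  apply C.Fil_sum
  intro i _
  have h := C.Fil_E K (C.simple i)
  rw [C.ht_simple] at h
  exact C.Fil_smul _ h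

private theorem T2_ld_xg (β : C.Root) (hβ : C.Pos β) (t : K) :
    C.ld (C.xg K β t : Matrix C.Idx C.Idx K) =
      ∑ j, (if β = C.simple j then t else 0) • (C.E (C.simple j)).map (Int.cast : ℤ → K) := by
  unfold ld
  exact Finset.sum_congr rfl fun j _ => by rw [C.xi_xg j β hβ t]

private theorem T2_lead_xg (β : C.Root) (hβ : 1 ≤ ht β.1) (t : K) :
    C.Fil 2 ((C.xg K β t : Matrix C.Idx C.Idx K) - 1 -
      C.ld (C.xg K β t : Matrix C.Idx C.Idx K)) := by
  have hpos : C.Pos β := by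
    unfold Pos
    omega
  rw [C.T2_ld_xg β hpos t]
  rcases eq_or_lt_of_le hβ with h1 | h1
  · obtain ⟨i, rfl⟩ := C.eq_simple_of_ht_one β h1.symm
    rw [Finset.sum_eq_single i]
    · rw [if_pos rfl]
      have h2 : (C.xg K (C.simple i) t : Matrix C.Idx C.Idx K) - 1 -
          t • (C.E (C.simple i)).map (Int.cast : ℤ → K) =
          t ^ 2 • (C.F (C.simple i)).map (Int.cast : ℤ → K) := by
        show C.X K (C.simple i) t - 1 - _ = _
        unfold X
        abel
      rw [h2]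
      have h3 := C.Fil_F K (C.simple i)
      rw [C.ht_simple] at h3
      exact C.Fil_smul _ (C.Fil_mono (by norm_num) h3)
    · intro j _ hj
      rw [if_neg (fun h => hj (C.simple_injective h).symm), zero_smul]
    · intro h
      exact absurd (Finset.mem_univ i) h
  · rw [Finset.sum_eq_zero, sub_zero]
    · exact C.T2_Fil_xg 2 (by norm_num) β t (by omega)
    · intro j _
      rw [if_neg, zero_smul]
      rintro rfl
      rw [C.ht_simple] at h1
      omega

private theorem T2_ld_add (A B D : Matrix C.Idx C.Idx K) (h : ∀ j, C.xi j D = C.xi j A + C.xi j B) :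
    C.ld D = C.ld A + C.ld B := by
  unfold ld
  rw [← Finset.sum_add_distrib]
  refine Finset.sum_congr rfl fun j _ => ?_
  rw [h, add_smul]

theorem lead_U (u : GL C.Idx K) (hu : u ∈ (C.adS K).U 1) :
    C.Fil 2 ((u : Matrix C.Idx C.Idx K) - 1 - C.ld (u : Matrix C.Idx C.Idx K)) := by
  have hu' := hu
  unfold StSys.U at hu'
  induction hu' using Subgroup.closure_induction with
  | mem g hg =>
    obtain ⟨β, t, hβ, rfl⟩ := hg
    exact C.T2_lead_xg β hβ t
  | one =>
    have h : C.ld (1 : Matrix C.Idx C.Idx K) = 0 := by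
      unfold ld
      refine Finset.sum_eq_zero fun j _ => ?_
      rw [xi_one, zero_smul]
    rw [Units.val_one, sub_self, h, sub_zero]
    exact C.Fil_zero 2
  | mul x y hx hy ihx ihy =>
    have h1 := ihx hx
    have h2 := ihy hy
    have h3 := C.T2_ld_add (x : Matrix C.Idx C.Idx K) (y : Matrix C.Idx C.Idx K)
      ((x * y : GL C.Idx K) : Matrix C.Idx C.Idx K) (fun j => C.xi_mul j x y hx hy)
    rw [h3, Units.val_mul, T2_mul_sub]
    have h4 : ((x : Matrix C.Idx C.Idx K) - 1) * ((y : Matrix C.Idx C.Idx K) - 1) +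
        ((x : Matrix C.Idx C.Idx K) - 1) + ((y : Matrix C.Idx C.Idx K) - 1) -
        (C.ld (x : Matrix C.Idx C.Idx K) + C.ld (y : Matrix C.Idx C.Idx K)) =
        ((x : Matrix C.Idx C.Idx K) - 1) * ((y : Matrix C.Idx C.Idx K) - 1) +
        ((x : Matrix C.Idx C.Idx K) - 1 - C.ld (x : Matrix C.Idx C.Idx K)) +
        ((y : Matrix C.Idx C.Idx K) - 1 - C.ld (y : Matrix C.Idx C.Idx K)) := by abel
    rw [h4]
    exact C.Fil_add (C.Fil_add (C.Fil_mul (C.Fil_U 1 le_rfl x hx) (C.Fil_U 1 le_rfl y hy)) h1) h2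
  | inv x hx ihx =>
    have h1 := ihx hx
    have hxi : x⁻¹ ∈ (C.adS K).U 1 := inv_mem hx
    have h3 := C.T2_ld_add (x : Matrix C.Idx C.Idx K)
      ((x⁻¹ : GL C.Idx K) : Matrix C.Idx C.Idx K) 1 (fun j => by
        rw [C.xi_inv j x hx, xi_one, add_neg_cancel])
    have h5 : C.ld (1 : Matrix C.Idx C.Idx K) = 0 := by
      unfold ld
      refine Finset.sum_eq_zero fun j _ => ?_
      rw [xi_one, zero_smul]
    rw [h5] at h3
    have h6 : C.ld ((x⁻¹ : GL C.Idx K) : Matrix C.Idx C.Idx K) =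
        - C.ld (x : Matrix C.Idx C.Idx K) := eq_neg_of_add_eq_zero_right h3.symm
    have h7 := C.T2_mul_sub (x : Matrix C.Idx C.Idx K) ((x⁻¹ : GL C.Idx K) : Matrix C.Idx C.Idx K)
    rw [← Units.val_mul, mul_inv_cancel, Units.val_one, sub_self] at h7
    have h8 : ((x⁻¹ : GL C.Idx K) : Matrix C.Idx C.Idx K) - 1 =
        -(((x : Matrix C.Idx C.Idx K) - 1) * (((x⁻¹ : GL C.Idx K) : Matrix C.Idx C.Idx K) - 1)) -
        ((x : Matrix C.Idx C.Idx K) - 1) :=
      (eq_neg_of_add_eq_zero_right h7.symm).trans (by abel)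
    have h10 : ((x⁻¹ : GL C.Idx K) : Matrix C.Idx C.Idx K) - 1 -
        C.ld ((x⁻¹ : GL C.Idx K) : Matrix C.Idx C.Idx K) =
        -(((x : Matrix C.Idx C.Idx K) - 1) * (((x⁻¹ : GL C.Idx K) : Matrix C.Idx C.Idx K) - 1)) -
        ((x : Matrix C.Idx C.Idx K) - 1 - C.ld (x : Matrix C.Idx C.Idx K)) := by
      rw [h6]
      generalize ((x : Matrix C.Idx C.Idx K) - 1) *
        (((x⁻¹ : GL C.Idx K) : Matrix C.Idx C.Idx K) - 1) = P at h8 ⊢
      rw [h8]
      abel
    rw [h10]
    exact C.Fil_sub (C.Fil_neg (C.Fil_mul (C.Fil_U 1 le_rfl x hx) (C.Fil_U 1 le_rfl _ hxi))) h1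

end SLC

end Pool.Agent.H75.UL
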