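import Pool.Agent.H75.UL.T6
import Pool.Agent.H75.UL.T2
import Pool.Agent.H75.UL.S6

/-!
# Project UL (MP_978914_al), module T7

Upper triangular elements of the adjoint group.

`upper`: `g ∈ Gad = gen`; Bruhat: `g = u ν v`; `ν = u⁻¹ g v⁻¹` satisfies `Fil 0` (`Fil_U_zero`).
`N_acts`: `w ∈ W`, `Acts ν w`. If `w ≠ 1`, some `w α_i` is not positive (`eq_one_of_pos`), so the
entry of `ν` at `(inr (w α_i), inr α_i)` must be `0` (`Fil 0`, `ht (w α_i) < 0 < 1`), contradicting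
`N_mono`. So `w = 1`, `ν ∈ T` and `g = ν * ((ν⁻¹ u ν) * v)` (`T_conj_U` for `ν⁻¹`).
`upper_inv`, `upper_mul`: consequences. `chi_mul`: diagonal entries of products of elements with
`Fil 0`, when the blocks of equal height are... : use `upper` and `T_conj_U`: `τ u τ' u' =
(τ τ') (τ'⁻¹ u τ' u')` and `chi (τ u) γ = chi τ γ` (`Fil 1 (u - 1)`). `chi_prod` from `T_diag`.
`xi_eq_zero`: the entry of `u = ν b ν⁻¹`, `b = ν⁻¹ u ν` with `Fil 0 b`, at `(inl j, inr (-α_j))`: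
`ν⁻¹` acts by `w⁻¹` and maps `e_{-α_j}` to a multiple of `e_δ`, `δ = -w⁻¹ α_j` of positive height
(`not_pos_iff`, `W_neg`); `b e_δ` has only components of height `≥ ht δ > 0`, so no `inl`
components and `ν` maps root vectors to root vectors (`N_mono`).
`xi_conj`: `b = τ u₀` (`upper`); conjugation by `u₀ ∈ U 1` does not change `xi j` (`xi_mul`,
`xi_inv`), conjugation by `τ` multiplies it by `chi τ α_j` (diagonal matrix, entry `1` at `inl j`,
`chi τ (-α_j) = (chi τ α_j)⁻¹`).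
-/

set_option autoImplicit false
open Matrix
universe u
namespace Pool.Agent.H75.UL

namespace SLC
variable {n : ℕ} (C : SLC n) {K : Type*} [Field K]

private theorem T7_Fil00 {R : Type*} [CommRing R] {M N : Matrix C.Idx C.Idx R}
    (hM : C.Fil 0 M) (hN : C.Fil 0 N) : C.Fil 0 (M * N) := by
  have h := C.Fil_mul hM hN
  rwa [add_zero] at h

theorem upper (g : GL C.Idx K) (hg : g ∈ C.Gad K) (h : C.Fil 0 (g : Matrix C.Idx C.Idx K)) :
    ∃ τ ∈ (C.adS K).T, ∃ u ∈ (C.adS K).U 1, g = τ * u := by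
  rw [← C.gen_adS K] at hg
  obtain ⟨u, hu, ν, hν, v, hv, hguv⟩ := (C.adS K).bruhat g hg
  have hν0 : C.Fil 0 (ν : Matrix C.Idx C.Idx K) := by
    have e1 : ν = u⁻¹ * g * v⁻¹ := by
      rw [hguv]
      group
    rw [e1, Units.val_mul, Units.val_mul]
    exact C.T7_Fil00 (C.T7_Fil00 (C.Fil_U_zero _ (Subgroup.inv_mem _ hu)) h)
      (C.Fil_U_zero _ (Subgroup.inv_mem _ hv))
  obtain ⟨w, hw, ha, h1⟩ := (C.adS K).N_acts ν hν
  have hw1 : w = 1 := by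
    refine C.eq_one_of_pos w hw fun i => ?_
    by_contra hcon
    have h2 := (C.N_mono ν w ha hν).2.2.2.2 (C.simple i)
    refine h2 (hν0 _ _ ?_)
    have h3 : ¬ (0 < ht (w (C.simple i)).1) := hcon
    have h4 := C.ht_simple i
    show ht (w (C.simple i)).1 < ht (C.simple i).1 + 0
    omega
  have hT := h1 hw1
  refine ⟨ν, hT, ν⁻¹ * u * ν * v, ?_, ?_⟩
  · have h5 := (C.adS K).T_conj_U 1 ν⁻¹ u (Subgroup.inv_mem _ hT) hu
    rw [inv_inv] at h5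
    exact Subgroup.mul_mem _ h5 hv
  · rw [hguv]
    group

theorem Fil_T (τ : GL C.Idx K) (hτ : τ ∈ (C.adS K).T) :
    C.Fil 0 (τ : Matrix C.Idx C.Idx K) := by
  obtain ⟨c, hc⟩ := C.T_diag τ hτ
  intro a b hab
  rw [hc]
  refine Matrix.diagonal_apply_ne _ ?_
  rintro rfl
  omega

theorem upper_inv (g : GL C.Idx K) (hg : g ∈ C.Gad K) (h : C.Fil 0 (g : Matrix C.Idx C.Idx K)) :
    C.Fil 0 ((g⁻¹ : GL C.Idx K) : Matrix C.Idx C.Idx K) := by
  obtain ⟨τ, hτ, u, hu, rfl⟩ := C.upper g hg h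
  rw [_root_.mul_inv_rev, Units.val_mul]
  exact C.T7_Fil00 (C.Fil_U_zero _ (Subgroup.inv_mem _ hu)) (C.Fil_T _ (Subgroup.inv_mem _ hτ))

theorem chi_mul_U (τ u : GL C.Idx K) (hτ : τ ∈ (C.adS K).T) (hu : u ∈ (C.adS K).U 1) (γ : C.Root) :
    C.chi ((τ * u : GL C.Idx K) : Matrix C.Idx C.Idx K) γ =
      C.chi (τ : Matrix C.Idx C.Idx K) γ := by
  obtain ⟨c, hc⟩ := C.T_diag τ hτ
  have h1 : (u : Matrix C.Idx C.Idx K) (Sum.inr γ) (Sum.inr γ) = 1 := by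
    have h2 := C.Fil_U 1 le_rfl u hu (Sum.inr γ) (Sum.inr γ) (by omega)
    rw [Matrix.sub_apply, Matrix.one_apply_eq, sub_eq_zero] at h2
    exact h2
  unfold chi
  rw [Units.val_mul, hc, Matrix.diagonal_mul, Matrix.diagonal_apply_eq, h1, mul_one]

private theorem T7_chi_T (τ τ' : GL C.Idx K) (hτ : τ ∈ (C.adS K).T) (γ : C.Root) :
    C.chi ((τ * τ' : GL C.Idx K) : Matrix C.Idx C.Idx K) γ =
      C.chi (τ : Matrix C.Idx C.Idx K) γ * C.chi (τ' : Matrix C.Idx C.Idx K) γ := by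
  obtain ⟨c, hc⟩ := C.T_diag τ hτ
  unfold chi
  rw [Units.val_mul, hc, Matrix.diagonal_mul, Matrix.diagonal_apply_eq]

theorem chi_mul (g h : GL C.Idx K) (hg : g ∈ C.Gad K) (hh : h ∈ C.Gad K)
    (hg0 : C.Fil 0 (g : Matrix C.Idx C.Idx K)) (hh0 : C.Fil 0 (h : Matrix C.Idx C.Idx K))
    (γ : C.Root) : C.chi ((g * h : GL C.Idx K) : Matrix C.Idx C.Idx K) γ =
      C.chi (g : Matrix C.Idx C.Idx K) γ * C.chi (h : Matrix C.Idx C.Idx K) γ := by
  obtain ⟨τ, hτ, u, hu, rfl⟩ := C.upper g hg hg0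
  obtain ⟨τ', hτ', u', hu', rfl⟩ := C.upper h hh hh0
  have e1 : τ * u * (τ' * u') = (τ * τ') * (τ'⁻¹ * u * τ' * u') := by group
  have h1 := (C.adS K).T_conj_U 1 τ'⁻¹ u (Subgroup.inv_mem _ hτ') hu
  rw [inv_inv] at h1
  rw [e1, C.chi_mul_U _ _ (Subgroup.mul_mem _ hτ hτ') (Subgroup.mul_mem _ h1 hu'),
    C.chi_mul_U τ u hτ hu, C.chi_mul_U τ' u' hτ' hu', C.T7_chi_T τ τ' hτ]

theorem chi_ne_zero (g : GL C.Idx K) (hg : g ∈ C.Gad K) (hg0 : C.Fil 0 (g : Matrix C.Idx C.Idx K))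
    (γ : C.Root) : C.chi (g : Matrix C.Idx C.Idx K) γ ≠ 0 := by
  obtain ⟨τ, hτ, u, hu, rfl⟩ := C.upper g hg hg0
  rw [C.chi_mul_U τ u hτ hu]
  exact (C.T_fix τ hτ γ 0).1

private theorem T7_prod_single (c : Fin n → Kˣ) (j : Fin n) :
    ((∏ i, c i ^ (C.simple j).1 i : Kˣ) : K) = c j := by
  rw [Finset.prod_eq_single j]
  · rw [simple_val, Pi.single_eq_same, zpow_one]
  · intro i _ hi
    rw [simple_val, Pi.single_eq_of_ne hi, zpow_zero]
  · intro h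
    exact absurd (Finset.mem_univ j) h

theorem chi_prod (g : GL C.Idx K) (hg : g ∈ C.Gad K) (hg0 : C.Fil 0 (g : Matrix C.Idx C.Idx K))
    (γ : C.Root) : C.chi (g : Matrix C.Idx C.Idx K) γ =
      ∏ j, C.chi (g : Matrix C.Idx C.Idx K) (C.simple j) ^ γ.1 j := by
  obtain ⟨τ, hτ, u, hu, rfl⟩ := C.upper g hg hg0
  obtain ⟨c, hc⟩ := C.T_diag τ hτ
  have h1 : ∀ δ : C.Root, C.chi (τ : Matrix C.Idx C.Idx K) δ = ((∏ j, c j ^ δ.1 j : Kˣ) : K) := by
    intro δ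
    unfold chi
    rw [hc, Matrix.diagonal_apply_eq]
    rfl
  rw [C.chi_mul_U τ u hτ hu, h1 γ, Units.coe_prod]
  refine Finset.prod_congr rfl fun j _ => ?_
  rw [C.chi_mul_U τ u hτ hu, h1 (C.simple j), T7_prod_single, Units.val_zpow_eq_zpow_val]

private theorem T7_pow {A B : Matrix C.Idx C.Idx K} (hA : C.Fil 0 A) (hB : C.Fil 1 B) (k : ℕ) :
    C.Fil 0 ((A + B) ^ k) ∧ C.Fil 1 ((A + B) ^ k - A ^ k) := by
  have hB0 : C.Fil 0 B := C.Fil_mono (by norm_num) hB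
  induction k with
  | zero =>
    rw [pow_zero, pow_zero, sub_self]
    exact ⟨C.Fil_one, C.Fil_zero 1⟩
  | succ k ih =>
    have e1 : (A + B) ^ (k + 1) - A ^ (k + 1) = ((A + B) ^ k - A ^ k) * A + (A + B) ^ k * B := by
      rw [pow_succ, pow_succ]
      noncomm_ring
    refine ⟨?_, ?_⟩
    · rw [pow_succ]
      exact C.T7_Fil00 ih.1 (C.Fil_add hA hB0)
    · rw [e1]
      have h1 := C.Fil_mul ih.2 hA
      have h2 := C.Fil_mul ih.1 hB
      rw [add_zero] at h1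
      rw [zero_add] at h2
      exact C.Fil_add h1 h2

/-- A unipotent upper triangular element lies in `U 1`. -/
theorem mem_U_of_unipotent (g : GL C.Idx K) (hg : g ∈ C.Gad K)
    (hg0 : C.Fil 0 (g : Matrix C.Idx C.Idx K))
    (hu : IsNilpotent ((g : Matrix C.Idx C.Idx K) - 1)) : g ∈ (C.adS K).U 1 := by
  obtain ⟨τ, hτ, u, hu1, rfl⟩ := C.upper g hg hg0
  obtain ⟨k, hk⟩ := hu
  obtain ⟨c, hc⟩ := C.T_diag τ hτ
  have hA : C.Fil 0 ((τ : Matrix C.Idx C.Idx K) - 1) := C.Fil_sub (C.Fil_T τ hτ) C.Fil_one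
  have hB : C.Fil 1 ((τ : Matrix C.Idx C.Idx K) * ((u : Matrix C.Idx C.Idx K) - 1)) := by
    have h := C.Fil_mul (C.Fil_T τ hτ) (C.Fil_U 1 le_rfl u hu1)
    rwa [zero_add] at h
  have e1 : ((τ * u : GL C.Idx K) : Matrix C.Idx C.Idx K) - 1 = ((τ : Matrix C.Idx C.Idx K) - 1) +
      (τ : Matrix C.Idx C.Idx K) * ((u : Matrix C.Idx C.Idx K) - 1) := by
    rw [Units.val_mul]
    noncomm_ring
  have h1 := (C.T7_pow hA hB k).2
  rw [← e1, hk, zero_sub] at h1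
  have hchi : ∀ γ, C.chi (τ : Matrix C.Idx C.Idx K) γ = 1 := by
    intro γ
    have h2 := h1 (Sum.inr γ) (Sum.inr γ) (by omega)
    have e2 : (τ : Matrix C.Idx C.Idx K) - 1 = Matrix.diagonal (fun a => (Sum.elim (fun _ => (1 : K))
        (fun γ : C.Root => ((∏ j, c j ^ γ.1 j : Kˣ) : K)) : C.Idx → K) a - 1) := by
      rw [hc]
      ext a b
      by_cases hab : a = b
      · subst hab
        simp
      · rw [Matrix.sub_apply, Matrix.diagonal_apply_ne _ hab, Matrix.diagonal_apply_ne _ hab,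
          Matrix.one_apply_ne hab, sub_zero]
    rw [Matrix.neg_apply, neg_eq_zero, e2, Matrix.diagonal_pow, Matrix.diagonal_apply_eq, Pi.pow_apply] at h2
    have h3 := eq_zero_of_pow_eq_zero h2
    unfold chi
    rw [hc, Matrix.diagonal_apply_eq]
    exact sub_eq_zero.1 h3
  have hτ1 : τ = 1 := by
    refine C.T_ext τ 1 hτ (Subgroup.one_mem _) fun j => ?_
    rw [hchi]
    unfold chi
    rw [Units.val_one, Matrix.one_apply_eq]
  rw [hτ1, one_mul]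
  exact hu1

theorem xi_eq_zero (ν u : GL C.Idx K) (w : Equiv.Perm C.Root)
    (hν : ν ∈ (C.adS K).N) (ha : (C.adS K).Acts ν w) (hu : u ∈ (C.adS K).U 1)
    (h : C.Fil 0 ((ν⁻¹ * u * ν : GL C.Idx K) : Matrix C.Idx C.Idx K)) (j : Fin n)
    (hj : ¬ C.Pos (w⁻¹ (C.simple j))) : C.xi j (u : Matrix C.Idx C.Idx K) = 0 := by
  obtain ⟨hw, m1, m2, m3, m4⟩ := C.N_mono ν w ha hν
  set δ : C.Root := -(w⁻¹ (C.simple j)) with hδ
  have hδpos : C.Pos δ := (C.not_pos_iff _).1 hj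
  have hwδ : w δ = -(C.simple j) := by
    rw [hδ, C.W_neg w hw, ← Equiv.Perm.mul_apply, mul_inv_cancel, Equiv.Perm.one_apply]
  have e1 : u * ν = ν * (ν⁻¹ * u * ν) := by group
  have e2 := congrArg (fun g : GL C.Idx K => (g : Matrix C.Idx C.Idx K) (Sum.inl j) (Sum.inr δ)) e1
  simp only [Units.val_mul] at e2
  rw [← Units.val_mul, ← Units.val_mul (ν⁻¹) u, ← Units.val_mul (ν⁻¹ * u) ν] at e2
  rw [Units.val_mul, Matrix.mul_apply, Matrix.mul_apply] at e2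
  have hR : ∑ a, (ν : Matrix C.Idx C.Idx K) (Sum.inl j) a *
      ((ν⁻¹ * u * ν : GL C.Idx K) : Matrix C.Idx C.Idx K) a (Sum.inr δ) = 0 := by
    refine Finset.sum_eq_zero fun a _ => ?_
    rcases a with i | γ
    · have h3 : ((ν⁻¹ * u * ν : GL C.Idx K) : Matrix C.Idx C.Idx K) (Sum.inl i) (Sum.inr δ) = 0 := by
        refine h _ _ ?_
        show (0 : ℤ) < ht δ.1 + 0
        have : 0 < ht δ.1 := hδpos
        omega
      rw [h3, mul_zero]
    · rw [m1 j γ, zero_mul]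
  have hLs : ∑ a, (u : Matrix C.Idx C.Idx K) (Sum.inl j) a * (ν : Matrix C.Idx C.Idx K) a (Sum.inr δ) =
      (u : Matrix C.Idx C.Idx K) (Sum.inl j) (Sum.inr (-(C.simple j))) *
        (ν : Matrix C.Idx C.Idx K) (Sum.inr (-(C.simple j))) (Sum.inr δ) := by
    refine Finset.sum_eq_single (Sum.inr (-(C.simple j))) ?_ ?_
    · intro a _ hne
      rcases a with i | γ
      · rw [m1 i δ, mul_zero]
      · rw [m3 δ γ, mul_zero]
        rw [hwδ]
        intro h5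
        exact hne (congrArg Sum.inr h5)
    · intro h5
      exact absurd (Finset.mem_univ _) h5
  rw [hLs, hR] at e2
  have h6 := m4 δ
  rw [hwδ] at h6
  have h7 := (mul_eq_zero.1 e2).resolve_right h6
  unfold xi
  rw [h7, neg_zero]

theorem xi_conj (b u : GL C.Idx K) (hb : b ∈ C.Gad K) (hb0 : C.Fil 0 (b : Matrix C.Idx C.Idx K))
    (hu : u ∈ (C.adS K).U 1) (j : Fin n) :
    b * u * b⁻¹ ∈ (C.adS K).U 1 ∧ C.xi j ((b * u * b⁻¹ : GL C.Idx K) : Matrix C.Idx C.Idx K) =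
      C.chi (b : Matrix C.Idx C.Idx K) (C.simple j) * C.xi j (u : Matrix C.Idx C.Idx K) := by
  obtain ⟨τ, hτ, u₀, hu₀, rfl⟩ := C.upper b hb hb0
  have e1 : τ * u₀ * u * (τ * u₀)⁻¹ = τ * (u₀ * u * u₀⁻¹) * τ⁻¹ := by group
  have hv : u₀ * u * u₀⁻¹ ∈ (C.adS K).U 1 :=
    Subgroup.mul_mem _ (Subgroup.mul_mem _ hu₀ hu) (Subgroup.inv_mem _ hu₀)
  have hxi : C.xi j ((u₀ * u * u₀⁻¹ : GL C.Idx K) : Matrix C.Idx C.Idx K) =
      C.xi j (u : Matrix C.Idx C.Idx K) := by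
    rw [C.xi_mul j _ _ (Subgroup.mul_mem _ hu₀ hu) (Subgroup.inv_mem _ hu₀), C.xi_mul j _ _ hu₀ hu,
      C.xi_inv j _ hu₀]
    ring
  set v := u₀ * u * u₀⁻¹ with hvdef
  rw [e1]
  refine ⟨(C.adS K).T_conj_U 1 τ v hτ hv, ?_⟩
  rw [C.chi_mul_U τ u₀ hτ hu₀, ← hxi]
  obtain ⟨c, hc⟩ := C.T_diag τ hτ
  have e2 : τ * v = (τ * v * τ⁻¹) * τ := by group
  have e3 := congrArg (fun g : GL C.Idx K => (g : Matrix C.Idx C.Idx K) (Sum.inl j)
    (Sum.inr (-(C.simple j)))) e2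
  have e4 : ((τ * v : GL C.Idx K) : Matrix C.Idx C.Idx K) (Sum.inl j) (Sum.inr (-(C.simple j))) =
      (v : Matrix C.Idx C.Idx K) (Sum.inl j) (Sum.inr (-(C.simple j))) := by
    rw [Units.val_mul, hc, Matrix.diagonal_mul]
    simp
  have e5 : ((τ * v * τ⁻¹ * τ : GL C.Idx K) : Matrix C.Idx C.Idx K) (Sum.inl j)
      (Sum.inr (-(C.simple j))) = ((τ * v * τ⁻¹ : GL C.Idx K) : Matrix C.Idx C.Idx K) (Sum.inl j)
      (Sum.inr (-(C.simple j))) * ((∏ i, c i ^ (-(C.simple j)).1 i : Kˣ) : K) := by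
    rw [Units.val_mul (τ * v * τ⁻¹) τ, hc, Matrix.mul_diagonal]
    rfl
  have e6 : ((∏ i, c i ^ (-(C.simple j)).1 i : Kˣ) : K) * (c j : K) = 1 := by
    have h1 : (∏ i, c i ^ (-(C.simple j)).1 i : Kˣ) = (∏ i, c i ^ (C.simple j).1 i)⁻¹ := by
      rw [← Finset.prod_inv_distrib]
      refine Finset.prod_congr rfl fun i _ => ?_
      rw [Root.neg_val, Pi.neg_apply, _root_.zpow_neg]
    rw [← T7_prod_single C c j, ← Units.val_mul, h1, inv_mul_cancel, Units.val_one]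
  have e7 : C.chi (τ : Matrix C.Idx C.Idx K) (C.simple j) = c j := by
    unfold chi
    rw [hc, Matrix.diagonal_apply_eq]
    exact T7_prod_single C c j
  have e8 : (v : Matrix C.Idx C.Idx K) (Sum.inl j) (Sum.inr (-(C.simple j))) =
      ((τ * v * τ⁻¹ : GL C.Idx K) : Matrix C.Idx C.Idx K) (Sum.inl j)
      (Sum.inr (-(C.simple j))) * ((∏ i, c i ^ (-(C.simple j)).1 i : Kˣ) : K) := by
    rw [← e4, ← e5]
    exact e3
  unfold xi
  rw [e7, e8, mul_neg, neg_inj]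
  calc _ = ((τ * v * τ⁻¹ : GL C.Idx K) : Matrix C.Idx C.Idx K) (Sum.inl j) (Sum.inr (-(C.simple j))) *
        (((∏ i, c i ^ (-(C.simple j)).1 i : Kˣ) : K) * (c j : K)) := by rw [e6, mul_one]
    _ = _ := by ring

end SLC

end Pool.Agent.H75.UL
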