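import Pool.Agent.H75.UL.S3

/-!
# Project UL (MP_978914_al), module S4

Ordered products adapted to `w`.

Claim(m), `m ≥ 1`: for `u ∈ U 1` there are `t` supported on `{β | ht β < m, ¬ Pos (w⁻¹ β)}`,
`u' ∈ U m`, `b ∈ U 1` with `u * g = lp posList t * u' * g * b`. For `m = 1` take `t = 0`, `u' = u`,
`b = 1`. Step: `exists_layer`: `u' = lp posList s * u''`, `s` supported in height `m`; split
`s = s₁ + s₂`, `s₁` supported on `¬ Pos (w⁻¹ β)`, `s₂` on `Pos (w⁻¹ β)`; by `lp_add_layer`,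
`u' = lp s₁ * lp s₂ * u'''` with `u''' ∈ U (m+1)`, and `lp s₂ * u''' = (conjugate of u''') * lp s₂`
(`U_conj`); `lp s₂ * g = g * b'` with `b' = g⁻¹ * lp s₂ * g ∈ U 1` because
`g⁻¹ x_β(v) g = x_{w⁻¹β}(..)` (from `Acts g w`) is in `U 1` when `Pos (w⁻¹ β)`. And
`lp t * lp s₁ = lp (t + s₁)` by `lp_split`. For `m` large `U m = ⊥` (`exists_U_eq_bot`).
(In `t` change nothing at non positive `β`: they are not in `posList`.)
-/

set_option autoImplicit false
open Matrix
universe u
namespace Pool.Agent.H75.UL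

namespace StSys
variable {n : ℕ} {C : SLC n} {K : Type*} [Field K] {H : Type*} [Group H] (S : StSys C K H)

private theorem S4_conj_mem (g : H) (w : Equiv.Perm C.Root) (hg : S.Acts g w)
    (s : C.Root → K) (hs : ∀ β, ¬ C.Pos (w⁻¹ β) → s β = 0) (l : List C.Root) :
    g⁻¹ * S.lp l s * g ∈ S.U 1 := by
  obtain ⟨c, hc, h⟩ := hg
  induction l with
  | nil =>
    have h1 : g⁻¹ * S.lp [] s * g = 1 := by simp [lp]
    rw [h1]
    exact one_mem _
  | cons β l ih =>
    have h1 : g⁻¹ * S.lp (β :: l) s * g = (g⁻¹ * S.x β (s β) * g) * (g⁻¹ * S.lp l s * g) := by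
      simp [lp, mul_assoc]
    rw [h1]
    refine mul_mem ?_ ih
    by_cases hp : C.Pos (w⁻¹ β)
    · have h2 := h (w⁻¹ β) ((c (w⁻¹ β))⁻¹ * s β)
      rw [← mul_assoc, mul_inv_cancel₀ (hc _), one_mul] at h2
      have hw : w (w⁻¹ β) = β := by simp
      rw [hw] at h2
      have h3 : g⁻¹ * S.x β (s β) * g = S.x (w⁻¹ β) ((c (w⁻¹ β))⁻¹ * s β) := by
        rw [← h2]
        group
      rw [h3]
      refine Subgroup.subset_closure ⟨w⁻¹ β, _, ?_, rfl⟩
      unfold SLC.Pos at hp
      omega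
    · rw [hs β hp, S.x_zero]
      simp

private theorem S4_claim (g : H) (w : Equiv.Perm C.Root) (hg : S.Acts g w) (u : H)
    (hu : u ∈ S.U 1) (k : ℕ) : ∃ t : C.Root → K, (∀ β : C.Root, (k : ℤ) + 1 ≤ ht β.1 → t β = 0) ∧
      (∀ β, C.Pos (w⁻¹ β) → t β = 0) ∧ ∃ u' ∈ S.U ((k : ℤ) + 1), ∃ b ∈ S.U 1,
        u * g = S.lp C.posList t * u' * g * b := by
  induction k with
  | zero =>
    refine ⟨fun _ => 0, fun _ _ => rfl, fun _ _ => rfl, u, by simpa using hu, 1, one_mem _, ?_⟩
    rw [S.lp_zero _ _ (fun _ _ => rfl)]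
    simp
  | succ k ih =>
    obtain ⟨t, ht1, ht2, u', hu', b, hb, he⟩ := ih
    obtain ⟨s, hs, u2, hu2, he2⟩ := S.exists_layer ((k : ℤ) + 1) (by omega) u' hu'
    obtain ⟨u3, hu3, he3⟩ := S.lp_add_layer ((k : ℤ) + 1) (by omega)
      (fun β => if C.Pos (w⁻¹ β) then 0 else s β) (fun β => if C.Pos (w⁻¹ β) then s β else 0)
      (fun β hβ => by simp [hs β hβ]) (fun β hβ => by simp [hs β hβ])
    have hsum : S.lp C.posList s = S.lp C.posList (fun β =>
        (if C.Pos (w⁻¹ β) then 0 else s β) + (if C.Pos (w⁻¹ β) then s β else 0)) := by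
      apply S.lp_congr
      intro β _
      split_ifs <;> simp
    rw [hsum, he3] at he2
    have hL2 : S.lp C.posList (fun β => if C.Pos (w⁻¹ β) then s β else 0) ∈ S.U 1 := by
      apply S.lp_mem 1
      intro β hβ
      have : s β = 0 := hs β (by omega)
      simp [this]
    have hconj := S4_conj_mem S g w hg (fun β => if C.Pos (w⁻¹ β) then s β else 0)
      (fun β hβ => if_neg hβ) C.posList
    have hv := S.U_conj ((k : ℤ) + 1 + 1) (by omega) _ (u3 * u2) hL2 (mul_mem hu3 hu2)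
    have hlp : S.lp C.posList (fun β => t β + (if C.Pos (w⁻¹ β) then 0 else s β)) =
        S.lp C.posList t * S.lp C.posList (fun β => if C.Pos (w⁻¹ β) then 0 else s β) := by
      rw [S.lp_split (k : ℤ)]
      congr 1
      · apply S.lp_congr
        intro β _
        by_cases h : ht β.1 ≤ (k : ℤ)
        · have : s β = 0 := hs β (by omega)
          simp [h, this]
        · have : t β = 0 := ht1 β (by omega)
          simp [h, this]
      · apply S.lp_congr
        intro β _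
        by_cases h : ht β.1 ≤ (k : ℤ)
        · have : s β = 0 := hs β (by omega)
          simp [h, this]
        · have : t β = 0 := ht1 β (by omega)
          simp [h, this]
    generalize S.lp C.posList (fun β => if C.Pos (w⁻¹ β) then 0 else s β) = L1 at *
    generalize S.lp C.posList (fun β => if C.Pos (w⁻¹ β) then s β else 0) = L2 at *
    refine ⟨fun β => t β + (if C.Pos (w⁻¹ β) then 0 else s β), ?_, ?_,
      L2 * (u3 * u2) * L2⁻¹, ?_, (g⁻¹ * L2 * g) * b, mul_mem hconj hb, ?_⟩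
    · intro β hβ
      push_cast at hβ
      have h1 : t β = 0 := ht1 β (by omega)
      have h2 : s β = 0 := hs β (by omega)
      simp [h1, h2]
    · intro β hβ
      show t β + (if C.Pos (w⁻¹ β) then 0 else s β) = 0
      rw [if_pos hβ, ht2 β hβ, add_zero]
    · push_cast
      exact hv
    · rw [hlp, he, he2]
      group

theorem exists_lp_inv (g : H) (w : Equiv.Perm C.Root) (hg : S.Acts g w) (u : H)
    (hu : u ∈ S.U 1) : ∃ t : C.Root → K, (∀ β, C.Pos (w⁻¹ β) → t β = 0) ∧
      ∃ b ∈ S.U 1, u * g = S.lp C.posList t * g * b := by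
  obtain ⟨m, hm, -, hbot⟩ := S.exists_U_eq_bot
  obtain ⟨t, -, ht2, u', hu', b, hb, he⟩ := S4_claim S g w hg u hu (m - 1).toNat
  have h1 : (((m - 1).toNat : ℕ) : ℤ) + 1 = m := by omega
  rw [h1, hbot, Subgroup.mem_bot] at hu'
  refine ⟨t, ht2, b, hb, ?_⟩
  rw [he, hu', mul_one]

end StSys

end Pool.Agent.H75.UL
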