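import Pool.Agent.H75.UL.M0
import Pool.Agent.H75.UL.S4
import Pool.Agent.H75.UL.T3

/-!
# Project UL (MP_978914_al), module P4

Rational chambers.

`g ∈ Gad L`, `g⁻¹ M g` is diagonal with entries `1` on the Cartan part and distinct `e_γ ∈ K`, `≠ 1`,
on the root vectors. Claim: `g ∈ Gad(K) * {Fil 0}`.
(1) `g e_γ` (column `inr γ` of `g`) spans the eigenspace of `M_L` for `e_γ`; `M - e_γ` is singular
over `K` (its determinant is `0` in `L`), so there is an eigenvector `w_γ ≠ 0` over `K`, and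
`g e_γ = c_γ w_γ` with `c_γ ∈ L`.
(2) Bruhat and `exists_lp_inv`: `g = lp t * ν * b`, `ν ∈ N` acting by `w`, `b ∈ U 1`, `t β = 0` if
`Pos (w⁻¹ β)`. CLAIM: `t β ∈ K` (range of `algebraMap`) for all positive `β`. Strong induction on
`m = ht β`; let `¬ Pos (w⁻¹ β)`, `δ = -w⁻¹ β` positive, `q = ht δ ≥ 1`. By `lp_split (m-1)`,
`lp t = lp t₁ * lp t₂`, `t₁` supported in heights `< m` with values in `K`, so `lp t₁ = mp u₁`
(`mp_lp`). Put `G = (mp u₁)⁻¹ g = lp t₂ ν b`, its columns `inr γ` are `c_γ w'_γ` with `w'_γ` over `K`.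
`V := lp t₂ ν M_{≥q} = G M_{≥q}` (`b` preserves `M_{≥q}`, the span of the basis vectors of height
`≥ q`, all root vectors) is spanned over `L` by the `w'_γ`, `ht γ ≥ q`.
(3) Let `P` be the set of roots of negative height in `w {γ | ht γ ≥ q}`. If `z ∈ V` has coordinate
`0` at all `inr γ`, `γ ∈ P`, then all its Cartan coordinates are `0`: `z = ∑ b_γ lp t₂ e_γ` over
`γ ∈ w{ht ≥ q}`; `lp t₂ e_γ = e_γ + (larger heights)`; if some `b_γ ≠ 0` with `γ ∈ P`, take one of
minimal height: the coordinate of `z` at `γ` is `b_γ`, contradiction; so only `γ` of positive height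
occur, and `lp t₂ e_γ` has only positive heights.
(4) `y = lp t₂ e_{-β} ∈ V` (a multiple of `lp t₂ ν e_δ`). As `lp t₂ - 1` satisfies `Fil m`,
`m = ht β`: the coordinates of `y` at negative roots are `1` at `-β` and `0` elsewhere, and the
Cartan coordinates are `-t β β_i` (`lp_entry`). Let `ρ : L → K` be `K`-linear with `ρ ∘ algebraMap =
id`, applied to coordinates: `y = ∑ a_γ w'_γ`, so `ρ y = ∑ ρ(a_γ) w'_γ ∈ V`, and `z = y - ρ y` has
coordinates `0` at the negative roots. By (3) `t β β_i = ρ (t β β_i) ∈ K` for all `i`; some `β_i ≠ 0`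
in `K` (`exists_coeff_ne_zero`), so `t β ∈ K`.
(5) `lp t = mp (lp t')`; `ν₁ ∈ N(K)` acting by `w` (`exists_N`); `mp ν₁` acts by `w` (`mp_acts`), so
`(mp ν₁)⁻¹ ν ∈ N` acts by `1`, is in `T` (`N_one`). `g₁ = lp t' * ν₁`:
`(mp g₁)⁻¹ g = (mp ν₁)⁻¹ ν b ∈ T U` satisfies `Fil 0`.
-/

set_option autoImplicit false
open Matrix
universe u
namespace Pool.Agent.H75.UL

namespace SLC
variable {n : ℕ} (C : SLC n)

/-- a linear retraction -/
private theorem P4_rho (K L : Type*) [Field K] [Field L] [Algebra K L] :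
    ∃ ρ : L →ₗ[K] K, ∀ k : K, ρ (algebraMap K L k) = k := by
  obtain ⟨ρ, hρ⟩ := LinearMap.exists_leftInverse_of_injective (Algebra.linearMap K L)
    (LinearMap.ker_eq_bot.2 (algebraMap K L).injective)
  exact ⟨ρ, fun k => LinearMap.congr_fun hρ k⟩

/-- the columns of `g` are multiples of vectors over `K` -/
private theorem P4_col {K L : Type*} [Field K] [Field L] [Algebra K L] (M : GL C.Idx K)
    (g : GL C.Idx L) (e : C.Root → K) (he : Function.Injective e) (he1 : ∀ γ, e γ ≠ 1)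
    (hM : ((g⁻¹ * C.mp (algebraMap K L) M * g : GL C.Idx L) : Matrix C.Idx C.Idx L) =
      Matrix.diagonal (Sum.elim (fun _ => 1) (fun γ => algebraMap K L (e γ)))) (γ : C.Root) :
    ∃ (c : L) (w : C.Idx → K), c ≠ 0 ∧
      ∀ a, (g : Matrix C.Idx C.Idx L) a (Sum.inr γ) = c * algebraMap K L (w a) := by
  classical
  set f := algebraMap K L with hf
  have hinj : Function.Injective f := (algebraMap K L).injective
  set D : Matrix C.Idx C.Idx L :=
    Matrix.diagonal (Sum.elim (fun _ => 1) (fun γ => f (e γ))) with hD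
  set A : Matrix C.Idx C.Idx L := (M : Matrix C.Idx C.Idx K).map f with hA
  have hAmp : ((C.mp f M : GL C.Idx L) : Matrix C.Idx C.Idx L) = A := C.mp_val f M
  have hAg : A * (g : Matrix C.Idx C.Idx L) = (g : Matrix C.Idx C.Idx L) * D := by
    rw [← hM, ← hAmp, ← Units.val_mul, ← Units.val_mul]
    congr 1
    group
  have hgA : ((g⁻¹ : GL C.Idx L) : Matrix C.Idx C.Idx L) * A =
      D * ((g⁻¹ : GL C.Idx L) : Matrix C.Idx C.Idx L) := by
    rw [← hM, ← hAmp, ← Units.val_mul, ← Units.val_mul]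
    congr 1
    group
  -- the column
  set v : C.Idx → L := fun a => (g : Matrix C.Idx C.Idx L) a (Sum.inr γ) with hv
  have hv0 : v ≠ 0 := by
    intro hc
    have h1 : (((g⁻¹ : GL C.Idx L) : Matrix C.Idx C.Idx L) * (g : Matrix C.Idx C.Idx L))
        (Sum.inr γ) (Sum.inr γ) = 1 := by
      rw [← Units.val_mul, inv_mul_cancel, Units.val_one, Matrix.one_apply_eq]
    rw [Matrix.mul_apply] at h1
    rw [Finset.sum_eq_zero] at h1
    · exact one_ne_zero h1.symm
    · intro a _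
      have := congrFun hc a
      simp only [hv, Pi.zero_apply] at this
      rw [this, mul_zero]
  have hAv : A *ᵥ v = f (e γ) • v := by
    funext a
    have h1 := congrFun (congrFun hAg a) (Sum.inr γ)
    rw [hD, Matrix.mul_diagonal, Matrix.mul_apply] at h1
    rw [Pi.smul_apply, smul_eq_mul, mul_comm]
    exact h1
  -- an eigenvector over K
  have hdet : ((M : Matrix C.Idx C.Idx K) - e γ • (1 : Matrix C.Idx C.Idx K)).det = 0 := by
    apply hinj
    rw [map_zero, RingHom.map_det]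
    rw [← Matrix.exists_mulVec_eq_zero_iff]
    refine ⟨v, hv0, ?_⟩
    have h1 : f.mapMatrix ((M : Matrix C.Idx C.Idx K) - e γ • (1 : Matrix C.Idx C.Idx K)) =
        A - f (e γ) • (1 : Matrix C.Idx C.Idx L) := by
      rw [map_sub]
      congr 1
      ext a b
      rw [RingHom.mapMatrix_apply, Matrix.map_apply, Matrix.smul_apply, Matrix.smul_apply,
        smul_eq_mul, smul_eq_mul, map_mul, Matrix.one_apply, Matrix.one_apply]
      split_ifs <;> simp
    rw [h1, Matrix.sub_mulVec, hAv, Matrix.smul_mulVec, Matrix.one_mulVec, sub_self]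
  obtain ⟨w, hw0, hw⟩ := Matrix.exists_mulVec_eq_zero_iff.2 hdet
  rw [Matrix.sub_mulVec, Matrix.smul_mulVec, Matrix.one_mulVec, sub_eq_zero] at hw
  have hAw : A *ᵥ (f ∘ w) = f (e γ) • (f ∘ w) := by
    funext a
    rw [hA, ← RingHom.map_mulVec, hw]
    simp
  set z := ((g⁻¹ : GL C.Idx L) : Matrix C.Idx C.Idx L) *ᵥ (f ∘ w) with hz
  have hDz : D *ᵥ z = f (e γ) • z := by
    rw [hz, Matrix.mulVec_mulVec, ← hgA, ← Matrix.mulVec_mulVec, hAw, Matrix.mulVec_smul]
  have hz0 : ∀ a, a ≠ Sum.inr γ → z a = 0 := by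
    intro a ha
    have h1 := congrFun hDz a
    rw [hD, Matrix.mulVec_diagonal, Pi.smul_apply, smul_eq_mul] at h1
    rcases a with i | δ
    · simp only [Sum.elim_inl, one_mul] at h1
      have h2 : (f (e γ) - 1) * z (Sum.inl i) = 0 := by
        rw [sub_mul, one_mul, ← h1, sub_self]
      rcases mul_eq_zero.1 h2 with h3 | h3
      · exfalso
        apply he1 γ
        apply hinj
        rw [map_one]
        exact sub_eq_zero.1 h3
      · exact h3
    · simp only [Sum.elim_inr] at h1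
      have h2 : (f (e δ) - f (e γ)) * z (Sum.inr δ) = 0 := by
        rw [sub_mul, h1, sub_self]
      rcases mul_eq_zero.1 h2 with h3 | h3
      · exfalso
        apply ha
        rw [he (hinj (sub_eq_zero.1 h3))]
      · exact h3
  have hgz : f ∘ w = (g : Matrix C.Idx C.Idx L) *ᵥ z := by
    rw [hz, Matrix.mulVec_mulVec, ← Units.val_mul, mul_inv_cancel, Units.val_one,
      Matrix.one_mulVec]
  have hfw : ∀ a, f (w a) = (g : Matrix C.Idx C.Idx L) a (Sum.inr γ) * z (Sum.inr γ) := by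
    intro a
    have h1 := congrFun hgz a
    rw [Function.comp_apply, Matrix.mulVec, dotProduct,
      Finset.sum_eq_single (Sum.inr γ)] at h1
    · exact h1
    · intro b _ hb
      rw [hz0 b hb, mul_zero]
    · intro hc
      exact absurd (Finset.mem_univ _) hc
  have hzγ : z (Sum.inr γ) ≠ 0 := by
    intro hc
    apply hw0
    funext a
    apply hinj
    rw [hfw a, hc, mul_zero, Pi.zero_apply, map_zero]
  refine ⟨(z (Sum.inr γ))⁻¹, w, inv_ne_zero hzγ, fun a => ?_⟩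
  rw [hfw a]
  field_simp

/-- the main step -/
private theorem P4_step {K L : Type*} [Field K] [Field L] [Algebra K L] (Λ ν b : GL C.Idx L)
    (w : Equiv.Perm C.Root) (m : ℤ)
    (hΛ0 : C.Fil 0 (Λ : Matrix C.Idx C.Idx L))
    (hΛi : C.Fil 0 ((Λ⁻¹ : GL C.Idx L) : Matrix C.Idx C.Idx L))
    (hΛm : C.Fil m ((Λ : Matrix C.Idx C.Idx L) - 1))
    (hν1 : ∀ i γ, (ν : Matrix C.Idx C.Idx L) (Sum.inl i) (Sum.inr γ) = 0)
    (hν3 : ∀ γ γ', γ' ≠ w γ → (ν : Matrix C.Idx C.Idx L) (Sum.inr γ') (Sum.inr γ) = 0)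
    (hν4 : ∀ γ, (ν : Matrix C.Idx C.Idx L) (Sum.inr (w γ)) (Sum.inr γ) ≠ 0)
    (hb : C.Fil 0 (b : Matrix C.Idx C.Idx L))
    (hbi : C.Fil 0 ((b⁻¹ : GL C.Idx L) : Matrix C.Idx C.Idx L))
    (hcol : ∀ γ, ∃ (c : L) (w' : C.Idx → K), c ≠ 0 ∧
      ∀ a, ((Λ * ν * b : GL C.Idx L) : Matrix C.Idx C.Idx L) a (Sum.inr γ) =
        c * algebraMap K L (w' a))
    (β δ : C.Root) (hβ : ht β.1 = m) (hδ : C.Pos δ) (hw : w δ = -β) (i : Fin n) :
    ∃ k : K, (Λ : Matrix C.Idx C.Idx L) (Sum.inl i) (Sum.inr (-β)) = algebraMap K L k := by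
  classical
  set f := algebraMap K L with hf
  obtain ⟨ρ, hρ⟩ := P4_rho K L
  choose c w' hc0 hcw using hcol
  set G : Matrix C.Idx C.Idx L := ((Λ * ν * b : GL C.Idx L) : Matrix C.Idx C.Idx L) with hG
  have hGmul : G = (Λ : Matrix C.Idx C.Idx L) * (ν : Matrix C.Idx C.Idx L) *
      (b : Matrix C.Idx C.Idx L) := by
    rw [hG, Units.val_mul, Units.val_mul]
  have hδ' : 0 < ht δ.1 := hδ
  -- x = b⁻¹ e_δ
  set x : C.Idx → L := fun a => ((b⁻¹ : GL C.Idx L) : Matrix C.Idx C.Idx L) a (Sum.inr δ) with hx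
  have hx0 : ∀ a, C.hti a ≤ 0 → x a = 0 := by
    intro a ha
    apply hbi
    show C.hti a < ht δ.1 + 0
    omega
  have hbx : (b : Matrix C.Idx C.Idx L) *ᵥ x = Pi.single (Sum.inr δ) 1 := by
    funext a
    have h1 : ((b : Matrix C.Idx C.Idx L) * ((b⁻¹ : GL C.Idx L) : Matrix C.Idx C.Idx L))
        a (Sum.inr δ) = (1 : Matrix C.Idx C.Idx L) a (Sum.inr δ) := by
      rw [← Units.val_mul, mul_inv_cancel, Units.val_one]
    rw [Matrix.mul_apply] at h1
    rw [Matrix.mulVec, dotProduct, Pi.single_apply]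
    rw [Matrix.one_apply] at h1
    exact h1
  set n0 := (ν : Matrix C.Idx C.Idx L) (Sum.inr (w δ)) (Sum.inr δ) with hn0
  have hn0' : n0 ≠ 0 := hν4 δ
  have hνδ : (ν : Matrix C.Idx C.Idx L) *ᵥ Pi.single (Sum.inr δ) 1 =
      Pi.single (Sum.inr (w δ)) n0 := by
    funext a
    rw [Matrix.mulVec_single_one, Matrix.col_apply, Pi.single_apply]
    rcases a with j | γ'
    · rw [hν1, if_neg (by simp)]
    · by_cases h : γ' = w δ
      · rw [h, if_pos rfl]
      · rw [hν3 δ γ' h, if_neg (fun hc => h (Sum.inr.inj hc))]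
  set y : C.Idx → L := fun a => (Λ : Matrix C.Idx C.Idx L) a (Sum.inr (-β)) with hy
  have hGx : G *ᵥ x = n0 • y := by
    rw [hGmul, ← Matrix.mulVec_mulVec, ← Matrix.mulVec_mulVec, hbx, hνδ, hw]
    funext a
    rw [Matrix.mulVec_single, Pi.smul_apply, Pi.smul_apply, Matrix.col_apply]
    simp [hy, mul_comm]
  -- coefficients
  let Aγ : C.Root → L := fun γ => n0⁻¹ * c γ * x (Sum.inr γ)
  have hA0 : ∀ γ, ¬ C.Pos γ → Aγ γ = 0 := by
    intro γ hγ
    show n0⁻¹ * c γ * x (Sum.inr γ) = 0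
    rw [hx0 (Sum.inr γ) (not_lt.1 hγ), mul_zero]
  have hyA : ∀ a, y a = ∑ γ, Aγ γ * f (w' γ a) := by
    intro a
    have h1 := congrFun hGx a
    rw [Pi.smul_apply, smul_eq_mul, Matrix.mulVec, dotProduct, Fintype.sum_sum_type,
      Finset.sum_eq_zero, zero_add] at h1
    · have h2 : y a = n0⁻¹ * (n0 * y a) := by rw [← mul_assoc, inv_mul_cancel₀ hn0', one_mul]
      rw [h2, ← h1, Finset.mul_sum]
      refine Finset.sum_congr rfl fun γ _ => ?_
      rw [hcw γ a]
      show _ = n0⁻¹ * c γ * x (Sum.inr γ) * f (w' γ a)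
      ring
    · intro j _
      rw [hx0 (Sum.inl j) le_rfl, mul_zero]
  have hρy : ∀ a, ρ (y a) = ∑ γ, ρ (Aγ γ) * w' γ a := by
    intro a
    rw [hyA, map_sum]
    refine Finset.sum_congr rfl fun γ _ => ?_
    have h1 : Aγ γ * f (w' γ a) = w' γ a • Aγ γ := by
      rw [Algebra.smul_def, mul_comm]
    rw [h1, map_smul, smul_eq_mul, mul_comm]
  -- z = y - f (ρ y)
  set z : C.Idx → L := fun a => y a - f (ρ (y a)) with hz
  let Bv : C.Idx → L := Sum.elim (fun _ => 0) (fun γ => (Aγ γ - f (ρ (Aγ γ))) * (c γ)⁻¹)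
  have hB0 : ∀ γ, ¬ C.Pos γ → Bv (Sum.inr γ) = 0 := by
    intro γ hγ
    show (Aγ γ - f (ρ (Aγ γ))) * (c γ)⁻¹ = 0
    rw [hA0 γ hγ]
    simp
  have hzG : z = G *ᵥ Bv := by
    funext a
    rw [Matrix.mulVec, dotProduct, Fintype.sum_sum_type]
    show y a - f (ρ (y a)) = (∑ j, G a (Sum.inl j) * 0) +
      ∑ γ, G a (Sum.inr γ) * ((Aγ γ - f (ρ (Aγ γ))) * (c γ)⁻¹)
    simp only [mul_zero, Finset.sum_const_zero, zero_add]
    rw [hρy, map_sum]
    conv_lhs => rw [hyA a]
    rw [← Finset.sum_sub_distrib]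
    refine Finset.sum_congr rfl fun γ _ => ?_
    rw [hcw γ a, map_mul]
    have h3 := hc0 γ
    field_simp
  set x' : C.Idx → L := (ν : Matrix C.Idx C.Idx L) *ᵥ ((b : Matrix C.Idx C.Idx L) *ᵥ Bv) with hx'
  have hzx : z = (Λ : Matrix C.Idx C.Idx L) *ᵥ x' := by
    rw [hzG, hGmul, hx', Matrix.mulVec_mulVec, Matrix.mulVec_mulVec]
  have hx'l : ∀ j, x' (Sum.inl j) = 0 := by
    intro j
    have h1 : ∀ k : Fin n, ((b : Matrix C.Idx C.Idx L) *ᵥ Bv) (Sum.inl k) = 0 := by
      intro k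
      rw [Matrix.mulVec, dotProduct, Fintype.sum_sum_type]
      rw [Finset.sum_eq_zero, Finset.sum_eq_zero, zero_add]
      · intro γ _
        by_cases hγ : C.Pos γ
        · have h2 : (b : Matrix C.Idx C.Idx L) (Sum.inl k) (Sum.inr γ) = 0 := by
            apply hb
            show (0:ℤ) < ht γ.1 + 0
            have : 0 < ht γ.1 := hγ
            omega
          rw [h2, zero_mul]
        · rw [hB0 γ hγ, mul_zero]
      · intro k' _
        show _ * (0 : L) = 0
        rw [mul_zero]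
    rw [hx', Matrix.mulVec, dotProduct, Fintype.sum_sum_type]
    rw [Finset.sum_eq_zero, Finset.sum_eq_zero, zero_add]
    · intro γ _
      rw [hν1, zero_mul]
    · intro k _
      rw [h1, mul_zero]
  have hzneg : ∀ a, C.hti a < 0 → z a = 0 := by
    intro a ha
    rcases a with j | γ
    · exact absurd ha (lt_irrefl _)
    · have h1 : ((Λ : Matrix C.Idx C.Idx L) - 1) (Sum.inr γ) (Sum.inr (-β)) = 0 := by
        apply hΛm
        show ht γ.1 < ht (-β).1 + m
        rw [SLC.Root.neg_val, ht_neg, hβ]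
        have : ht γ.1 < 0 := ha
        omega
      rw [Matrix.sub_apply, sub_eq_zero] at h1
      show y (Sum.inr γ) - f (ρ (y (Sum.inr γ))) = 0
      have h2 : y (Sum.inr γ) = f ((1 : Matrix C.Idx C.Idx K) (Sum.inr γ) (Sum.inr (-β))) := by
        show (Λ : Matrix C.Idx C.Idx L) (Sum.inr γ) (Sum.inr (-β)) = _
        rw [h1, Matrix.one_apply, Matrix.one_apply]
        split_ifs <;> simp
      rw [h2, hρ, sub_self]
  have hx'z : x' = ((Λ⁻¹ : GL C.Idx L) : Matrix C.Idx C.Idx L) *ᵥ z := by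
    rw [hzx, Matrix.mulVec_mulVec, ← Units.val_mul, inv_mul_cancel, Units.val_one,
      Matrix.one_mulVec]
  have hx'neg : ∀ a, C.hti a < 0 → x' a = 0 := by
    intro a ha
    rw [hx'z, Matrix.mulVec, dotProduct]
    apply Finset.sum_eq_zero
    intro a' _
    by_cases h : C.hti a < C.hti a' + 0
    · rw [hΛi a a' h, zero_mul]
    · rw [hzneg a' (by omega), mul_zero]
  have hzl : z (Sum.inl i) = 0 := by
    rw [hzx, Matrix.mulVec, dotProduct]
    apply Finset.sum_eq_zero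
    intro a' _
    rcases a' with j | γ
    · rw [hx'l j, mul_zero]
    · by_cases h : ht γ.1 < 0
      · rw [hx'neg (Sum.inr γ) h, mul_zero]
      · have h2 : (Λ : Matrix C.Idx C.Idx L) (Sum.inl i) (Sum.inr γ) = 0 := by
          apply hΛ0
          show (0:ℤ) < ht γ.1 + 0
          have := C.ht_ne_zero γ
          omega
        rw [h2, zero_mul]
  exact ⟨ρ (y (Sum.inl i)), sub_eq_zero.1 hzl⟩

theorem rational_chamber {K L : Type*} [Field K] [Field L] [Algebra K L] (M : GL C.Idx K)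
    (g : GL C.Idx L) (hg : g ∈ C.Gad L) (e : C.Root → K) (he : Function.Injective e)
    (he1 : ∀ γ, e γ ≠ 1)
    (hM : ((g⁻¹ * C.mp (algebraMap K L) M * g : GL C.Idx L) : Matrix C.Idx C.Idx L) =
      Matrix.diagonal (Sum.elim (fun _ => 1) (fun γ => algebraMap K L (e γ)))) :
    ∃ g₁ ∈ C.Gad K, C.Fil 0 (((C.mp (algebraMap K L) g₁)⁻¹ * g : GL C.Idx L) :
      Matrix C.Idx C.Idx L) := by
  classical
  set f := algebraMap K L with hf
  have hinj : Function.Injective f := (algebraMap K L).injective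
  set S := C.adS L with hS
  have hg' : g ∈ S.gen := by rw [hS, C.gen_adS]; exact hg
  obtain ⟨u, hu, ν, hν, v, hv, hguv⟩ := S.bruhat g hg'
  obtain ⟨w, hwW, hacts, _⟩ := S.N_acts ν hν
  obtain ⟨t, ht0, b', hb', hlp⟩ := S.exists_lp_inv ν w hacts u hu
  obtain ⟨_, hν1, _, hν3, hν4⟩ := C.N_mono ν w hacts hν
  set b := b' * v with hbdef
  have hb : b ∈ S.U 1 := (S.U 1).mul_mem hb' hv
  have hgb : g = S.lp C.posList t * ν * b := by
    rw [hguv, hlp, hbdef]
    group
  have hb0 : C.Fil 0 (b : Matrix C.Idx C.Idx L) := C.Fil_U_zero b hb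
  have hbi0 : C.Fil 0 ((b⁻¹ : GL C.Idx L) : Matrix C.Idx C.Idx L) :=
    C.Fil_U_zero b⁻¹ ((S.U 1).inv_mem hb)
  have hcolg := P4_col C M g e he he1 hM
  -- the coordinates are rational
  have key : ∀ N : ℕ, ∀ β : C.Root, C.Pos β → ht β.1 = N → ∃ k : K, t β = f k := by
    intro N
    induction N using Nat.strong_induction_on with
    | _ N ih =>
      intro β hβ hN
      by_cases hPos : C.Pos (w⁻¹ β)
      · exact ⟨0, by rw [ht0 β hPos, map_zero]⟩
      have hδ : C.Pos (-(w⁻¹ β)) := (C.not_pos_iff _).1 hPos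
      have hwδ : w (-(w⁻¹ β)) = -β := by
        rw [C.W_neg w hwW, ← Equiv.Perm.mul_apply, mul_inv_cancel, Equiv.Perm.one_apply]
      have hβ' : 0 < ht β.1 := hβ
      have hm : (1:ℤ) ≤ ht β.1 := by omega
      set t₁ : C.Root → L := fun γ => if ht γ.1 ≤ ht β.1 - 1 then t γ else 0 with ht₁
      set t₂ : C.Root → L := fun γ => if ht γ.1 ≤ ht β.1 - 1 then 0 else t γ with ht₂
      have hsplit : S.lp C.posList t = S.lp C.posList t₁ * S.lp C.posList t₂ :=
        S.lp_split (ht β.1 - 1) t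
      have hs : ∀ γ, ∃ k : K, C.Pos γ → t₁ γ = f k := by
        intro γ
        by_cases hγ : C.Pos γ
        · by_cases h1 : ht γ.1 ≤ ht β.1 - 1
          · have h2 : 0 < ht γ.1 := hγ
            obtain ⟨k, hk⟩ := ih (ht γ.1).toNat (by omega) γ hγ (by omega)
            exact ⟨k, fun _ => by rw [ht₁]; simp only [if_pos h1]; exact hk⟩
          · exact ⟨0, fun _ => by rw [ht₁]; simp only [if_neg h1]; exact (map_zero f).symm⟩
        · exact ⟨0, fun h => absurd h hγ⟩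
      choose s₁ hs₁ using hs
      set u₁ := (C.adS K).lp C.posList s₁ with hu₁
      have hmp₁ : S.lp C.posList t₁ = C.mp f u₁ := by
        rw [hu₁, C.mp_lp f s₁]
        apply S.lp_congr
        intro γ hγ
        exact hs₁ γ ((C.mem_posList γ).1 hγ)
      set Λ := S.lp C.posList t₂ with hΛ
      have ht20 : ∀ γ : C.Root, ht γ.1 < ht β.1 → t₂ γ = 0 := by
        intro γ hγ
        rw [ht₂]
        simp only
        rw [if_pos (by omega)]
      have hΛU : Λ ∈ S.U (ht β.1) := S.lp_mem (ht β.1) t₂ ht20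
      have hΛU1 : Λ ∈ S.U 1 := S.U_mono hm hΛU
      have hGeq : Λ * ν * b = (C.mp f u₁)⁻¹ * g := by
        rw [hgb, hsplit, hmp₁]
        group
      have hcol : ∀ γ, ∃ (c : L) (w' : C.Idx → K), c ≠ 0 ∧
          ∀ a, ((Λ * ν * b : GL C.Idx L) : Matrix C.Idx C.Idx L) a (Sum.inr γ) =
            c * f (w' a) := by
        intro γ
        obtain ⟨c, w', hc, hcw⟩ := hcolg γ
        refine ⟨c, fun a => ∑ a', ((u₁⁻¹ : GL C.Idx K) : Matrix C.Idx C.Idx K) a a' * w' a', hc,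
          fun a => ?_⟩
        rw [hGeq, ← map_inv, Units.val_mul, C.mp_val, Matrix.mul_apply, map_sum, Finset.mul_sum]
        refine Finset.sum_congr rfl fun a' _ => ?_
        rw [Matrix.map_apply, hcw a', map_mul]
        ring
      obtain ⟨i, hi⟩ := C.exists_coeff_ne_zero β L
      obtain ⟨k, hk⟩ := P4_step C Λ ν b w (ht β.1) (C.Fil_U_zero Λ hΛU1)
        (C.Fil_U_zero Λ⁻¹ ((S.U 1).inv_mem hΛU1)) (C.Fil_U (ht β.1) hm Λ hΛU) hν1 hν3 hν4 hb0 hbi0
        hcol β (-(w⁻¹ β)) rfl hδ hwδ i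
      have hent := C.lp_entry t₂ (ht β.1) hm ht20 β rfl i
      have ht2β : t₂ β = t β := by
        rw [ht₂]
        simp only
        rw [if_neg (by omega)]
      rw [ht2β] at hent
      have hk' : -(t β * (β.1 i : L)) = f k := by
        rw [← hent]
        exact hk
      refine ⟨-k * ((β.1 i : ℤ) : K)⁻¹, ?_⟩
      rw [map_mul, map_neg, map_inv₀, map_intCast, ← hk', neg_neg, mul_assoc,
        mul_inv_cancel₀ hi, mul_one]
  have hs : ∀ γ, ∃ k : K, (C.Pos γ → t γ = f k) ∧ (¬ C.Pos γ → k = 0) := by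
    intro γ
    by_cases hγ : C.Pos γ
    · have h2 : 0 < ht γ.1 := hγ
      obtain ⟨k, hk⟩ := key (ht γ.1).toNat γ hγ (by omega)
      exact ⟨k, fun _ => hk, fun h => absurd hγ h⟩
    · exact ⟨0, fun h => absurd h hγ, fun _ => rfl⟩
  choose s hs1 hs2 using hs
  have hmps : S.lp C.posList t = C.mp f ((C.adS K).lp C.posList s) := by
    rw [C.mp_lp f s]
    apply S.lp_congr
    intro γ hγ
    exact hs1 γ ((C.mem_posList γ).1 hγ)
  obtain ⟨ν₁, hν₁, hacts₁⟩ := (C.adS K).exists_N w hwW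
  have hacts₁' := C.mp_acts f ν₁ w hν₁ hacts₁
  have hτN : (C.mp f ν₁)⁻¹ * ν ∈ S.N := S.N.mul_mem (S.N.inv_mem (C.mp_N f ν₁ hν₁)) hν
  have hτacts : S.Acts ((C.mp f ν₁)⁻¹ * ν) 1 := by
    obtain ⟨c, hc0, hc⟩ := hacts
    obtain ⟨c', hc0', hc'⟩ := hacts₁'
    refine ⟨fun β => (c' β)⁻¹ * c β, fun β => mul_ne_zero (inv_ne_zero (hc0' β)) (hc0 β),
      fun β u => ?_⟩
    have e1 := hc β u
    have e2 := hc' β ((c' β)⁻¹ * (c β * u))
    rw [← mul_assoc (c' β), mul_inv_cancel₀ (hc0' β), one_mul] at e2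
    have e3 : (C.mp f ν₁)⁻¹ * ν * S.x β u * ((C.mp f ν₁)⁻¹ * ν)⁻¹ =
        (C.mp f ν₁)⁻¹ * (ν * S.x β u * ν⁻¹) * C.mp f ν₁ := by group
    rw [e3, e1]
    have e4 : S.x (w β) (c β * u) = C.mp f ν₁ * S.x β ((c' β)⁻¹ * (c β * u)) * (C.mp f ν₁)⁻¹ :=
      e2.symm
    rw [e4, Equiv.Perm.one_apply, ← mul_assoc (c' β)⁻¹]
    group
  have hτT := C.N_one _ hτacts hτN
  refine ⟨(C.adS K).lp C.posList s * ν₁, ?_, ?_⟩
  · rw [← C.gen_adS]
    apply (C.adS K).gen.mul_mem
    · apply (C.adS K).U_le_gen 1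
      apply (C.adS K).lp_mem 1
      intro γ hγ
      apply hs2
      intro hc
      have : 0 < ht γ.1 := hc
      omega
    · exact (C.adS K).N_le_gen hν₁
  · have e1 : (C.mp f ((C.adS K).lp C.posList s * ν₁))⁻¹ * g = ((C.mp f ν₁)⁻¹ * ν) * b := by
      rw [map_mul, ← hmps, hgb]
      group
    rw [e1, Units.val_mul]
    have h1 := C.Fil_mul (C.Fil_T _ hτT) hb0
    rw [add_zero] at h1
    exact h1

end SLC

end Pool.Agent.H75.UL
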