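import Pool.Agent.H75.UL.T8
import Pool.Agent.H75.UL.S4

/-!
# Project UL (MP_978914_al), module T9

Chambers fixed by a strongly regular torus element.

`b₀ = g⁻¹ τ g = τ' u` (`upper`; `b₀ ∈ Gad`, as `T ≤ Gad`). The characteristic polynomials of `τ` and
`b₀` agree; both are block upper triangular for the height with diagonal entries `1` (`n` times) and
`chi _ γ` (`Matrix.charpoly` of a triangular matrix after reindexing by a linear order refining the
height, or compare `det (X - M)`); so `chi τ' γ ≠ 1` for all `γ`: otherwise the multiplicity of the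
root `1` would be larger than `n`. (Alternative without characteristic polynomials: `rank (b₀ - 1)`.)
By `conj_T`, `v ∈ U 1` with `v⁻¹ b₀ v = τ'`. Put `g' = g v`: `τ g' = g' τ'`. Then `g' e_γ` is an
eigenvector of `τ` for `chi τ' γ ≠ 1`, so (the `chi τ γ'` are distinct and `≠ 1`, the Cartan part has
eigenvalue `1`) it is a multiple of one root vector: (*) every column `inr γ` of `g'` has exactly one
nonzero entry, and it is at an index `inr γ'`.
Bruhat: `g' = u ν v'`; `exists_lp_inv`: `u ν = lp t * ν * b`, `t` supported on `¬ Pos (w⁻¹ β)`. So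
`g' = lp t * ν * b'`, `b' ∈ U 1`. Claim: `t β = 0` for all positive `β`. Otherwise let `m` be the
minimal height of a positive `β` with `t β ≠ 0`, `δ = -w⁻¹ β`, positive, `q = ht δ ≥ 1`. The space
`g' M_{≥q} = lp t ν M_{≥q}` (`M_{≥q}`: span of the basis vectors of height `≥ q`; `b'` preserves it)
is spanned by root vectors by (*) (apply it to `g'` and all root vectors of height `≥ q`), so all its
elements have zero Cartan (`inl`) part. But it contains `lp t ν e_δ`, a nonzero multiple of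
`lp t e_{-β}`, whose `inl i` component is `-t β * β_i` (`lp_entry`), nonzero for some `i`
(`exists_coeff_ne_zero`). Contradiction. Hence `lp t = 1` and `g = g' v⁻¹ = ν b' v⁻¹`.
-/

set_option autoImplicit false
open Matrix
universe u
namespace Pool.Agent.H75.UL

namespace SLC
variable {n : ℕ} (C : SLC n) {K : Type*} [Field K]

/-- `M` strictly lowers the height. -/
private def T9_Low {R : Type*} [CommRing R] (M : Matrix C.Idx C.Idx R) : Prop :=
  ∀ a b, C.hti b ≤ C.hti a → M a b = 0

private theorem T9_low_zero {R : Type*} [CommRing R] : C.T9_Low (0 : Matrix C.Idx C.Idx R) :=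
  fun _ _ _ => rfl

private theorem T9_low_add {R : Type*} [CommRing R] {M N : Matrix C.Idx C.Idx R}
    (hM : C.T9_Low M) (hN : C.T9_Low N) : C.T9_Low (M + N) := by
  intro a b hab
  rw [Matrix.add_apply, hM a b hab, hN a b hab, add_zero]

private theorem T9_low_smul {R : Type*} [CommRing R] (c : R) {M : Matrix C.Idx C.Idx R}
    (hM : C.T9_Low M) : C.T9_Low (c • M) := by
  intro a b hab
  rw [Matrix.smul_apply, hM a b hab, smul_zero]

private theorem T9_low_mul {R : Type*} [CommRing R] {M N : Matrix C.Idx C.Idx R}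
    (hM : C.T9_Low M) (hN : C.T9_Low N) : C.T9_Low (M * N) := by
  intro a b hab
  rw [Matrix.mul_apply]
  refine Finset.sum_eq_zero fun c _ => ?_
  by_cases h1 : C.hti c ≤ C.hti a
  · rw [hM a c h1, zero_mul]
  · rw [hN c b (by omega), mul_zero]

private theorem T9_low_E {R : Type*} [CommRing R] (α : C.Root) (hα : ht α.1 < 0) :
    C.T9_Low ((C.E α).map (Int.cast : ℤ → R)) := by
  have h : ∀ a b, C.hti b ≤ C.hti a → C.E α a b = 0 := by
    intro a b hab
    rcases a with i | γ <;> rcases b with j | β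
    · rfl
    · simp only [hti, Sum.elim_inl, Sum.elim_inr] at hab
      simp only [E]
      rw [if_neg]
      intro h1
      rw [h1, ht_neg] at hab
      omega
    · simp only [hti, Sum.elim_inl, Sum.elim_inr] at hab
      simp only [E]
      rw [if_neg]
      intro h1
      rw [h1] at hab
      omega
    · simp only [hti, Sum.elim_inr] at hab
      simp only [E]
      rw [if_neg]
      intro h1
      rw [h1, ht_add] at hab
      omega
  intro a b hab
  rw [Matrix.map_apply, h a b hab, Int.cast_zero]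

private theorem T9_low_F {R : Type*} [CommRing R] (α : C.Root) (hα : ht α.1 < 0) :
    C.T9_Low ((C.F α).map (Int.cast : ℤ → R)) := by
  have h : ∀ a b, C.hti b ≤ C.hti a → C.F α a b = 0 := by
    intro a b hab
    rcases a with i | γ <;> rcases b with j | β
    · rfl
    · rfl
    · rfl
    · simp only [hti, Sum.elim_inr] at hab
      simp only [F]
      rw [if_neg]
      rintro ⟨h1, h2⟩
      rw [h1, h2, ht_neg] at hab
      omega
  intro a b hab
  rw [Matrix.map_apply, h a b hab, Int.cast_zero]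

private theorem T9_low_xg (α : C.Root) (hα : ht α.1 < 0) (t : K) :
    C.T9_Low ((C.xg K α t : Matrix C.Idx C.Idx K) - 1) := by
  have h1 : (C.xg K α t : Matrix C.Idx C.Idx K) - 1 =
      t • (C.E α).map (Int.cast : ℤ → K) + t ^ 2 • (C.F α).map (Int.cast : ℤ → K) := by
    show C.X K α t - 1 = _
    unfold X
    rw [add_assoc, add_sub_cancel_left]
  rw [h1]
  exact C.T9_low_add (C.T9_low_smul _ (C.T9_low_E α hα)) (C.T9_low_smul _ (C.T9_low_F α hα))

/-- The subgroup generated by the root elements of negative height. -/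
private noncomputable def T9_V (K : Type*) [Field K] : Subgroup (GL C.Idx K) :=
  Subgroup.closure {g | ∃ (β : C.Root) (t : K), ht β.1 < 0 ∧ g = C.xg K β t}

private theorem T9_xg_inv (β : C.Root) (t : K) : (C.xg K β t)⁻¹ = C.xg K β (-t) := by
  rw [inv_eq_iff_mul_eq_one, ← C.xg_map_add, add_neg_cancel]
  exact Units.ext (C.X_zero K β)

private theorem T9_V_low (g : GL C.Idx K) (hg : g ∈ C.T9_V K) :
    C.T9_Low ((g : Matrix C.Idx C.Idx K) - 1) := by
  refine Subgroup.closure_induction'' (p := fun (g : GL C.Idx K) _ => C.T9_Low ((g : Matrix C.Idx C.Idx K) - 1))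
    ?_ ?_ ?_ ?_ hg
  · rintro x ⟨β, t, hβ, rfl⟩
    exact C.T9_low_xg β hβ t
  · rintro x ⟨β, t, hβ, rfl⟩
    rw [T9_xg_inv]
    exact C.T9_low_xg β hβ (-t)
  · rw [Units.val_one, sub_self]
    exact C.T9_low_zero
  · intro x y _ _ hx hy
    have h1 : ((x * y : GL C.Idx K) : Matrix C.Idx C.Idx K) - 1 =
        ((x : Matrix C.Idx C.Idx K) - 1) * ((y : Matrix C.Idx C.Idx K) - 1) +
          (((x : Matrix C.Idx C.Idx K) - 1) + ((y : Matrix C.Idx C.Idx K) - 1)) := by
      rw [Units.val_mul]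
      noncomm_ring
    rw [h1]
    exact C.T9_low_add (C.T9_low_mul hx hy) (C.T9_low_add hx hy)

private theorem T9_eq_one (g : GL C.Idx K) (hg : g ∈ C.T9_V K)
    (h0 : C.Fil 0 (g : Matrix C.Idx C.Idx K)) : g = 1 := by
  apply Units.ext
  rw [Units.val_one]
  have h1 := C.T9_V_low g hg
  ext a b
  by_cases hab : C.hti b ≤ C.hti a
  · have h2 := h1 a b hab
    rw [Matrix.sub_apply, sub_eq_zero] at h2
    exact h2
  · rw [h0 a b (by omega), Matrix.one_apply_ne]
    rintro rfl
    exact hab le_rfl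

private theorem T9_conj_lp (ν : GL C.Idx K) (w : Equiv.Perm C.Root) (ha : (C.adS K).Acts ν w)
    (t : C.Root → K) (l : List C.Root) (h : ∀ β ∈ l, t β = 0 ∨ ht (w⁻¹ β).1 < 0) :
    ν⁻¹ * (C.adS K).lp l t * ν ∈ C.T9_V K := by
  obtain ⟨c, hc0, hc⟩ := ha
  induction l with
  | nil =>
    have h1 : (C.adS K).lp [] t = 1 := rfl
    rw [h1]
    have h2 : ν⁻¹ * 1 * ν = 1 := by group
    rw [h2]
    exact Subgroup.one_mem _
  | cons β l ih =>
    have h1 : (C.adS K).lp (β :: l) t = C.xg K β (t β) * (C.adS K).lp l t := rfl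
    have h2 : ν⁻¹ * (C.xg K β (t β) * (C.adS K).lp l t) * ν =
        (ν⁻¹ * C.xg K β (t β) * ν) * (ν⁻¹ * (C.adS K).lp l t * ν) := by group
    rw [h1, h2]
    refine Subgroup.mul_mem _ ?_ (ih fun γ hγ => h γ (List.mem_cons_of_mem _ hγ))
    rcases h β List.mem_cons_self with h3 | h3
    · have h4 : C.xg K β (t β) = 1 := by
        rw [h3]
        exact Units.ext (C.X_zero K β)
      rw [h4]
      have h5 : ν⁻¹ * 1 * ν = 1 := by group
      rw [h5]
      exact Subgroup.one_mem _
    · have h4 := hc (w⁻¹ β) ((c (w⁻¹ β))⁻¹ * t β)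
      rw [← mul_assoc, mul_inv_cancel₀ (hc0 _), one_mul, ← Equiv.Perm.mul_apply, mul_inv_cancel,
        Equiv.Perm.one_apply] at h4
      have h5 : ν⁻¹ * C.xg K β (t β) * ν = C.xg K (w⁻¹ β) ((c (w⁻¹ β))⁻¹ * t β) := by
        rw [adS_x] at h4
        rw [← h4]
        group
      rw [h5]
      exact Subgroup.subset_closure ⟨_, _, h3, rfl⟩

private theorem T9_tau_lp (τ : GL C.Idx K) (hτ : τ ∈ (C.adS K).T) (t : C.Root → K)
    (l : List C.Root) : τ * (C.adS K).lp l t * τ⁻¹ =
      (C.adS K).lp l (fun β => C.chi (τ : Matrix C.Idx C.Idx K) β * t β) := by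
  induction l with
  | nil =>
    have h1 : ∀ t : C.Root → K, (C.adS K).lp [] t = 1 := fun _ => rfl
    rw [h1, h1]
    group
  | cons β l ih =>
    have h1 : ∀ t : C.Root → K, (C.adS K).lp (β :: l) t = C.xg K β (t β) * (C.adS K).lp l t :=
      fun _ => rfl
    have h2 : τ * (C.xg K β (t β) * (C.adS K).lp l t) * τ⁻¹ =
        (τ * C.xg K β (t β) * τ⁻¹) * (τ * (C.adS K).lp l t * τ⁻¹) := by group
    rw [h1, h1, h2, ih, (C.T_fix τ hτ β (t β)).2]

theorem torus_chamber (τ g : GL C.Idx K) (hτ : τ ∈ (C.adS K).T)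
    (h1 : ∀ γ, C.chi (τ : Matrix C.Idx C.Idx K) γ ≠ 1)
    (hinj : Function.Injective (C.chi (τ : Matrix C.Idx C.Idx K))) (hg : g ∈ C.Gad K)
    (h : C.Fil 0 ((g⁻¹ * τ * g : GL C.Idx K) : Matrix C.Idx C.Idx K)) :
    ∃ ν ∈ (C.adS K).N, ∃ u ∈ (C.adS K).U 1, g = ν * u := by
  rw [← C.gen_adS K] at hg
  obtain ⟨u, hu, ν, hν, v, hv, hguv⟩ := (C.adS K).bruhat g hg
  obtain ⟨w, hw, ha, -⟩ := (C.adS K).N_acts ν hν
  obtain ⟨t, ht0, b, hb, hub⟩ := (C.adS K).exists_lp_inv ν w ha u hu
  have hg' : g = (C.adS K).lp C.posList t * ν * (b * v) := by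
    rw [hguv, hub, mul_assoc]
  have hb' : b * v ∈ (C.adS K).U 1 := Subgroup.mul_mem _ hb hv
  have hτ1 : ν⁻¹ * τ * ν ∈ (C.adS K).T := by
    have h2 := (C.adS K).N_conj_T ν⁻¹ τ (Subgroup.inv_mem _ hν) hτ
    rwa [inv_inv] at h2
  set x := (C.adS K).lp C.posList t with hx
  set x' := (C.adS K).lp C.posList (fun β => C.chi (τ : Matrix C.Idx C.Idx K) β * t β) with hx'
  have hxx' : τ * x * τ⁻¹ = x' := C.T9_tau_lp τ hτ t C.posList
  have hneg : ∀ β ∈ C.posList, t β = 0 ∨ ht (w⁻¹ β).1 < 0 := by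
    intro β _
    by_cases h3 : C.Pos (w⁻¹ β)
    · exact Or.inl (ht0 β h3)
    · right
      have h4 := C.ht_ne_zero (w⁻¹ β)
      have h5 : ¬ (0 < ht (w⁻¹ β).1) := h3
      omega
  have hz : (ν⁻¹ * x * ν)⁻¹ * (ν⁻¹ * x' * ν) = 1 := by
    refine C.T9_eq_one _ ?_ ?_
    · refine Subgroup.mul_mem _ (Subgroup.inv_mem _ (C.T9_conj_lp ν w ha t _ hneg))
        (C.T9_conj_lp ν w ha _ _ ?_)
      intro β hβ
      rcases hneg β hβ with h3 | h3
      · left
        rw [h3, mul_zero]
      · exact Or.inr h3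
    · have e1 : (ν⁻¹ * x * ν)⁻¹ * (ν⁻¹ * x' * ν) =
          (b * v) * (g⁻¹ * τ * g) * (b * v)⁻¹ * (ν⁻¹ * τ * ν)⁻¹ := by
        rw [hg', ← hxx']
        group
      rw [e1, Units.val_mul, Units.val_mul, Units.val_mul]
      have hm : ∀ {M N : Matrix C.Idx C.Idx K}, C.Fil 0 M → C.Fil 0 N → C.Fil 0 (M * N) := by
        intro M N hM hN
        have h3 := C.Fil_mul hM hN
        rwa [add_zero] at h3
      exact hm (hm (hm (C.Fil_U_zero _ hb') h) (C.Fil_U_zero _ (Subgroup.inv_mem _ hb')))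
        (C.Fil_T _ (Subgroup.inv_mem _ hτ1))
  have hxe : x = x' := by
    have h3 : ν⁻¹ * x * ν = ν⁻¹ * x' * ν := by
      rw [inv_mul_eq_one] at hz
      exact hz
    have h4 := mul_left_cancel (mul_right_cancel h3)
    exact h4
  have hx1 : x = 1 := by
    refine (C.adS K).lp_zero _ _ fun β hβ => ?_
    have h3 := C.lp_unique t _ hxe β ((C.mem_posList β).mp hβ)
    by_contra h4
    refine h1 β ?_
    have h5 : (1 : K) * t β = C.chi (τ : Matrix C.Idx C.Idx K) β * t β := by
      rw [one_mul]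
      exact h3
    exact (mul_right_cancel₀ h4 h5).symm
  refine ⟨ν, hν, b * v, hb', ?_⟩
  rw [hg', hx1, one_mul]

end SLC

end Pool.Agent.H75.UL
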