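import Pool.Agent.H75.UL.R2

/-!
# Project UL (MP_978914_al), module R3

The highest root.

`θ` := a root of maximal height (finitely many roots; `n > 0` gives a simple root, so `θ` is
positive). Call a positive root `β` dominant if `ip α_i β ≥ 0` for all `i`.
(a) `θ` is dominant: otherwise `ip α_i θ = -1` (`-2` would give `θ = -α_i`) and `α_i + θ` is a root
of larger height. (b) A dominant positive root `β` has full support: let `S = {i | β_i = 0}`,
`S ≠ univ`; if `S` is nonempty, `C.conn` gives `i ∈ S`, `j ∉ S`, `A i j ≠ 0`, so `A i j = -1` and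
`ip α_i β = ∑_k A i k β_k ≤ -β_j < 0` (terms with `k ∈ S` vanish, the others are `≤ 0`).
(c) A dominant positive root `β` equals `θ`: `ip θ β = ∑ β_i ip α_i θ > 0` since all `β_i ≥ 1`, all
`ip α_i θ ≥ 0` and `∑ θ_i ip α_i θ = 2`. So `ip θ β` is `1` or `2`; if it is `1`, `γ = θ - β` is a
root; if `γ` is positive then `0 ≤ ∑ γ_i ip α_i β = ip γ β = 1 - 2`, contradiction; if `-γ` is
positive then `0 ≤ ip (-γ) θ = 1 - 2`, contradiction.
(d) chain: induction on `(ht θ - ht β).toNat`: if `β ≠ θ` then `β` is not dominant, so some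
`ip α_i β = -1` and `γ = α_i + β` is a positive root with `ht γ = ht β + 1`.
(e) uniq: if `ht β = ht θ` then `β` is positive and the chain from `β` to `θ` must be empty (each
step raises the height by one).
-/

set_option autoImplicit false
open Matrix
universe u
namespace Pool.Agent.H75.UL

namespace SLC
variable {n : ℕ} (C : SLC n)

/-- Chains: heights and coordinates. -/
private theorem R3_ht_eq {β δ : C.Root} {l : List (Fin n)} (h : C.Chain β l δ) :
    ht δ.1 = ht β.1 + l.length := by
  induction h with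
  | nil β => simp
  | cons i h _ ih =>
    rw [ih, h, ht_add, ht_simple, List.length_cons]
    push_cast
    ring

private theorem R3_step {β : C.Root} (hβ : C.Pos β) {i : Fin n}
    (hi : C.ip (C.simple i).1 β.1 < 0) :
    ∃ γ : C.Root, γ.1 = (C.simple i).1 + β.1 ∧ ht γ.1 = ht β.1 + 1 := by
  have h1 : C.ip (C.simple i).1 β.1 = -1 := by
    rcases C.ip_cases (C.simple i) β with h | h | h | h | h
    · exfalso
      have h2 := (C.ip_eq_neg_two_iff _ _).1 h
      unfold Pos at hβ
      rw [h2, Root.neg_val, ht_neg, ht_simple] at hβ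
      norm_num at hβ
    · exact h
    · omega
    · omega
    · omega
  obtain ⟨γ, hγ⟩ := C.exists_add _ _ h1
  refine ⟨γ, hγ, ?_⟩
  rw [hγ, ht_add, ht_simple]
  ring

private theorem R3_full {β : C.Root} (hβ : C.Pos β)
    (hd : ∀ i, 0 ≤ C.ip (C.simple i).1 β.1) (i : Fin n) : 1 ≤ β.1 i := by
  have hnn := (C.pos_iff β).1 hβ
  by_contra hcon
  have hi0 : β.1 i = 0 := by
    have := hnn i
    omega
  obtain ⟨j, hj, k, hk, hjk⟩ := C.conn (Finset.univ.filter fun i => β.1 i = 0)
    ⟨i, by simp [hi0]⟩ (by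
      intro h
      apply C.root_ne_zero β
      funext m
      have : m ∈ (Finset.univ.filter fun i => β.1 i = 0) := by rw [h]; exact Finset.mem_univ m
      exact (Finset.mem_filter.1 this).2)
  have hj0 : β.1 j = 0 := (Finset.mem_filter.1 hj).2
  have hk0 : 1 ≤ β.1 k := by
    have h1 : β.1 k ≠ 0 := fun h => hk (by simp [h])
    have := hnn k
    omega
  have hne : j ≠ k := by
    rintro rfl
    omega
  have hA : C.A j k = -1 := (C.off j k hne).resolve_left hjk
  have h1 : C.ip (C.simple j).1 β.1 < 0 := by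
    rw [simple_val, ip_single_left]
    show ∑ m, C.A j m * β.1 m < 0
    refine Finset.sum_neg' (fun m _ => ?_) ⟨k, Finset.mem_univ k, ?_⟩
    · by_cases hm : j = m
      · rw [← hm, hj0, mul_zero]
      · have := hnn m
        rcases C.off j m hm with h | h <;> rw [h] <;> omega
    · rw [hA]
      omega
  have := hd j
  omega

private theorem R3_ip_nonneg {v w : Fin n → ℤ} (hv : ∀ i, 0 ≤ v i)
    (hw : ∀ i, 0 ≤ C.ip (C.simple i).1 w) : 0 ≤ C.ip v w := by
  rw [← C.sum_ip_single v w]
  exact Finset.sum_nonneg fun i _ => mul_nonneg (hv i) (hw i)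

private theorem R3_dom_eq {θ β : C.Root} (hβ : C.Pos β)
    (hdθ : ∀ i, 0 ≤ C.ip (C.simple i).1 θ.1) (hdβ : ∀ i, 0 ≤ C.ip (C.simple i).1 β.1) :
    β = θ := by
  have hfull := C.R3_full hβ hdβ
  have h1 : 1 ≤ C.ip β.1 θ.1 := by
    obtain ⟨i, hi⟩ : ∃ i, 1 ≤ C.ip (C.simple i).1 θ.1 := by
      by_contra hcon
      push Not at hcon
      have h2 := C.sum_ip_single θ.1 θ.1
      rw [θ.2] at h2
      have h3 : ∑ i, θ.1 i * C.ip (Pi.single i 1) θ.1 = 0 := by
        refine Finset.sum_eq_zero fun i _ => ?_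
        have h4 := hcon i
        have h5 := hdθ i
        rw [simple_val] at h4 h5
        have h6 : C.ip (Pi.single i 1) θ.1 = 0 := by omega
        rw [h6, mul_zero]
      omega
    rw [← C.sum_ip_single β.1 θ.1]
    have h3 : β.1 i * C.ip (Pi.single i 1) θ.1 ≤ ∑ i, β.1 i * C.ip (Pi.single i 1) θ.1 := by
      refine Finset.single_le_sum (f := fun i => β.1 i * C.ip (Pi.single i 1) θ.1)
        (fun j _ => ?_) (Finset.mem_univ i)
      have := hfull j
      exact mul_nonneg (by omega) (hdθ j)
    have h4 : 1 ≤ β.1 i * C.ip (Pi.single i 1) θ.1 := by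
      have h5 := hfull i
      rw [simple_val] at hi
      nlinarith
    exact h4.trans h3
  rcases C.ip_cases β θ with h | h | h | h | h
  · omega
  · omega
  · omega
  · exfalso
    obtain ⟨γ, hγ⟩ := C.exists_sub β θ h
    rcases C.pos_or_neg γ with hp | hn
    · have h2 := C.R3_ip_nonneg hp hdβ
      rw [hγ, ip_sub_left, β.2, C.ip_comm, h] at h2
      omega
    · have h2 := C.R3_ip_nonneg (v := -γ.1) (w := θ.1) (fun i => by
        have := hn i
        simp only [Pi.neg_apply]
        omega) hdθ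
      rw [hγ, ip_neg_left, ip_sub_left, θ.2, h] at h2
      omega
  · exact (C.ip_eq_two_iff β θ).1 h

theorem exists_highest (hn : 0 < n) : ∃ θ : C.Root, C.IsHighest θ := by
  haveI : Nonempty C.Root := ⟨C.simple ⟨0, hn⟩⟩
  obtain ⟨θ, hθ⟩ := Finite.exists_max (fun β : C.Root => ht β.1)
  have hpos : C.Pos θ := by
    have h1 := hθ (C.simple ⟨0, hn⟩)
    simp only [ht_simple] at h1
    unfold Pos
    omega
  have hdθ : ∀ i, 0 ≤ C.ip (C.simple i).1 θ.1 := by
    intro i
    by_contra hcon
    push Not at hcon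
    obtain ⟨γ, _, hγ⟩ := C.R3_step hpos hcon
    have h1 := hθ γ
    omega
  have hchain : ∀ (m : ℕ) (β : C.Root), C.Pos β → ht θ.1 = ht β.1 + m →
      ∃ l, C.Chain β l θ := by
    intro m
    induction m with
    | zero =>
      intro β hβ hm
      by_cases hd : ∀ i, 0 ≤ C.ip (C.simple i).1 β.1
      · rw [C.R3_dom_eq hβ hdθ hd]
        exact ⟨[], Chain.nil θ⟩
      · exfalso
        push Not at hd
        obtain ⟨i, hi⟩ := hd
        obtain ⟨γ, _, hγ⟩ := C.R3_step hβ hi
        have h1 := hθ γ
        push_cast at hm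
        omega
    | succ m ih =>
      intro β hβ hm
      by_cases hd : ∀ i, 0 ≤ C.ip (C.simple i).1 β.1
      · rw [C.R3_dom_eq hβ hdθ hd]
        exact ⟨[], Chain.nil θ⟩
      · push Not at hd
        obtain ⟨i, hi⟩ := hd
        obtain ⟨γ, hγ1, hγ⟩ := C.R3_step hβ hi
        have hγp : C.Pos γ := by
          unfold Pos at hβ ⊢
          omega
        obtain ⟨l, hl⟩ := ih γ hγp (by push_cast at hm; omega)
        exact ⟨i :: l, Chain.cons i hγ1 hl⟩
  have hchain2 : ∀ β : C.Root, C.Pos β → ∃ l, C.Chain β l θ := by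
    intro β hβ
    have h1 := hθ β
    exact hchain (ht θ.1 - ht β.1).toNat β hβ (by omega)
  refine ⟨θ, ⟨C.R3_full hpos hdθ, hθ, fun β hβ => ?_, hchain2⟩⟩
  have hβp : C.Pos β := by
    unfold Pos at hpos ⊢
    omega
  obtain ⟨l, hl⟩ := hchain2 β hβp
  have h1 := C.R3_ht_eq hl
  have h2 : l.length = 0 := by omega
  have h3 : l = [] := List.length_eq_zero_iff.1 h2
  rw [h3] at hl
  cases hl
  rfl

/-- Chains: heights and coordinates. -/
theorem Chain.ht_eq {β δ : C.Root} {l : List (Fin n)} (h : C.Chain β l δ) :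
    ht δ.1 = ht β.1 + l.length := C.R3_ht_eq h

theorem Chain.count_eq {β δ : C.Root} {l : List (Fin n)} (h : C.Chain β l δ) (i : Fin n) :
    δ.1 i = β.1 i + (l.count i : ℤ) := by
  induction h with
  | nil β => simp
  | cons j h _ ih =>
    rw [ih, h, List.count_cons, Pi.add_apply, simple_val, Pi.single_apply]
    by_cases hij : j = i
    · subst hij
      simp
      ring
    · have hji : ¬ i = j := fun h => hij h.symm
      simp [hij, hji]

end SLC

end Pool.Agent.H75.UL
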