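import Pool.Agent.H75.UL.S1
import Pool.Agent.H75.UL.R3

/-!
# Project UL (MP_978914_al), module S8

Iterated commutators along chains.

Prove for all `s = ±1`: `icomm (S.x β s) (l.map ..) = S.x θ s'` with `s' = ±1`, by induction on the
chain: `x_{α_i}(1) x_β(s) x_{α_i}(1)⁻¹ x_β(s)⁻¹ = x_γ(eps α_i β * 1 * s)` by `comm_add`
(`γ = α_i + β`), and `eps = ±1` (`eps_eq_one_or`). `icomm` is a `foldl`, so
`icomm g (h :: l) = icomm (h * g * h⁻¹ * g⁻¹) l` by `rfl`.
`icomm_general` : the same with arbitrary arguments: the first element `x_β(s)` and `x_{α_i}(t_i)`;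
only the product of the arguments matters.
-/

set_option autoImplicit false
open Matrix
universe u
namespace Pool.Agent.H75.UL

namespace StSys
variable {n : ℕ} {C : SLC n} {K : Type*} [Field K] {H : Type*} [Group H] (S : StSys C K H)

private theorem S8_aux {β θ : C.Root} {l : List (Fin n)} (hc : C.Chain β l θ) :
    ∃ e : ℤ, (e = 1 ∨ e = -1) ∧ ∀ (s : K) (t : Fin n → K),
      icomm (S.x β s) (l.map fun i => S.x (C.simple i) (t i)) =
        S.x θ (e * s * (l.map t).prod) := by
  induction hc with
  | nil β =>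
    refine ⟨1, Or.inl rfl, fun s t => ?_⟩
    simp [icomm]
  | @cons i β γ δ l h _ ih =>
    obtain ⟨e, he, hs⟩ := ih
    refine ⟨e * C.eps (C.simple i).1 β.1, ?_, fun s t => ?_⟩
    · rcases he with rfl | rfl <;> rcases C.eps_eq_one_or (C.simple i).1 β.1 with h1 | h1 <;>
        rw [h1] <;> norm_num
    · rw [List.map_cons, List.map_cons, List.prod_cons]
      have h1 : icomm (S.x β s) (S.x (C.simple i) (t i) ::
          l.map fun i => S.x (C.simple i) (t i)) =
          icomm (S.x (C.simple i) (t i) * S.x β s * (S.x (C.simple i) (t i))⁻¹ * (S.x β s)⁻¹)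
            (l.map fun i => S.x (C.simple i) (t i)) := rfl
      rw [h1, S.comm_add (C.simple i) β γ (t i) s h, hs]
      congr 1
      push_cast
      ring

theorem icomm_chain (β θ : C.Root) (l : List (Fin n)) (hc : C.Chain β l θ) :
    ∃ s : K, (s = 1 ∨ s = -1) ∧
      icomm (S.x β 1) (l.map fun i => S.x (C.simple i) 1) = S.x θ s := by
  obtain ⟨e, he, h⟩ := S.S8_aux hc
  refine ⟨(e : K), ?_, ?_⟩
  · rcases he with rfl | rfl <;> simp
  · have h1 := h 1 (fun _ => 1)
    simpa using h1

/-- With general arguments: the result is `x_θ(± s * ∏ t)`, the sign depending only on the chain. -/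
theorem icomm_chain' (β θ : C.Root) (l : List (Fin n)) (hc : C.Chain β l θ) :
    ∃ e : ℤ, (e = 1 ∨ e = -1) ∧ ∀ (s : K) (t : Fin n → K),
      icomm (S.x β s) (l.map fun i => S.x (C.simple i) (t i)) =
        S.x θ (e * s * (l.map t).prod) := S.S8_aux hc

end StSys

end Pool.Agent.H75.UL
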