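import Pool.Agent.H75.UL.T3
import Pool.Agent.H75.UL.R3

/-!
# Project UL (MP_978914_al), module T4

The top iterated commutator.

By `Fil_comm_lead`, `lead_U`, `Fil_ld` and induction along the list (generalize the start: `c` with
`Fil (k+1) (c - 1 - A)`, `Fil k A`): `Fil (length + 2) (icomm g l - 1 - iad (ld g) (l.map ld))`.
So if the iterated bracket is zero, `Fil (ht θ + 1) (icomm g l - 1)`; `icomm g l ∈ U 1`, so it is
`lp posList t` (`exists_lp`), all `t β = 0` for positive `β` (`coord_of_Fil`, `hθ.le`), and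
`icomm g l = 1` (`lp_zero`, `mem_posList`).
-/

set_option autoImplicit false
open Matrix
universe u
namespace Pool.Agent.H75.UL

namespace SLC
variable {n : ℕ} (C : SLC n) {K : Type*} [Field K]

theorem icomm_mem_U (g : GL C.Idx K) (l : List (GL C.Idx K))
    (hg : g ∈ (C.adS K).U 1) (hl : ∀ h ∈ l, h ∈ (C.adS K).U 1) : icomm g l ∈ (C.adS K).U 1 := by
  induction l generalizing g with
  | nil => exact hg
  | cons h l ih =>
    have hh := hl h (List.mem_cons_self ..)
    exact ih (h * g * h⁻¹ * g⁻¹)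
      (mul_mem (mul_mem (mul_mem hh hg) (inv_mem hh)) (inv_mem hg))
      (fun x hx => hl x (List.mem_cons_of_mem _ hx))

/-- The leading part of an iterated commutator. -/
theorem icomm_lead (g : GL C.Idx K) (l : List (GL C.Idx K)) (k : ℤ) (hk : 1 ≤ k)
    (A : Matrix C.Idx C.Idx K) (hA : C.Fil k A)
    (hg : C.Fil (k + 1) ((g : Matrix C.Idx C.Idx K) - 1 - A))
    (hl : ∀ h ∈ l, h ∈ (C.adS K).U 1) :
    C.Fil (k + l.length) (iad A (l.map fun h => C.ld (h : Matrix C.Idx C.Idx K))) ∧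
    C.Fil (k + l.length + 1) (((icomm g l : GL C.Idx K) : Matrix C.Idx C.Idx K) - 1 -
      iad A (l.map fun h => C.ld (h : Matrix C.Idx C.Idx K))) := by
  induction l generalizing g k A with
  | nil =>
    refine ⟨?_, ?_⟩
    · simpa [iad] using hA
    · simpa [iad, icomm] using hg
  | cons h l ih =>
    have hh := hl h (List.mem_cons_self ..)
    have hB : C.Fil 1 (C.ld (h : Matrix C.Idx C.Idx K)) := C.Fil_ld _
    have hh2 : C.Fil (1 + 1) ((h : Matrix C.Idx C.Idx K) - 1 - C.ld (h : Matrix C.Idx C.Idx K)) :=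
      C.lead_U h hh
    have h1 := C.Fil_comm_lead h g 1 k le_rfl hk (C.ld (h : Matrix C.Idx C.Idx K)) A hB hA hh2 hg
    have hA' : C.Fil (1 + k) (C.ld (h : Matrix C.Idx C.Idx K) * A -
        A * C.ld (h : Matrix C.Idx C.Idx K)) := by
      refine C.Fil_sub (C.Fil_mul hB hA) ?_
      have := C.Fil_mul hA hB
      rwa [add_comm k 1] at this
    have h2 := ih (h * g * h⁻¹ * g⁻¹) (1 + k) (by omega) _ hA' h1
      (fun x hx => hl x (List.mem_cons_of_mem _ hx))
    have e1 : k + ((h :: l).length : ℤ) = 1 + k + (l.length : ℤ) := by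
      rw [List.length_cons]
      push_cast
      ring
    rw [e1]
    exact h2

theorem icomm_eq_one (θ : C.Root) (hθ : C.IsHighest θ) (g : GL C.Idx K) (l : List (GL C.Idx K))
    (hg : g ∈ (C.adS K).U 1) (hl : ∀ h ∈ l, h ∈ (C.adS K).U 1)
    (hlen : (l.length : ℤ) + 1 = ht θ.1)
    (h0 : iad (C.ld (g : Matrix C.Idx C.Idx K)) (l.map fun h => C.ld (h : Matrix C.Idx C.Idx K)) =
      0) : icomm g l = 1 := by
  have hg2 : C.Fil (1 + 1) ((g : Matrix C.Idx C.Idx K) - 1 - C.ld (g : Matrix C.Idx C.Idx K)) :=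
    C.lead_U g hg
  have h1 := (C.icomm_lead g l 1 le_rfl _ (C.Fil_ld _) hg2 hl).2
  rw [h0, sub_zero] at h1
  obtain ⟨t, -, ht'⟩ := (C.adS K).exists_lp 1 le_rfl (icomm g l) (C.icomm_mem_U g l hg hl)
  rw [ht'] at h1 ⊢
  apply (C.adS K).lp_zero
  intro β hβ
  have hpos := (C.mem_posList β).1 hβ
  refine C.coord_of_Fil t _ h1 β hpos ?_
  have := hθ.le β
  omega

end SLC

end Pool.Agent.H75.UL
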