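import Pool.Agent.H75.UL.Base

/-!
# Project UL (MP_978914_al), module L2

`[e_α, e_β] = ε(α,β) e_{α+β}` in the adjoint representation.

`γ = α + β`, so `ip α β = -1` (`ip_add_root`), `ε(β,α) = -ε(α,β)`, `ε(α,α) = ε(β,β) = -1`. Compare
the two sides on the basis:
* `h_j`: `E_α E_β h_j = -(α_j,β) ε(α,β) e_γ`, `E_β E_α h_j = -(α_j,α) ε(β,α) e_γ`;
* `e_{-γ}`: `E_β e_{-γ} = ε(β,-γ) e_{-α}`, so `E_α E_β e_{-γ} = -ε(β,γ) h_α = -ε(α,β) h_α`;
  `E_α e_{-γ} = ε(α,-γ) e_{-β}`, so `E_β E_α e_{-γ} = -ε(α,γ) h_β = ε(α,β) h_β`;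
* `e_{-α}`: `E_β e_{-α} = 0`, `E_β E_α e_{-α} = -E_β h_α = (α,β) e_β = -e_β`; right hand side
  `ε(α,β) ε(γ,-α) e_β = e_β`; `e_{-β}` similarly;
* `e_δ` otherwise: nonzero only if `γ + δ` is a root, i.e. (norms) `ip α δ + ip β δ = -1`; as both are
  `≥ -1` (`δ ≠ -α,-β`) and `≤ 2`, the pair `(ip α δ, ip β δ)` is `(-1,0)`, `(0,-1)` or
  `(1,-2), (-2,1)` (excluded), so exactly one of the two paths exists; check the sign with
  bilinearity of `ε` (`eps_add_left`, `eps_add_right`, `eps_sq`). If `γ + δ` is not a root (nor `0`)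
  both sides vanish.
-/

set_option autoImplicit false
open Matrix
universe u
namespace Pool.Agent.H75.UL

namespace SLC
variable {n : ℕ} (C : SLC n)

private theorem L2_ll (α β : C.Root) (h : β.1 ≠ -α.1) (i j : Fin n) :
    (C.E α * C.E β) (Sum.inl i) (Sum.inl j) = 0 := by
  rw [Matrix.mul_apply, Fintype.sum_sum_type]
  simp only [E, mul_zero, Finset.sum_const_zero, zero_add]
  apply Finset.sum_eq_zero
  intro δ _
  split_ifs with h1 h2
  · exact absurd (h2.symm.trans h1) h
  · ring
  · ring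
  · ring

private theorem L2_lr (α β δ : C.Root) (i : Fin n) :
    (C.E α * C.E β) (Sum.inl i) (Sum.inr δ) =
      if -α.1 = β.1 + δ.1 then (- α.1 i) * C.eps β.1 δ.1 else 0 := by
  rw [Matrix.mul_apply, Fintype.sum_sum_type]
  simp only [E, zero_mul, Finset.sum_const_zero, zero_add]
  rw [Finset.sum_eq_single (-α)]
  · rw [Root.neg_val, if_pos rfl]
    split_ifs <;> ring
  · intro ζ _ hζ
    rw [if_neg (fun h : ζ.1 = -α.1 => hζ (Root.ext h)), zero_mul]
  · intro h
    exact absurd (Finset.mem_univ _) h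

private theorem L2_rl (α β ε : C.Root) (j : Fin n) :
    (C.E α * C.E β) (Sum.inr ε) (Sum.inl j) =
      if ε.1 = α.1 + β.1 then C.eps α.1 β.1 * (- C.ip (Pi.single j 1) β.1) else 0 := by
  rw [Matrix.mul_apply, Fintype.sum_sum_type]
  simp only [E, mul_zero, Finset.sum_const_zero, zero_add]
  rw [Finset.sum_eq_single β]
  · rw [if_pos rfl]
    split_ifs <;> ring
  · intro ζ _ hζ
    rw [if_neg (fun h => hζ (Root.ext h)), mul_zero]
  · intro h
    exact absurd (Finset.mem_univ _) h

private theorem L2_rr (α β ε δ : C.Root) :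
    (C.E α * C.E β) (Sum.inr ε) (Sum.inr δ) =
      (if ε.1 = α.1 ∧ δ.1 = -β.1 then C.ip α.1 β.1 else 0) +
      (if ε.1 = α.1 + β.1 + δ.1 ∧ C.ip β.1 δ.1 = -1 then
        C.eps α.1 (β.1 + δ.1) * C.eps β.1 δ.1 else 0) := by
  rw [Matrix.mul_apply, Fintype.sum_sum_type]
  congr 1
  · simp only [E]
    by_cases h1 : ε.1 = α.1
    · by_cases h2 : δ.1 = -β.1
      · simp only [h1, h2, if_true, and_self]
        have h3 := C.sum_ip_single β.1 α.1
        rw [C.ip_comm α.1 β.1, ← h3]
        apply Finset.sum_congr rfl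
        intro i _
        ring
      · simp only [h2, if_false, mul_zero, Finset.sum_const_zero, and_false]
    · simp only [h1, if_false, zero_mul, Finset.sum_const_zero, false_and]
  · simp only [E]
    by_cases h1 : C.ip β.1 δ.1 = -1
    · obtain ⟨ζ, hζ⟩ := C.exists_add β δ h1
      rw [Finset.sum_eq_single ζ]
      · rw [if_pos hζ, hζ]
        simp only [h1, and_true]
        rw [add_assoc]
        split_ifs <;> ring
      · intro ξ _ hξ
        rw [if_neg (fun h : ξ.1 = β.1 + δ.1 => hξ (Root.ext (h.trans hζ.symm))), mul_zero]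
      · intro h
        exact absurd (Finset.mem_univ _) h
    · rw [if_neg (fun h => h1 h.2)]
      apply Finset.sum_eq_zero
      intro ζ _
      rw [if_neg (fun h : ζ.1 = β.1 + δ.1 => h1 (C.ip_add_root β δ ζ h)), mul_zero]

theorem E_comm_add (α β γ : C.Root) (h : γ.1 = α.1 + β.1) :
    C.E α * C.E β - C.E β * C.E α = C.eps α.1 β.1 • C.E γ := by
  have hαβ : C.ip α.1 β.1 = -1 := C.ip_add_root α β γ h
  have hβα : C.ip β.1 α.1 = -1 := by rw [C.ip_comm]; exact hαβ
  have hsw : C.eps β.1 α.1 = - C.eps α.1 β.1 := C.eps_swap_of_odd α.1 β.1 (Or.inr hαβ)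
  have hsq : C.eps α.1 β.1 * C.eps α.1 β.1 = 1 := C.eps_sq α.1 β.1
  have hαα : C.eps α.1 α.1 = -1 := C.eps_self α
  have hββ : C.eps β.1 β.1 = -1 := C.eps_self β
  have hne : β.1 ≠ -α.1 := by
    intro h1
    rw [h1, C.ip_neg_right, α.2] at hαβ
    omega
  have hne' : α.1 ≠ -β.1 := by
    intro h1
    rw [h1, C.ip_neg_right, β.2] at hβα
    omega
  ext a b
  rw [Matrix.sub_apply, Matrix.smul_apply]
  rcases a with i | ε <;> rcases b with j | δ
  · rw [L2_ll C α β hne, L2_ll C β α hne']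
    simp [E]
  · rw [L2_lr, L2_lr]
    simp only [E]
    by_cases h1 : δ.1 = -γ.1
    · have h2 : -α.1 = β.1 + δ.1 := by
        rw [h1, h]
        funext k
        simp
      have h3 : -β.1 = α.1 + δ.1 := by
        rw [h1, h]
        funext k
        simp
      rw [if_pos h2, if_pos h3, if_pos h1, h1, C.eps_neg_right, C.eps_neg_right, h, C.eps_add_right,
        C.eps_add_right, hsw, hαα, hββ, smul_eq_mul, Pi.add_apply]
      ring
    · have h2 : ¬ (-α.1 = β.1 + δ.1) := by
        intro h2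
        apply h1
        rw [h]
        funext k
        have h3 := congrFun h2 k
        simp only [Pi.add_apply, Pi.neg_apply] at h3 ⊢
        omega
      have h3 : ¬ (-β.1 = α.1 + δ.1) := by
        intro h3
        apply h1
        rw [h]
        funext k
        have h4 := congrFun h3 k
        simp only [Pi.add_apply, Pi.neg_apply] at h4 ⊢
        omega
      rw [if_neg h2, if_neg h3, if_neg h1]
      simp
  · rw [L2_rl, L2_rl]
    simp only [E]
    rw [add_comm β.1 α.1, ← h]
    by_cases h1 : ε.1 = γ.1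
    · rw [if_pos h1, if_pos h1, if_pos h1, hsw, h, C.ip_add_right, smul_eq_mul]
      ring
    · rw [if_neg h1, if_neg h1, if_neg h1]
      simp
  · rw [L2_rr, L2_rr]
    simp only [E]
    rw [add_comm β.1 α.1, ← h]
    by_cases h1 : ε.1 = γ.1 + δ.1
    · have h2 : C.ip α.1 δ.1 + C.ip β.1 δ.1 = -1 := by
        rw [← C.ip_add_left, ← h]
        exact C.ip_add_root γ δ ε h1
      have h3 := C.ip_cases α δ
      have h4 := C.ip_cases β δ
      have h5 : C.eps γ.1 δ.1 = C.eps α.1 δ.1 * C.eps β.1 δ.1 := by rw [h, C.eps_add_left]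
      have hd1 : C.ip α.1 δ.1 ≠ -2 → δ.1 ≠ -α.1 := by
        intro h6 h7
        apply h6
        rw [h7, C.ip_neg_right, α.2]
      have hd2 : C.ip β.1 δ.1 ≠ -2 → δ.1 ≠ -β.1 := by
        intro h6 h7
        apply h6
        rw [h7, C.ip_neg_right, β.2]
      rw [if_pos h1, smul_eq_mul, h5]
      simp only [h1, true_and]
      rcases h3 with h3 | h3 | h3 | h3 | h3
      · -- δ = -α
        have h6 : C.ip β.1 δ.1 = 1 := by omega
        have h7 : δ.1 = -α.1 := by
          rw [(C.ip_eq_neg_two_iff α δ).1 h3, Root.neg_val]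
        have h8 : γ.1 + δ.1 = β.1 := by
          rw [h, h7]
          funext k
          simp
        rw [if_neg (fun hh : γ.1 + δ.1 = α.1 ∧ δ.1 = -β.1 => hd2 (by omega) hh.2), if_neg (by omega), if_pos ⟨h8, h7⟩,
          if_neg (by omega), h7, C.eps_neg_right, C.eps_neg_right, hαα, hsw, hβα]
        linear_combination (-1 : ℤ) * hsq
      · -- ip α δ = -1, ip β δ = 0
        have h6 : C.ip β.1 δ.1 = 0 := by omega
        rw [if_neg (fun hh : γ.1 + δ.1 = α.1 ∧ δ.1 = -β.1 => hd2 (by omega) hh.2), if_neg (by omega),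
          if_neg (fun hh : γ.1 + δ.1 = β.1 ∧ δ.1 = -α.1 => hd1 (by omega) hh.2), if_pos h3, C.eps_add_right, hsw]
        ring
      · -- ip α δ = 0, ip β δ = -1
        have h6 : C.ip β.1 δ.1 = -1 := by omega
        rw [if_neg (fun hh : γ.1 + δ.1 = α.1 ∧ δ.1 = -β.1 => hd2 (by omega) hh.2), if_pos h6,
          if_neg (fun hh : γ.1 + δ.1 = β.1 ∧ δ.1 = -α.1 => hd1 (by omega) hh.2), if_neg (by omega), C.eps_add_right]
        ring
      · -- δ = -β
        have h6 : C.ip β.1 δ.1 = -2 := by omega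
        have h7 : δ.1 = -β.1 := by
          rw [(C.ip_eq_neg_two_iff β δ).1 h6, Root.neg_val]
        have h8 : γ.1 + δ.1 = α.1 := by
          rw [h, h7]
          funext k
          simp
        rw [if_pos ⟨h8, h7⟩, if_neg (by omega),
          if_neg (fun hh : γ.1 + δ.1 = β.1 ∧ δ.1 = -α.1 => hd1 (by omega) hh.2), if_neg (by omega), h7, C.eps_neg_right,
          C.eps_neg_right, hββ, hαβ]
        linear_combination hsq
      · omega
    · have h2 : ¬ (ε.1 = α.1 ∧ δ.1 = -β.1) := by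
        rintro ⟨h2, h3⟩
        apply h1
        rw [h2, h3, h]
        funext k
        simp
      have h3 : ¬ (ε.1 = β.1 ∧ δ.1 = -α.1) := by
        rintro ⟨h2, h3⟩
        apply h1
        rw [h2, h3, h]
        funext k
        simp
      rw [if_neg h2, if_neg h3, if_neg (fun hh => h1 hh.1), if_neg (fun hh => h1 hh.1), if_neg h1]
      simp

end SLC

end Pool.Agent.H75.UL
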