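import Pool.Agent.H75.UL.L1
import Pool.Agent.H75.UL.L2
import Pool.Agent.H75.UL.R2
import Pool.Agent.H75.UL.R3

/-!
# Project UL (MP_978914_al), module T5

Iterated brackets which avoid a simple root vanish.

Let `V k` be the span of the matrices `E β` (cast to `K`) over the roots `β` with `ht β = k` and
`β_j = 0`. If `A ∈ V k`, `k ≥ 1`, and `B` is a combination of the `E α_i`, `i ≠ j`, then
`B * A - A * B ∈ V (k + 1)`: for `β` positive, `ip α_i β ≥ 0` gives `0` (`E_comm`), `-1` gives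
`± E (α_i + β)` (`E_comm_add`), `-2` is impossible (`β = -α_i`). `ld A` with `xi j A = 0` is in `V 1`.
So `iad (ld A) (l.map ld) ∈ V (length + 1) = V (ht θ)`, and this is `0`: a root of height `ht θ` is
`θ`, but `θ_j ≥ 1`.
-/

set_option autoImplicit false
open Matrix
universe u
namespace Pool.Agent.H75.UL

namespace SLC
variable {n : ℕ} (C : SLC n) {K : Type*} [Field K]

/-- the span of the `E β`, `ht β = k`, `β_j = 0`. -/
def T5_V (K : Type*) [Field K] (j : Fin n) (k : ℤ) : Submodule K (Matrix C.Idx C.Idx K) :=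
  Submodule.span K {M | ∃ β : C.Root, ht β.1 = k ∧ β.1 j = 0 ∧
    M = (C.E β).map (Int.cast : ℤ → K)}

theorem T5_map_comm (α β : C.Root) (h : 0 ≤ C.ip α.1 β.1) :
    (C.E α).map (Int.cast : ℤ → K) * (C.E β).map (Int.cast : ℤ → K) -
      (C.E β).map (Int.cast : ℤ → K) * (C.E α).map (Int.cast : ℤ → K) = 0 := by
  have h1 := congrArg (fun M : Matrix C.Idx C.Idx ℤ => M.map (Int.castRingHom K)) (C.E_comm α β h)
  simp only [Matrix.map_mul] at h1
  rw [sub_eq_zero]
  exact h1

theorem T5_map_comm_add (α β γ : C.Root) (h : γ.1 = α.1 + β.1) :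
    (C.E α).map (Int.cast : ℤ → K) * (C.E β).map (Int.cast : ℤ → K) -
      (C.E β).map (Int.cast : ℤ → K) * (C.E α).map (Int.cast : ℤ → K) =
        (C.eps α.1 β.1 : K) • (C.E γ).map (Int.cast : ℤ → K) := by
  have h1 := congrArg (fun M : Matrix C.Idx C.Idx ℤ => M.map (Int.castRingHom K))
    (C.E_comm_add α β γ h)
  ext a b
  have h2 := congrFun (congrFun h1 a) b
  simp only [Matrix.map_apply, Matrix.sub_apply, Matrix.smul_apply, Matrix.mul_apply,
    map_sub, map_sum, map_mul, smul_eq_mul] at h2 ⊢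
  exact h2

theorem T5_bracket (i j : Fin n) (hij : i ≠ j) (k : ℤ) (hk : 1 ≤ k) (A : Matrix C.Idx C.Idx K)
    (hA : A ∈ C.T5_V K j k) :
    (C.E (C.simple i)).map (Int.cast : ℤ → K) * A -
      A * (C.E (C.simple i)).map (Int.cast : ℤ → K) ∈ C.T5_V K j (k + 1) := by
  unfold T5_V at hA
  induction hA using Submodule.span_induction with
  | mem x hx =>
    obtain ⟨β, hβ, hβj, rfl⟩ := hx
    rcases C.ip_cases (C.simple i) β with h | h | h | h | h
    · rw [C.ip_eq_neg_two_iff] at h
      exfalso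
      rw [h, Root.neg_val, ht_neg, C.ht_simple] at hβ
      omega
    · obtain ⟨γ, hγ⟩ := C.exists_add (C.simple i) β h
      rw [C.T5_map_comm_add (C.simple i) β γ hγ]
      apply Submodule.smul_mem
      apply Submodule.subset_span
      refine ⟨γ, ?_, ?_, rfl⟩
      · rw [hγ, ht_add, C.ht_simple, hβ]
        ring
      · rw [hγ, Pi.add_apply, hβj, simple_val, Pi.single_eq_of_ne hij.symm, add_zero]
    · rw [C.T5_map_comm _ _ (by omega)]
      exact zero_mem _
    · rw [C.T5_map_comm _ _ (by omega)]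
      exact zero_mem _
    · rw [C.T5_map_comm _ _ (by omega)]
      exact zero_mem _
  | zero =>
    rw [mul_zero, zero_mul, sub_zero]
    exact zero_mem _
  | add x y _ _ hx hy =>
    rw [mul_add, add_mul, add_sub_add_comm]
    exact add_mem hx hy
  | smul c x _ hx =>
    rw [mul_smul_comm, smul_mul_assoc, ← smul_sub]
    exact Submodule.smul_mem _ _ hx

theorem T5_ld_mem (j : Fin n) (A : Matrix C.Idx C.Idx K) (hA : C.xi j A = 0) :
    C.ld A ∈ C.T5_V K j 1 := by
  unfold ld
  apply Submodule.sum_mem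
  intro i _
  by_cases hij : i = j
  · subst hij
    rw [hA, zero_smul]
    exact zero_mem _
  · apply Submodule.smul_mem
    apply Submodule.subset_span
    exact ⟨C.simple i, C.ht_simple i, by rw [simple_val, Pi.single_eq_of_ne (Ne.symm hij)], rfl⟩

theorem T5_ld_bracket (j : Fin n) (B : Matrix C.Idx C.Idx K) (hB : C.xi j B = 0) (k : ℤ)
    (hk : 1 ≤ k) (A : Matrix C.Idx C.Idx K) (hA : A ∈ C.T5_V K j k) :
    C.ld B * A - A * C.ld B ∈ C.T5_V K j (k + 1) := by
  unfold ld
  rw [Finset.sum_mul, Finset.mul_sum, ← Finset.sum_sub_distrib]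
  apply Submodule.sum_mem
  intro i _
  by_cases hij : i = j
  · subst hij
    rw [hB, zero_smul, zero_mul, mul_zero, sub_zero]
    exact zero_mem _
  · rw [mul_smul_comm, smul_mul_assoc, ← smul_sub]
    apply Submodule.smul_mem
    exact C.T5_bracket i j hij k hk A hA

theorem T5_iad (j : Fin n) (l : List (Matrix C.Idx C.Idx K)) (hl : ∀ B ∈ l, C.xi j B = 0) :
    ∀ (k : ℤ), 1 ≤ k → ∀ A ∈ C.T5_V K j k, iad A (l.map C.ld) ∈ C.T5_V K j (k + l.length) := by
  induction l with
  | nil =>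
    intro k _ A hA
    simpa [iad] using hA
  | cons B l ih =>
    intro k hk A hA
    have h1 := C.T5_ld_bracket j B (hl B List.mem_cons_self) k hk A hA
    have h2 := ih (fun B' hB' => hl B' (List.mem_cons_of_mem _ hB')) (k + 1) (by omega) _ h1
    have e : iad A ((B :: l).map C.ld) = iad (C.ld B * A - A * C.ld B) (l.map C.ld) := rfl
    rw [e, List.length_cons]
    have e2 : k + ((l.length + 1 : ℕ) : ℤ) = k + 1 + (l.length : ℤ) := by push_cast; ring
    rw [e2]
    exact h2

theorem iad_eq_zero (θ : C.Root) (hθ : C.IsHighest θ) (j : Fin n) (A : Matrix C.Idx C.Idx K)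
    (l : List (Matrix C.Idx C.Idx K)) (hA : C.xi j A = 0) (hl : ∀ B ∈ l, C.xi j B = 0)
    (hlen : (l.length : ℤ) + 1 = ht θ.1) : iad (C.ld A) (l.map C.ld) = 0 := by
  have h1 := C.T5_iad j l hl 1 le_rfl (C.ld A) (C.T5_ld_mem j A hA)
  have e : (1 : ℤ) + l.length = ht θ.1 := by omega
  rw [e] at h1
  unfold T5_V at h1
  have e2 : {M : Matrix C.Idx C.Idx K | ∃ β : C.Root, ht β.1 = ht θ.1 ∧ β.1 j = 0 ∧
      M = (C.E β).map (Int.cast : ℤ → K)} = ∅ := by
    rw [Set.eq_empty_iff_forall_notMem]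
    rintro M ⟨β, hβ, hβj, -⟩
    have h2 := hθ.uniq β hβ
    have h3 := hθ.full j
    rw [← h2] at h3
    omega
  rw [e2, Submodule.span_empty, Submodule.mem_bot] at h1
  exact h1

end SLC

end Pool.Agent.H75.UL
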