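import Pool.Agent.H75.UL.T3
import Pool.Agent.H75.UL.T7

/-!
# Project UL (MP_978914_al), module T8

Conjugation of regular elements into the torus; centralizers.

`conj_T`: Claim(m): there is `v ∈ U 1` with `v⁻¹ (τ u) v = τ u'`, `u' ∈ U m`. Step: `u' = lp s * u''`
with `s` supported in height `m` (`exists_layer`). Conjugate by `v' = lp r`, `r` supported in height
`m`: `v'⁻¹ τ u' v' = τ (τ⁻¹ v'⁻¹ τ) u' v'`, and modulo `U (m + 1)` (`lp_add_layer`, `U_conj`) this is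
`τ * lp (β ↦ -χ(β)⁻¹ r β + s β + r β)`, `χ = chi τ`; choose `r β = -s β / (1 - χ(β)⁻¹)`. Start with
`m = 1`, end with `U m = ⊥` (`exists_U_eq_bot`).
`centralizer_U`: `u = lp t` (`exists_lp`), `τ u τ⁻¹ = lp (β ↦ χ(β) t β)` (`T_fix`) and `lp_unique`.
`centralizer_B`: `b = τ' u` commutes with `τ` regular: `τ u τ⁻¹ = u` (`T` is commutative), so all
coordinates of `u` vanish.
-/

set_option autoImplicit false
open Matrix
universe u
namespace Pool.Agent.H75.UL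

namespace SLC
variable {n : ℕ} (C : SLC n) {K : Type*} [Field K]

theorem T8_conj_lp (τ : GL C.Idx K) (hτ : τ ∈ (C.adS K).T) (l : List C.Root) (t : C.Root → K) :
    τ * (C.adS K).lp l t * τ⁻¹ =
      (C.adS K).lp l (fun β => C.chi (τ : Matrix C.Idx C.Idx K) β * t β) := by
  induction l with
  | nil => simp [StSys.lp]
  | cons β l ih =>
    have e1 : ∀ t' : C.Root → K, (C.adS K).lp (β :: l) t' =
        C.xg K β (t' β) * (C.adS K).lp l t' := by
      intro t'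
      unfold StSys.lp
      rw [List.map_cons, List.prod_cons]
      rfl
    rw [e1, e1, ← ih, ← (C.T_fix τ hτ β (t β)).2]
    group

theorem T8_conj_lp' (τ : GL C.Idx K) (hτ : τ ∈ (C.adS K).T) (l : List C.Root) (t : C.Root → K) :
    τ⁻¹ * (C.adS K).lp l t * τ =
      (C.adS K).lp l (fun β => (C.chi (τ : Matrix C.Idx C.Idx K) β)⁻¹ * t β) := by
  have h := C.T8_conj_lp τ hτ l (fun β => (C.chi (τ : Matrix C.Idx C.Idx K) β)⁻¹ * t β)
  have e : (fun β => C.chi (τ : Matrix C.Idx C.Idx K) β *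
      ((C.chi (τ : Matrix C.Idx C.Idx K) β)⁻¹ * t β)) = t := by
    funext β
    rw [← mul_assoc, mul_inv_cancel₀ (C.T_fix τ hτ β 0).1, one_mul]
  rw [e] at h
  rw [← h]
  group

/-- one step of `conj_T`. -/
theorem T8_step (τ u' : GL C.Idx K) (hτ : τ ∈ (C.adS K).T) (m : ℤ) (hm : 1 ≤ m)
    (hu' : u' ∈ (C.adS K).U m)
    (hreg : ∀ γ, C.Pos γ → C.chi (τ : Matrix C.Idx C.Idx K) γ ≠ 1) :
    ∃ v ∈ (C.adS K).U 1, ∃ u'' ∈ (C.adS K).U (m + 1), v⁻¹ * (τ * u') * v = τ * u'' := by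
  set S := C.adS K with hS
  obtain ⟨s, hs, w, hw, hsw⟩ := S.exists_layer m hm u' hu'
  set χ : C.Root → K := C.chi (τ : Matrix C.Idx C.Idx K) with hχ
  set r : C.Root → K := fun β => -(s β) / (1 - (χ β)⁻¹) with hr
  have hr0 : ∀ β, ht β.1 ≠ m → r β = 0 := by
    intro β hβ
    rw [hr]
    simp [hs β hβ]
  have hlpU : ∀ t : C.Root → K, (∀ β, ht β.1 ≠ m → t β = 0) → S.lp C.posList t ∈ S.U 1 := by
    intro t ht'
    apply S.lp_mem 1
    intro β hβ
    apply ht'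
    omega
  have hv : S.lp C.posList r ∈ S.U 1 := hlpU r hr0
  -- the congruence modulo `U (m + 1)`
  let R : GL C.Idx K → GL C.Idx K → Prop := fun a b => ∃ x ∈ S.U (m + 1), a = b * x
  have hRr : ∀ a b c, c ∈ S.U 1 → R a b → R (a * c) (b * c) := by
    rintro a b c hc ⟨x, hx, rfl⟩
    refine ⟨c⁻¹ * x * c, ?_, by group⟩
    have h1 := S.U_conj (m + 1) (by omega) c⁻¹ x (inv_mem hc) hx
    rwa [inv_inv] at h1
  have hRl : ∀ a b c, R a b → R (c * a) (c * b) := by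
    rintro a b c ⟨x, hx, rfl⟩
    exact ⟨x, hx, by group⟩
  have hRt : ∀ a b c, R a b → R b c → R a c := by
    rintro a b c ⟨x, hx, rfl⟩ ⟨y, hy, rfl⟩
    exact ⟨y * x, mul_mem hy hx, by group⟩
  have hRs : ∀ a b, R a b → R b a := by
    rintro a b ⟨x, hx, rfl⟩
    exact ⟨x⁻¹, inv_mem hx, by group⟩
  have hadd : ∀ t t' : C.Root → K, (∀ β, ht β.1 ≠ m → t β = 0) → (∀ β, ht β.1 ≠ m → t' β = 0) →
      R (S.lp C.posList t * S.lp C.posList t') (S.lp C.posList (fun β => t β + t' β)) := by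
    intro t t' h h'
    obtain ⟨x, hx, hx2⟩ := S.lp_add_layer m hm t t' h h'
    exact hRs _ _ ⟨x, hx, hx2⟩
  -- v⁻¹
  have hinv : R (S.lp C.posList r)⁻¹ (S.lp C.posList (fun β => -r β)) := by
    obtain ⟨x, hx, hx2⟩ := S.lp_add_layer m hm r (fun β => -r β) hr0
      (fun β hβ => by rw [hr0 β hβ, neg_zero])
    have e : S.lp C.posList (fun β => r β + -r β) = 1 :=
      S.lp_zero _ _ (fun β _ => by ring)
    rw [e] at hx2
    refine ⟨x, hx, ?_⟩
    rw [eq_comm, eq_inv_iff_mul_eq_one]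
    have h1 : S.lp C.posList r * (S.lp C.posList (fun β => -r β) * x) = 1 := by
      rw [← mul_assoc]; exact hx2.symm
    exact mul_eq_one_comm.1 h1
  have hconj : R (τ⁻¹ * (S.lp C.posList r)⁻¹ * τ)
      (S.lp C.posList (fun β => (χ β)⁻¹ * -r β)) := by
    obtain ⟨x, hx, hx2⟩ := hinv
    refine ⟨τ⁻¹ * x * τ, ?_, ?_⟩
    · have h1 := S.T_conj_U (m + 1) τ⁻¹ x (inv_mem hτ) hx
      rwa [inv_inv] at h1
    · have h2 := C.T8_conj_lp' τ hτ C.posList (fun β => -r β)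
      rw [← hS, ← hχ] at h2
      rw [hx2, ← h2]
      group
  have hsU : S.lp C.posList s ∈ S.U 1 := hlpU s hs
  have hu'1 : u' ∈ S.U 1 := S.U_mono hm hu'
  have hz1 : ∀ β, ht β.1 ≠ m → (χ β)⁻¹ * -r β = 0 := by
    intro β hβ
    rw [hr0 β hβ, neg_zero, mul_zero]
  have hz2 : ∀ β, ht β.1 ≠ m → (χ β)⁻¹ * -r β + s β = 0 := by
    intro β hβ
    rw [hz1 β hβ, hs β hβ, add_zero]
  have hR1 : R (τ⁻¹ * (S.lp C.posList r)⁻¹ * τ * u' * S.lp C.posList r)
      (S.lp C.posList (fun β => (χ β)⁻¹ * -r β) * u' * S.lp C.posList r) :=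
    hRr _ _ _ hv (hRr _ _ _ hu'1 hconj)
  have hR2 : R (S.lp C.posList (fun β => (χ β)⁻¹ * -r β) * u' * S.lp C.posList r)
      (S.lp C.posList (fun β => (χ β)⁻¹ * -r β) * S.lp C.posList s * S.lp C.posList r) :=
    hRr _ _ _ hv (hRl _ _ _ ⟨w, hw, hsw⟩)
  have hR3 : R (S.lp C.posList (fun β => (χ β)⁻¹ * -r β) * S.lp C.posList s * S.lp C.posList r)
      (S.lp C.posList (fun β => (χ β)⁻¹ * -r β + s β) * S.lp C.posList r) :=
    hRr _ _ _ hv (hadd _ _ hz1 hs)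
  have hR4 := hadd _ _ hz2 hr0
  have e0 : S.lp C.posList (fun β => ((χ β)⁻¹ * -r β + s β) + r β) = 1 := by
    apply S.lp_zero
    intro β hβ
    rw [C.mem_posList] at hβ
    have h1 : χ β ≠ 1 := hreg β hβ
    have h2 : χ β ≠ 0 := (C.T_fix τ hτ β 0).1
    have h3 : 1 - (χ β)⁻¹ ≠ 0 := by
      intro h4
      apply h1
      rw [sub_eq_zero] at h4
      rw [← inv_inv (χ β), ← h4, inv_one]
    have h5 : r β * (1 - (χ β)⁻¹) = -s β := div_mul_cancel₀ _ h3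
    linear_combination h5
  rw [e0] at hR4
  obtain ⟨x, hx, hx2⟩ := hRt _ _ _ hR1 (hRt _ _ _ hR2 (hRt _ _ _ hR3 hR4))
  rw [one_mul] at hx2
  refine ⟨S.lp C.posList r, hv, x, hx, ?_⟩
  rw [← hx2]
  group

theorem conj_T (τ u : GL C.Idx K) (hτ : τ ∈ (C.adS K).T) (hu : u ∈ (C.adS K).U 1)
    (hreg : ∀ γ, C.Pos γ → C.chi (τ : Matrix C.Idx C.Idx K) γ ≠ 1) :
    ∃ v ∈ (C.adS K).U 1, v⁻¹ * (τ * u) * v = τ := by
  obtain ⟨m₀, hm₀, -, hbot⟩ := (C.adS K).exists_U_eq_bot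
  have key : ∀ k : ℕ, ∃ v ∈ (C.adS K).U 1, ∃ u' ∈ (C.adS K).U ((k : ℤ) + 1),
      v⁻¹ * (τ * u) * v = τ * u' := by
    intro k
    induction k with
    | zero =>
      refine ⟨1, one_mem _, u, ?_, by group⟩
      simpa using hu
    | succ k ih =>
      obtain ⟨v, hv, u', hu', h1⟩ := ih
      obtain ⟨v', hv', u'', hu'', h2⟩ := C.T8_step τ u' hτ ((k : ℤ) + 1) (by omega) hu' hreg
      refine ⟨v * v', mul_mem hv hv', u'', ?_, ?_⟩
      · push_cast
        exact hu''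
      · rw [← h2, ← h1]
        group
  obtain ⟨v, hv, u', hu', h1⟩ := key (m₀ - 1).toNat
  have e : (((m₀ - 1).toNat : ℕ) : ℤ) + 1 = m₀ := by omega
  rw [e, hbot, Subgroup.mem_bot] at hu'
  rw [hu', mul_one] at h1
  exact ⟨v, hv, h1⟩

theorem centralizer_U (τ u : GL C.Idx K) (hτ : τ ∈ (C.adS K).T) (hu : u ∈ (C.adS K).U 1)
    (h : τ * u = u * τ) : ∃ t : C.Root → K, u = (C.adS K).lp C.posList t ∧
      ∀ β, C.Pos β → t β ≠ 0 → C.chi (τ : Matrix C.Idx C.Idx K) β = 1 := by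
  obtain ⟨t, -, htu⟩ := (C.adS K).exists_lp 1 le_rfl u hu
  refine ⟨t, htu, fun β hβ htβ => ?_⟩
  have h1 := C.T8_conj_lp τ hτ C.posList t
  rw [← htu, h, mul_inv_cancel_right, htu] at h1
  have h2 := C.lp_unique _ _ h1 β hβ
  have h3 : (C.chi (τ : Matrix C.Idx C.Idx K) β - 1) * t β = 0 := by
    rw [sub_mul, one_mul, sub_eq_zero]
    exact h2.symm
  rcases mul_eq_zero.1 h3 with h4 | h4
  · exact sub_eq_zero.1 h4
  · exact absurd h4 htβ

theorem centralizer_B (τ b : GL C.Idx K) (hτ : τ ∈ (C.adS K).T) (hb : b ∈ C.Gad K)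
    (hb0 : C.Fil 0 (b : Matrix C.Idx C.Idx K))
    (hreg : ∀ γ, C.Pos γ → C.chi (τ : Matrix C.Idx C.Idx K) γ ≠ 1)
    (h : τ * b = b * τ) : b ∈ (C.adS K).T := by
  obtain ⟨τ', hτ', u, hu, rfl⟩ := C.upper b hb hb0
  have hc := (C.adS K).T_comm τ τ' hτ hτ'
  have h1 : τ * u = u * τ := by
    have h2 : τ' * (τ * u) = τ' * (u * τ) := by
      rw [← mul_assoc, ← hc, mul_assoc, h, mul_assoc]
    exact mul_left_cancel h2
  obtain ⟨t, htu, ht'⟩ := C.centralizer_U τ u hτ hu h1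
  have hu1 : u = 1 := by
    rw [htu]
    apply (C.adS K).lp_zero
    intro β hβ
    rw [C.mem_posList] at hβ
    by_contra hne
    exact hreg β hβ (ht' β hβ hne)
  rw [hu1, mul_one]
  exact hτ'

/-- If only the positive root `β₀` has `chi τ = 1`, the centralizer of `τ` in `U 1` is the root
subgroup of `β₀`. -/
theorem centralizer_U_single (τ u : GL C.Idx K) (hτ : τ ∈ (C.adS K).T) (hu : u ∈ (C.adS K).U 1)
    (h : τ * u = u * τ) (β₀ : C.Root) (hβ₀ : C.Pos β₀)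
    (h1 : ∀ β, C.Pos β → β ≠ β₀ → C.chi (τ : Matrix C.Idx C.Idx K) β ≠ 1) :
    ∃ s : K, u = C.xg K β₀ s := by
  obtain ⟨t, htu, ht'⟩ := C.centralizer_U τ u hτ hu h
  refine ⟨t β₀, ?_⟩
  obtain ⟨l₁, l₂, hl⟩ := List.append_of_mem ((C.mem_posList β₀).2 hβ₀)
  have hnd := C.posList_nodup
  rw [hl, List.nodup_append, List.nodup_cons] at hnd
  have hz : ∀ β ∈ C.posList, β ≠ β₀ → t β = 0 := by
    intro β hβ hne
    rw [C.mem_posList] at hβ
    by_contra hne2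
    exact h1 β hβ hne (ht' β hβ hne2)
  rw [htu, hl]
  have e1 : (C.adS K).lp (l₁ ++ β₀ :: l₂) t =
      (C.adS K).lp l₁ t * (C.xg K β₀ (t β₀) * (C.adS K).lp l₂ t) := by
    unfold StSys.lp
    rw [List.map_append, List.prod_append, List.map_cons, List.prod_cons]
    rfl
  rw [e1, (C.adS K).lp_zero l₁ t, (C.adS K).lp_zero l₂ t, one_mul, mul_one]
  · intro β hβ
    apply hz β
    · rw [hl]
      exact List.mem_append_right _ (List.mem_cons_of_mem _ hβ)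
    · rintro rfl
      exact hnd.2.1.1 hβ
  · intro β hβ
    apply hz β
    · rw [hl]
      exact List.mem_append_left _ hβ
    · rintro rfl
      exact hnd.2.2 β hβ β List.mem_cons_self rfl

end SLC

end Pool.Agent.H75.UL
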