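import Pool.Agent.H75.UL.R3
import Pool.Agent.H75.UL.R4b
import Pool.Agent.H75.UL.R5
import Pool.Agent.H75.UL.S4
import Pool.Agent.H75.UL.S6
import Pool.Agent.H75.UL.S7
import Pool.Agent.H75.UL.S8
import Pool.Agent.H75.UL.T4
import Pool.Agent.H75.UL.T5
import Pool.Agent.H75.UL.T7
import Pool.Agent.H75.UL.T8
import Pool.Agent.H75.UL.T9
import Pool.Agent.H75.UL.T10

/-! Names of the first skeleton. -/

set_option autoImplicit false
open Matrix
universe u
namespace Pool.Agent.H75.UL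

theorem icomm_chain {n : ℕ} {C : SLC n} {K : Type*} [Field K] {H : Type*} [Group H]
    (S : StSys C K H) (β θ : C.Root) (l : List (Fin n)) (hc : C.Chain β l θ) :
    ∃ s : K, (s = 1 ∨ s = -1) ∧
      icomm (S.x β 1) (l.map fun i => S.x (C.simple i) 1) = S.x θ s :=
  S.icomm_chain β θ l hc

namespace SLC
variable {n : ℕ} (C : SLC n) {K : Type*} [Field K]

theorem Fil_eq_zero {R : Type*} [CommRing R] : ∃ m₀ : ℤ, ∀ M : Matrix C.Idx C.Idx R,
    C.Fil m₀ M → M = 0 := C.exists_Fil_eq_zero' R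

theorem comm_lead (g h : GL C.Idx K) (m k : ℤ) (hm : 1 ≤ m) (hk : 1 ≤ k)
    (A B : Matrix C.Idx C.Idx K) (hA : C.Fil m A) (hB : C.Fil k B)
    (hg : C.Fil (m + 1) ((g : Matrix C.Idx C.Idx K) - 1 - A))
    (hh : C.Fil (k + 1) ((h : Matrix C.Idx C.Idx K) - 1 - B)) :
    C.Fil (m + k + 1) (((g * h * g⁻¹ * h⁻¹ : GL C.Idx K) : Matrix C.Idx C.Idx K) - 1 -
      (A * B - B * A)) := C.Fil_comm_lead g h m k hm hk A B hA hB hg hh

end SLC
end Pool.Agent.H75.UL
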