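import Pool.Agent.H75.UL.R1

/-!
# Project UL: further definitions

Heights, positive roots, Weyl group, the subgroups `U m`, `T`, `N` of a Steinberg system, ordered
products, the height filtration `Fil m` of matrices, leading parts.
-/

set_option autoImplicit false
open Matrix
universe u
namespace Pool.Agent.H75.UL

/-- The height. -/
def ht {n : ℕ} (v : Fin n → ℤ) : ℤ := ∑ i, v i

theorem ht_add {n : ℕ} (v w : Fin n → ℤ) : ht (v + w) = ht v + ht w := by
  simp [ht, Finset.sum_add_distrib]

theorem ht_neg {n : ℕ} (v : Fin n → ℤ) : ht (-v) = - ht v := by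
  simp [ht]

theorem ht_sub {n : ℕ} (v w : Fin n → ℤ) : ht (v - w) = ht v - ht w := by
  simp [ht, Finset.sum_sub_distrib]

theorem ht_smul {n : ℕ} (a : ℤ) (v : Fin n → ℤ) : ht (a • v) = a * ht v := by
  simp [ht, Finset.mul_sum]

namespace SLC
variable {n : ℕ} (C : SLC n)

/-- Positive roots: positive height (equivalently, all coordinates are `≥ 0`, module R2). -/
def Pos (β : C.Root) : Prop := 0 < ht β.1

instance (β : C.Root) : Decidable (C.Pos β) := by unfold Pos; infer_instance

theorem ht_simple (i : Fin n) : ht (C.simple i).1 = 1 := by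
  simp [ht]

theorem simple_pos (i : Fin n) : C.Pos (C.simple i) := by
  unfold Pos
  rw [ht_simple]
  norm_num

theorem simple_injective : Function.Injective C.simple := by
  intro i j h
  have h1 := congrArg (fun β : C.Root => β.1 i) h
  simp only [simple_val, Pi.single_eq_same, Pi.single_apply] at h1
  by_contra hne
  rw [if_neg hne] at h1
  exact one_ne_zero h1

/-- `Chain β l δ`: adding to `β` successively the simple roots in the list `l` (first entry first)
gives roots at every stage, and `δ` at the end. -/
inductive Chain : C.Root → List (Fin n) → C.Root → Prop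
  | nil (β : C.Root) : Chain β [] β
  | cons (i : Fin n) {β γ δ : C.Root} {l : List (Fin n)} (h : γ.1 = (C.simple i).1 + β.1)
      (hc : Chain γ l δ) : Chain β (i :: l) δ

/-- `θ` is the highest root. -/
structure IsHighest (θ : C.Root) : Prop where
  full : ∀ i, 1 ≤ θ.1 i
  le : ∀ β : C.Root, ht β.1 ≤ ht θ.1
  uniq : ∀ β : C.Root, ht β.1 = ht θ.1 → β = θ
  chain : ∀ β : C.Root, C.Pos β → ∃ l, C.Chain β l θ

/-- The Weyl group as a permutation group on the roots. -/
def W : Subgroup (Equiv.Perm C.Root) := Subgroup.closure (Set.range fun i => C.reflE (C.simple i))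

/-- The product of the simple reflections of a word. -/
def wd (l : List (Fin n)) : Equiv.Perm C.Root := (l.map fun i => C.reflE (C.simple i)).prod

/-- The sign in `n_α(t) e_β = ± t^{-(α,β)} e_{s_α β}`. -/
def cs (α β : C.Root) : ℤ :=
  if C.ip α.1 β.1 = 1 ∨ C.ip α.1 β.1 = -1 then C.eps α.1 β.1 else 1

/-- The matrix of `n_α(t)`. -/
noncomputable def nmat (K : Type*) [Field K] (α : C.Root) (t : K) : Matrix C.Idx C.Idx K :=
  fun a b => match a, b with
  | Sum.inl i, Sum.inl j =>
      (if i = j then 1 else 0) - (α.1 i : K) * (C.ip (Pi.single j 1) α.1 : K)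
  | Sum.inr γ, Sum.inr β => if γ = C.refl α β then (C.cs α β : K) * t ^ (- C.ip α.1 β.1) else 0
  | _, _ => 0

/-- The positive roots, sorted by height. -/
noncomputable def posList : List C.Root :=
  (Finset.univ.filter fun β : C.Root => C.Pos β).toList.insertionSort
    (fun a b => ht a.1 ≤ ht b.1)

/-- The height of an index of the adjoint module. -/
def hti : C.Idx → ℤ := Sum.elim (fun _ => 0) (fun β => ht β.1)

/-- `M` raises the height by at least `m`. -/
def Fil {R : Type*} [CommRing R] (m : ℤ) (M : Matrix C.Idx C.Idx R) : Prop :=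
  ∀ a b, C.hti a < C.hti b + m → M a b = 0

/-- The coordinate of the simple root `j` of an upper unitriangular element. -/
def xi {K : Type*} [Field K] (j : Fin n) (M : Matrix C.Idx C.Idx K) : K :=
  - M (Sum.inl j) (Sum.inr (-(C.simple j)))

/-- The diagonal entry at a root. -/
def chi {K : Type*} [Field K] (M : Matrix C.Idx C.Idx K) (γ : C.Root) : K :=
  M (Sum.inr γ) (Sum.inr γ)

/-- The leading part of a unitriangular matrix. -/
def ld {K : Type*} [Field K] (M : Matrix C.Idx C.Idx K) : Matrix C.Idx C.Idx K :=
  ∑ j, C.xi j M • (C.E (C.simple j)).map (Int.cast : ℤ → K)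

end SLC

namespace StSys
variable {n : ℕ} {C : SLC n} {K : Type*} [Field K] {H : Type*} [Group H] (S : StSys C K H)

/-- The subgroup generated by the root elements. -/
def gen : Subgroup H := Subgroup.closure {g | ∃ (β : C.Root) (t : K), g = S.x β t}

/-- The subgroup generated by the root elements of height at least `m`. -/
def U (m : ℤ) : Subgroup H :=
  Subgroup.closure {g | ∃ (β : C.Root) (t : K), m ≤ ht β.1 ∧ g = S.x β t}

/-- The torus. -/
def T : Subgroup H := Subgroup.closure {g | ∃ (α : C.Root) (t : K), t ≠ 0 ∧ g = hh S.x α t}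

/-- The monomial subgroup. -/
def N : Subgroup H := Subgroup.closure {g | ∃ (α : C.Root) (t : K), t ≠ 0 ∧ g = nn S.x α t}

/-- `g` permutes the root subgroups as `w` does. -/
def Acts (g : H) (w : Equiv.Perm C.Root) : Prop :=
  ∃ c : C.Root → K, (∀ β, c β ≠ 0) ∧ ∀ β u, g * S.x β u * g⁻¹ = S.x (w β) (c β * u)

/-- The ordered product of the root elements `x_β(t_β)`, `β` in the list. -/
def lp (l : List C.Root) (t : C.Root → K) : H := (l.map fun β => S.x β (t β)).prod

/-- The torus element `∏ h_i(t)^(v i)`. -/
def tor (v : Fin n → ℤ) (t : K) : H :=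
  ((List.finRange n).map fun i => hh S.x (C.simple i) t ^ v i).prod

end StSys

/-- Iterated commutators: start with `g` and take commutators with the elements of the list. -/
def icomm {H : Type*} [Group H] (g : H) (l : List H) : H :=
  l.foldl (fun c h => h * c * h⁻¹ * c⁻¹) g

/-- Iterated brackets of matrices. -/
def iad {ι R : Type*} [Fintype ι] [CommRing R] (A : Matrix ι ι R) (l : List (Matrix ι ι R)) :
    Matrix ι ι R := l.foldl (fun c B => B * c - c * B) A

end Pool.Agent.H75.UL
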