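import Pool.Agent.H75.UL.Base

/-!
# Project UL (MP_978914_al), module S1

Consequences of Steinberg's relations, I: the action of `n_α(t)` on all root elements.

`x_zero`, `x_neg`, `nn_inv` are immediate from `map_add`. `nn_eq`: from `n_conj` with `u = t`:
`n_α(t) x_α(t) = x_{-α}(t⁻¹) n_α(t)`; cancel the last `x_α(t)` on both sides of
`x_α(t) x_{-α}(t⁻¹) x_α(t) x_α(t) = x_{-α}(t⁻¹) x_α(t) x_{-α}(t⁻¹) x_α(t)`: `n_α(t) = n_{-α}(t⁻¹)`
(note `-(-α) = α`, `C.neg_neg_root`).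
`n_conj_all`, by the value of `ip α β` (`cs`, `refl` as in Base):
* `0`: `x_α`, `x_{-α}` commute with `x_β` (`comm`, as `ip (±α) β = 0`); `refl α β = β`.
* `-1`: `γ = α + β`, `ε = eps α β`. `x_α(t)` conjugates `x_β(u)` to `x_γ(ε t u) x_β(u)`;
  `x_{-α}(t⁻¹)` commutes with `x_β` and conjugates `x_γ(v)` to `x_β(ε(-α,γ) t⁻¹ v) x_γ(v)` with
  `ε(-α,γ) = ε(α,α) ε(α,β) = -ε`; so `x_γ(ε t u) x_β(u)` goes to `x_β(-u) x_γ(ε t u) x_β(u) =
  x_γ(ε t u)` (`x_β`, `x_γ` commute: `ip β γ = 1`); `x_α(t)` commutes with `x_γ` (`ip α γ = 1`).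
* `1`: `γ = β - α`: `x_α(t)` commutes with `x_β`; `x_{-α}(t⁻¹)` conjugates `x_β(u)` to
  `x_γ(ε t⁻¹ u) x_β(u)` (`ε(-α,β) = ε`); `x_α(t)` conjugates `x_γ(v)` to
  `x_β(ε(α,γ) t v) x_γ(v)`, `ε(α,γ) = ε(α,β) ε(α,α) = -ε`: total `x_β(-u) x_γ(ε t⁻¹ u) x_β(u) =
  x_γ(ε t⁻¹ u)`.
* `2`: `β = α`, this is `n_conj`. `-2`: `β = -α`: use `nn_eq` and `n_conj` for `-α`, `t⁻¹`.
-/

set_option autoImplicit false
open Matrix
universe u
namespace Pool.Agent.H75.UL

namespace StSys
variable {n : ℕ} {C : SLC n} {K : Type*} [Field K] {H : Type*} [Group H] (S : StSys C K H)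

theorem x_zero (β : C.Root) : S.x β 0 = 1 := by
  have h := S.map_add β 0 0
  rw [add_zero] at h
  exact left_eq_mul.mp h

theorem x_neg (β : C.Root) (t : K) : S.x β (-t) = (S.x β t)⁻¹ := by
  have h := S.map_add β (-t) t
  rw [neg_add_cancel, S.x_zero] at h
  exact eq_inv_of_mul_eq_one_left h.symm

theorem nn_inv (α : C.Root) (t : K) : (nn S.x α t)⁻¹ = nn S.x α (-t) := by
  unfold nn
  rw [inv_neg, S.x_neg, S.x_neg, _root_.mul_inv_rev, _root_.mul_inv_rev, mul_assoc]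

theorem nn_eq (α : C.Root) (t : K) (ht : t ≠ 0) : nn S.x α t = nn S.x (-α) t⁻¹ := by
  have h := S.n_conj α t t ht
  have h1 : t⁻¹ ^ 2 * t = t⁻¹ := by
    field_simp
  rw [h1, mul_inv_eq_iff_eq_mul] at h
  unfold nn at h ⊢
  rw [C.neg_neg_root, inv_inv]
  have h2 : S.x α t * S.x (-α) t⁻¹ * S.x α t * S.x α t =
      S.x (-α) t⁻¹ * S.x α t * S.x (-α) t⁻¹ * S.x α t := by
    rw [h]
    group
  exact mul_right_cancel h2

private theorem S1_conj_comm {a x : H} (h : a * x = x * a) : a * x * a⁻¹ = x := by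
  rw [h, mul_inv_cancel_right]

private theorem S1_conj_mul (a x y : H) : a * (x * y) * a⁻¹ = a * x * a⁻¹ * (a * y * a⁻¹) := by
  group

private theorem S1_conj_add (α β γ : C.Root) (s t : K) (h : γ.1 = α.1 + β.1) :
    S.x α s * S.x β t * (S.x α s)⁻¹ = S.x γ (C.eps α.1 β.1 * s * t) * S.x β t := by
  rw [← S.comm_add α β γ s t h]
  group

private theorem S1_nn_conj (α : C.Root) (t : K) (y : H) :
    nn S.x α t * y * (nn S.x α t)⁻¹ =
      S.x α t * (S.x (-α) t⁻¹ * (S.x α t * y * (S.x α t)⁻¹) * (S.x (-α) t⁻¹)⁻¹) *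
        (S.x α t)⁻¹ := by
  unfold nn
  group

theorem n_conj_all (α β : C.Root) (t u : K) (ht : t ≠ 0) :
    nn S.x α t * S.x β u * (nn S.x α t)⁻¹ =
      S.x (C.refl α β) ((C.cs α β : K) * t ^ (- C.ip α.1 β.1) * u) := by
  rcases C.ip_cases α β with h | h | h | h | h
  · -- `-2`
    have hβ : β = -α := (C.ip_eq_neg_two_iff α β).mp h
    have hc : C.cs α β = 1 := by
      unfold SLC.cs
      rw [if_neg (by omega)]
    rw [hc, h]
    subst hβ
    rw [C.refl_neg, C.refl_self, C.neg_neg_root, S.nn_eq α t ht, S.n_conj (-α) t⁻¹ u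
      (inv_ne_zero ht), C.neg_neg_root, inv_inv]
    congr 1
    push_cast
    norm_num
  · -- `-1`
    obtain ⟨γ, hγ⟩ := C.exists_add α β h
    have hr : C.refl α β = γ := by
      apply SLC.Root.ext
      rw [C.refl_val, h, hγ]
      module
    have hc : C.cs α β = C.eps α.1 β.1 := by
      unfold SLC.cs
      rw [if_pos (by omega)]
    have h1 : C.ip (-α).1 β.1 = 1 := by
      rw [SLC.Root.neg_val, C.ip_neg_left, h, neg_neg]
    have h2 : C.ip β.1 γ.1 = 1 := by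
      rw [hγ, C.ip_add_right, C.ip_comm, h, β.2]
      norm_num
    have h3 : C.ip α.1 γ.1 = 1 := by
      rw [hγ, C.ip_add_right, h, α.2]
      norm_num
    have h4 : β.1 = (-α).1 + γ.1 := by
      rw [hγ, SLC.Root.neg_val]
      abel
    have h5 : C.eps (-α).1 γ.1 = - C.eps α.1 β.1 := by
      rw [SLC.Root.neg_val, C.eps_neg_left, hγ, C.eps_add_right, C.eps_self]
      ring
    rw [hr, hc, h, S1_nn_conj, S.S1_conj_add α β γ t u hγ, S1_conj_mul (S.x (-α) t⁻¹),
      S.S1_conj_add (-α) γ β _ _ h4, h5, S1_conj_comm (S.comm (-α) β t⁻¹ u (by omega))]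
    have h6 : S.x β (((-C.eps α.1 β.1 : ℤ) : K) * t⁻¹ * (C.eps α.1 β.1 * t * u)) *
        S.x γ (C.eps α.1 β.1 * t * u) * S.x β u = S.x γ (C.eps α.1 β.1 * t * u) := by
      have h7 : ((-C.eps α.1 β.1 : ℤ) : K) * t⁻¹ * (C.eps α.1 β.1 * t * u) = -u := by
        have h8 : ((C.eps α.1 β.1 : ℤ) : K) * (C.eps α.1 β.1 : ℤ) = 1 := by
          rw [← Int.cast_mul, C.eps_sq, Int.cast_one]
        push_cast
        field_simp
        linear_combination (-u) * h8
      rw [h7, mul_assoc, S.comm γ β _ _ (by rw [C.ip_comm]; omega), ← mul_assoc, S.x_neg,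
        inv_mul_cancel, one_mul]
    rw [h6, S1_conj_comm (S.comm α γ _ _ (by omega))]
    congr 1
    norm_num
  · -- `0`
    have hr : C.refl α β = β := by
      apply SLC.Root.ext
      rw [C.refl_val, h]
      module
    have hc : C.cs α β = 1 := by
      unfold SLC.cs
      rw [if_neg (by omega)]
    have h1 : C.ip (-α).1 β.1 = 0 := by
      rw [SLC.Root.neg_val, C.ip_neg_left, h, neg_zero]
    rw [hr, hc, h, S1_nn_conj, S1_conj_comm (S.comm α β _ _ (by omega)),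
      S1_conj_comm (S.comm (-α) β _ _ (by omega)), S1_conj_comm (S.comm α β _ _ (by omega))]
    congr 1
    norm_num
  · -- `1`
    obtain ⟨γ, hγ⟩ := C.exists_sub α β h
    have hr : C.refl α β = γ := by
      apply SLC.Root.ext
      rw [C.refl_val, h, hγ]
      module
    have hc : C.cs α β = C.eps α.1 β.1 := by
      unfold SLC.cs
      rw [if_pos (by omega)]
    have h4 : γ.1 = (-α).1 + β.1 := by
      rw [hγ, SLC.Root.neg_val]
      abel
    have h5 : β.1 = α.1 + γ.1 := by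
      rw [hγ]
      abel
    have h6 : C.eps (-α).1 β.1 = C.eps α.1 β.1 := by
      rw [SLC.Root.neg_val, C.eps_neg_left]
    have h7 : C.eps α.1 γ.1 = - C.eps α.1 β.1 := by
      rw [hγ, C.eps_sub_right, C.eps_self]
      ring
    have h2 : C.ip β.1 γ.1 = 1 := by
      rw [hγ, C.ip_sub_right, C.ip_comm β.1 α.1, h, β.2]
      norm_num
    rw [hr, hc, h, S1_nn_conj, S1_conj_comm (S.comm α β _ _ (by omega)),
      S.S1_conj_add (-α) β γ _ _ h4, S1_conj_mul, S.S1_conj_add α γ β _ _ h5,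
      S1_conj_comm (S.comm α β _ _ (by omega)), h6, h7]
    have h9 : ((-C.eps α.1 β.1 : ℤ) : K) * t * (C.eps α.1 β.1 * t⁻¹ * u) = -u := by
      have h8 : ((C.eps α.1 β.1 : ℤ) : K) * (C.eps α.1 β.1 : ℤ) = 1 := by
        rw [← Int.cast_mul, C.eps_sq, Int.cast_one]
      push_cast
      field_simp
      linear_combination (-u) * h8
    rw [h9, mul_assoc, S.comm γ β _ _ (by rw [C.ip_comm]; omega), ← mul_assoc, S.x_neg,
      inv_mul_cancel, one_mul]
    congr 1
    norm_num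
  · -- `2`
    have hβ : α = β := (C.ip_eq_two_iff α β).mp h
    have hc : C.cs α β = 1 := by
      unfold SLC.cs
      rw [if_neg (by omega)]
    rw [hc, h]
    subst hβ
    rw [C.refl_self, S.n_conj α t u ht]
    congr 1
    rw [_root_.zpow_neg, Int.cast_one, one_mul, inv_pow]
    norm_cast

end StSys

end Pool.Agent.H75.UL
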