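import Pool.Agent.H75.UL.R4a
import Pool.Agent.H75.UL.S1

/-!
# Project UL (MP_978914_al), module C0

Twisting a Steinberg system by a diagram automorphism, a diagonal automorphism and conjugation.

`π` a permutation of the simple roots preserving the Cartan matrix. `lmap π v = v ∘ π⁻¹` (so
`lmap π (single i) = single (π i)`), `ip (lmap v) (lmap w) = ip v w` (reindex the sums).
`eta`: let `b v w = hf (lmap v) (lmap w) - hf v w`, bilinear, `b v v = 0` (`hf_add_hf` twice, `2 hf v v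
= ip v v`), `b v w + b w v = 0`. Put `q v = ∑_{i<j} v_i v_j b(e_i, e_j)`; then
`q (v + w) ≡ q v + q w + b v w (mod 2)` and `eta v = (-1)^(q v)` satisfies
`eta (v + w) * eps v w = eta v * eta w * eps (lmap v) (lmap w)`, `eta (-v) = eta v`,
`eta (single i) = 1`.
`twist`: `y β t = a * x (rmap β) (eta β * c^β * t) * a⁻¹`, `c^β = ∏ c_i ^ β_i`. Relations:
`comm`: `ip` is preserved. `comm_add`: the formula for `eta` (as `eps = ±1`, `eta = ±1`).
With `d = eta β c^β`, `eta (-β) c^(-β) = d⁻¹` (as `eta = ±1`): `nn y β t = a * nn x (rmap β) (d t) *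
a⁻¹`, so `n_conj` follows, and `hh y β t = a * (nn x β' (d t) * nn x β' (-d)) * a⁻¹ =
a * hh x β' (d t) * (hh x β' d)⁻¹ * a⁻¹ = a * hh x β' t * a⁻¹` (`nn_inv`, `h_mul`).
-/

set_option autoImplicit false
open Matrix
universe u
namespace Pool.Agent.H75.UL

namespace SLC
variable {n : ℕ} (C : SLC n)

/-- The lattice automorphism given by a permutation of the simple roots. -/
def lmap (π : Equiv.Perm (Fin n)) (v : Fin n → ℤ) : Fin n → ℤ := fun i => v (π.symm i)

theorem lmap_single (π : Equiv.Perm (Fin n)) (i : Fin n) :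
    lmap π (Pi.single i 1) = Pi.single (π i) 1 := by
  funext k
  unfold lmap
  by_cases h : k = π i
  · subst h
    simp
  · have h1 : π.symm k ≠ i := fun h2 => h (by rw [← h2, Equiv.apply_symm_apply])
    rw [Pi.single_eq_of_ne h1, Pi.single_eq_of_ne h]

theorem lmap_add (π : Equiv.Perm (Fin n)) (v w : Fin n → ℤ) :
    lmap π (v + w) = lmap π v + lmap π w := rfl

theorem lmap_neg (π : Equiv.Perm (Fin n)) (v : Fin n → ℤ) : lmap π (-v) = - lmap π v := rfl

theorem ip_lmap (π : Equiv.Perm (Fin n)) (hπ : ∀ i j, C.A (π i) (π j) = C.A i j)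
    (v w : Fin n → ℤ) : C.ip (lmap π v) (lmap π w) = C.ip v w := by
  unfold ip lmap
  simp only [dotProduct, mulVec]
  rw [← Equiv.sum_comp π]
  refine Finset.sum_congr rfl fun i _ => ?_
  rw [← Equiv.sum_comp π]
  simp only [Equiv.symm_apply_apply, hπ]

/-- The action of a diagram automorphism on the roots. -/
def rmap (π : Equiv.Perm (Fin n)) (hπ : ∀ i j, C.A (π i) (π j) = C.A i j) (β : C.Root) : C.Root :=
  ⟨lmap π β.1, by rw [ip_lmap C π hπ, β.2]⟩

/-- The exponent of the sign `eta`. -/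
def qq (π : Equiv.Perm (Fin n)) (v : Fin n → ℤ) : ℤ :=
  ∑ i, ∑ j, if i < j then v i * v j * (C.hm (π i) (π j) - C.hm i j) else 0

/-- The sign of a diagram automorphism on root vectors. -/
def eta (π : Equiv.Perm (Fin n)) (v : Fin n → ℤ) : ℤ := ((C.qq π v).negOnePow : ℤˣ)

private theorem C0_split (f : Fin n → Fin n → ℤ) :
    ∑ i, ∑ j, f i j = (∑ i, ∑ j, if i < j then f i j + f j i else 0) + ∑ i, f i i := by
  have h1 : ∀ i j, f i j = (if i < j then f i j else 0) + (if j < i then f i j else 0) +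
      (if i = j then f i j else 0) := by
    intro i j
    rcases lt_trichotomy i j with h | h | h
    · simp [h, h.not_gt, h.ne]
    · subst h
      simp
    · simp [h, h.not_gt, h.ne']
  have h2 : ∀ i j, (if i < j then f i j + f j i else 0) =
      (if i < j then f i j else 0) + (if i < j then f j i else 0) := by
    intro i j
    split_ifs <;> simp
  have h3 : ∑ i, ∑ j, (if j < i then f i j else 0) = ∑ i, ∑ j, (if i < j then f j i else 0) :=
    Finset.sum_comm
  calc ∑ i, ∑ j, f i j = ∑ i, ∑ j, ((if i < j then f i j else 0) + (if j < i then f i j else 0) +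
      (if i = j then f i j else 0)) :=
        Finset.sum_congr rfl fun i _ => Finset.sum_congr rfl fun j _ => h1 i j
    _ = _ := by
      simp only [Finset.sum_add_distrib, h2]
      rw [h3]
      simp

private theorem C0_hm (i j : Fin n) : C.hm i j + C.hm j i = C.A i j := by
  have h := congrFun (congrFun C.hm_add_transpose i) j
  simpa using h

private theorem C0_hf (π : Equiv.Perm (Fin n)) (v w : Fin n → ℤ) :
    C.hf (lmap π v) (lmap π w) = ∑ i, ∑ j, v i * w j * C.hm (π i) (π j) := by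
  unfold hf lmap
  simp only [dotProduct, mulVec]
  rw [← Equiv.sum_comp π]
  refine Finset.sum_congr rfl fun i _ => ?_
  rw [← Equiv.sum_comp π, Finset.mul_sum]
  refine Finset.sum_congr rfl fun j _ => ?_
  simp only [Equiv.symm_apply_apply]
  ring

private theorem C0_hf' (v w : Fin n → ℤ) :
    C.hf v w = ∑ i, ∑ j, v i * w j * C.hm i j := by
  unfold hf
  simp only [dotProduct, mulVec]
  refine Finset.sum_congr rfl fun i _ => ?_
  rw [Finset.mul_sum]
  refine Finset.sum_congr rfl fun j _ => ?_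
  ring

private theorem C0_key (π : Equiv.Perm (Fin n)) (hπ : ∀ i j, C.A (π i) (π j) = C.A i j)
    (v w : Fin n → ℤ) : C.qq π (v + w) + C.hf v w =
      C.qq π v + C.qq π w + C.hf (lmap π v) (lmap π w) + 2 * ∑ i, ∑ j,
        if i < j then w i * v j * (C.hm (π i) (π j) - C.hm i j) else 0 := by
  have hb : C.hf (lmap π v) (lmap π w) - C.hf v w =
      ∑ i, ∑ j, v i * w j * (C.hm (π i) (π j) - C.hm i j) := by
    rw [C0_hf, C0_hf', ← Finset.sum_sub_distrib]
    refine Finset.sum_congr rfl fun i _ => ?_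
    rw [← Finset.sum_sub_distrib]
    exact Finset.sum_congr rfl fun j _ => by ring
  rw [C0_split] at hb
  have hD : ∀ i, C.hm (π i) (π i) - C.hm i i = 0 := by
    intro i
    have h1 := C.C0_hm (π i) (π i)
    have h2 := C.C0_hm i i
    have h3 := hπ i i
    omega
  have hz : ∑ i, v i * w i * (C.hm (π i) (π i) - C.hm i i) = 0 :=
    Finset.sum_eq_zero fun i _ => by rw [hD, mul_zero]
  rw [hz, add_zero] at hb
  have hq : C.qq π (v + w) = C.qq π v + C.qq π w +
      (∑ i, ∑ j, if i < j then v i * w j * (C.hm (π i) (π j) - C.hm i j) +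
        v j * w i * (C.hm (π j) (π i) - C.hm j i) else 0) + 2 * ∑ i, ∑ j,
        if i < j then w i * v j * (C.hm (π i) (π j) - C.hm i j) else 0 := by
    unfold qq
    rw [Finset.mul_sum, ← Finset.sum_add_distrib, ← Finset.sum_add_distrib,
      ← Finset.sum_add_distrib]
    refine Finset.sum_congr rfl fun i _ => ?_
    rw [Finset.mul_sum, ← Finset.sum_add_distrib, ← Finset.sum_add_distrib,
      ← Finset.sum_add_distrib]
    refine Finset.sum_congr rfl fun j _ => ?_
    have h1 := C.C0_hm (π i) (π j)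
    have h2 := C.C0_hm i j
    have h3 := hπ i j
    have h4 : C.hm (π j) (π i) - C.hm j i = -(C.hm (π i) (π j) - C.hm i j) := by omega
    rw [h4]
    split_ifs
    · simp only [Pi.add_apply]
      ring
    · ring
  rw [hq, ← hb]
  ring

theorem eta_add (π : Equiv.Perm (Fin n)) (hπ : ∀ i j, C.A (π i) (π j) = C.A i j)
    (v w : Fin n → ℤ) : C.eta π (v + w) * C.eps v w =
      C.eta π v * C.eta π w * C.eps (lmap π v) (lmap π w) := by
  unfold eta eps
  rw [← Units.val_mul, ← Int.negOnePow_add, C.C0_key π hπ v w, ← Units.val_mul, ← Units.val_mul,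
    ← Int.negOnePow_add, ← Int.negOnePow_add, Int.negOnePow_add _ (2 * _),
    Int.negOnePow_even (2 * _) (even_two_mul _), mul_one]

theorem eta_neg (π : Equiv.Perm (Fin n)) (v : Fin n → ℤ) : C.eta π (-v) = C.eta π v := by
  unfold eta qq
  congr 2
  refine Finset.sum_congr rfl fun i _ => Finset.sum_congr rfl fun j _ => ?_
  simp only [Pi.neg_apply, neg_mul_neg]

theorem eta_single (π : Equiv.Perm (Fin n)) (i : Fin n) : C.eta π (Pi.single i 1) = 1 := by
  have h : C.qq π (Pi.single i 1) = 0 := by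
    unfold qq
    refine Finset.sum_eq_zero fun k _ => Finset.sum_eq_zero fun l _ => ?_
    split_ifs with hkl
    · by_cases h1 : k = i
      · have h2 : l ≠ i := fun h3 => hkl.ne (h1.trans h3.symm)
        rw [Pi.single_eq_of_ne h2]
        ring
      · rw [Pi.single_eq_of_ne h1]
        ring
    · rfl
  unfold eta
  rw [h]
  simp

theorem eta_sq (π : Equiv.Perm (Fin n)) (v : Fin n → ℤ) : C.eta π v * C.eta π v = 1 := by
  unfold eta
  rcases Int.units_eq_one_or (C.qq π v).negOnePow with h | h <;> simp [h]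

private theorem C0_eta_ne (π : Equiv.Perm (Fin n)) (v : Fin n → ℤ) (K : Type*) [Field K] :
    ((C.eta π v : ℤ) : K) * ((C.eta π v : ℤ) : K) = 1 := by
  rw [← Int.cast_mul, eta_sq, Int.cast_one]

private theorem C0_rmap_neg (π : Equiv.Perm (Fin n)) (hπ : ∀ i j, C.A (π i) (π j) = C.A i j)
    (β : C.Root) : C.rmap π hπ (-β) = -C.rmap π hπ β := rfl

private theorem C0_rmap_simple (π : Equiv.Perm (Fin n)) (hπ : ∀ i j, C.A (π i) (π j) = C.A i j)
    (i : Fin n) : C.rmap π hπ (C.simple i) = C.simple (π i) := by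
  apply Root.ext
  exact lmap_single π i

private theorem C0_rmap_surj (π : Equiv.Perm (Fin n)) (hπ : ∀ i j, C.A (π i) (π j) = C.A i j)
    (γ : C.Root) : ∃ β : C.Root, C.rmap π hπ β = γ := by
  have hπ' : ∀ i j, C.A (π.symm i) (π.symm j) = C.A i j := by
    intro i j
    rw [← hπ, Equiv.apply_symm_apply, Equiv.apply_symm_apply]
  refine ⟨C.rmap π.symm hπ' γ, ?_⟩
  apply Root.ext
  funext i
  change γ.1 (π.symm.symm (π.symm i)) = γ.1 i
  rw [Equiv.symm_symm, Equiv.apply_symm_apply]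

end SLC

namespace StSys
variable {n : ℕ} {C : SLC n} {K : Type*} [Field K] {H : Type*} [Group H] (S : StSys C K H)

/-- The twisted family. -/
def twx (a : H) (π : Equiv.Perm (Fin n)) (hπ : ∀ i j, C.A (π i) (π j) = C.A i j) (c : Fin n → K)
    (β : C.Root) (t : K) : H :=
  a * S.x (C.rmap π hπ β) ((C.eta π β.1 : K) * (∏ i, c i ^ β.1 i) * t) * a⁻¹

/-- The scalar of the twist. -/
private def C0_d (C : SLC n) (π : Equiv.Perm (Fin n)) (c : Fin n → K) (v : Fin n → ℤ) : K :=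
  (C.eta π v : K) * (∏ i, c i ^ v i)

private theorem C0_twx (a : H) (π : Equiv.Perm (Fin n)) (hπ : ∀ i j, C.A (π i) (π j) = C.A i j)
    (c : Fin n → K) (β : C.Root) (t : K) :
    S.twx a π hπ c β t = a * S.x (C.rmap π hπ β) (C0_d C π c β.1 * t) * a⁻¹ := rfl

private theorem C0_prod_ne (c : Fin n → K) (hc : ∀ i, c i ≠ 0) (v : Fin n → ℤ) :
    ∏ i, c i ^ v i ≠ 0 := Finset.prod_ne_zero_iff.mpr fun i _ => zpow_ne_zero _ (hc i)

private theorem C0_d_ne (π : Equiv.Perm (Fin n)) (c : Fin n → K) (hc : ∀ i, c i ≠ 0)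
    (v : Fin n → ℤ) : C0_d C π c v ≠ 0 := by
  have h1 := C.C0_eta_ne π v K
  exact mul_ne_zero (left_ne_zero_of_mul_eq_one h1) (C0_prod_ne c hc v)

private theorem C0_d_neg (π : Equiv.Perm (Fin n)) (c : Fin n → K) (v : Fin n → ℤ) :
    C0_d C π c (-v) = (C0_d C π c v)⁻¹ := by
  unfold C0_d
  have h1 := C.C0_eta_ne π v K
  rw [C.eta_neg, mul_inv, inv_eq_of_mul_eq_one_left h1, ← Finset.prod_inv_distrib]
  congr 1
  refine Finset.prod_congr rfl fun i _ => ?_
  rw [Pi.neg_apply, _root_.zpow_neg]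

private theorem C0_d_add (π : Equiv.Perm (Fin n)) (hπ : ∀ i j, C.A (π i) (π j) = C.A i j)
    (c : Fin n → K) (hc : ∀ i, c i ≠ 0) (v w : Fin n → ℤ) :
    C0_d C π c (v + w) * (C.eps v w : K) =
      C0_d C π c v * C0_d C π c w * (C.eps (SLC.lmap π v) (SLC.lmap π w) : K) := by
  unfold C0_d
  have h1 := congrArg (Int.cast : ℤ → K) (C.eta_add π hπ v w)
  push_cast at h1
  have h2 : ∏ i, c i ^ (v + w) i = (∏ i, c i ^ v i) * ∏ i, c i ^ w i := by
    rw [← Finset.prod_mul_distrib]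
    refine Finset.prod_congr rfl fun i _ => ?_
    rw [Pi.add_apply, zpow_add₀ (hc i)]
  rw [h2]
  linear_combination ((∏ i, c i ^ v i) * ∏ i, c i ^ w i) * h1

private theorem C0_nn (a : H) (π : Equiv.Perm (Fin n)) (hπ : ∀ i j, C.A (π i) (π j) = C.A i j)
    (c : Fin n → K) (α : C.Root) (t : K) :
    nn (S.twx a π hπ c) α t = a * nn S.x (C.rmap π hπ α) (C0_d C π c α.1 * t) * a⁻¹ := by
  unfold nn
  rw [C0_twx, C0_twx, C.C0_rmap_neg, SLC.Root.neg_val, C0_d_neg, ← mul_inv]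
  group

private theorem C0_hh (a : H) (π : Equiv.Perm (Fin n)) (hπ : ∀ i j, C.A (π i) (π j) = C.A i j)
    (c : Fin n → K) (hc : ∀ i, c i ≠ 0) (α : C.Root) (t : K) (ht : t ≠ 0) :
    hh (S.twx a π hπ c) α t = a * hh S.x (C.rmap π hπ α) t * a⁻¹ := by
  have hd := C0_d_ne (C := C) π c hc α.1
  have h1 := S.h_mul (C.rmap π hπ α) t (C0_d C π c α.1) ht hd
  have h2 : hh S.x (C.rmap π hπ α) t =
      nn S.x (C.rmap π hπ α) (C0_d C π c α.1 * t) * nn S.x (C.rmap π hπ α) (-C0_d C π c α.1) := by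
    rw [← S.nn_inv]
    rw [mul_comm t] at h1
    unfold hh at h1 ⊢
    rw [eq_mul_inv_iff_mul_eq]
    rw [← mul_assoc] at h1
    exact mul_right_cancel h1
  rw [h2]
  unfold hh
  rw [C0_nn, C0_nn, mul_neg_one]
  group

theorem twx_map_add (a : H) (π : Equiv.Perm (Fin n)) (hπ : ∀ i j, C.A (π i) (π j) = C.A i j)
    (c : Fin n → K) (β : C.Root) (s t : K) :
    S.twx a π hπ c β (s + t) = S.twx a π hπ c β s * S.twx a π hπ c β t := by
  rw [C0_twx, C0_twx, C0_twx, mul_add, S.map_add]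
  group

theorem twx_comm (a : H) (π : Equiv.Perm (Fin n)) (hπ : ∀ i j, C.A (π i) (π j) = C.A i j)
    (c : Fin n → K) (α β : C.Root) (s t : K) (h : 0 ≤ C.ip α.1 β.1) :
    S.twx a π hπ c α s * S.twx a π hπ c β t = S.twx a π hπ c β t * S.twx a π hπ c α s := by
  rw [C0_twx, C0_twx]
  have h1 : 0 ≤ C.ip (C.rmap π hπ α).1 (C.rmap π hπ β).1 := by
    change 0 ≤ C.ip (SLC.lmap π α.1) (SLC.lmap π β.1)
    rw [C.ip_lmap π hπ]
    exact h
  have h2 := S.comm (C.rmap π hπ α) (C.rmap π hπ β) (C0_d C π c α.1 * s) (C0_d C π c β.1 * t) h1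
  calc a * S.x (C.rmap π hπ α) (C0_d C π c α.1 * s) * a⁻¹ *
      (a * S.x (C.rmap π hπ β) (C0_d C π c β.1 * t) * a⁻¹) =
      a * (S.x (C.rmap π hπ α) (C0_d C π c α.1 * s) *
        S.x (C.rmap π hπ β) (C0_d C π c β.1 * t)) * a⁻¹ := by group
    _ = a * (S.x (C.rmap π hπ β) (C0_d C π c β.1 * t) *
        S.x (C.rmap π hπ α) (C0_d C π c α.1 * s)) * a⁻¹ := by rw [h2]
    _ = _ := by group

theorem twx_comm_add (a : H) (π : Equiv.Perm (Fin n)) (hπ : ∀ i j, C.A (π i) (π j) = C.A i j)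
    (c : Fin n → K) (hc : ∀ i, c i ≠ 0) (α β γ : C.Root) (s t : K) (h : γ.1 = α.1 + β.1) :
    S.twx a π hπ c α s * S.twx a π hπ c β t * (S.twx a π hπ c α s)⁻¹ * (S.twx a π hπ c β t)⁻¹ =
      S.twx a π hπ c γ (C.eps α.1 β.1 * s * t) := by
  rw [C0_twx, C0_twx, C0_twx]
  have h1 : (C.rmap π hπ γ).1 = (C.rmap π hπ α).1 + (C.rmap π hπ β).1 := by
    change SLC.lmap π γ.1 = SLC.lmap π α.1 + SLC.lmap π β.1
    rw [h]
    rfl
  have h2 := S.comm_add (C.rmap π hπ α) (C.rmap π hπ β) (C.rmap π hπ γ) (C0_d C π c α.1 * s)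
    (C0_d C π c β.1 * t) h1
  have h3 : (C.eps (C.rmap π hπ α).1 (C.rmap π hπ β).1 : K) * (C0_d C π c α.1 * s) *
      (C0_d C π c β.1 * t) = C0_d C π c γ.1 * (C.eps α.1 β.1 * s * t) := by
    have h4 := C0_d_add (C := C) π hπ c hc α.1 β.1
    rw [← h] at h4
    change (C.eps (SLC.lmap π α.1) (SLC.lmap π β.1) : K) * (C0_d C π c α.1 * s) *
      (C0_d C π c β.1 * t) = C0_d C π c γ.1 * (C.eps α.1 β.1 * s * t)
    linear_combination (-(s * t)) * h4
  rw [h3] at h2
  rw [← h2]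
  group

theorem twx_n_conj (a : H) (π : Equiv.Perm (Fin n)) (hπ : ∀ i j, C.A (π i) (π j) = C.A i j)
    (c : Fin n → K) (hc : ∀ i, c i ≠ 0) (α : C.Root) (t u : K) (ht : t ≠ 0) :
    nn (S.twx a π hπ c) α t * S.twx a π hπ c α u * (nn (S.twx a π hπ c) α t)⁻¹ =
      S.twx a π hπ c (-α) (t⁻¹ ^ 2 * u) := by
  have hd := C0_d_ne (C := C) π c hc α.1
  rw [C0_nn, C0_twx, C0_twx, C.C0_rmap_neg, SLC.Root.neg_val, C0_d_neg]
  have h1 := S.n_conj (C.rmap π hπ α) (C0_d C π c α.1 * t) (C0_d C π c α.1 * u)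
    (mul_ne_zero hd ht)
  have h2 : (C0_d C π c α.1 * t)⁻¹ ^ 2 * (C0_d C π c α.1 * u) =
      (C0_d C π c α.1)⁻¹ * (t⁻¹ ^ 2 * u) := by
    field_simp
  rw [h2] at h1
  rw [← h1]
  group

theorem twx_h_mul (a : H) (π : Equiv.Perm (Fin n)) (hπ : ∀ i j, C.A (π i) (π j) = C.A i j)
    (c : Fin n → K) (hc : ∀ i, c i ≠ 0) (α : C.Root) (s t : K) (hs : s ≠ 0) (ht : t ≠ 0) :
    hh (S.twx a π hπ c) α s * hh (S.twx a π hπ c) α t = hh (S.twx a π hπ c) α (s * t) := by
  rw [S.C0_hh a π hπ c hc α s hs, S.C0_hh a π hπ c hc α t ht,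
    S.C0_hh a π hπ c hc α (s * t) (mul_ne_zero hs ht), ← S.h_mul _ s t hs ht]
  group

/-- The twisted Steinberg system. -/
def twist (a : H) (π : Equiv.Perm (Fin n)) (hπ : ∀ i j, C.A (π i) (π j) = C.A i j) (c : Fin n → K)
    (hc : ∀ i, c i ≠ 0) : StSys C K H where
  x := S.twx a π hπ c
  map_add := S.twx_map_add a π hπ c
  comm := S.twx_comm a π hπ c
  comm_add := S.twx_comm_add a π hπ c hc
  n_conj := S.twx_n_conj a π hπ c hc
  h_mul := S.twx_h_mul a π hπ c hc

theorem twist_x (a : H) (π : Equiv.Perm (Fin n)) (hπ : ∀ i j, C.A (π i) (π j) = C.A i j)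
    (c : Fin n → K) (hc : ∀ i, c i ≠ 0) (β : C.Root) (t : K) :
    (S.twist a π hπ c hc).x β t =
      a * S.x (C.rmap π hπ β) ((C.eta π β.1 : K) * (∏ i, c i ^ β.1 i) * t) * a⁻¹ := rfl

theorem twist_simple (a : H) (π : Equiv.Perm (Fin n)) (hπ : ∀ i j, C.A (π i) (π j) = C.A i j)
    (c : Fin n → K) (hc : ∀ i, c i ≠ 0) (i : Fin n) (t : K) :
    (S.twist a π hπ c hc).x (C.simple i) t = a * S.x (C.simple (π i)) (c i * t) * a⁻¹ := by
  rw [twist_x, C.C0_rmap_simple, SLC.simple_val, C.eta_single, Int.cast_one, one_mul]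
  have h : ∏ j, c j ^ (Pi.single i 1 : Fin n → ℤ) j = c i := by
    rw [Finset.prod_eq_single i]
    · simp
    · intro j _ hj
      rw [Pi.single_eq_of_ne hj, zpow_zero]
    · intro h
      exact absurd (Finset.mem_univ i) h
  rw [h]

theorem twist_neg_simple (a : H) (π : Equiv.Perm (Fin n)) (hπ : ∀ i j, C.A (π i) (π j) = C.A i j)
    (c : Fin n → K) (hc : ∀ i, c i ≠ 0) (i : Fin n) (t : K) :
    (S.twist a π hπ c hc).x (-(C.simple i)) t =
      a * S.x (-(C.simple (π i))) ((c i)⁻¹ * t) * a⁻¹ := by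
  rw [twist_x, C.C0_rmap_neg, C.C0_rmap_simple, SLC.Root.neg_val, SLC.simple_val, C.eta_neg,
    C.eta_single, Int.cast_one, one_mul]
  have h : ∏ j, c j ^ (-(Pi.single i 1 : Fin n → ℤ)) j = (c i)⁻¹ := by
    rw [Finset.prod_eq_single i]
    · simp
    · intro j _ hj
      rw [Pi.neg_apply, Pi.single_eq_of_ne hj, neg_zero, zpow_zero]
    · intro h
      exact absurd (Finset.mem_univ i) h
  rw [h]

theorem twist_gen (a : H) (ha : a ∈ S.gen) (π : Equiv.Perm (Fin n))
    (hπ : ∀ i j, C.A (π i) (π j) = C.A i j) (c : Fin n → K) (hc : ∀ i, c i ≠ 0) :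
    (S.twist a π hπ c hc).gen = S.gen := by
  have hx : ∀ β t, S.x β t ∈ S.gen := fun β t => Subgroup.subset_closure ⟨β, t, rfl⟩
  apply le_antisymm
  · refine (Subgroup.closure_le _).mpr ?_
    rintro g ⟨β, t, rfl⟩
    rw [twist_x]
    exact S.gen.mul_mem (S.gen.mul_mem ha (hx _ _)) (S.gen.inv_mem ha)
  · have h1 : ∀ g ∈ S.gen, a * g * a⁻¹ ∈ (S.twist a π hπ c hc).gen := by
      intro g hg
      refine Subgroup.closure_induction (p := fun g _ => a * g * a⁻¹ ∈ (S.twist a π hπ c hc).gen)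
        ?_ ?_ ?_ ?_ hg
      · rintro g ⟨γ, t, rfl⟩
        obtain ⟨β, hβ⟩ := C.C0_rmap_surj π hπ γ
        have hd := C0_d_ne (C := C) π c hc β.1
        have h2 : (S.twist a π hπ c hc).x β ((C0_d C π c β.1)⁻¹ * t) = a * S.x γ t * a⁻¹ := by
          change S.twx a π hπ c β ((C0_d C π c β.1)⁻¹ * t) = a * S.x γ t * a⁻¹
          rw [C0_twx, hβ, mul_inv_cancel_left₀ hd]
        rw [← h2]
        exact Subgroup.subset_closure ⟨β, _, rfl⟩
      · rw [mul_one, mul_inv_cancel]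
        exact Subgroup.one_mem _
      · intro g h _ _ hg hh
        have e : a * (g * h) * a⁻¹ = a * g * a⁻¹ * (a * h * a⁻¹) := by group
        rw [e]
        exact Subgroup.mul_mem _ hg hh
      · intro g _ hg
        have e : a * g⁻¹ * a⁻¹ = (a * g * a⁻¹)⁻¹ := by group
        rw [e]
        exact Subgroup.inv_mem _ hg
    intro g hg
    have h2 := h1 (a⁻¹ * g * a) (S.gen.mul_mem (S.gen.mul_mem (S.gen.inv_mem ha) hg) ha)
    have e : a * (a⁻¹ * g * a) * a⁻¹ = g := by group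
    rwa [e] at h2

end StSys

end Pool.Agent.H75.UL
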