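import Pool.Agent.H86.UL.P2

/-!
# Project UL (MP_978914_al), module P2

Coordinates (from helper86's module).
-/

set_option autoImplicit false
open Matrix
universe u
namespace Pool.Agent.H75.UL

namespace SLC
variable {n : ℕ} (C : SLC n)

theorem coords (hn : 2 ≤ n) (θ : C.Root) (hθ : C.IsHighest θ) {k : Type*} [Field k] [Infinite k]
    {H : Type*} [Group H] (S : StSys C k H) (F : Type*) [Field F]
    (Ψ : H →* GL C.Idx F) (hΨ : ∀ β t, Ψ (S.x β t) ∈ C.Gad F) (hne : Ψ (S.x θ 1) ≠ 1)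
    (hU : ∀ u ∈ S.U 1, Ψ u ∈ (C.adS F).U 1)
    (hT : ∀ h ∈ S.T, C.Fil 0 (Ψ h : Matrix C.Idx C.Idx F)) :
    ∃ (π : Equiv.Perm (Fin n)) (φ : k →+* F) (c : Fin n → F), (∀ i, c i ≠ 0) ∧
      (∀ i j, C.A (π i) (π j) = C.A i j) ∧
      (∀ i t j, C.xi j (Ψ (S.x (C.simple i) t) : Matrix C.Idx C.Idx F) =
        if j = π i then c i * φ t else 0) ∧
      ∀ v t, t ≠ 0 → ∀ i, C.chi (Ψ (S.tor v t) : Matrix C.Idx C.Idx F) (C.simple (π i)) =
        φ t ^ (C.ip (Pi.single i 1) v) :=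
  C.coords' hn θ hθ S F Ψ hΨ hne hU hT

end SLC

end Pool.Agent.H75.UL
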