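import Pool.Agent.H75.UL.P3a
import Pool.Agent.H75.UL.T9

/-!
# Project UL (MP_978914_al), module P5a

Standard form on the simple root groups and their negatives.

Hypotheses: `Ψ` maps `S.U 1` into `U 1` and `S.T` into `T`, with the data of `coords`.
`image_simple`: `v, t` from `exists_semiregular`; `τ = Ψ (tor v t)`; `tor v t` commutes with
`S.x α_i s` (`tor_conj`, exponent `ip v α_i = 0`), so `Ψ (S.x α_i s) ∈ U 1` commutes with `τ`, and
`centralizer_U_single` with `β₀ = simple (π i)` gives `Ψ (S.x α_i s) = xg (simple (π i)) s'`; `xi`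
gives `s' = c i * φ s` (`xi_xg`, `hxi`).
`image_neg`: `ν₀ = nn S.x α_i 1`, `g = Ψ ν₀ ∈ Gad`; `τ₀ = Ψ h₀` strongly regular (`exists_regular`);
`g⁻¹ τ₀ g = Ψ (ν₀⁻¹ h₀ ν₀) ∈ T` (`N_conj_T` for `ν₀⁻¹`, hence `Fil 0`), so `g = ν u`
(`torus_chamber`). `S.x (-α_i) s = ν₀ * S.x α_i s * ν₀⁻¹` (`n_conj` with `t = 1`), so
`Ψ (S.x (-α_i) s) = ν y ν⁻¹` with `y = u xg(α_{πi})(c_i φ s) u⁻¹ ∈ U 1`. `τ = Ψ (tor v t)` from
`exists_semiregular` commutes with it, so `y` commutes with `τ' = ν⁻¹ τ ν ∈ T`, and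
`chi τ' γ = chi τ (w γ)` (`Acts ν w`, `T_fix`, `xg_inj`). Exactly one of `w⁻¹ (±α_{πi})` is
positive, call it `γ₀`; for positive `γ ≠ γ₀`, `w γ ≠ ±α_{πi}`, so `chi τ' γ ≠ 1`:
`y = xg γ₀ s'` and `Ψ (S.x (-α_i) s) ∈ xg (w γ₀) K` with `w γ₀ = ±α_{πi}`, the sign not depending on
`s`. The sign is `-`: otherwise `Ψ (S.x (-α_i) s)` and `Ψ (S.x α_i s)` all commute, so
`Ψ (S.x (-α_i) s) = Ψ ν₀ Ψ(S.x α_i s) (Ψ ν₀)⁻¹ = Ψ (S.x α_i s)`; conjugating with
`Ψ (tor v₁ t)`, `ip α_i v₁ = 2` (`v₁ = single i`; or `hh S.x α_i t`), the left side gets the argument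
`t^{-2} s`, the right side `t^2 s`: `φ (t^{-2} s) = φ (t^2 s)`, so `t^4 = 1` for all `t ≠ 0`,
impossible for infinite `k`.
-/

set_option autoImplicit false
open Matrix
universe u
namespace Pool.Agent.H75.UL

namespace SLC
variable {n : ℕ} (C : SLC n) {K : Type*} [Field K]

private theorem P5a_neg_simple_not_pos (j : Fin n) : ¬ C.Pos (-(C.simple j)) := by
  unfold Pos
  rw [Root.neg_val, ht_neg, ht_simple]
  norm_num

private theorem P5a_neg_neg (β : C.Root) : -(-β) = β := by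
  apply Root.ext
  rw [Root.neg_val, Root.neg_val, neg_neg]

private theorem P5a_x_mem {k : Type*} [Field k] {H : Type*} [Group H]
    (S : StSys C k H) (i : Fin n) (s : k) : S.x (C.simple i) s ∈ S.U 1 :=
  Subgroup.subset_closure ⟨C.simple i, s, (C.ht_simple i).ge, rfl⟩

private theorem P5a_comm {k : Type*} [Field k] {H : Type*} [Group H]
    (S : StSys C k H) (v : Fin n → ℤ) (t : k) (ht : t ≠ 0) (β : C.Root)
    (h : C.ip v β.1 = 0) (s : k) : S.tor v t * S.x β s = S.x β s * S.tor v t := by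
  have h1 := S.tor_conj v t ht β s
  rw [h, zpow_zero, one_mul, mul_inv_eq_iff_eq_mul] at h1
  exact h1

private theorem P5a_chi_N (τ ν : GL C.Idx K) (hτ : τ ∈ (C.adS K).T) (w : Equiv.Perm C.Root)
    (hν : ν ∈ (C.adS K).N) (hw : (C.adS K).Acts ν w) (γ : C.Root) :
    C.chi ((ν⁻¹ * τ * ν : GL C.Idx K) : Matrix C.Idx C.Idx K) γ =
      C.chi (τ : Matrix C.Idx C.Idx K) (w γ) := by
  have hτ' : ν⁻¹ * τ * ν ∈ (C.adS K).T := by
    have h1 := (C.adS K).N_conj_T ν⁻¹ τ (inv_mem hν) hτ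
    rwa [inv_inv] at h1
  obtain ⟨c, hc0, hc⟩ := hw
  obtain ⟨h1, h2⟩ := C.T_fix (ν⁻¹ * τ * ν) hτ' γ 1
  obtain ⟨h3, h4⟩ := C.T_fix τ hτ (w γ) (c γ * 1)
  rw [mul_one] at h2
  have h5 := hc γ 1
  have h6 := hc γ (C.chi ((ν⁻¹ * τ * ν : GL C.Idx K) : Matrix C.Idx C.Idx K) γ)
  rw [adS_x] at h5 h6
  rw [← h2] at h6
  have h7 : ν * (ν⁻¹ * τ * ν * C.xg K γ 1 * (ν⁻¹ * τ * ν)⁻¹) * ν⁻¹
      = τ * (ν * C.xg K γ 1 * ν⁻¹) * τ⁻¹ := by group
  rw [h7, h5, h4] at h6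
  have h8 := (C.xg_inj _ _ _ _ (mul_ne_zero h3 (mul_ne_zero (hc0 γ) one_ne_zero)) h6).2
  rw [mul_one] at h8
  have h9 : c γ * C.chi ((ν⁻¹ * τ * ν : GL C.Idx K) : Matrix C.Idx C.Idx K) γ
      = c γ * C.chi (τ : Matrix C.Idx C.Idx K) (w γ) := by
    rw [← h8, mul_comm]
  exact mul_left_cancel₀ (hc0 γ) h9

theorem image_simple {k : Type*} [Field k] [Infinite k] {H : Type*} [Group H]
    (S : StSys C k H) (Ψ : H →* GL C.Idx K) (hΨ : ∀ β t, Ψ (S.x β t) ∈ C.Gad K)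
    (hU : ∀ u ∈ S.U 1, Ψ u ∈ (C.adS K).U 1) (hT : ∀ h ∈ S.T, Ψ h ∈ (C.adS K).T)
    (π : Equiv.Perm (Fin n)) (φ : k →+* K) (c : Fin n → K) (hc : ∀ i, c i ≠ 0)
    (hxi : ∀ i t j, C.xi j (Ψ (S.x (C.simple i) t) : Matrix C.Idx C.Idx K) =
        if j = π i then c i * φ t else 0)
    (hchi : ∀ v t, t ≠ 0 → ∀ i, C.chi (Ψ (S.tor v t) : Matrix C.Idx C.Idx K) (C.simple (π i)) =
        φ t ^ (C.ip (Pi.single i 1) v)) (i : Fin n) (s : k) :
    Ψ (S.x (C.simple i) s) = C.xg K (C.simple (π i)) (c i * φ s) := by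
  have hT0 : ∀ h ∈ S.T, C.Fil 0 (Ψ h : Matrix C.Idx C.Idx K) := fun h hh => C.Fil_T _ (hT h hh)
  obtain ⟨v, t, ht0, hip, hreg, -, -⟩ := C.exists_semiregular S Ψ hΨ hT0 π φ hchi i
  have hτ : Ψ (S.tor v t) ∈ (C.adS K).T := hT _ (S.tor_mem v t ht0)
  have hcomm : Ψ (S.tor v t) * Ψ (S.x (C.simple i) s) = Ψ (S.x (C.simple i) s) * Ψ (S.tor v t) := by
    rw [← map_mul, P5a_comm C S v t ht0 (C.simple i) hip s, map_mul]
  have hmem := hU _ (P5a_x_mem C S i s)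
  obtain ⟨s', hs'⟩ := C.centralizer_U_single _ _ hτ hmem hcomm (C.simple (π i))
    (C.simple_pos (π i)) (fun β hβ hne => hreg β hne (fun h => by
      rw [h] at hβ
      exact P5a_neg_simple_not_pos C (π i) hβ))
  have h1 := hxi i s (π i)
  rw [if_pos rfl, hs', C.xi_xg (π i) (C.simple (π i)) (C.simple_pos (π i)) s', if_pos rfl] at h1
  rw [hs', h1]

theorem image_neg {k : Type*} [Field k] [Infinite k] {H : Type*} [Group H]
    (S : StSys C k H) (Ψ : H →* GL C.Idx K) (hΨ : ∀ β t, Ψ (S.x β t) ∈ C.Gad K)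
    (hU : ∀ u ∈ S.U 1, Ψ u ∈ (C.adS K).U 1) (hT : ∀ h ∈ S.T, Ψ h ∈ (C.adS K).T)
    (π : Equiv.Perm (Fin n)) (φ : k →+* K) (c : Fin n → K) (hc : ∀ i, c i ≠ 0)
    (hxi : ∀ i t j, C.xi j (Ψ (S.x (C.simple i) t) : Matrix C.Idx C.Idx K) =
        if j = π i then c i * φ t else 0)
    (hchi : ∀ v t, t ≠ 0 → ∀ i, C.chi (Ψ (S.tor v t) : Matrix C.Idx C.Idx K) (C.simple (π i)) =
        φ t ^ (C.ip (Pi.single i 1) v)) (i : Fin n) :
    ∃ f : k → K, ∀ s, Ψ (S.x (-(C.simple i)) s) = C.xg K (-(C.simple (π i))) (f s) := by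
  have hT0 : ∀ h ∈ S.T, C.Fil 0 (Ψ h : Matrix C.Idx C.Idx K) := fun h hh => C.Fil_T _ (hT h hh)
  have himg := C.image_simple S Ψ hΨ hU hT π φ c hc hxi hchi
  -- the element `ν₀`
  have hν₀ : nn S.x (C.simple i) 1 ∈ S.N :=
    Subgroup.subset_closure ⟨C.simple i, 1, one_ne_zero, rfl⟩
  have hg : Ψ (nn S.x (C.simple i) 1) ∈ C.Gad K := by
    unfold nn
    rw [map_mul, map_mul]
    exact mul_mem (mul_mem (hΨ _ _) (hΨ _ _)) (hΨ _ _)
  obtain ⟨v₀, t₀, ht₀, hr1, hr2⟩ := C.exists_regular S Ψ hΨ hT0 π φ hchi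
  have hτ₀ : Ψ (S.tor v₀ t₀) ∈ (C.adS K).T := hT _ (S.tor_mem v₀ t₀ ht₀)
  have hfil : C.Fil 0 (((Ψ (nn S.x (C.simple i) 1))⁻¹ * Ψ (S.tor v₀ t₀) *
      Ψ (nn S.x (C.simple i) 1) : GL C.Idx K) : Matrix C.Idx C.Idx K) := by
    rw [← map_inv, ← map_mul, ← map_mul]
    apply hT0
    have h1 := S.N_conj_T (nn S.x (C.simple i) 1)⁻¹ (S.tor v₀ t₀) (inv_mem hν₀)
      (S.tor_mem v₀ t₀ ht₀)
    rwa [inv_inv] at h1
  obtain ⟨ν, hν, u, hu, hgν⟩ := C.torus_chamber _ _ hτ₀ hr1 hr2 hg hfil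
  obtain ⟨w, hwW, hw, -⟩ := (C.adS K).N_acts ν hν
  -- the negative root elements
  have hneg : ∀ s, S.x (-(C.simple i)) s =
      nn S.x (C.simple i) 1 * S.x (C.simple i) s * (nn S.x (C.simple i) 1)⁻¹ := by
    intro s
    rw [S.n_conj (C.simple i) 1 s one_ne_zero]
    simp
  -- the semiregular element
  obtain ⟨v, t, ht0, hip, hreg, -, -⟩ := C.exists_semiregular S Ψ hΨ hT0 π φ hchi i
  have hτ : Ψ (S.tor v t) ∈ (C.adS K).T := hT _ (S.tor_mem v t ht0)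
  set τ := Ψ (S.tor v t) with hτdef
  have hτ' : ν⁻¹ * τ * ν ∈ (C.adS K).T := by
    have h1 := (C.adS K).N_conj_T ν⁻¹ τ (inv_mem hν) hτ
    rwa [inv_inv] at h1
  have hchi' := P5a_chi_N C τ ν hτ w hν hw
  -- key: a positive root `γ₀` with `w γ₀ = ± α` gives the form of all images
  have key : ∀ γ₀ : C.Root, C.Pos γ₀ →
      (w γ₀ = C.simple (π i) ∨ w γ₀ = -(C.simple (π i))) →
      ∀ s, ∃ r : K, Ψ (S.x (-(C.simple i)) s) = C.xg K (w γ₀) r := by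
    intro γ₀ hγ₀ hw0 s
    set y := u * Ψ (S.x (C.simple i) s) * u⁻¹ with hy
    have hyU : y ∈ (C.adS K).U 1 :=
      mul_mem (mul_mem hu (hU _ (P5a_x_mem C S i s))) (inv_mem hu)
    have himgy : Ψ (S.x (-(C.simple i)) s) = ν * y * ν⁻¹ := by
      rw [hneg s, map_mul, map_mul, map_inv, hgν, hy]
      group
    have hcomm : τ * Ψ (S.x (-(C.simple i)) s) = Ψ (S.x (-(C.simple i)) s) * τ := by
      rw [hτdef, ← map_mul, P5a_comm C S v t ht0 (-(C.simple i)) _ s, map_mul]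
      rw [Root.neg_val, ip_neg_right, hip, neg_zero]
    have hcomm' : ν⁻¹ * τ * ν * y = y * (ν⁻¹ * τ * ν) := by
      rw [himgy] at hcomm
      have h1 : ν⁻¹ * τ * ν * y = ν⁻¹ * (τ * (ν * y * ν⁻¹)) * ν := by group
      rw [h1, hcomm]
      group
    have hw1 : ∀ β, C.Pos β → β ≠ γ₀ →
        C.chi ((ν⁻¹ * τ * ν : GL C.Idx K) : Matrix C.Idx C.Idx K) β ≠ 1 := by
      intro β hβ hne
      rw [hchi']
      have hA : w β ≠ w γ₀ := fun h => hne (w.injective h)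
      have hB : w β ≠ -(w γ₀) := by
        intro h
        rw [← C.W_neg w hwW] at h
        have h1 := w.injective h
        rw [h1] at hβ
        unfold Pos at hβ hγ₀
        rw [Root.neg_val, ht_neg] at hβ
        omega
      rcases hw0 with h0 | h0
      · rw [h0] at hA hB
        exact hreg _ hA hB
      · rw [h0] at hA hB
        rw [P5a_neg_neg] at hB
        exact hreg _ hB hA
    obtain ⟨s', hs'⟩ := C.centralizer_U_single _ _ hτ' hyU hcomm' γ₀ hγ₀ hw1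
    obtain ⟨cc, -, hcc⟩ := hw
    refine ⟨cc γ₀ * s', ?_⟩
    have h2 := hcc γ₀ s'
    rw [adS_x] at h2
    rw [himgy, hs', h2]
  have hwinv : w⁻¹ ∈ C.W := inv_mem hwW
  by_cases hpos : C.Pos (w⁻¹ (C.simple (π i)))
  · -- impossible
    exfalso
    have hw0 : w (w⁻¹ (C.simple (π i))) = C.simple (π i) := by simp
    have key1 := key _ hpos (Or.inl hw0)
    rw [hw0] at key1
    choose f hf using key1
    -- all images commute
    have hcm : ∀ a b : K, C.xg K (C.simple (π i)) a * C.xg K (C.simple (π i)) b =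
        C.xg K (C.simple (π i)) b * C.xg K (C.simple (π i)) a := by
      intro a b
      rw [← C.xg_map_add, ← C.xg_map_add, add_comm]
    have heq : ∀ s, Ψ (S.x (-(C.simple i)) s) = Ψ (S.x (C.simple i) s) := by
      intro s
      have h1 : Ψ (nn S.x (C.simple i) 1) * Ψ (S.x (C.simple i) s) =
          Ψ (S.x (C.simple i) s) * Ψ (nn S.x (C.simple i) 1) := by
        unfold nn
        rw [map_mul, map_mul, himg i 1, himg i s, hf]
        rw [mul_assoc, mul_assoc, hcm _ (c i * φ s), ← mul_assoc (C.xg K (C.simple (π i)) (f _)),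
          hcm (f _) (c i * φ s)]
        simp only [← mul_assoc]
        rw [hcm (c i * φ 1) (c i * φ s)]
      rw [hneg s, map_mul, map_mul, map_inv, h1, mul_inv_cancel_right]
    obtain ⟨t, ht0, ht1⟩ := exists_pow_ne_one (k := k) {4} (by simp)
    have h4 := ht1 4 (by simp)
    have e1 := S.tor_conj (Pi.single i 1) t ht0 (C.simple i) 1
    have e2 := S.tor_conj (Pi.single i 1) t ht0 (-(C.simple i)) 1
    have hipp : C.ip (Pi.single i 1) (C.simple i).1 = 2 := (C.simple i).2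
    rw [hipp, mul_one] at e1
    rw [Root.neg_val, ip_neg_right, hipp, mul_one] at e2
    have e3 : Ψ (S.x (C.simple i) (t ^ (2 : ℤ))) = Ψ (S.x (-(C.simple i)) (t ^ (-2 : ℤ))) := by
      rw [← e1, ← e2, map_mul, map_mul, map_mul, map_mul, heq 1]
    rw [heq, himg, himg] at e3
    have h5 : c i * φ (t ^ (2 : ℤ)) ≠ 0 :=
      mul_ne_zero (hc i) (by
        rw [Ne, map_eq_zero]
        exact zpow_ne_zero 2 ht0)
    have h6 := (C.xg_inj _ _ _ _ h5 e3).2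
    have h7 := φ.injective (mul_left_cancel₀ (hc i) h6)
    apply h4
    have h8 : t ^ (4 : ℤ) = t ^ (2 : ℤ) * t ^ (2 : ℤ) := by
      rw [← zpow_add₀ ht0]
      norm_num
    rw [h8]
    nth_rewrite 1 [h7]
    rw [← zpow_add₀ ht0]
    norm_num
  · have hpos' : C.Pos (w⁻¹ (-(C.simple (π i)))) := by
      rw [C.W_neg _ hwinv]
      exact (C.not_pos_iff _).1 hpos
    have hw0 : w (w⁻¹ (-(C.simple (π i)))) = -(C.simple (π i)) := by simp
    have key1 := key _ hpos' (Or.inr hw0)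
    rw [hw0] at key1
    choose f hf using key1
    exact ⟨f, hf⟩

end SLC

end Pool.Agent.H75.UL
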