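import Pool.Agent.H75.UL.T6
import Pool.Agent.H75.UL.R5

/-!
# Project UL (MP_978914_al), module P5b

Rank one computation.

`ab_eq_one`: cancel the last factor in `y * x_α(a) = x_{-α}(b) * y`, `y = x_α(a) x_{-α}(b) x_α(a)`:
`x_α(a) x_{-α}(b) x_α(a) = x_{-α}(b) x_α(a) x_{-α}(b)`. Apply both sides to `e_{-α}` and compare the
Cartan part (a multiple of `h_α = ∑ α_i h_i`, some `α_i ≠ 0` in `K`, `exists_coeff_ne_zero`): with
`z = a b`, `X_α(a) e_{-α} = e_{-α} - a h_α + a² e_α`, `X_{-α}(b) h_α = h_α + 2 b e_{-α}`,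
`X_{-α}(b) e_α = e_α + b h_α + b² e_{-α}`: the left side has `h_α`-coefficient
`-a (1-z)² - a (1-z) = -a (1-z)(2-z)`, the right side `-a + a² b = -a (1-z)`. So `(1-z)² = 0`.
`neg_coeff`: `Ψ (S.x (-α_i) s) = xg (-α') (f s)`, `Ψ (S.x α_i s) = xg α' (c φ s)`. Conjugating by
`Ψ (tor v t)` with `ip α_i v = 1`, whose `chi` at `α'` is `φ t` (so at `-α'` it is `(φ t)⁻¹`):
`f (t⁻¹ s) = (φ t)⁻¹ f s`, so `f s = φ s * f 1` for `s ≠ 0`, and `f 0 = 0` (`x_zero`, `xg_inj`).
By `n_conj` (`t = u = 1`) and `ab_eq_one`, `c * f 1 = 1`.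
-/

set_option autoImplicit false
open Matrix
universe u
namespace Pool.Agent.H75.UL

namespace SLC
variable {n : ℕ} (C : SLC n) {K : Type*} [Field K]

/-- the vector `x e_{-α} + y h_α + z e_α` -/
private def P5b_v (α : C.Root) (x y z : K) : C.Idx → K
  | Sum.inl i => y * (α.1 i : K)
  | Sum.inr γ => if γ = -α then x else if γ = α then z else 0

private theorem P5b_ne (α : C.Root) : α ≠ -α := by
  intro h
  have h1 : -α.1 = α.1 := by
    conv_rhs => rw [h]
    rfl
  exact C.neg_ne_self α h1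

private theorem P5b_E_inl (α : C.Root) (x y z : K) (i : Fin n) :
    ((C.E α).map (Int.cast : ℤ → K) *ᵥ P5b_v C α x y z) (Sum.inl i) = - (α.1 i : K) * x := by
  rw [Matrix.mulVec, dotProduct, Fintype.sum_sum_type]
  simp only [Matrix.map_apply, E, Int.cast_zero, zero_mul, Finset.sum_const_zero, zero_add]
  rw [Finset.sum_eq_single (-α)]
  · rw [if_pos (Root.neg_val C α)]
    simp [P5b_v]
  · intro ζ _ hζ
    rw [if_neg (fun h : ζ.1 = -α.1 => hζ (Root.ext h)), Int.cast_zero, zero_mul]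
  · intro h
    exact absurd (Finset.mem_univ _) h

private theorem P5b_E_inr (α : C.Root) (x y z : K) (γ : C.Root) :
    ((C.E α).map (Int.cast : ℤ → K) *ᵥ P5b_v C α x y z) (Sum.inr γ) =
      if γ = α then -(2 * y) else 0 := by
  rw [Matrix.mulVec, dotProduct, Fintype.sum_sum_type]
  simp only [Matrix.map_apply, E]
  have h2 : ∑ β : C.Root, (((if γ.1 = α.1 + β.1 then C.eps α.1 β.1 else 0 : ℤ)) : K) *
      P5b_v C α x y z (Sum.inr β) = 0 := by
    apply Finset.sum_eq_zero
    intro β _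
    by_cases h3 : γ.1 = α.1 + β.1
    · have h4 : β ≠ -α := by
        rintro rfl
        rw [Root.neg_val, add_neg_cancel] at h3
        exact C.root_ne_zero γ h3
      have h5 : β ≠ α := by
        rintro rfl
        exact C.root_add_self β γ h3
      simp only [P5b_v]
      rw [if_neg h4, if_neg h5, mul_zero]
    · rw [if_neg h3, Int.cast_zero, zero_mul]
  rw [h2, add_zero]
  by_cases h1 : γ = α
  · subst h1
    rw [if_pos rfl]
    have h3 := C.sum_ip_single γ.1 γ.1
    rw [γ.2] at h3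
    have h4 : ((2 : ℤ) : K) = ∑ i, (γ.1 i : K) * (C.ip (Pi.single i 1) γ.1 : K) := by
      rw [← h3]
      push_cast
      rfl
    rw [Int.cast_ofNat] at h4
    rw [h4, Finset.sum_mul, ← Finset.sum_neg_distrib]
    apply Finset.sum_congr rfl
    intro i _
    simp only [P5b_v, if_true, Int.cast_neg]
    ring
  · rw [if_neg h1]
    apply Finset.sum_eq_zero
    intro i _
    rw [if_neg (fun h : γ.1 = α.1 => h1 (Root.ext h)), Int.cast_zero, zero_mul]

private theorem P5b_F_inl (α : C.Root) (x y z : K) (i : Fin n) :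
    ((C.F α).map (Int.cast : ℤ → K) *ᵥ P5b_v C α x y z) (Sum.inl i) = 0 := by
  rw [Matrix.mulVec, dotProduct]
  apply Finset.sum_eq_zero
  rintro (j | β) _
  · simp [F]
  · simp [F]

private theorem P5b_F_inr (α : C.Root) (x y z : K) (γ : C.Root) :
    ((C.F α).map (Int.cast : ℤ → K) *ᵥ P5b_v C α x y z) (Sum.inr γ) =
      if γ = α then x else 0 := by
  rw [Matrix.mulVec, dotProduct, Fintype.sum_sum_type]
  simp only [Matrix.map_apply, F, Int.cast_zero, zero_mul, Finset.sum_const_zero, zero_add]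
  by_cases h1 : γ = α
  · rw [if_pos h1, Finset.sum_eq_single (-α)]
    · rw [if_pos ⟨congrArg Root.val h1, Root.neg_val C α⟩]
      simp [P5b_v]
    · intro ζ _ hζ
      rw [if_neg (fun h => hζ (Root.ext h.2)), Int.cast_zero, zero_mul]
    · intro h
      exact absurd (Finset.mem_univ _) h
  · rw [if_neg h1]
    apply Finset.sum_eq_zero
    intro ζ _
    rw [if_neg (fun h => h1 (Root.ext h.1)), Int.cast_zero, zero_mul]

private theorem P5b_X (α : C.Root) (a x y z : K) :
    (C.X K α a) *ᵥ P5b_v C α x y z = P5b_v C α x (y - a * x) (z - 2 * a * y + a ^ 2 * x) := by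
  unfold X
  rw [add_mulVec, add_mulVec, one_mulVec, smul_mulVec, smul_mulVec]
  funext b
  rw [Pi.add_apply, Pi.add_apply, Pi.smul_apply, Pi.smul_apply]
  rcases b with i | γ
  · rw [P5b_E_inl, P5b_F_inl]
    simp only [P5b_v, smul_eq_mul]
    ring
  · rw [P5b_E_inr, P5b_F_inr]
    simp only [P5b_v, smul_eq_mul]
    by_cases h1 : γ = α
    · subst h1
      rw [if_neg (P5b_ne C γ), if_pos rfl, if_pos rfl, if_pos rfl, if_neg (P5b_ne C γ), if_pos rfl]
      ring
    · rw [if_neg h1, if_neg h1, if_neg h1, if_neg h1]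
      ring

private theorem P5b_swap (α : C.Root) (x y z : K) : P5b_v C (-α) x y z = P5b_v C α z (-y) x := by
  funext b
  rcases b with i | γ
  · simp only [P5b_v, Root.neg_val, Pi.neg_apply, Int.cast_neg]
    ring
  · simp only [P5b_v, C.neg_neg_root]
    by_cases h1 : γ = α
    · subst h1
      rw [if_pos rfl, if_neg (P5b_ne C γ), if_pos rfl]
    · rw [if_neg h1]
      by_cases h2 : γ = -α
      · rw [if_pos h2, if_pos h2]
      · rw [if_neg h2, if_neg h2, if_neg h1]

private theorem P5b_X' (α : C.Root) (b x y z : K) :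
    (C.X K (-α) b) *ᵥ P5b_v C α x y z = P5b_v C α (x + 2 * b * y + b ^ 2 * z) (y + b * z) z := by
  have h1 : P5b_v C α x y z = P5b_v C (-α) z (-y) x := by
    rw [P5b_swap, neg_neg]
  rw [h1, P5b_X, P5b_swap]
  congr 1 <;> ring

theorem ab_eq_one (α : C.Root) (a b : K) (ha : a ≠ 0)
    (h : (C.xg K α a * C.xg K (-α) b * C.xg K α a) * C.xg K α a =
      C.xg K (-α) b * (C.xg K α a * C.xg K (-α) b * C.xg K α a)) : a * b = 1 := by
  have h1 : C.xg K α a * C.xg K (-α) b * C.xg K α a =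
      C.xg K (-α) b * C.xg K α a * C.xg K (-α) b := by
    apply mul_right_cancel (b := C.xg K α a)
    rw [h]
    group
  have h2 : C.X K α a * C.X K (-α) b * C.X K α a = C.X K (-α) b * C.X K α a * C.X K (-α) b :=
    congrArg (fun g : GL C.Idx K => (g : Matrix C.Idx C.Idx K)) h1
  have h3 := congrArg (fun M => M *ᵥ P5b_v C α 1 0 0) h2
  simp only [← mulVec_mulVec] at h3
  rw [P5b_X, P5b_X', P5b_X, P5b_X', P5b_X, P5b_X'] at h3
  obtain ⟨i, hi⟩ := C.exists_coeff_ne_zero α K
  have h4 := congrFun h3 (Sum.inl i)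
  simp only [P5b_v] at h4
  have h5 := mul_right_cancel₀ hi h4
  have h6 : a * (1 - a * b) ^ 2 = 0 := by linear_combination (-1 : K) * h5
  rcases mul_eq_zero.1 h6 with h7 | h7
  · exact absurd h7 ha
  · have h8 : 1 - a * b = 0 := by
      by_contra h9
      exact pow_ne_zero 2 h9 h7
    linear_combination (-1 : K) * h8

theorem neg_coeff (hn : 2 ≤ n) {k : Type*} [Field k] {H : Type*} [Group H]
    (S : StSys C k H) (Ψ : H →* GL C.Idx K) (hT : ∀ h ∈ S.T, Ψ h ∈ (C.adS K).T)
    (α' : C.Root) (φ : k →+* K) (c : K) (hc : c ≠ 0) (i : Fin n) (f : k → K)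
    (h1 : ∀ s, Ψ (S.x (C.simple i) s) = C.xg K α' (c * φ s))
    (h2 : ∀ s, Ψ (S.x (-(C.simple i)) s) = C.xg K (-α') (f s))
    (hchi : ∀ v t, t ≠ 0 → C.chi (Ψ (S.tor v t) : Matrix C.Idx C.Idx K) α' =
        φ t ^ (C.ip (Pi.single i 1) v)) (s : k) : f s = c⁻¹ * φ s := by
  -- injectivity in the parameter
  have hinj : ∀ u u' : K, C.xg K (-α') u = C.xg K (-α') u' → u = u' := by
    intro u u' h
    by_cases hu : u = 0
    · by_cases hu' : u' = 0
      · rw [hu, hu']
      · exact (C.xg_inj (-α') (-α') u' u hu' h.symm).2.symm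
    · exact (C.xg_inj (-α') (-α') u u' hu h).2
  -- the value at zero
  have h0 : f 0 = 0 := by
    apply hinj
    rw [← h2 0, S.x_zero, map_one]
    have h3 := (C.adS K).x_zero (-α')
    rw [adS_x] at h3
    exact h3.symm
  -- the value at one
  have hone : c * f 1 = 1 := by
    have h3 := S.n_conj (C.simple i) 1 1 one_ne_zero
    have h4 := congrArg Ψ h3
    unfold nn at h4
    simp only [map_mul, map_inv, inv_one, one_pow, mul_one, h1, h2, map_one] at h4
    rw [mul_inv_eq_iff_eq_mul] at h4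
    exact C.ab_eq_one α' c (f 1) hc h4
  -- homogeneity
  have hhom : ∀ t : k, t ≠ 0 → f t⁻¹ = (φ t)⁻¹ * f 1 := by
    intro t ht
    obtain ⟨j, hj, hij⟩ := C.exists_adjacent hn i
    have hv : C.ip (Pi.single i 1) (-(Pi.single j 1 : Fin n → ℤ)) = 1 := by
      rw [ip_neg_right, ip_single, hij]
      norm_num
    have h3 := S.tor_conj (-(Pi.single j 1 : Fin n → ℤ)) t ht (-(C.simple i)) 1
    have h4 : C.ip (-(Pi.single j 1 : Fin n → ℤ)) (-(C.simple i)).1 = -1 := by
      rw [Root.neg_val, simple_val, ip_neg_right, C.ip_comm, hv]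
    rw [h4, _root_.zpow_neg_one, mul_one] at h3
    have h5 := congrArg Ψ h3
    simp only [map_mul, map_inv, h2] at h5
    set τ := Ψ (S.tor (-(Pi.single j 1 : Fin n → ℤ)) t) with hτd
    have hτ : τ ∈ (C.adS K).T := hT _ (S.tor_mem _ t ht)
    rw [(C.T_fix τ hτ (-α') (f 1)).2] at h5
    have h6 := hinj _ _ h5
    rw [← h6]
    congr 1
    have h7 := hchi (-(Pi.single j 1 : Fin n → ℤ)) t ht
    rw [hv, _root_.zpow_one, ← hτd] at h7
    rw [← h7]
    obtain ⟨d, hd⟩ := C.T_diag τ hτ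
    unfold chi
    rw [hd, Matrix.diagonal_apply_eq, Matrix.diagonal_apply_eq]
    simp only [Sum.elim_inr, Root.neg_val, Pi.neg_apply, _root_.zpow_neg, Finset.prod_inv_distrib,
      Units.val_inv_eq_inv_val]
  have hf1 : f 1 = c⁻¹ := by
    rw [eq_comm, inv_eq_iff_eq_inv]
    exact eq_inv_of_mul_eq_one_left hone
  by_cases hs : s = 0
  · rw [hs, h0, map_zero, mul_zero]
  · have h3 := hhom s⁻¹ (inv_ne_zero hs)
    rw [inv_inv, map_inv₀, inv_inv, hf1, mul_comm] at h3
    exact h3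

end SLC

end Pool.Agent.H75.UL
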