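import Pool.Agent.H75.UL.P1
import Pool.Agent.H75.UL.P2
import Pool.Agent.H75.UL.P3b
import Pool.Agent.H75.UL.P4
import Pool.Agent.H75.UL.P5a
import Pool.Agent.H75.UL.P5b

/-!
# Project UL (MP_978914_al), module P5c

Standard form of a homomorphism into the adjoint group (assembly of P1–P5b).

`L = AlgebraicClosure K`, `mp = C.mp (algebraMap K L)`, `Ψ_L = mp ∘ Ψ`; `Ψ_L (S.x θ 1) ≠ 1` (`mp`
injective).
1. `unique_chamber` for `Ψ_L`: `g₀ ∈ Gad L`. `Ψ' = g₀⁻¹ Ψ_L g₀` (`MulAut.conj g₀⁻¹` composed) maps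
   `S.U 1` into `U 1`. For `h ∈ S.T` take `g' = Ψ_L h * g₀` in the uniqueness: for `u ∈ S.U 1`,
   `g'⁻¹ Ψ_L u g' = g₀⁻¹ Ψ_L (h⁻¹ u h) g₀ ∈ U 1` (`T_conj_U` for `h⁻¹`), so
   `g₀⁻¹ Ψ_L h g₀ = g₀⁻¹ g'` satisfies `Fil 0`.
2. `coords` for `Ψ'` over `L`: `π, φ, c`. `conj_torus`: `w ∈ U 1`; `g = g₀ w`. Then
   `g⁻¹ Ψ_L g` maps `S.U 1` into `U 1`, `S.T` into `T`; uniqueness holds for `g`
   (`g⁻¹ g' = w⁻¹ (g₀⁻¹ g')`); `chi` of `w⁻¹ M w` is `chi M` (`chi_mul`, `w ∈ U 1`).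
3. `phi_mem`: `φ = algebraMap ∘ φ₀`.
4. `exists_regular` for `g⁻¹ Ψ_L g`: `v, t`; `h₀ = S.tor v t`; `g⁻¹ mp(Ψ h₀) g ∈ T` is diagonal
   (`T_diag`), its entries at the roots are `φ t ^ e_γ = algebraMap (φ₀ t ^ e_γ)` (`chi_tor`), distinct
   and `≠ 1`. `rational_chamber` with `M = Ψ h₀`: `g₁ ∈ Gad K`, `b = (mp g₁)⁻¹ g` satisfies `Fil 0`.
5. `Ψ₁ = g₁⁻¹ Ψ g₁` over `K`: `mp (Ψ₁ u) = b (g⁻¹ Ψ_L u g) b⁻¹`, so for `u ∈ S.U 1`, `Ψ₁ u` satisfies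
   `Fil 0` and is unipotent (`Fil_map_iff`, `nilpotent_map_iff`), so `Ψ₁ u ∈ U 1`
   (`mem_U_of_unipotent`); for `h ∈ S.T`, `Fil 0 (Ψ₁ h)`.
6. `coords` and `conj_torus` for `Ψ₁` over `K`; `g₂ = g₁ w₁`, `Ψ₂ = g₂⁻¹ Ψ g₂`, `xi` and `chi` of
   `Ψ₂` are those of `Ψ₁` (`xi_conj`, `chi_mul`). `image_simple`, `image_neg`, `neg_coeff`.
-/

set_option autoImplicit false
open Matrix
universe u
namespace Pool.Agent.H75.UL

namespace SLC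
variable {n : ℕ} (C : SLC n)

/-- `x ↦ g⁻¹ Ψ(x) g`. -/
def P5c_cj {G H : Type*} [Group G] [Group H] (g : G) (Ψ : H →* G) : H →* G where
  toFun x := g⁻¹ * Ψ x * g
  map_one' := by simp
  map_mul' := by
    intro x y
    rw [map_mul]
    group

theorem P5c_cj_apply {G H : Type*} [Group G] [Group H] (g : G) (Ψ : H →* G) (x : H) :
    P5c_cj g Ψ x = g⁻¹ * Ψ x * g := rfl

theorem P5c_gen {k : Type*} [Field k] {H : Type*} [Group H] (S : StSys C k H) {K : Type*} [Field K]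
    (Ψ : H →* GL C.Idx K) (hΨ : ∀ β t, Ψ (S.x β t) ∈ C.Gad K) (x : H) (hx : x ∈ S.gen) :
    Ψ x ∈ C.Gad K := by
  have h : S.gen ≤ (C.Gad K).comap Ψ := by
    unfold StSys.gen
    rw [Subgroup.closure_le]
    rintro g ⟨β, t, rfl⟩
    rw [SetLike.mem_coe, Subgroup.mem_comap]
    exact hΨ β t
  exact h hx

theorem P5c_U_Gad {K : Type*} [Field K] (u : GL C.Idx K) (hu : u ∈ (C.adS K).U 1) :
    u ∈ C.Gad K := by
  rw [← C.gen_adS]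
  exact (C.adS K).U_le_gen 1 hu

theorem P5c_T_Gad {K : Type*} [Field K] (u : GL C.Idx K) (hu : u ∈ (C.adS K).T) :
    u ∈ C.Gad K := by
  rw [← C.gen_adS]
  exact (C.adS K).T_le_gen hu

theorem P5c_chi_U {K : Type*} [Field K] (u : GL C.Idx K) (hu : u ∈ (C.adS K).U 1) (γ : C.Root) :
    C.chi (u : Matrix C.Idx C.Idx K) γ = 1 := by
  have h1 := C.Fil_U 1 le_rfl u hu (Sum.inr γ) (Sum.inr γ) (by omega)
  rw [Matrix.sub_apply, Matrix.one_apply_eq, sub_eq_zero] at h1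
  exact h1

theorem P5c_Fil_mul {K : Type*} [Field K] (g h : GL C.Idx K)
    (hg : C.Fil 0 (g : Matrix C.Idx C.Idx K)) (hh : C.Fil 0 (h : Matrix C.Idx C.Idx K)) :
    C.Fil 0 ((g * h : GL C.Idx K) : Matrix C.Idx C.Idx K) := by
  have h1 := C.Fil_mul hg hh
  rw [add_zero] at h1
  rw [Units.val_mul]
  exact h1

theorem P5c_nil {K : Type*} [Field K] (M : Matrix C.Idx C.Idx K) (hM : C.Fil 1 M) :
    IsNilpotent M := by
  obtain ⟨m₀, hm₀⟩ := C.exists_Fil_eq_zero' K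
  have key : ∀ k : ℕ, C.Fil (k : ℤ) (M ^ k) := by
    intro k
    induction k with
    | zero =>
      rw [pow_zero]
      exact C.Fil_one
    | succ k ih =>
      rw [pow_succ]
      have h1 := C.Fil_mul ih hM
      push_cast
      exact h1
  exact ⟨m₀.toNat, hm₀ _ (C.Fil_mono (Int.self_le_toNat m₀) (key m₀.toNat))⟩

theorem P5c_std (hn : 2 ≤ n) (θ : C.Root) (hθ : C.IsHighest θ) {k : Type*} [Field k]
    [Infinite k] {H : Type*} [Group H] (S : StSys C k H) {F : Type*} [Field F]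
    (Ψ : H →* GL C.Idx F) (hΨ : ∀ β t, Ψ (S.x β t) ∈ C.Gad F) (hne : Ψ (S.x θ 1) ≠ 1)
    (hU : ∀ u ∈ S.U 1, Ψ u ∈ (C.adS F).U 1)
    (hT : ∀ h ∈ S.T, C.Fil 0 (Ψ h : Matrix C.Idx C.Idx F)) :
    ∃ w ∈ (C.adS F).U 1, ∃ (π : Equiv.Perm (Fin n)) (φ : k →+* F) (c : Fin n → F),
      (∀ i, c i ≠ 0) ∧ (∀ i j, C.A (π i) (π j) = C.A i j) ∧
      (∀ h ∈ S.T, P5c_cj w Ψ h ∈ (C.adS F).T) ∧
      (∀ i t j, C.xi j (P5c_cj w Ψ (S.x (C.simple i) t) : Matrix C.Idx C.Idx F) =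
        if j = π i then c i * φ t else 0) ∧
      ∀ v t, t ≠ 0 → ∀ i, C.chi (P5c_cj w Ψ (S.tor v t) : Matrix C.Idx C.Idx F)
        (C.simple (π i)) = φ t ^ (C.ip (Pi.single i 1) v) := by
  obtain ⟨π, φ, c, hc, hA, hxi, hchi⟩ := C.coords hn θ hθ S F Ψ hΨ hne hU hT
  obtain ⟨w, hw, hwT⟩ := C.conj_torus S Ψ hΨ hT π φ hchi
  refine ⟨w, hw, π, φ, c, hc, hA, hwT, ?_, ?_⟩
  · intro i t j
    rw [← hxi i t j, P5c_cj_apply]
    have hx : S.x (C.simple i) t ∈ S.U 1 := Subgroup.subset_closure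
      ⟨C.simple i, t, by rw [C.ht_simple], rfl⟩
    rw [C.xi_mul j _ _ (mul_mem (inv_mem hw) (hU _ hx)) hw,
      C.xi_mul j _ _ (inv_mem hw) (hU _ hx), C.xi_inv j w hw]
    ring
  · intro v t ht i
    rw [← hchi v t ht i, P5c_cj_apply]
    have hx : S.tor v t ∈ S.T := S.tor_mem v t ht
    have hG : Ψ (S.tor v t) ∈ C.Gad F := C.P5c_gen S Ψ hΨ _ (S.T_le_gen hx)
    have hwG := C.P5c_U_Gad w hw
    have hw0 := C.Fil_U_zero w hw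
    have hwi0 := C.Fil_U_zero w⁻¹ (inv_mem hw)
    rw [C.chi_mul _ _ (mul_mem (inv_mem hwG) hG) hwG
      (C.P5c_Fil_mul _ _ hwi0 (hT _ hx)) hw0,
      C.chi_mul _ _ (inv_mem hwG) hG hwi0 (hT _ hx), C.P5c_chi_U w hw,
      C.P5c_chi_U w⁻¹ (inv_mem hw), one_mul, mul_one]

/-- step 1-4: a rational chamber. -/
theorem P5c_rational (hn : 2 ≤ n) (θ : C.Root) (hθ : C.IsHighest θ) {k : Type*} [Field k]
    [Infinite k] {H : Type*} [Group H] (S : StSys C k H) {K : Type*} [Field K]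
    (Ψ : H →* GL C.Idx K) (hΨ : ∀ β t, Ψ (S.x β t) ∈ C.Gad K) (hne : Ψ (S.x θ 1) ≠ 1) :
    ∃ g₁ ∈ C.Gad K, (∀ u ∈ S.U 1, P5c_cj g₁ Ψ u ∈ (C.adS K).U 1) ∧
      (∀ h ∈ S.T, C.Fil 0 (P5c_cj g₁ Ψ h : Matrix C.Idx C.Idx K)) := by
  set L := AlgebraicClosure K with hL
  set f : K →+* L := algebraMap K L with hf
  have hfi : Function.Injective f := f.injective
  set ΨL : H →* GL C.Idx L := (C.mp f).comp Ψ with hΨL
  have hGL : ∀ β t, ΨL (S.x β t) ∈ C.Gad L := fun β t => C.mp_Gad f _ (hΨ β t)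
  have hneL : ΨL (S.x θ 1) ≠ 1 := by
    intro h
    apply hne
    apply C.mp_injective f hfi
    rw [map_one]
    exact h
  obtain ⟨g₀, hg₀, h0U, h0uniq⟩ := C.unique_chamber θ hθ S L ΨL hGL hneL
  have h0T : ∀ h ∈ S.T, C.Fil 0 (P5c_cj g₀ ΨL h : Matrix C.Idx C.Idx L) := by
    intro h hh
    have hG : ΨL h ∈ C.Gad L := C.P5c_gen S ΨL hGL h (S.T_le_gen hh)
    have h1 := h0uniq (ΨL h * g₀) (mul_mem hG hg₀) (fun u hu => by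
      have h2 : (ΨL h * g₀)⁻¹ * ΨL u * (ΨL h * g₀) = g₀⁻¹ * ΨL (h⁻¹ * u * h) * g₀ := by
        rw [map_mul, map_mul, map_inv]
        group
      rw [h2]
      apply C.Fil_U_zero
      apply h0U
      have h3 := S.T_conj_U 1 h⁻¹ u (inv_mem hh) hu
      rwa [inv_inv] at h3)
    rw [← mul_assoc] at h1
    exact h1
  have hG0 : ∀ β t, P5c_cj g₀ ΨL (S.x β t) ∈ C.Gad L := fun β t =>
    mul_mem (mul_mem (inv_mem hg₀) (hGL β t)) hg₀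
  have hne0 : P5c_cj g₀ ΨL (S.x θ 1) ≠ 1 := by
    intro h
    apply hneL
    rw [P5c_cj_apply] at h
    have h2 : ΨL (S.x θ 1) = g₀ * (g₀⁻¹ * ΨL (S.x θ 1) * g₀) * g₀⁻¹ := by group
    rw [h2, h]
    group
  obtain ⟨w, hw, π, φ, c, hc, hA, hwT, -, hchi⟩ :=
    C.P5c_std hn θ hθ S (P5c_cj g₀ ΨL) hG0 hne0 h0U h0T
  set g := g₀ * w with hg
  have hcj : ∀ x, P5c_cj w (P5c_cj g₀ ΨL) x = g⁻¹ * C.mp f (Ψ x) * g := by
    intro x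
    rw [P5c_cj_apply, P5c_cj_apply, hg]
    show w⁻¹ * (g₀⁻¹ * C.mp f (Ψ x) * g₀) * w = _
    group
  have hgG : g ∈ C.Gad L := mul_mem hg₀ (C.P5c_U_Gad w hw)
  have hU : ∀ u ∈ S.U 1, g⁻¹ * C.mp f (Ψ u) * g ∈ (C.adS L).U 1 := by
    intro u hu
    rw [← hcj]
    exact mul_mem (mul_mem (inv_mem hw) (h0U u hu)) hw
  have huniq : ∀ g' ∈ C.Gad L, (∀ u ∈ S.U 1, C.Fil 0
      ((g'⁻¹ * C.mp f (Ψ u) * g' : GL C.Idx L) : Matrix C.Idx C.Idx L)) →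
      C.Fil 0 ((g⁻¹ * g' : GL C.Idx L) : Matrix C.Idx C.Idx L) := by
    intro g' hg' h
    have h1 := h0uniq g' hg' h
    have h2 : g⁻¹ * g' = w⁻¹ * (g₀⁻¹ * g') := by
      rw [hg]; group
    rw [h2]
    exact C.P5c_Fil_mul _ _ (C.Fil_U_zero _ (inv_mem hw)) h1
  have hT : ∀ h ∈ S.T, g⁻¹ * C.mp f (Ψ h) * g ∈ (C.adS L).T := by
    intro h hh
    rw [← hcj]
    exact hwT h hh
  have hchi' : ∀ v t, t ≠ 0 → ∀ i,
      C.chi ((g⁻¹ * C.mp f (Ψ (S.tor v t)) * g : GL C.Idx L) :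
        Matrix C.Idx C.Idx L) (C.simple (π i)) = φ t ^ (C.ip (Pi.single i 1) v) := by
    intro v t ht i
    rw [← hcj]
    exact hchi v t ht i
  obtain ⟨φ₀, hφ₀⟩ := C.phi_mem hn S Ψ hΨ g hgG hU huniq hT π φ hchi'
  -- strongly regular element
  have hG2 : ∀ β t, P5c_cj g ΨL (S.x β t) ∈ C.Gad L := fun β t =>
    mul_mem (mul_mem (inv_mem hgG) (hGL β t)) hgG
  have hT2 : ∀ h ∈ S.T, C.Fil 0 (P5c_cj g ΨL h : Matrix C.Idx C.Idx L) := fun h hh =>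
    C.Fil_T _ (hT h hh)
  obtain ⟨v, t, ht, hreg1, hreg2⟩ := C.exists_regular S (P5c_cj g ΨL) hG2 hT2 π φ hchi'
  have hM := hT _ (S.tor_mem v t ht)
  set e : C.Root → K := fun γ => φ₀ t ^ (∑ i, C.ip (Pi.single i 1) v * γ.1 (π i)) with he
  have hfe : ∀ γ, f (e γ) = C.chi (P5c_cj g ΨL (S.tor v t) : Matrix C.Idx C.Idx L) γ := by
    intro γ
    rw [C.chi_tor S (P5c_cj g ΨL) hG2 hT2 π φ hchi' v t ht γ, he]
    show f (φ₀ t ^ _) = _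
    rw [map_zpow₀, ← hφ₀]
    rfl
  obtain ⟨g₁, hg₁, hb0⟩ := C.rational_chamber (Ψ (S.tor v t)) g hgG e
    (fun γ γ' h => hreg2 (by rw [← hfe, ← hfe, h]))
    (fun γ h => hreg1 γ (by rw [← hfe, h, map_one]))
    (by
      obtain ⟨d, hd⟩ := C.T_diag _ hM
      rw [hd]
      congr 1
      funext a
      rcases a with i | γ
      · rfl
      · rw [Sum.elim_inr, Sum.elim_inr, ← hf, hfe γ]
        have h1 : (P5c_cj g ΨL (S.tor v t) : Matrix C.Idx C.Idx L) =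
            ((g⁻¹ * C.mp f (Ψ (S.tor v t)) * g : GL C.Idx L) : Matrix C.Idx C.Idx L) := rfl
        rw [h1, hd]
        unfold chi
        rw [Matrix.diagonal_apply_eq, Sum.elim_inr])
  set b := (C.mp f g₁)⁻¹ * g with hb
  have hbG : b ∈ C.Gad L := mul_mem (inv_mem (C.mp_Gad f g₁ hg₁)) hgG
  have hbi0 := C.upper_inv b hbG hb0
  have hconj : ∀ x, C.mp f (P5c_cj g₁ Ψ x) = b * (g⁻¹ * C.mp f (Ψ x) * g) * b⁻¹ := by
    intro x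
    rw [P5c_cj_apply, map_mul, map_mul, map_inv, hb]
    group
  have hn0 : 0 < n := by omega
  refine ⟨g₁, hg₁, ?_, ?_⟩
  · intro u hu
    have h1 : C.mp f (P5c_cj g₁ Ψ u) ∈ (C.adS L).U 1 := by
      rw [hconj]
      exact (C.xi_conj b _ hbG hb0 (hU u hu) ⟨0, hn0⟩).1
    have h2 := C.Fil_U 1 le_rfl _ h1
    have h3 : C.Fil 1 ((P5c_cj g₁ Ψ u : Matrix C.Idx C.Idx K) - 1) := by
      rw [← C.Fil_map_iff f hfi]
      rw [C.mp_val] at h2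
      have h4 : ((P5c_cj g₁ Ψ u : Matrix C.Idx C.Idx K) - 1).map f =
          (P5c_cj g₁ Ψ u : Matrix C.Idx C.Idx K).map f - 1 := by
        rw [Matrix.map_sub f (fun x y => map_sub f x y), Matrix.map_one f (map_zero f) (map_one f)]
      rw [h4]
      exact h2
    have h5 : C.Fil 0 (P5c_cj g₁ Ψ u : Matrix C.Idx C.Idx K) := by
      have h6 := C.Fil_add (C.Fil_mono (by norm_num : (0:ℤ) ≤ 1) h3) (C.Fil_one (R := K))
      rwa [sub_add_cancel] at h6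
    have h7 : P5c_cj g₁ Ψ u ∈ C.Gad K := mul_mem (mul_mem (inv_mem hg₁)
      (C.P5c_gen S Ψ hΨ u (S.U_le_gen 1 hu))) hg₁
    exact C.mem_U_of_unipotent _ h7 h5 (C.P5c_nil _ h3)
  · intro h hh
    rw [← C.Fil_map_iff f hfi, ← C.mp_val, hconj]
    exact C.P5c_Fil_mul _ _ (C.P5c_Fil_mul _ _ hb0 (C.Fil_T _ (hT h hh))) hbi0

theorem standard_form (hn : 2 ≤ n) (θ : C.Root) (hθ : C.IsHighest θ) {k : Type*} [Field k]
    [Infinite k] {H : Type*} [Group H] (S : StSys C k H) {K : Type*} [Field K]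
    (Ψ : H →* GL C.Idx K) (hΨ : ∀ β t, Ψ (S.x β t) ∈ C.Gad K) (hne : Ψ (S.x θ 1) ≠ 1) :
    ∃ g ∈ C.Gad K, ∃ (π : Equiv.Perm (Fin n)) (φ : k →+* K) (c : Fin n → K), (∀ i, c i ≠ 0) ∧
      (∀ i j, C.A (π i) (π j) = C.A i j) ∧
      (∀ i t, Ψ (S.x (C.simple i) t) = g * C.xg K (C.simple (π i)) (c i * φ t) * g⁻¹) ∧
      (∀ i t, Ψ (S.x (-(C.simple i)) t) =
        g * C.xg K (-(C.simple (π i))) ((c i)⁻¹ * φ t) * g⁻¹) := by
  obtain ⟨g₁, hg₁, h1U, h1T⟩ := C.P5c_rational hn θ hθ S Ψ hΨ hne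
  have hG1 : ∀ β t, P5c_cj g₁ Ψ (S.x β t) ∈ C.Gad K := fun β t =>
    mul_mem (mul_mem (inv_mem hg₁) (hΨ β t)) hg₁
  have hne1 : P5c_cj g₁ Ψ (S.x θ 1) ≠ 1 := by
    intro h
    apply hne
    rw [P5c_cj_apply] at h
    have h2 : Ψ (S.x θ 1) = g₁ * (g₁⁻¹ * Ψ (S.x θ 1) * g₁) * g₁⁻¹ := by group
    rw [h2, h]
    group
  obtain ⟨w, hw, π, φ, c, hc, hA, hT2, hxi, hchi⟩ :=
    C.P5c_std hn θ hθ S (P5c_cj g₁ Ψ) hG1 hne1 h1U h1T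
  have hwG := C.P5c_U_Gad w hw
  have hG2 : ∀ β t, P5c_cj w (P5c_cj g₁ Ψ) (S.x β t) ∈ C.Gad K := fun β t =>
    mul_mem (mul_mem (inv_mem hwG) (hG1 β t)) hwG
  have hU2 : ∀ u ∈ S.U 1, P5c_cj w (P5c_cj g₁ Ψ) u ∈ (C.adS K).U 1 := fun u hu =>
    mul_mem (mul_mem (inv_mem hw) (h1U u hu)) hw
  have hback : ∀ x, Ψ x = (g₁ * w) * P5c_cj w (P5c_cj g₁ Ψ) x * (g₁ * w)⁻¹ := by
    intro x
    rw [P5c_cj_apply, P5c_cj_apply]
    group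
  refine ⟨g₁ * w, mul_mem hg₁ hwG, π, φ, c, hc, hA, ?_, ?_⟩
  · intro i t
    rw [hback, C.image_simple S _ hG2 hU2 hT2 π φ c hc hxi hchi i t]
  · intro i t
    obtain ⟨f, hf⟩ := C.image_neg S _ hG2 hU2 hT2 π φ c hc hxi hchi i
    rw [hback, hf, C.neg_coeff hn S _ hT2 (C.simple (π i)) φ (c i) (hc i) i f
      (fun s => C.image_simple S _ hG2 hU2 hT2 π φ c hc hxi hchi i s) hf
      (fun v t ht => hchi v t ht i) t]

end SLC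

end Pool.Agent.H75.UL
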