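import Pool.Agent.H75.UL.C1
import Pool.Agent.H75.UL.P5c

/-!
# Project UL (MP_978914_al), module C2

The chain step.

`K₂` is infinite: otherwise `G₂` is finite (`Good.finite`), so is `G₁`, but `G₁` maps onto `Gad K₁`
(`Good.exists_ad`), which contains the distinct elements `xg θ t` (`xg_inj`), `K₁` infinite.
`p₁, p₂` from `Good.exists_ad`; `Ψ = p₂ ∘ ψ`. `Ψ (S₁.x θ 1) ≠ 1`: otherwise `ψ (S₁.x θ 1)` is central
in `G₂`, `S₁.x θ 1` is central in `G₁` (`ψ` injective), but `hh S₁.x θ t` conjugates it to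
`S₁.x θ (t^2)` (`h_conj`), so (apply `p₁`, `xg_inj`) `t^2 = 1` for all `t ≠ 0`: impossible, `K₁`
infinite. `standard_form`: `g, π, φ, c`; `g = p₂ a`; `S₂' = S₂.twist a π c`, good by `Good.twist`.
(1) `p₂ (ψ (S₁.x β t)) = p₂ (S₂'.x β (φ t))` for all `β`: for `β = ±` simple by `standard_form` and
`twist_simple`, `twist_neg_simple`; in general by induction on the height of `β` or `-β`
(`exists_descent`): `β = α_i + γ`: `S₁.x β t = [S₁.x α_i (ε), S₁.x γ t]` with `ε = eps α_i γ = ±1`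
(`comm_add`, argument `ε * ε * t = t`), and the same for `S₂'`.
(2) `ψ (S₁.x β t) = S₂'.x β (φ t)`: `β = γ + δ` (`exists_sum`, `n ≥ 2`),
`S₁.x β t = [S₁.x γ ε, S₁.x δ t]`; by (1) `ψ (S₁.x γ s) = S₂'.x γ (φ s) * z` with `z ∈ ker p₂`
central, so the commutators agree.
-/

set_option autoImplicit false
open Matrix
universe u
namespace Pool.Agent.H75.UL

variable {n : ℕ} {C : SLC n}

/-- commutators do not change under central modification -/
private theorem C2_comm {G H : Type*} [Group G] [Group H] (p : G →* H)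
    (hp : p.ker ≤ Subgroup.center G) {u v u' v' : G} (hu : p u = p u') (hv : p v = p v') :
    u * v * u⁻¹ * v⁻¹ = u' * v' * u'⁻¹ * v'⁻¹ := by
  have hz : u'⁻¹ * u ∈ Subgroup.center G := hp (by rw [MonoidHom.mem_ker, map_mul, map_inv, hu]; simp)
  have hw : v'⁻¹ * v ∈ Subgroup.center G := hp (by rw [MonoidHom.mem_ker, map_mul, map_inv, hv]; simp)
  obtain ⟨z, hz'⟩ : ∃ z, z = u'⁻¹ * u := ⟨_, rfl⟩
  obtain ⟨w, hw'⟩ : ∃ w, w = v'⁻¹ * v := ⟨_, rfl⟩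
  rw [← hz'] at hz
  rw [← hw'] at hw
  have h1 : u = u' * z := by rw [hz']; group
  have h2 : v = v' * w := by rw [hw']; group
  rw [Subgroup.mem_center_iff] at hz hw
  rw [h1, h2]
  have e1 : u' * z * (v' * w) * (u' * z)⁻¹ * (v' * w)⁻¹ =
      u' * (z * v') * (w * z⁻¹) * u'⁻¹ * w⁻¹ * v'⁻¹ := by group
  rw [e1, ← hz v']
  have e2 : u' * (v' * z) * (w * z⁻¹) * u'⁻¹ * w⁻¹ * v'⁻¹ =
      u' * v' * (z * w) * z⁻¹ * u'⁻¹ * w⁻¹ * v'⁻¹ := by group
  rw [e2, hw z]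
  have e3 : u' * v' * (w * z) * z⁻¹ * u'⁻¹ * w⁻¹ * v'⁻¹ =
      u' * v' * (w * u'⁻¹) * w⁻¹ * v'⁻¹ := by group
  rw [e3, ← hw u'⁻¹]
  group

/-- a root element as a commutator -/
private theorem C2_expr {K : Type*} [Field K] {G : Type*} [Group G] (S : StSys C K G)
    (α γ β : C.Root) (h : β.1 = α.1 + γ.1) (t : K) :
    S.x β t = S.x α (C.eps α.1 γ.1 : K) * S.x γ t * (S.x α (C.eps α.1 γ.1 : K))⁻¹ *
      (S.x γ t)⁻¹ := by
  rw [S.comm_add α γ β _ _ h]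
  have h1 : ((C.eps α.1 γ.1 : ℤ) : K) * ((C.eps α.1 γ.1 : ℤ) : K) = 1 := by
    rw [← Int.cast_mul, C.eps_sq, Int.cast_one]
  rw [h1, one_mul]

/-- agreement modulo the kernel at a sum of two roots -/
private theorem C2_add {K₁ K₂ : Type*} [Field K₁] [Field K₂] {G₁ G₂ H : Type*} [Group G₁]
    [Group G₂] [Group H] (S₁ : StSys C K₁ G₁) (S₂ : StSys C K₂ G₂) (ψ : G₁ →* G₂) (p : G₂ →* H)
    (φ : K₁ →+* K₂) (α γ β : C.Root) (h : β.1 = α.1 + γ.1)
    (hα : ∀ t, p (ψ (S₁.x α t)) = p (S₂.x α (φ t)))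
    (hγ : ∀ t, p (ψ (S₁.x γ t)) = p (S₂.x γ (φ t))) (t : K₁) :
    p (ψ (S₁.x β t)) = p (S₂.x β (φ t)) := by
  rw [C2_expr S₁ α γ β h t, C2_expr S₂ α γ β h (φ t)]
  have h1 : ((C.eps α.1 γ.1 : ℤ) : K₂) = φ ((C.eps α.1 γ.1 : ℤ) : K₁) := by rw [map_intCast]
  rw [h1]
  simp only [map_mul, map_inv, hα, hγ]

private theorem C2_all {K₁ K₂ : Type*} [Field K₁] [Field K₂] {G₁ G₂ H : Type*} [Group G₁]
    [Group G₂] [Group H] (S₁ : StSys C K₁ G₁) (S₂ : StSys C K₂ G₂) (ψ : G₁ →* G₂) (p : G₂ →* H)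
    (φ : K₁ →+* K₂)
    (h1 : ∀ i t, p (ψ (S₁.x (C.simple i) t)) = p (S₂.x (C.simple i) (φ t)))
    (h2 : ∀ i t, p (ψ (S₁.x (-(C.simple i)) t)) = p (S₂.x (-(C.simple i)) (φ t)))
    (β : C.Root) (t : K₁) :
    p (ψ (S₁.x β t)) = p (S₂.x β (φ t)) := by
  have key : ∀ m : ℕ, ∀ β : C.Root, C.Pos β → (ht β.1).toNat = m →
      (∀ t, p (ψ (S₁.x β t)) = p (S₂.x β (φ t))) ∧
      (∀ t, p (ψ (S₁.x (-β) t)) = p (S₂.x (-β) (φ t))) := by
    intro m
    induction m with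
    | zero =>
      intro β hβ hm
      unfold SLC.Pos at hβ
      omega
    | succ m ih =>
      intro β hβ hm
      by_cases hs : ∃ i, β = C.simple i
      · obtain ⟨i, rfl⟩ := hs
        exact ⟨h1 i, h2 i⟩
      · push Not at hs
        obtain ⟨i, γ, hγ, hβγ⟩ := C.exists_descent β hβ hs
        have h3 : ht β.1 = 1 + ht γ.1 := by
          rw [hβγ, ht_add, C.ht_simple]
        have h4 : (ht γ.1).toNat = m := by
          unfold SLC.Pos at hγ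
          omega
        obtain ⟨h5, h6⟩ := ih γ hγ h4
        refine ⟨C2_add S₁ S₂ ψ p φ (C.simple i) γ β hβγ (h1 i) h5, ?_⟩
        refine C2_add S₁ S₂ ψ p φ (-(C.simple i)) (-γ) (-β) ?_ (h2 i) h6
        rw [SLC.Root.neg_val, SLC.Root.neg_val, SLC.Root.neg_val, hβγ, neg_add]
  by_cases hβ : C.Pos β
  · exact (key _ β hβ rfl).1 t
  · rw [C.not_pos_iff] at hβ
    have h3 := (key _ (-β) hβ rfl).2 t
    rw [C.neg_neg_root] at h3
    exact h3

theorem chain_step (hn : 2 ≤ n) {K₁ K₂ : Type u} [Field K₁] [Field K₂] [Infinite K₁]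
    {G₁ G₂ : Type u} [Group G₁] [Group G₂] {S₁ : StSys C K₁ G₁} {S₂ : StSys C K₂ G₂}
    (h₁ : Good S₁) (h₂ : Good S₂) (ψ : G₁ →* G₂) (hψ : Function.Injective ψ) :
    Infinite K₂ ∧ ∃ (φ : K₁ →+* K₂) (S₂' : StSys C K₂ G₂), Good S₂' ∧
      ∀ β t, ψ (S₁.x β t) = S₂'.x β (φ t) := by
  obtain ⟨p₁, hp₁, hr₁, hk₁⟩ := h₁.exists_ad
  obtain ⟨θ, hθ⟩ := C.exists_highest (by omega)
  have hinj : ∀ s t : K₁, S₁.x θ s = S₁.x θ t → s = t := by
    intro s t hst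
    have h3 : C.xg K₁ θ s = C.xg K₁ θ t := by rw [← hp₁, ← hp₁, hst]
    by_cases hs : s = 0
    · by_cases ht : t = 0
      · rw [hs, ht]
      · exact (C.xg_inj θ θ t s ht h3.symm).2.symm
    · exact (C.xg_inj θ θ s t hs h3).2
  have hinf : Infinite K₂ := by
    by_contra hfin
    rw [not_infinite_iff_finite] at hfin
    have hG₂ : Finite G₂ := h₂.finite
    have hG₁ : Finite G₁ := Finite.of_injective ψ hψ
    have hK₁ : Finite K₁ := Finite.of_injective (fun t => S₁.x θ t) (fun s t h => hinj s t h)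
    exact not_finite K₁
  refine ⟨hinf, ?_⟩
  obtain ⟨p₂, hp₂, hr₂, hk₂⟩ := h₂.exists_ad
  have hΨ : ∀ β t, (p₂.comp ψ) (S₁.x β t) ∈ C.Gad K₂ := by
    intro β t
    rw [← hr₂]
    exact ⟨ψ (S₁.x β t), rfl⟩
  have hne : (p₂.comp ψ) (S₁.x θ 1) ≠ 1 := by
    intro h3
    have h4 : ψ (S₁.x θ 1) ∈ Subgroup.center G₂ := hk₂ (by rw [MonoidHom.mem_ker]; exact h3)
    rw [Subgroup.mem_center_iff] at h4
    have h5 : ∀ g : G₁, g * S₁.x θ 1 = S₁.x θ 1 * g := by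
      intro g
      apply hψ
      rw [map_mul, map_mul]
      exact h4 (ψ g)
    classical
    obtain ⟨t, ht⟩ := Infinite.exists_notMem_finset ({0, 1, -1} : Finset K₁)
    simp only [Finset.mem_insert, Finset.mem_singleton, not_or] at ht
    have h6 := S₁.h_conj θ θ t 1 ht.1
    rw [h5, mul_inv_cancel_right, mul_one, θ.2] at h6
    have h7 := hinj _ _ h6
    have h8 : t ^ 2 = 1 := by
      rw [← zpow_natCast t 2]
      exact h7.symm
    rw [sq] at h8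
    rcases mul_self_eq_one_iff.1 h8 with h9 | h9
    · exact ht.2.1 h9
    · exact ht.2.2 h9
  obtain ⟨g, hg, π, φ, c, hc, hπ, hpos, hneg⟩ := C.standard_form hn θ hθ S₁ (p₂.comp ψ) hΨ hne
  rw [← hr₂] at hg
  obtain ⟨a, rfl⟩ := hg
  refine ⟨φ, S₂.twist a π hπ c hc, h₂.twist a π hπ c hc, ?_⟩
  have key : ∀ β t, p₂ (ψ (S₁.x β t)) = p₂ ((S₂.twist a π hπ c hc).x β (φ t)) := by
    refine C2_all S₁ (S₂.twist a π hπ c hc) ψ p₂ φ ?_ ?_
    · intro i t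
      rw [StSys.twist_simple, map_mul, map_mul, map_inv, hp₂]
      exact hpos i t
    · intro i t
      rw [StSys.twist_neg_simple, map_mul, map_mul, map_inv, hp₂]
      exact hneg i t
  intro β t
  obtain ⟨γ, δ, hβ⟩ := C.exists_sum hn β
  rw [C2_expr S₁ γ δ β hβ t, C2_expr (S₂.twist a π hπ c hc) γ δ β hβ (φ t)]
  have h3 : ((C.eps γ.1 δ.1 : ℤ) : K₂) = φ ((C.eps γ.1 δ.1 : ℤ) : K₁) := by rw [map_intCast]
  rw [h3]
  simp only [map_mul, map_inv]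
  exact C2_comm p₂ hk₂ (key γ _) (key δ t)

end Pool.Agent.H75.UL
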