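import Mathlib

/-!
# Project UL (MP_978914_al): simply laced Chevalley groups, definitions

Everything is built from a simply laced Cartan matrix `C : SLC n`.
* `C.ip` the even positive definite form on `ℤ^n`; `C.Root` the roots (vectors of norm 2);
* `C.hf` a bilinear form with `hf v w + hf w v = ip v w`; `C.eps v w = (-1)^(hf v w)`;
* the Lie ring with basis `inl i` (Cartan part) and `inr β` (root vectors `e_β`); `C.E α` is the
  matrix of `ad e_α`, `C.F α` the matrix of `(ad e_α)^2 / 2`;
* `C.X α t = exp (t ad e_α)` over any commutative ring `R`; `C.xg` the same as an element of `GL`;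
* `C.Gad R` the adjoint Chevalley group, generated by the `C.xg α t`;
* `StSys C K H`: a family `x_β(t)` in a group `H` satisfying Steinberg's relations over `K`;
* `GU C K`: the group with Steinberg's presentation (the universal Chevalley group);
* `IsChev C G`: `G` is isomorphic to a quotient of some `GU C K` by a central subgroup.
-/

set_option autoImplicit false

open Matrix

universe u

namespace Pool.Agent.H75.UL

/-- A simply laced Cartan matrix of rank `n`: symmetric, `2` on the diagonal, `0` or `-1` off the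
diagonal, positive definite and connected (irreducible). These are the types `A_n`, `D_n`, `E_n`. -/
structure SLC (n : ℕ) where
  A : Matrix (Fin n) (Fin n) ℤ
  symm : ∀ i j, A i j = A j i
  diag : ∀ i, A i i = 2
  off : ∀ i j, i ≠ j → A i j = 0 ∨ A i j = -1
  pos : ∀ v : Fin n → ℤ, v ≠ 0 → 0 < v ⬝ᵥ A *ᵥ v
  conn : ∀ S : Finset (Fin n), S.Nonempty → S ≠ Finset.univ → ∃ i ∈ S, ∃ j ∉ S, A i j ≠ 0

namespace SLC

variable {n : ℕ} (C : SLC n)

/-- The even form on the root lattice `ℤ^n`. -/
def ip (v w : Fin n → ℤ) : ℤ := v ⬝ᵥ C.A *ᵥ w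

/-- Matrix of the half form. -/
def hm : Matrix (Fin n) (Fin n) ℤ := fun i j => if j < i then C.A i j else if i = j then 1 else 0

/-- Half of the form: `hf v w + hf w v = ip v w`. -/
def hf (v w : Fin n → ℤ) : ℤ := v ⬝ᵥ C.hm *ᵥ w

/-- The sign `(-1)^(hf v w)`. -/
def eps (v w : Fin n → ℤ) : ℤ := ((C.hf v w).negOnePow : ℤˣ)

theorem ip_add_left (u v w : Fin n → ℤ) : C.ip (u + v) w = C.ip u w + C.ip v w := by
  simp [ip, add_dotProduct]

theorem ip_add_right (u v w : Fin n → ℤ) : C.ip u (v + w) = C.ip u v + C.ip u w := by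
  simp [ip, mulVec_add, dotProduct_add]

theorem ip_neg_left (v w : Fin n → ℤ) : C.ip (-v) w = -C.ip v w := by
  simp [ip]

theorem ip_neg_right (v w : Fin n → ℤ) : C.ip v (-w) = -C.ip v w := by
  simp [ip, mulVec_neg]

theorem ip_sub_left (u v w : Fin n → ℤ) : C.ip (u - v) w = C.ip u w - C.ip v w := by
  rw [sub_eq_add_neg, ip_add_left, ip_neg_left, sub_eq_add_neg]

theorem ip_sub_right (u v w : Fin n → ℤ) : C.ip u (v - w) = C.ip u v - C.ip u w := by
  rw [sub_eq_add_neg, ip_add_right, ip_neg_right, sub_eq_add_neg]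

theorem ip_smul_left (a : ℤ) (v w : Fin n → ℤ) : C.ip (a • v) w = a * C.ip v w := by
  unfold ip
  rw [smul_dotProduct, smul_eq_mul]

theorem ip_smul_right (a : ℤ) (v w : Fin n → ℤ) : C.ip v (a • w) = a * C.ip v w := by
  unfold ip
  rw [mulVec_smul, dotProduct_smul, smul_eq_mul]

theorem ip_zero_left (w : Fin n → ℤ) : C.ip 0 w = 0 := by simp [ip]

theorem ip_zero_right (w : Fin n → ℤ) : C.ip w 0 = 0 := by simp [ip]

theorem ip_comm (v w : Fin n → ℤ) : C.ip v w = C.ip w v := by
  have h : C.Aᵀ = C.A := by
    ext i j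
    exact C.symm j i
  unfold ip
  conv_lhs => rw [← h]
  rw [mulVec_transpose, dotProduct_comm, dotProduct_mulVec]

theorem ip_pos (v : Fin n → ℤ) (hv : v ≠ 0) : 0 < C.ip v v := C.pos v hv

theorem ip_nonneg (v : Fin n → ℤ) : 0 ≤ C.ip v v := by
  by_cases h : v = 0
  · simp [h, ip_zero_left]
  · exact (C.ip_pos v h).le

/-- Cauchy–Schwarz. -/
theorem ip_sq_le (v w : Fin n → ℤ) : C.ip v w ^ 2 ≤ C.ip v v * C.ip w w := by
  by_cases h : w = 0
  · simp [h, ip_zero_right]
  have ha := C.ip_pos w h
  have h1 := C.ip_nonneg ((C.ip w w) • v - (C.ip v w) • w)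
  rw [ip_sub_left, ip_sub_right, ip_sub_right, ip_smul_left, ip_smul_right, ip_smul_left,
    ip_smul_right, ip_smul_left, ip_smul_right, ip_smul_left, ip_smul_right, C.ip_comm w v] at h1
  have h2 : 0 ≤ C.ip w w * (C.ip v v * C.ip w w - C.ip v w ^ 2) := by nlinarith
  have h3 := nonneg_of_mul_nonneg_right h2 ha
  linarith

theorem det_ne_zero : C.A.det ≠ 0 := by
  intro h
  obtain ⟨v, hv, h1⟩ := Matrix.exists_mulVec_eq_zero_iff.mpr h
  have := C.pos v hv
  rw [h1] at this
  simp at this

/-- The roots: vectors of norm `2`. -/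
@[ext] structure Root where
  val : Fin n → ℤ
  norm : C.ip val val = 2

instance : DecidableEq C.Root := fun a b => decidable_of_iff (a.1 = b.1) Root.ext_iff.symm

/-- A vector `y i` with `ip v (y i) = det * v i`. -/
theorem exists_dual (i : Fin n) : ∃ y : Fin n → ℤ, ∀ v, C.ip v y = C.A.det * v i := by
  refine ⟨C.A.adjugate *ᵥ Pi.single i 1, fun v => ?_⟩
  unfold ip
  rw [mulVec_mulVec, mul_adjugate, smul_mulVec, one_mulVec, dotProduct_smul, dotProduct_single]
  simp

theorem exists_bound : ∃ B : ℤ, ∀ v : C.Root, ∀ i, v.1 i ∈ Set.Icc (-B) B := by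
  choose y hy using C.exists_dual
  refine ⟨∑ i, 2 * C.ip (y i) (y i), fun v i => ?_⟩
  have h1 := C.ip_sq_le v.1 (y i)
  rw [hy, v.2] at h1
  have hd : 1 ≤ C.A.det ^ 2 := by
    have := C.det_ne_zero
    have := pow_pos (abs_pos.mpr this) 2
    rw [sq_abs] at this
    omega
  have h2 : v.1 i ^ 2 ≤ 2 * C.ip (y i) (y i) := by
    have : v.1 i ^ 2 ≤ (C.A.det * v.1 i) ^ 2 := by
      rw [mul_pow]
      nlinarith [sq_nonneg (v.1 i)]
    linarith
  have h3 : 2 * C.ip (y i) (y i) ≤ ∑ i, 2 * C.ip (y i) (y i) :=
    Finset.single_le_sum (f := fun i => 2 * C.ip (y i) (y i))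
      (fun j _ => by have := C.ip_nonneg (y j); linarith) (Finset.mem_univ i)
  constructor <;> nlinarith [sq_nonneg (v.1 i), sq_nonneg (v.1 i - 1), sq_nonneg (v.1 i + 1)]

instance : Finite C.Root := by
  obtain ⟨B, hB⟩ := C.exists_bound
  have : Finite (Fin n → Set.Icc (-B) B) := inferInstance
  refine Finite.of_injective (β := Fin n → Set.Icc (-B) B) (fun v i => ⟨v.1 i, hB v i⟩) ?_
  intro v w h
  apply Root.ext
  funext i
  exact congrArg Subtype.val (congrFun h i)

noncomputable instance : Fintype C.Root := Fintype.ofFinite _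

theorem ip_neg_neg (v w : Fin n → ℤ) : C.ip (-v) (-w) = C.ip v w := by
  rw [ip_neg_left, ip_neg_right, neg_neg]

instance : Neg C.Root := ⟨fun β => ⟨-β.1, by rw [ip_neg_neg]; exact β.2⟩⟩

@[simp] theorem Root.neg_val (β : C.Root) : (-β).1 = -β.1 := rfl

theorem ip_single (i j : Fin n) : C.ip (Pi.single i 1) (Pi.single j 1) = C.A i j := by
  simp [ip]

/-- The simple roots. -/
def simple (i : Fin n) : C.Root := ⟨Pi.single i 1, by rw [ip_single]; exact C.diag i⟩

@[simp] theorem simple_val (i : Fin n) : (C.simple i).1 = Pi.single i 1 := rfl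

theorem root_ne_zero (β : C.Root) : β.1 ≠ 0 := by
  intro h
  have := β.2
  rw [h, ip_zero_left] at this
  omega

/-- Index set of the adjoint module: `inl i` for the Cartan part, `inr β` for the root vectors. -/
abbrev Idx : Type := Fin n ⊕ C.Root

/-- The matrix of `ad e_α` (columns are the images of the basis vectors). -/
def E (α : C.Root) : Matrix C.Idx C.Idx ℤ := fun a b =>
  match a, b with
  | Sum.inl i, Sum.inr β => if β.1 = -α.1 then - α.1 i else 0
  | Sum.inr γ, Sum.inl i => if γ.1 = α.1 then - C.ip (Pi.single i 1) α.1 else 0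
  | Sum.inr γ, Sum.inr β => if γ.1 = α.1 + β.1 then C.eps α.1 β.1 else 0
  | Sum.inl _, Sum.inl _ => 0

/-- The matrix of `(ad e_α)^2 / 2`. -/
def F (α : C.Root) : Matrix C.Idx C.Idx ℤ := fun a b =>
  match a, b with
  | Sum.inr γ, Sum.inr β => if γ.1 = α.1 ∧ β.1 = -α.1 then 1 else 0
  | _, _ => 0

theorem root_add_self (α β : C.Root) : β.1 ≠ α.1 + α.1 := by
  intro h
  have h1 := β.2
  rw [h, ip_add_left, ip_add_right, α.2] at h1
  omega

/-- `α + β` is a root iff `ip α β = -1`. -/
theorem ip_add_root (α β γ : C.Root) (h : γ.1 = α.1 + β.1) : C.ip α.1 β.1 = -1 := by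
  have h1 := γ.2
  rw [h, ip_add_left, ip_add_right, ip_add_right, α.2, β.2, C.ip_comm β.1 α.1] at h1
  omega

theorem ip_single_left (i : Fin n) (w : Fin n → ℤ) :
    C.ip (Pi.single i 1) w = (C.A *ᵥ w) i := by
  simp [ip]

theorem sum_ip_single (v w : Fin n → ℤ) : ∑ i, v i * C.ip (Pi.single i 1) w = C.ip v w := by
  simp only [ip_single_left]
  rfl

theorem neg_ne_self (α : C.Root) : -α.1 ≠ α.1 := by
  intro h
  have h2 := C.ip_neg_left α.1 α.1
  rw [h, α.2] at h2
  omega

theorem F_mul_F (α : C.Root) : C.F α * C.F α = 0 := by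
  ext a b
  rw [Matrix.mul_apply, Fintype.sum_sum_type]
  rcases a with i | γ <;> rcases b with j | β <;> simp [F]
  apply Finset.sum_eq_zero
  intro δ _
  split_ifs with h1 h2
  · exact absurd (h2.2.symm.trans h1.1) (C.neg_ne_self α)
  · rfl
  · rfl

theorem E_mul_F (α : C.Root) : C.E α * C.F α = 0 := by
  ext a b
  rw [Matrix.mul_apply, Fintype.sum_sum_type]
  rcases a with i | γ <;> rcases b with j | β <;> simp [F, E]
  · apply Finset.sum_eq_zero
    intro δ _
    split_ifs with h1 h2
    · exact absurd (h2.symm.trans h1.1) (C.neg_ne_self α)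
    · rfl
    · rfl
  · apply Finset.sum_eq_zero
    intro δ _
    split_ifs with h1 h2
    · exact absurd (h1.1 ▸ h2) (C.root_add_self α γ)
    · rfl
    · rfl

theorem F_mul_E (α : C.Root) : C.F α * C.E α = 0 := by
  ext a b
  rw [Matrix.mul_apply, Fintype.sum_sum_type]
  rcases a with i | γ <;> rcases b with j | β <;> simp [F, E]
  · apply Finset.sum_eq_zero
    intro δ _
    split_ifs with h1 h2
    · exact absurd (h2.2.symm.trans h1) (C.neg_ne_self α)
    · rfl
    · rfl
  · apply Finset.sum_eq_zero
    intro δ _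
    split_ifs with h1 h2
    · have h3 := h2.2
      rw [h1] at h3
      refine absurd ?_ (C.root_add_self (-α) β)
      funext i
      have h4 := congrFun h3 i
      simp only [Pi.add_apply, Pi.neg_apply, Root.neg_val] at h4 ⊢
      omega
    · rfl
    · rfl

theorem E_mul_E (α : C.Root) : C.E α * C.E α = 2 • C.F α := by
  ext a b
  rw [Matrix.mul_apply, Fintype.sum_sum_type, Matrix.smul_apply]
  rcases a with i | γ <;> rcases b with j | β
  · simp only [E, mul_zero, Finset.sum_const_zero, zero_add, F, smul_zero]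
    apply Finset.sum_eq_zero
    intro δ _
    split_ifs with h1 h2
    · exact absurd (h1.symm.trans h2) (C.neg_ne_self α)
    · ring
    · ring
    · ring
  · simp only [E, zero_mul, Finset.sum_const_zero, zero_add, F, smul_zero]
    apply Finset.sum_eq_zero
    intro δ _
    split_ifs with h1 h2
    · refine absurd ?_ (C.root_add_self (-α) β)
      funext i
      have h4 := congrFun (h1.symm.trans h2) i
      simp only [Pi.add_apply, Pi.neg_apply, Root.neg_val] at h4 ⊢
      omega
    · ring
    · ring
    · ring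
  · simp only [E, mul_zero, Finset.sum_const_zero, zero_add, F, smul_zero]
    apply Finset.sum_eq_zero
    intro δ _
    split_ifs with h1 h2
    · exact absurd (h2 ▸ h1) (C.root_add_self α γ)
    · ring
    · ring
    · ring
  · simp only [E, F]
    by_cases hγ : γ.1 = α.1
    · by_cases hβ : β.1 = -α.1
      · rw [Finset.sum_eq_zero (s := (Finset.univ : Finset C.Root)), add_zero]
        · simp only [hγ, hβ, if_true, and_self]
          have h1 := C.sum_ip_single α.1 α.1
          rw [α.2] at h1
          have h2 : (2 • (1 : ℤ)) = 2 := rfl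
          refine Eq.trans ?_ (h1.trans h2.symm)
          apply Finset.sum_congr rfl
          intro i _
          ring
        · intro δ _
          split_ifs with h1 h2
          · exfalso
            rw [hβ, add_neg_cancel] at h2
            exact C.root_ne_zero δ h2
          · ring
          · ring
          · ring
      · simp only [hβ, if_false, mul_zero, Finset.sum_const_zero, zero_add, and_false, smul_zero]
        apply Finset.sum_eq_zero
        intro δ _
        split_ifs with h1 h2
        · exfalso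
          apply C.root_ne_zero δ
          have h3 := h1.symm.trans hγ
          funext i
          have h4 := congrFun h3 i
          simp only [Pi.add_apply, Pi.zero_apply] at h4 ⊢
          omega
        · ring
        · ring
        · ring
    · simp only [hγ, if_false, zero_mul, Finset.sum_const_zero, zero_add, false_and, smul_zero]
      apply Finset.sum_eq_zero
      intro δ _
      split_ifs with h1 h2
      · exfalso
        have h3 := C.ip_add_root α δ γ h1
        have h4 := C.ip_add_root α β δ h2
        rw [h2, C.ip_add_right, α.2, h4] at h3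
        omega
      · ring
      · ring
      · ring

section ring
variable (R : Type*) [CommRing R]

/-- `exp (t ad e_α)`. -/
def X (α : C.Root) (t : R) : Matrix C.Idx C.Idx R :=
  1 + t • (C.E α).map (Int.cast : ℤ → R) + t ^ 2 • (C.F α).map (Int.cast : ℤ → R)

theorem X_zero (α : C.Root) : C.X R α 0 = 1 := by
  simp [X]

theorem X_add (α : C.Root) (s t : R) : C.X R α (s + t) = C.X R α s * C.X R α t := by
  have h1 : (C.E α).map (Int.cast : ℤ → R) * (C.E α).map (Int.cast : ℤ → R) =
      2 • (C.F α).map (Int.cast : ℤ → R) := by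
    have := congrArg (fun M : Matrix C.Idx C.Idx ℤ => M.map (Int.castRingHom R)) (C.E_mul_E α)
    simp only [Matrix.map_mul, two_smul] at this
    rw [two_smul]
    ext a b
    have h := congrFun (congrFun this a) b
    simpa using h
  have h2 : (C.E α).map (Int.cast : ℤ → R) * (C.F α).map (Int.cast : ℤ → R) = 0 := by
    have := congrArg (fun M : Matrix C.Idx C.Idx ℤ => M.map (Int.castRingHom R)) (C.E_mul_F α)
    simp only [Matrix.map_mul] at this
    ext a b
    have h := congrFun (congrFun this a) b
    simpa using h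
  have h3 : (C.F α).map (Int.cast : ℤ → R) * (C.E α).map (Int.cast : ℤ → R) = 0 := by
    have := congrArg (fun M : Matrix C.Idx C.Idx ℤ => M.map (Int.castRingHom R)) (C.F_mul_E α)
    simp only [Matrix.map_mul] at this
    ext a b
    have h := congrFun (congrFun this a) b
    simpa using h
  have h4 : (C.F α).map (Int.cast : ℤ → R) * (C.F α).map (Int.cast : ℤ → R) = 0 := by
    have := congrArg (fun M : Matrix C.Idx C.Idx ℤ => M.map (Int.castRingHom R)) (C.F_mul_F α)
    simp only [Matrix.map_mul] at this
    ext a b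
    have h := congrFun (congrFun this a) b
    simpa using h
  unfold X
  simp only [add_mul, mul_add, one_mul, mul_one, smul_mul_assoc, mul_smul_comm, h1, h2, h3, h4,
    smul_zero, add_zero]
  module

/-- `exp (t ad e_α)` as an invertible matrix. -/
noncomputable def xg (α : C.Root) (t : R) : GL C.Idx R where
  val := C.X R α t
  inv := C.X R α (-t)
  val_inv := by rw [← X_add, add_neg_cancel, X_zero]
  inv_val := by rw [← X_add, neg_add_cancel, X_zero]

/-- The adjoint Chevalley group over `R`: the subgroup of `GL` generated by the root elements. -/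
noncomputable def Gad : Subgroup (GL C.Idx R) :=
  Subgroup.closure (Set.range fun p : C.Root × R => C.xg R p.1 p.2)

end ring

end SLC

section st
variable {n : ℕ} {C : SLC n} {K : Type*} [Field K] {H : Type*} [Group H]

/-- `n_α(t) = x_α(t) x_{-α}(t⁻¹) x_α(t)`. -/
def nn (x : C.Root → K → H) (α : C.Root) (t : K) : H := x α t * x (-α) t⁻¹ * x α t

/-- `h_α(t) = n_α(t) n_α(-1)`. -/
def hh (x : C.Root → K → H) (α : C.Root) (t : K) : H := nn x α t * nn x α (-1)

end st

/-- Steinberg's relations: `H` is a group with elements `x β t` (`β` a root, `t ∈ K`) such that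
`x β (s + t) = x β s * x β t`; `x α s` and `x β t` commute if `ip α β ≥ 0` (`α + β` is then neither a
root nor zero); the commutator of `x α s` and `x β t` is `x (α + β) (± s t)` if `α + β` is a root; and
the relations of `SL₂` hold for `n α t = x α t * x (-α) t⁻¹ * x α t` and
`h α t = n α t * n α (-1)`. (With the sign convention `[e_α, e_{-α}] = -α` used here, `x (-α) t` is
the usual `x_{-α}(-t)`.) -/
structure StSys {n : ℕ} (C : SLC n) (K : Type*) [Field K] (H : Type*) [Group H] where
  x : C.Root → K → H
  map_add : ∀ β s t, x β (s + t) = x β s * x β t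
  comm : ∀ (α β : C.Root) (s t : K), 0 ≤ C.ip α.1 β.1 → x α s * x β t = x β t * x α s
  comm_add : ∀ (α β γ : C.Root) (s t : K), γ.1 = α.1 + β.1 →
    x α s * x β t * (x α s)⁻¹ * (x β t)⁻¹ = x γ (C.eps α.1 β.1 * s * t)
  n_conj : ∀ (α : C.Root) (t u : K), t ≠ 0 →
    nn x α t * x α u * (nn x α t)⁻¹ = x (-α) (t⁻¹ ^ 2 * u)
  h_mul : ∀ (α : C.Root) (s t : K), s ≠ 0 → t ≠ 0 → hh x α s * hh x α t = hh x α (s * t)

section GU
variable {n : ℕ} (C : SLC n) (K : Type u) [Field K]

/-- The generator `x_β(t)` in the free group. -/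
def fx (β : C.Root) (t : K) : FreeGroup (C.Root × K) := FreeGroup.of (β, t)

/-- Steinberg's relators. -/
inductive Rel : FreeGroup (C.Root × K) → Prop
  | map_add (β : C.Root) (s t : K) : Rel (fx C K β (s + t) * (fx C K β s * fx C K β t)⁻¹)
  | comm (α β : C.Root) (s t : K) (h : 0 ≤ C.ip α.1 β.1) :
      Rel (fx C K α s * fx C K β t * (fx C K β t * fx C K α s)⁻¹)
  | comm_add (α β γ : C.Root) (s t : K) (h : γ.1 = α.1 + β.1) :
      Rel (fx C K α s * fx C K β t * (fx C K α s)⁻¹ * (fx C K β t)⁻¹ *
        (fx C K γ (C.eps α.1 β.1 * s * t))⁻¹)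
  | n_conj (α : C.Root) (t u : K) (h : t ≠ 0) :
      Rel (nn (fx C K) α t * fx C K α u * (nn (fx C K) α t)⁻¹ * (fx C K (-α) (t⁻¹ ^ 2 * u))⁻¹)
  | h_mul (α : C.Root) (s t : K) (hs : s ≠ 0) (ht : t ≠ 0) :
      Rel (hh (fx C K) α s * hh (fx C K) α t * (hh (fx C K) α (s * t))⁻¹)

/-- The universal Chevalley group of type `C` over `K` (Steinberg's presentation). -/
def GU : Type u := PresentedGroup {r | Rel C K r}

instance : Group (GU C K) := inferInstanceAs (Group (PresentedGroup {r | Rel C K r}))

/-- The root elements of the universal Chevalley group. -/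
def GU.x (β : C.Root) (t : K) : GU C K :=
  (PresentedGroup.of (β, t) : PresentedGroup {r | Rel C K r})

end GU

/-- `G` is a Chevalley group of type `C`: it is isomorphic to the quotient of the universal Chevalley
group over some field by a central subgroup. -/
def IsChev {n : ℕ} (C : SLC n) (G : Type u) [Group G] : Prop :=
  ∃ (K : Type u) (_ : Field K) (Z : Subgroup (GU C K)) (_ : Z.Normal),
    Z ≤ Subgroup.center (GU C K) ∧ Nonempty (G ≃* GU C K ⧸ Z)

end Pool.Agent.H75.UL
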