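import Pool.Agent.H75.UL.Base

/-!
# Project UL (MP_978914_al), module L1

Commuting root vectors: `[e_α, e_β] = 0` and `ad` is multiplicative.

If `ip α β = 2` then `α = β`. Otherwise `ip α β ∈ {0, 1}`. Compare the entries of `E α * E β` and
`E β * E α` (sums over `Fin n ⊕ Root`, only one term can be nonzero). With `e_δ`, `h_j` the basis:
* on `h_j`: `E_α E_β h_j = -(α_j,β) E_α e_β = 0` since `α + β` is not a root and not `0`;
* on `e_{-β}`: `E_α E_β e_{-β} = -E_α h_β = (β,α) e_α`, and `E_β E_α e_{-β}` is `0` if `ip = 0`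
  (`α - β` is not a root) and `ε(α,-β) ε(β,α-β) e_α = -ε(α,β) ε(β,α) e_α = e_α` if `ip = 1`
  (`eps_swap_of_odd`, `eps_self`, `eps_sub_right`); similarly on `e_{-α}`;
* on `e_δ`, `δ ≠ -α, -β`: the `inl` component of `E_α E_β e_δ` is nonzero only if `δ = -α-β`, but
  `α + β` is not a root. The `e_{α+β+δ}` component: if `α+β+δ` is a root, then
  `2 = 6 + 2 (ip α β + ip α δ + ip β δ)`; for `ip α β = 1` this gives `ip α δ + ip β δ = -3`,
  impossible (one would be `-2`); for `ip α β = 0` both are `-1`, so both paths exist and the signs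
  `ε(β,δ) ε(α,β+δ)` and `ε(α,δ) ε(β,α+δ)` agree because `ε(α,β) = ε(β,α)`.
`hsing` (optional helper): `∑_c` over `C.Idx` splits with `Fintype.sum_sum_type`; see
`SLC.E_mul_E` in Defs for the style.
-/

set_option autoImplicit false
open Matrix
universe u
namespace Pool.Agent.H75.UL

namespace SLC
variable {n : ℕ} (C : SLC n)

private theorem L1_sum (γ α β δ : C.Root) :
    ∑ ρ : C.Root, (if γ.1 = α.1 + ρ.1 then C.eps α.1 ρ.1 else 0) *
      (if ρ.1 = β.1 + δ.1 then C.eps β.1 δ.1 else 0) =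
    if γ.1 = α.1 + (β.1 + δ.1) ∧ C.ip β.1 δ.1 = -1 then
      C.eps α.1 (β.1 + δ.1) * C.eps β.1 δ.1 else 0 := by
  by_cases h : C.ip β.1 δ.1 = -1
  · obtain ⟨ρ0, h0⟩ := C.exists_add β δ h
    rw [Finset.sum_eq_single ρ0]
    · rw [if_pos h0, h0]
      by_cases h1 : γ.1 = α.1 + (β.1 + δ.1)
      · rw [if_pos h1, if_pos ⟨h1, h⟩]
      · rw [if_neg h1, if_neg (fun hc => h1 hc.1), zero_mul]
    · intro ρ _ hne
      rw [if_neg (fun hc : ρ.1 = β.1 + δ.1 => hne (Root.ext (hc.trans h0.symm))), mul_zero]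
    · intro hc
      exact absurd (Finset.mem_univ ρ0) hc
  · rw [if_neg (fun hc => h hc.2)]
    apply Finset.sum_eq_zero
    intro ρ _
    rw [if_neg (fun hc : ρ.1 = β.1 + δ.1 => h (C.ip_add_root β δ ρ hc)), mul_zero]

/-- the entries of the product for `ip α β ≥ 0` -/
private theorem L1_rr (α β γ δ : C.Root) :
    (C.E α * C.E β) (Sum.inr γ) (Sum.inr δ) =
      (if γ.1 = α.1 ∧ δ.1 = -β.1 then C.ip β.1 α.1 else 0) +
      (if γ.1 = α.1 + (β.1 + δ.1) ∧ C.ip β.1 δ.1 = -1 then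
        C.eps α.1 (β.1 + δ.1) * C.eps β.1 δ.1 else 0) := by
  rw [Matrix.mul_apply, Fintype.sum_sum_type]
  simp only [E]
  rw [L1_sum]
  congr 1
  by_cases h1 : γ.1 = α.1
  · by_cases h2 : δ.1 = -β.1
    · rw [if_pos ⟨h1, h2⟩]
      simp only [h1, h2, if_true]
      rw [← C.sum_ip_single β.1 α.1]
      exact Finset.sum_congr rfl fun i _ => by ring
    · rw [if_neg (fun hc => h2 hc.2)]
      simp only [h2, if_false, mul_zero, Finset.sum_const_zero]
  · rw [if_neg (fun hc => h1 hc.1)]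
    simp only [h1, if_false, zero_mul, Finset.sum_const_zero]

private theorem L1_ll (α β : C.Root) (h : 0 ≤ C.ip α.1 β.1) (i j : Fin n) :
    (C.E α * C.E β) (Sum.inl i) (Sum.inl j) = 0 := by
  rw [Matrix.mul_apply, Fintype.sum_sum_type]
  simp only [E, mul_zero, Finset.sum_const_zero, zero_add]
  apply Finset.sum_eq_zero
  intro ρ _
  by_cases h1 : ρ.1 = -α.1
  · by_cases h2 : ρ.1 = β.1
    · exfalso
      have h3 : C.ip α.1 β.1 = -2 := by
        rw [← h2, h1, ip_neg_right, α.2]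
      omega
    · rw [if_neg h2, mul_zero]
  · rw [if_neg h1, zero_mul]

private theorem L1_lr (α β : C.Root) (h : 0 ≤ C.ip α.1 β.1) (i : Fin n) (δ : C.Root) :
    (C.E α * C.E β) (Sum.inl i) (Sum.inr δ) = 0 := by
  rw [Matrix.mul_apply, Fintype.sum_sum_type]
  simp only [E, zero_mul, Finset.sum_const_zero, zero_add]
  apply Finset.sum_eq_zero
  intro ρ _
  by_cases h1 : ρ.1 = -α.1
  · by_cases h2 : ρ.1 = β.1 + δ.1
    · exfalso
      have h3 : (-δ).1 = α.1 + β.1 := by
        rw [Root.neg_val]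
        have h4 := h1.symm.trans h2
        funext k
        have h5 := congrFun h4 k
        simp only [Pi.add_apply, Pi.neg_apply] at h5 ⊢
        omega
      have h6 := C.ip_add_root α β (-δ) h3
      omega
    · rw [if_neg h2, mul_zero]
  · rw [if_neg h1, zero_mul]

private theorem L1_rl (α β : C.Root) (h : 0 ≤ C.ip α.1 β.1) (γ : C.Root) (j : Fin n) :
    (C.E α * C.E β) (Sum.inr γ) (Sum.inl j) = 0 := by
  rw [Matrix.mul_apply, Fintype.sum_sum_type]
  simp only [E, mul_zero, Finset.sum_const_zero, zero_add]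
  apply Finset.sum_eq_zero
  intro ρ _
  by_cases h1 : γ.1 = α.1 + ρ.1
  · by_cases h2 : ρ.1 = β.1
    · exfalso
      rw [h2] at h1
      have h6 := C.ip_add_root α β γ h1
      omega
    · rw [if_neg h2, mul_zero]
  · rw [if_neg h1, zero_mul]

/-- value at `(α, -β)` -/
private theorem L1_case (α β γ δ : C.Root) (hne : α ≠ β) (h : 0 ≤ C.ip α.1 β.1)
    (hγ : γ.1 = α.1 + (β.1 + δ.1)) (hδ : δ.1 = -β.1) :
    (C.E α * C.E β) (Sum.inr γ) (Sum.inr δ) = (C.E β * C.E α) (Sum.inr γ) (Sum.inr δ) := by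
  have hγα : γ.1 = α.1 := by
    rw [hγ, hδ]
    simp
  have hcomm : C.ip β.1 α.1 = C.ip α.1 β.1 := C.ip_comm _ _
  rw [L1_rr, L1_rr, if_pos ⟨hγα, hδ⟩]
  have h1 : ¬ C.ip β.1 δ.1 = -1 := by
    rw [hδ, ip_neg_right, β.2]
    omega
  rw [if_neg (fun hc => h1 hc.2), add_zero]
  have h2 : ¬ γ.1 = β.1 := by
    intro hc
    exact hne (Root.ext (hγα.symm.trans hc))
  rw [if_neg (fun hc => h2 hc.1), zero_add, hcomm]
  have hγ' : γ.1 = β.1 + (α.1 + δ.1) := by
    rw [hγ]
    abel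
  have hle : C.ip α.1 β.1 ≠ 2 := fun hc => hne ((C.ip_eq_two_iff α β).1 hc)
  have hle2 := C.ip_le_two α β
  have hip : C.ip α.1 δ.1 = - C.ip α.1 β.1 := by rw [hδ, ip_neg_right]
  by_cases h3 : C.ip α.1 β.1 = 1
  · rw [if_pos ⟨hγ', by rw [hip, h3]⟩, h3, hδ, ← sub_eq_add_neg, C.eps_sub_right, C.eps_neg_right,
      C.eps_self, C.eps_swap_of_odd α.1 β.1 (Or.inl h3)]
    have := C.eps_sq α.1 β.1
    linarith
  · rw [if_neg (fun hc => h3 (by have := hc.2; rw [hip] at this; omega))]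
    omega

theorem E_comm (α β : C.Root) (h : 0 ≤ C.ip α.1 β.1) :
    C.E α * C.E β = C.E β * C.E α := by
  have hcomm : C.ip β.1 α.1 = C.ip α.1 β.1 := C.ip_comm _ _
  have h' : 0 ≤ C.ip β.1 α.1 := by rw [hcomm]; exact h
  by_cases hne : α = β
  · rw [hne]
  ext a b
  rcases a with i | γ <;> rcases b with j | δ
  · rw [C.L1_ll α β h, C.L1_ll β α h']
  · rw [C.L1_lr α β h, C.L1_lr β α h']
  · rw [C.L1_rl α β h, C.L1_rl β α h']
  · by_cases hγ : γ.1 = α.1 + (β.1 + δ.1)
    · have hγ' : γ.1 = β.1 + (α.1 + δ.1) := by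
        rw [hγ]
        abel
      by_cases h1 : δ.1 = -β.1
      · exact C.L1_case α β γ δ hne h hγ h1
      · by_cases h2 : δ.1 = -α.1
        · exact (C.L1_case β α γ δ (Ne.symm hne) h' hγ' h2).symm
        · -- the third case
          have z1 : (if γ.1 = α.1 ∧ δ.1 = -β.1 then C.ip β.1 α.1 else 0) = 0 :=
            if_neg (fun hc => h1 hc.2)
          have z2 : (if γ.1 = β.1 ∧ δ.1 = -α.1 then C.ip α.1 β.1 else 0) = 0 :=
            if_neg (fun hc => h2 hc.2)
          rw [L1_rr, L1_rr, z1, z2, zero_add, zero_add]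
          have hnorm := γ.2
          rw [hγ] at hnorm
          simp only [ip_add_left, ip_add_right, α.2, β.2, δ.2, hcomm, C.ip_comm δ.1 α.1,
            C.ip_comm δ.1 β.1] at hnorm
          have g1 := C.neg_two_le_ip α δ
          have g2 := C.neg_two_le_ip β δ
          have g3 : C.ip α.1 δ.1 ≠ -2 := by
            intro hc
            have := (C.ip_eq_neg_two_iff α δ).1 hc
            exact h2 (by rw [this, Root.neg_val])
          have g4 : C.ip β.1 δ.1 ≠ -2 := by
            intro hc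
            have := (C.ip_eq_neg_two_iff β δ).1 hc
            exact h1 (by rw [this, Root.neg_val])
          have e1 : C.ip α.1 δ.1 = -1 := by omega
          have e2 : C.ip β.1 δ.1 = -1 := by omega
          have e3 : C.ip α.1 β.1 = 0 := by omega
          rw [if_pos ⟨hγ, e2⟩, if_pos ⟨hγ', e1⟩, C.eps_add_right, C.eps_add_right,
            C.eps_swap_of_zero α.1 β.1 e3]
          ring
    · have hγ' : ¬ γ.1 = β.1 + (α.1 + δ.1) := by
        intro hc
        apply hγ
        rw [hc]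
        abel
      have z1 : (if γ.1 = α.1 ∧ δ.1 = -β.1 then C.ip β.1 α.1 else 0) = 0 := by
        apply if_neg
        rintro ⟨h1, h2⟩
        apply hγ
        rw [h1, h2]
        simp
      have z2 : (if γ.1 = β.1 ∧ δ.1 = -α.1 then C.ip α.1 β.1 else 0) = 0 := by
        apply if_neg
        rintro ⟨h1, h2⟩
        apply hγ'
        rw [h1, h2]
        simp
      have z3 : (if γ.1 = α.1 + (β.1 + δ.1) ∧ C.ip β.1 δ.1 = -1 then
        C.eps α.1 (β.1 + δ.1) * C.eps β.1 δ.1 else 0) = 0 := if_neg (fun hc => hγ hc.1)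
      have z4 : (if γ.1 = β.1 + (α.1 + δ.1) ∧ C.ip α.1 δ.1 = -1 then
        C.eps β.1 (α.1 + δ.1) * C.eps α.1 δ.1 else 0) = 0 := if_neg (fun hc => hγ' hc.1)
      rw [L1_rr, L1_rr, z1, z2, z3, z4]

end SLC

end Pool.Agent.H75.UL
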