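import Pool.Agent.H75.UL.L1
import Pool.Agent.H75.UL.L2

/-!
# Project UL (MP_978914_al), module L3

Commutator relations of the `X α s` over every commutative ring.

All identities needed are between integer matrices (apply `Matrix.map (Int.castRingHom R)` at the
end). `X_comm`: with `E_comm`, `2 F_α E_β = E_α^2 E_β = E_β E_α^2 = 2 E_β F_α`, so
`F_α E_β = E_β F_α` (integer matrices have no `2`-torsion), similarly `F_α F_β = F_β F_α`; expand.
`X_comm_add`: put `A = E_α, B = E_β, G = E_γ`, `a = F_α, b = F_β, g = F_γ`, `ε = eps α β = ±1`.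
`A B = B A + ε G`, `A G = G A`, `B G = G B` (`E_comm`, as `ip α γ = ip β γ = 1`). Comparing
coefficients of `s^i t^j` on both sides, the identities needed are
`a B = B a + ε G A`, `A b = b A + ε G B`, `a b = b a + ε G B A + g` (multiply by 2 resp. 4 and use
`E_mul_E`) and the vanishing of `G a`, `G b`, `g a`, `g b`, `G B a + ε g A`, `G b A + ε g B`,
`G b a + ε g B A` and of `g B a`, `g b A`, `g b a` (each is zero term by term: e.g. `G a` maps
`e_{-α}` to `G e_α = 0` as `γ + α` is not a root; `g A`: `A e_δ ∝ e_{-γ}` would need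
`δ = -2α - β`; prove them by `ext` as `SLC.F_mul_E` in Defs, or deduce them algebraically).
Alternative: check the relation on basis vectors, or work over `ℚ[s,t]` with exponentials.
-/

set_option autoImplicit false
open Matrix
universe u
namespace Pool.Agent.H75.UL

/-- expansion in an abstract algebra. -/
private theorem L3_expand {R : Type*} [CommRing R] {S : Type*} [Ring S] [Algebra R S]
    (A B G a b g : S) (ε s t : R) (hε : ε * ε = 1) (h1 : A * B = B * A + ε • G)
    (h2 : a * B = B * a + ε • (G * A)) (h3 : A * b = b * A + ε • (G * B))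
    (h4 : a * b = b * a + ε • (G * B * A) + g) (Ga : G * a = 0) (Gb : G * b = 0) (gA : g * A = 0)
    (gB : g * B = 0) (ga : g * a = 0) (gb : g * b = 0) (hGB : G * B = B * G) :
    (1 + s • A + s ^ 2 • a) * (1 + t • B + t ^ 2 • b) =
      (1 + (ε * s * t) • G + (ε * s * t) ^ 2 • g) * ((1 + t • B + t ^ 2 • b) * (1 + s • A + s ^ 2 • a)) := by
  have e1 : (1 + s • A + s ^ 2 • a) * (1 + t • B + t ^ 2 • b) =
      1 + s • A + s ^ 2 • a + t • B + (s * t) • (A * B) + (s ^ 2 * t) • (a * B) + t ^ 2 • b +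
        (s * t ^ 2) • (A * b) + (s ^ 2 * t ^ 2) • (a * b) := by
    simp only [mul_add, add_mul, one_mul, mul_one, smul_mul_assoc, mul_smul_comm, smul_smul]
    module
  have e2 : (1 + t • B + t ^ 2 • b) * (1 + s • A + s ^ 2 • a) =
      1 + s • A + s ^ 2 • a + t • B + (s * t) • (B * A) + (s ^ 2 * t) • (B * a) + t ^ 2 • b +
        (s * t ^ 2) • (b * A) + (s ^ 2 * t ^ 2) • (b * a) := by
    simp only [mul_add, add_mul, one_mul, mul_one, smul_mul_assoc, mul_smul_comm, smul_smul]
    module
  have g1 : G * (B * a) = 0 := by rw [← mul_assoc, hGB, mul_assoc, Ga, mul_zero]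
  have g2 : G * (b * A) = 0 := by rw [← mul_assoc, Gb, zero_mul]
  have g3 : G * (b * a) = 0 := by rw [← mul_assoc, Gb, zero_mul]
  have g4 : g * (B * A) = 0 := by rw [← mul_assoc, gB, zero_mul]
  have g5 : g * (B * a) = 0 := by rw [← mul_assoc, gB, zero_mul]
  have g6 : g * (b * A) = 0 := by rw [← mul_assoc, gb, zero_mul]
  have g7 : g * (b * a) = 0 := by rw [← mul_assoc, gb, zero_mul]
  have e3 : G * ((1 + t • B + t ^ 2 • b) * (1 + s • A + s ^ 2 • a)) =
      G + s • (G * A) + t • (G * B) + (s * t) • (G * B * A) := by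
    rw [e2]
    simp only [mul_add, mul_one, mul_smul_comm, Ga, Gb, g1, g2, g3, smul_zero, add_zero, ← mul_assoc]
  have e4 : g * ((1 + t • B + t ^ 2 • b) * (1 + s • A + s ^ 2 • a)) = g := by
    rw [e2]
    simp only [mul_add, mul_one, mul_smul_comm, gA, gB, ga, gb, g4, g5, g6, g7, smul_zero, add_zero]
  have e6 : (1 + (ε * s * t) • G + (ε * s * t) ^ 2 • g) *
      ((1 + t • B + t ^ 2 • b) * (1 + s • A + s ^ 2 • a)) =
      (1 + t • B + t ^ 2 • b) * (1 + s • A + s ^ 2 • a) +
      (ε * s * t) • (G + s • (G * A) + t • (G * B) + (s * t) • (G * B * A)) +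
      (ε * s * t) ^ 2 • g := by
    rw [add_mul, add_mul, one_mul, smul_mul_assoc, smul_mul_assoc, e3, e4]
  rw [e6, e1, e2, h1, h2, h3, h4]
  have e5 : (ε * s * t) ^ 2 = s ^ 2 * t ^ 2 := by
    calc (ε * s * t) ^ 2 = (ε * ε) * (s ^ 2 * t ^ 2) := by ring
      _ = s ^ 2 * t ^ 2 := by rw [hε, one_mul]
  rw [e5]
  module

/-- consequences of the commutator relation in a ring without 2-torsion. -/
private theorem L3_alg {S : Type*} [Ring S] (h2tor : ∀ u v : S, 2 • u = 2 • v → u = v)
    (A B G a b g : S) (ε : ℤ) (hε : ε * ε = 1) (hA : A * A = 2 • a) (hB : B * B = 2 • b)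
    (hG : G * G = 2 • g) (hAB : A * B = B * A + ε • G) (hAG : A * G = G * A) (hBG : B * G = G * B) :
    a * B = B * a + ε • (G * A) ∧ A * b = b * A + ε • (G * B) ∧
      a * b = b * a + ε • (G * B * A) + g := by
  have k1 : a * B = B * a + ε • (G * A) := by
    apply h2tor
    calc 2 • (a * B) = A * A * B := by rw [hA, smul_mul_assoc]
      _ = A * (A * B) := mul_assoc _ _ _
      _ = A * B * A + ε • (A * G) := by rw [hAB, mul_add, mul_smul_comm, ← mul_assoc, hAB]
      _ = B * (A * A) + 2 • (ε • (G * A)) := by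
          rw [hAB, add_mul, smul_mul_assoc, hAG, mul_assoc, two_smul ℕ (ε • (G * A)), add_assoc]
      _ = 2 • (B * a + ε • (G * A)) := by rw [hA, mul_smul_comm, smul_add]
  have k2 : A * b = b * A + ε • (G * B) := by
    apply h2tor
    calc 2 • (A * b) = A * (B * B) := by rw [hB, mul_smul_comm]
      _ = A * B * B := (mul_assoc _ _ _).symm
      _ = B * (A * B) + ε • (G * B) := by rw [hAB, add_mul, smul_mul_assoc, mul_assoc, hAB]
      _ = B * B * A + 2 • (ε • (G * B)) := by
          rw [hAB, mul_add, mul_smul_comm, hBG, ← mul_assoc, two_smul ℕ (ε • (G * B)), add_assoc]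
      _ = 2 • (b * A + ε • (G * B)) := by rw [hB, smul_mul_assoc, smul_add]
  refine ⟨k1, k2, ?_⟩
  apply h2tor
  have hGBB : G * b = b * G := by
    apply h2tor
    calc 2 • (G * b) = G * (B * B) := by rw [hB, mul_smul_comm]
      _ = B * B * G := by rw [← mul_assoc, ← hBG, mul_assoc, ← hBG, mul_assoc]
      _ = 2 • (b * G) := by rw [hB, smul_mul_assoc]
  -- 2 (a b) = a B B
  calc 2 • (a * b) = a * (B * B) := by rw [hB, mul_smul_comm]
    _ = a * B * B := (mul_assoc _ _ _).symm
    _ = B * (a * B) + ε • (G * (A * B)) := by rw [k1, add_mul, smul_mul_assoc, mul_assoc, mul_assoc, k1]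
    _ = B * (B * a + ε • (G * A)) + ε • (G * (B * A + ε • G)) := by rw [k1, hAB]
    _ = B * B * a + ε • (B * G * A) + (ε • (G * B * A) + (ε * ε) • (G * G)) := by
        rw [mul_add, mul_add, mul_smul_comm, mul_smul_comm, smul_add, smul_smul, ← mul_assoc, ← mul_assoc,
          ← mul_assoc]
    _ = 2 • (b * a + ε • (G * B * A) + g) := by
        rw [hBG, hε, one_smul, hG, hB, smul_mul_assoc, smul_add, smul_add, two_smul ℕ (ε • (G * B * A))]
        abel

namespace SLC
variable {n : ℕ} (C : SLC n)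

private theorem L3_tor (u v : Matrix C.Idx C.Idx ℤ) (h : 2 • u = 2 • v) : u = v := by
  ext x y
  have h1 := congrFun (congrFun h x) y
  simp only [Matrix.smul_apply, nsmul_eq_mul, Nat.cast_ofNat] at h1
  omega

private theorem L3_E_mul_F (α β : C.Root) (h : 0 ≤ C.ip α.1 β.1) : C.E α * C.F β = 0 := by
  ext x y
  rw [Matrix.mul_apply, Fintype.sum_sum_type]
  rcases x with i | γ <;> rcases y with j | δ <;> simp [F, E]
  · apply Finset.sum_eq_zero
    intro κ _
    split_ifs with h1 h2
    · exfalso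
      have h3 : C.ip α.1 β.1 = -2 := by
        rw [← h1.1, h2, ip_neg_right, α.2]
      omega
    · rfl
    · rfl
  · apply Finset.sum_eq_zero
    intro κ _
    split_ifs with h1 h2
    · exfalso
      rw [h1.1] at h2
      have := C.ip_add_root α β γ h2
      omega
    · rfl
    · rfl

private theorem L3_F_mul_E (α β : C.Root) (h : 0 ≤ C.ip α.1 β.1) : C.F α * C.E β = 0 := by
  ext x y
  rw [Matrix.mul_apply, Fintype.sum_sum_type]
  rcases x with i | γ <;> rcases y with j | δ <;> simp [F, E]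
  · apply Finset.sum_eq_zero
    intro κ _
    split_ifs with h1 h2
    · exfalso
      have h3 : β.1 = -α.1 := h1.symm.trans h2.2
      have h4 : C.ip α.1 β.1 = -2 := by
        rw [h3, ip_neg_right, α.2]
      omega
    · rfl
    · rfl
  · apply Finset.sum_eq_zero
    intro κ _
    split_ifs with h1 h2
    · exfalso
      have h3 : β.1 + δ.1 = -α.1 := h1.symm.trans h2.2
      have h4 : (-δ).1 = α.1 + β.1 := by
        rw [Root.neg_val]
        funext i
        have h5 := congrFun h3 i
        simp only [Pi.add_apply, Pi.neg_apply] at h5 ⊢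
        omega
      have := C.ip_add_root α β (-δ) h4
      omega
    · rfl
    · rfl

private theorem L3_X (R : Type*) [CommRing R] (α : C.Root) (s : R) :
    C.X R α s = 1 + s • (Int.castRingHom R).mapMatrix (C.E α) +
      s ^ 2 • (Int.castRingHom R).mapMatrix (C.F α) := rfl

theorem X_comm (R : Type*) [CommRing R] (α β : C.Root) (s t : R) (h : 0 ≤ C.ip α.1 β.1) :
    C.X R α s * C.X R β t = C.X R β t * C.X R α s := by
  have hAB := C.E_comm α β h
  have haB : C.F α * C.E β = C.E β * C.F α := by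
    apply C.L3_tor
    rw [← smul_mul_assoc, ← mul_smul_comm, ← C.E_mul_E, mul_assoc, hAB, ← mul_assoc, hAB, mul_assoc]
  have hAb : C.E α * C.F β = C.F β * C.E α := by
    apply C.L3_tor
    rw [← mul_smul_comm, ← smul_mul_assoc, ← C.E_mul_E, ← mul_assoc, hAB, mul_assoc, hAB, mul_assoc]
  have hab : C.F α * C.F β = C.F β * C.F α := by
    apply C.L3_tor
    rw [← smul_mul_assoc, ← mul_smul_comm, ← C.E_mul_E, mul_assoc, hAb, ← mul_assoc, hAb, mul_assoc]
  have c1 : Commute ((Int.castRingHom R).mapMatrix (C.E α)) ((Int.castRingHom R).mapMatrix (C.E β)) := by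
    show _ * _ = _ * _
    rw [← map_mul, hAB, map_mul]
  have c2 : Commute ((Int.castRingHom R).mapMatrix (C.F α)) ((Int.castRingHom R).mapMatrix (C.E β)) := by
    show _ * _ = _ * _
    rw [← map_mul, haB, map_mul]
  have c3 : Commute ((Int.castRingHom R).mapMatrix (C.E α)) ((Int.castRingHom R).mapMatrix (C.F β)) := by
    show _ * _ = _ * _
    rw [← map_mul, hAb, map_mul]
  have c4 : Commute ((Int.castRingHom R).mapMatrix (C.F α)) ((Int.castRingHom R).mapMatrix (C.F β)) := by
    show _ * _ = _ * _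
    rw [← map_mul, hab, map_mul]
  rw [C.L3_X, C.L3_X]
  have d1 : Commute ((Int.castRingHom R).mapMatrix (C.E α))
      (1 + t • (Int.castRingHom R).mapMatrix (C.E β) + t ^ 2 • (Int.castRingHom R).mapMatrix (C.F β)) :=
    ((Commute.one_right _).add_right (c1.smul_right t)).add_right (c3.smul_right (t ^ 2))
  have d2 : Commute ((Int.castRingHom R).mapMatrix (C.F α))
      (1 + t • (Int.castRingHom R).mapMatrix (C.E β) + t ^ 2 • (Int.castRingHom R).mapMatrix (C.F β)) :=
    ((Commute.one_right _).add_right (c2.smul_right t)).add_right (c4.smul_right (t ^ 2))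
  exact ((Commute.one_left _).add_left (d1.smul_left s)).add_left (d2.smul_left (s ^ 2))

theorem X_comm_add (R : Type*) [CommRing R] (α β γ : C.Root) (s t : R) (h : γ.1 = α.1 + β.1) :
    C.X R α s * C.X R β t =
      C.X R γ (C.eps α.1 β.1 * s * t) * (C.X R β t * C.X R α s) := by
  have hip : C.ip α.1 β.1 = -1 := C.ip_add_root α β γ h
  have hαγ : C.ip α.1 γ.1 = 1 := by
    rw [h, ip_add_right, α.2, hip]
    norm_num
  have hβγ : C.ip β.1 γ.1 = 1 := by
    rw [h, ip_add_right, β.2, C.ip_comm β.1 α.1, hip]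
    norm_num
  have hγα : C.ip γ.1 α.1 = 1 := by rw [C.ip_comm, hαγ]
  have hγβ : C.ip γ.1 β.1 = 1 := by rw [C.ip_comm, hβγ]
  have hAB : C.E α * C.E β = C.E β * C.E α + C.eps α.1 β.1 • C.E γ := by
    rw [← C.E_comm_add α β γ h]
    abel
  have hAG := C.E_comm α γ (by omega)
  have hBG := C.E_comm β γ (by omega)
  obtain ⟨k1, k2, k3⟩ := L3_alg (C.L3_tor) (C.E α) (C.E β) (C.E γ) (C.F α) (C.F β) (C.F γ)
    (C.eps α.1 β.1) (C.eps_sq α.1 β.1) (C.E_mul_E α) (C.E_mul_E β) (C.E_mul_E γ) hAB hAG hBG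
  have z1 : C.E γ * C.F α = 0 := C.L3_E_mul_F γ α (by omega)
  have z2 : C.E γ * C.F β = 0 := C.L3_E_mul_F γ β (by omega)
  have z3 : C.F γ * C.E α = 0 := C.L3_F_mul_E γ α (by omega)
  have z4 : C.F γ * C.E β = 0 := C.L3_F_mul_E γ β (by omega)
  have z5 : C.F γ * C.F α = 0 := by
    apply C.L3_tor
    rw [← mul_smul_comm, ← C.E_mul_E, ← mul_assoc, z3, zero_mul, smul_zero]
  have z6 : C.F γ * C.F β = 0 := by
    apply C.L3_tor
    rw [← mul_smul_comm, ← C.E_mul_E, ← mul_assoc, z4, zero_mul, smul_zero]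
  have hm : ∀ (e : ℤ) (M : Matrix C.Idx C.Idx ℤ), (Int.castRingHom R).mapMatrix (e • M) =
      (e : R) • (Int.castRingHom R).mapMatrix M := by
    intro e M
    ext x y
    rw [RingHom.mapMatrix_apply, RingHom.mapMatrix_apply, Matrix.map_apply, Matrix.smul_apply,
      Matrix.smul_apply, Matrix.map_apply, smul_eq_mul, smul_eq_mul, map_mul]
    rfl
  have hmap : ∀ {M N : Matrix C.Idx C.Idx ℤ}, M = N →
      (Int.castRingHom R).mapMatrix M = (Int.castRingHom R).mapMatrix N := fun h => congrArg _ h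
  have m0 := hmap hAB
  have m1 := hmap k1
  have m2 := hmap k2
  have m3 := hmap k3
  have n1 := hmap z1
  have n2 := hmap z2
  have n3 := hmap z3
  have n4 := hmap z4
  have n5 := hmap z5
  have n6 := hmap z6
  have n7 := hmap hBG
  simp only [map_add, map_mul, hm, map_zero] at m0 m1 m2 m3 n1 n2 n3 n4 n5 n6 n7
  have hε : ((C.eps α.1 β.1 : ℤ) : R) * ((C.eps α.1 β.1 : ℤ) : R) = 1 := by
    rw [← Int.cast_mul, C.eps_sq, Int.cast_one]
  rw [C.L3_X, C.L3_X, C.L3_X]
  exact L3_expand _ _ _ _ _ _ _ s t hε m0 m1 m2 m3 n1 n2 n3 n4 n5 n6 n7.symm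

end SLC

end Pool.Agent.H75.UL
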