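import Pool.Agent.H75.UL.Base

/-!
# Project UL (MP_978914_al), module L4

Explicit matrices of `n_α(t)` and `h_α(t)` in the adjoint group.

`nn_xg`: compute `X α t * X (-α) t⁻¹ * X α t` on the basis (columns).
* `ip α β = 0`: everything fixes `e_β`. `ip α β = -1`: `e_β ↦ e_β + ε t e_{α+β} ↦
  e_β + ε t e_{α+β} + ε ε(-α,α+β) e_β = ε t e_{α+β} ↦ ε t e_{α+β}` with `ε = eps α β` (since
  `ε(-α,α+β) = ε(α,α) ε(α,β) = -ε`). `ip α β = 1`: `e_β ↦ e_β ↦ e_β + ε t⁻¹ e_{β-α} ↦
  ε t⁻¹ e_{β-α}`. `β = α`: `e_α ↦ e_α ↦ e_α + t⁻¹ h_α + t⁻² e_{-α} ↦ t⁻² e_{-α}`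
  (`X (-α) u e_α = e_α - u h_{-α} + u^2 e_{-α}`, `X α t h_α = h_α - 2 t e_α`,
  `X α t e_{-α} = e_{-α} - t h_α + t^2 e_α`). `β = -α`: `↦ t^2 e_α`.
* `h_j ↦ h_j - (α_j,α) h_α`.
(Style: see `SLC.E_mul_E` in Defs. It may help to prove first the formulas for `X α t *ᵥ` on
`Pi.single (inr β) 1` and `Pi.single (inl j) 1`, and that a matrix is determined by these.)
`hh_xg`: from `nn_xg`: `e_β ↦ cs(α,β) (-1)^{-(α,β)} e_{sβ} ↦ cs(α,β) cs(α,sβ) (-1)^{(α,β)} t^{(α,β)} e_β`
and the sign is `1` in all five cases; `h_j` is fixed (the reflection applied twice).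
-/

set_option autoImplicit false
open Matrix
universe u
namespace Pool.Agent.H75.UL

namespace SLC
variable {n : ℕ} (C : SLC n)

section aux
variable {K : Type*} [Field K]

private def L4_e (K : Type*) [Field K] (β : C.Root) : C.Idx → K := Pi.single (Sum.inr β) 1

private def L4_h (K : Type*) [Field K] (v : Fin n → ℤ) : C.Idx → K :=
  Sum.elim (fun i => (v i : K)) (fun _ => 0)

private theorem L4_e_inl (β : C.Root) (i : Fin n) : C.L4_e K β (Sum.inl i) = 0 := by
  simp [L4_e]

private theorem L4_e_inr (β γ : C.Root) :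
    C.L4_e K β (Sum.inr γ) = if γ = β then 1 else 0 := by
  simp [L4_e, Pi.single_apply]

private theorem L4_h_inl (v : Fin n → ℤ) (i : Fin n) : C.L4_h K v (Sum.inl i) = (v i : K) := rfl

private theorem L4_h_inr (v : Fin n → ℤ) (γ : C.Root) : C.L4_h K v (Sum.inr γ) = 0 := rfl

private theorem L4_mulVec_e (M : Matrix C.Idx C.Idx K) (β : C.Root) :
    M *ᵥ C.L4_e K β = fun a => M a (Sum.inr β) := by
  unfold L4_e
  rw [Matrix.mulVec_single_one]
  rfl

private theorem L4_mulVec_h (M : Matrix C.Idx C.Idx K) (v : Fin n → ℤ) :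
    M *ᵥ C.L4_h K v = fun a => ∑ j, M a (Sum.inl j) * (v j : K) := by
  funext a
  simp [Matrix.mulVec, dotProduct, L4_h, Fintype.sum_sum_type]

private theorem L4_ext (M N : Matrix C.Idx C.Idx K) (h1 : ∀ v, M *ᵥ C.L4_h K v = N *ᵥ C.L4_h K v)
    (h2 : ∀ β, M *ᵥ C.L4_e K β = N *ᵥ C.L4_e K β) : M = N := by
  ext a b
  rcases b with j | β
  · have := congrFun (h1 (Pi.single j 1)) a
    rw [L4_mulVec_h, L4_mulVec_h] at this
    simpa [Pi.single_apply] using this
  · have := congrFun (h2 β) a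
    rw [L4_mulVec_e, L4_mulVec_e] at this
    exact this

private theorem L4_X_apply (α : C.Root) (t : K) (a b : C.Idx) :
    C.X K α t a b = (if a = b then 1 else 0) + t * (C.E α a b : K) + t ^ 2 * (C.F α a b : K) := by
  simp [X, Matrix.one_apply]

private theorem L4_ne_neg (α β : C.Root) (h : C.ip α.1 β.1 ≠ -2) : β.1 ≠ -α.1 := by
  intro h1
  apply h
  rw [h1, ip_neg_right, α.2]

/-- `X α t e_β = e_β` if `ip α β ≥ 0`. -/
private theorem L4_X_zero (α β : C.Root) (t : K) (h : 0 ≤ C.ip α.1 β.1) :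
    C.X K α t *ᵥ C.L4_e K β = C.L4_e K β := by
  rw [L4_mulVec_e]
  funext a
  have h1 := C.L4_ne_neg α β (by omega)
  rcases a with i | γ
  · simp [L4_X_apply, L4_e_inl, E, F, h1]
  · have h2 : γ.1 ≠ α.1 + β.1 := by
      intro h2
      have := C.ip_add_root α β γ h2
      omega
    simp [L4_X_apply, L4_e_inr, E, F, h1, h2]

/-- `X α t e_β = e_β + t ε e_{α+β}`. -/
private theorem L4_X_add (α β γ : C.Root) (t : K) (h : γ.1 = α.1 + β.1) :
    C.X K α t *ᵥ C.L4_e K β = C.L4_e K β + (t * (C.eps α.1 β.1 : K)) • C.L4_e K γ := by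
  rw [L4_mulVec_e]
  funext a
  have h1 := C.L4_ne_neg α β (by rw [C.ip_add_root α β γ h]; norm_num)
  rcases a with i | δ
  · simp [L4_X_apply, L4_e_inl, E, F, h1]
  · have h2 : δ.1 = α.1 + β.1 ↔ δ = γ := by
      rw [← h]
      exact Root.ext_iff.symm
    simp only [L4_X_apply, L4_e_inr, E, F, h1, h2, and_false, if_false, Int.cast_zero, mul_zero,
      add_zero, Pi.add_apply, Pi.smul_apply, smul_eq_mul, Sum.inr.injEq]
    by_cases h3 : δ = γ
    · simp [h3]
    · simp [h3]

/-- `X α t e_{-α} = e_{-α} - t h_α + t^2 e_α`. -/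
private theorem L4_X_neg (α : C.Root) (t : K) :
    C.X K α t *ᵥ C.L4_e K (-α) =
      C.L4_e K (-α) - t • C.L4_h K α.1 + t ^ 2 • C.L4_e K α := by
  rw [L4_mulVec_e]
  funext a
  rcases a with i | δ
  · simp [L4_X_apply, L4_e_inl, L4_h_inl, E, F]
  · have h2 : ¬ (δ.1 = α.1 + -α.1) := by
      rw [add_neg_cancel]
      exact C.root_ne_zero δ
    have h3 : δ.1 = α.1 ↔ δ = α := Root.ext_iff.symm
    simp only [L4_X_apply, L4_e_inr, L4_h_inr, E, F, h3, Root.neg_val, and_true,
      mul_zero, Pi.add_apply, Pi.sub_apply, Pi.smul_apply, smul_eq_mul, Sum.inr.injEq, sub_zero]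
    rw [if_neg h2]
    by_cases h4 : δ = α
    · simp [h4]
    · simp [h4]

private theorem L4_X_neg' (α : C.Root) (t : K) :
    C.X K (-α) t *ᵥ C.L4_e K α = C.L4_e K α + t • C.L4_h K α.1 + t ^ 2 • C.L4_e K (-α) := by
  have h3 := C.L4_X_neg (-α) t
  rw [C.neg_neg_root] at h3
  rw [h3]
  have h4 : C.L4_h K (-α).1 = - C.L4_h K α.1 := by
    funext a
    rcases a with i | δ
    · simp [L4_h_inl]
    · simp [L4_h_inr]
  rw [h4]
  module

/-- `X α t h_v = h_v - t (v,α) e_α`. -/
private theorem L4_X_h (α : C.Root) (t : K) (v : Fin n → ℤ) :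
    C.X K α t *ᵥ C.L4_h K v = C.L4_h K v - (t * (C.ip v α.1 : K)) • C.L4_e K α := by
  rw [L4_mulVec_h]
  funext a
  rcases a with i | δ
  · simp [L4_X_apply, L4_e_inl, L4_h_inl, E, F]
  · have h3 : δ.1 = α.1 ↔ δ = α := Root.ext_iff.symm
    simp only [L4_X_apply, L4_e_inr, L4_h_inr, E, F, h3, Pi.sub_apply, Pi.smul_apply, smul_eq_mul,
      reduceCtorEq, if_false, zero_add, Int.cast_zero, mul_zero, add_zero, zero_sub]
    by_cases h4 : δ = α
    · simp only [h4, if_true, mul_one]
      rw [← C.sum_ip_single v α.1, Int.cast_sum, Finset.mul_sum, ← Finset.sum_neg_distrib]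
      refine Finset.sum_congr rfl fun j _ => ?_
      push_cast
      ring
    · simp [h4]

private theorem L4_nmat_h (α : C.Root) (t : K) (v : Fin n → ℤ) :
    C.nmat K α t *ᵥ C.L4_h K v = C.L4_h K (v - C.ip v α.1 • α.1) := by
  rw [L4_mulVec_h]
  funext a
  rcases a with i | δ
  · simp only [nmat, L4_h_inl, Pi.sub_apply, Pi.smul_apply, smul_eq_mul]
    rw [← C.sum_ip_single v α.1]
    push_cast
    rw [Finset.sum_mul]
    simp only [sub_mul, ite_mul, one_mul, zero_mul, Finset.sum_sub_distrib,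
      Finset.sum_ite_eq, Finset.mem_univ, if_true]
    congr 1
    refine Finset.sum_congr rfl fun j _ => ?_
    ring
  · simp [nmat, L4_h_inr]

private theorem L4_nmat_e (α β : C.Root) (t : K) : C.nmat K α t *ᵥ C.L4_e K β =
    ((C.cs α β : K) * t ^ (- C.ip α.1 β.1)) • C.L4_e K (C.refl α β) := by
  rw [L4_mulVec_e]
  funext a
  rcases a with i | δ
  · simp [nmat, L4_e_inl]
  · simp [nmat, L4_e_inr]

end aux

theorem nn_xg (K : Type*) [Field K] (α : C.Root) (t : K) (ht : t ≠ 0) :
    ((nn (C.xg K) α t : GL C.Idx K) : Matrix C.Idx C.Idx K) = C.nmat K α t := by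
  have h0 : ((nn (C.xg K) α t : GL C.Idx K) : Matrix C.Idx C.Idx K) =
      C.X K α t * C.X K (-α) t⁻¹ * C.X K α t := rfl
  rw [h0]
  refine C.L4_ext _ _ (fun v => ?_) (fun β => ?_)
  · have h1 : C.nmat K α t *ᵥ C.L4_h K v = C.L4_h K v - (C.ip v α.1 : K) • C.L4_h K α.1 := by
      rw [L4_nmat_h]
      funext a
      rcases a with i | δ
      · simp [L4_h_inl]
      · simp [L4_h_inr]
    rw [h1, ← Matrix.mulVec_mulVec, ← Matrix.mulVec_mulVec, L4_X_h, Matrix.mulVec_sub,
      Matrix.mulVec_smul, L4_X_h]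
    have h2 := C.L4_X_neg' α t⁻¹
    have h5 : (C.ip v (-α).1 : K) = -(C.ip v α.1 : K) := by
      rw [Root.neg_val, ip_neg_right]
      push_cast
      ring
    rw [h2, h5]
    have h6 : C.L4_h K v - (t⁻¹ * -(C.ip v α.1 : K)) • C.L4_e K (-α) -
        (t * (C.ip v α.1 : K)) • (C.L4_e K α + t⁻¹ • C.L4_h K α.1 + t⁻¹ ^ 2 • C.L4_e K (-α)) =
        C.L4_h K v - (C.ip v α.1 : K) • C.L4_h K α.1 - (t * (C.ip v α.1 : K)) • C.L4_e K α := by
      have h7 : (t * (C.ip v α.1 : K)) • (t⁻¹ • C.L4_h K α.1) =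
          (C.ip v α.1 : K) • C.L4_h K α.1 := by
        rw [smul_smul]
        congr 1
        field_simp
      have h8 : (t * (C.ip v α.1 : K)) • (t⁻¹ ^ 2 • C.L4_e K (-α)) =
          (t⁻¹ * (C.ip v α.1 : K)) • C.L4_e K (-α) := by
        rw [smul_smul]
        congr 1
        field_simp
      rw [smul_add, smul_add, h7, h8]
      module
    rw [h6, Matrix.mulVec_sub, Matrix.mulVec_sub, Matrix.mulVec_smul, Matrix.mulVec_smul, L4_X_h,
      L4_X_h, C.L4_X_zero α α t (by rw [α.2]; norm_num), α.2]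
    push_cast
    module
  · rw [L4_nmat_e, ← Matrix.mulVec_mulVec, ← Matrix.mulVec_mulVec]
    rcases C.ip_cases α β with h | h | h | h | h
    · -- `β = -α`
      have hβ := (C.ip_eq_neg_two_iff α β).mp h
      subst hβ
      have hc : C.cs α (-α) = 1 := by
        unfold cs
        rw [if_neg]
        rw [h]
        norm_num
      have hr : C.refl α (-α) = α := by
        rw [refl_neg, refl_self, neg_neg_root]
      have hp : t ^ (- C.ip α.1 (-α).1) = t ^ 2 := by
        rw [h]
        norm_num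
      have h2 : C.ip α.1 (-α).1 = -2 := h
      rw [hc, hr, hp, L4_X_neg, Matrix.mulVec_add, Matrix.mulVec_sub, Matrix.mulVec_smul,
        Matrix.mulVec_smul, C.L4_X_zero (-α) (-α) t⁻¹ (by rw [(-α).2]; norm_num), L4_X_h,
        L4_X_neg', h2]
      have h6 : C.L4_e K (-α) - t • (C.L4_h K α.1 - (t⁻¹ * ((-2 : ℤ) : K)) • C.L4_e K (-α)) +
          t ^ 2 • (C.L4_e K α + t⁻¹ • C.L4_h K α.1 + t⁻¹ ^ 2 • C.L4_e K (-α)) =
          t ^ 2 • C.L4_e K α := by
        funext a
        simp only [Pi.add_apply, Pi.sub_apply, Pi.smul_apply, smul_eq_mul]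
        push_cast
        field_simp
        ring
      rw [h6, Matrix.mulVec_smul, C.L4_X_zero α α t (by rw [α.2]; norm_num), Int.cast_one, one_mul]
    · -- `ip α β = -1`
      obtain ⟨γ, hγ⟩ := C.exists_add α β h
      have hc : C.cs α β = C.eps α.1 β.1 := by
        unfold cs
        rw [if_pos (Or.inr h)]
      have hr : C.refl α β = γ := by
        apply Root.ext
        rw [refl_val, h, hγ]
        module
      have hp : t ^ (- C.ip α.1 β.1) = t := by
        rw [h]
        norm_num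
      have hb : β.1 = (-α).1 + γ.1 := by
        rw [Root.neg_val, hγ]
        module
      have he : C.eps (-α).1 γ.1 = - C.eps α.1 β.1 := by
        rw [Root.neg_val, eps_neg_left, hγ, eps_add_right, eps_self]
        ring
      have h1 : 0 ≤ C.ip (-α).1 β.1 := by
        rw [Root.neg_val, ip_neg_left, h]
        norm_num
      have h2 : 0 ≤ C.ip α.1 γ.1 := by
        rw [hγ, ip_add_right, α.2, h]
        norm_num
      have hs : (C.eps α.1 β.1 : K) * (C.eps α.1 β.1 : K) = 1 := by
        rw [← Int.cast_mul, C.eps_sq, Int.cast_one]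
      rw [hc, hr, hp, C.L4_X_add α β γ t hγ, Matrix.mulVec_add, Matrix.mulVec_smul,
        C.L4_X_zero (-α) β t⁻¹ h1, C.L4_X_add (-α) γ β t⁻¹ hb, he]
      have h6 : C.L4_e K β + (t * (C.eps α.1 β.1 : K)) •
          (C.L4_e K γ + (t⁻¹ * ((-C.eps α.1 β.1 : ℤ) : K)) • C.L4_e K β) =
          ((C.eps α.1 β.1 : K) * t) • C.L4_e K γ := by
        funext a
        simp only [Pi.add_apply, Pi.smul_apply, smul_eq_mul]
        push_cast
        field_simp
        linear_combination (- C.L4_e K β a) * hs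
      rw [h6, Matrix.mulVec_smul, C.L4_X_zero α γ t h2]
    · -- `ip α β = 0`
      have hc : C.cs α β = 1 := by
        unfold cs
        rw [if_neg]
        rw [h]
        norm_num
      have hr : C.refl α β = β := by
        apply Root.ext
        rw [refl_val, h]
        module
      have hp : t ^ (- C.ip α.1 β.1) = 1 := by
        rw [h]
        norm_num
      have h1 : 0 ≤ C.ip (-α).1 β.1 := by
        rw [Root.neg_val, ip_neg_left, h]
        norm_num
      rw [hc, hr, hp, C.L4_X_zero α β t h.ge, C.L4_X_zero (-α) β t⁻¹ h1, C.L4_X_zero α β t h.ge,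
        Int.cast_one, one_mul, one_smul]
    · -- `ip α β = 1`
      obtain ⟨γ, hγ⟩ := C.exists_sub α β h
      have hc : C.cs α β = C.eps α.1 β.1 := by
        unfold cs
        rw [if_pos (Or.inl h)]
      have hr : C.refl α β = γ := by
        apply Root.ext
        rw [refl_val, h, hγ]
        module
      have hp : t ^ (- C.ip α.1 β.1) = t⁻¹ := by
        rw [h]
        norm_num
      have hg : γ.1 = (-α).1 + β.1 := by
        rw [Root.neg_val, hγ]
        module
      have hb : β.1 = α.1 + γ.1 := by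
        rw [hγ]
        module
      have he : C.eps (-α).1 β.1 = C.eps α.1 β.1 := by
        rw [Root.neg_val, eps_neg_left]
      have he' : C.eps α.1 γ.1 = - C.eps α.1 β.1 := by
        rw [hγ, eps_sub_right, eps_self]
        ring
      have hs : (C.eps α.1 β.1 : K) * (C.eps α.1 β.1 : K) = 1 := by
        rw [← Int.cast_mul, C.eps_sq, Int.cast_one]
      have h1 : 0 ≤ C.ip α.1 β.1 := by
        rw [h]
        norm_num
      rw [hc, hr, hp, C.L4_X_zero α β t h1, C.L4_X_add (-α) β γ t⁻¹ hg, he, Matrix.mulVec_add,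
        Matrix.mulVec_smul, C.L4_X_zero α β t h1, C.L4_X_add α γ β t hb, he']
      funext a
      simp only [Pi.add_apply, Pi.smul_apply, smul_eq_mul]
      push_cast
      field_simp
      linear_combination (- C.L4_e K β a * t) * hs
    · -- `β = α`
      have hβ := (C.ip_eq_two_iff α β).mp h
      subst hβ
      have hc : C.cs α α = 1 := by
        unfold cs
        rw [if_neg]
        rw [h]
        norm_num
      have hp : t ^ (- C.ip α.1 α.1) = t⁻¹ ^ 2 := by
        rw [h, _root_.zpow_neg, inv_pow]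
        norm_cast
      have h1 : 0 ≤ C.ip α.1 α.1 := by
        rw [h]
        norm_num
      rw [hc, refl_self, hp, C.L4_X_zero α α t h1, L4_X_neg', Matrix.mulVec_add,
        Matrix.mulVec_add, Matrix.mulVec_smul, Matrix.mulVec_smul, C.L4_X_zero α α t h1, L4_X_h,
        L4_X_neg, h]
      funext a
      simp only [Pi.add_apply, Pi.sub_apply, Pi.smul_apply, smul_eq_mul]
      push_cast
      field_simp
      ring

theorem hh_xg (K : Type*) [Field K] (α : C.Root) (t : K) (ht : t ≠ 0) :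
    ((hh (C.xg K) α t : GL C.Idx K) : Matrix C.Idx C.Idx K) =
      Matrix.diagonal (Sum.elim (fun _ => 1) (fun γ => t ^ (C.ip α.1 γ.1))) := by
  have h0 : ((hh (C.xg K) α t : GL C.Idx K) : Matrix C.Idx C.Idx K) =
      ((nn (C.xg K) α t : GL C.Idx K) : Matrix C.Idx C.Idx K) *
        ((nn (C.xg K) α (-1) : GL C.Idx K) : Matrix C.Idx C.Idx K) := rfl
  rw [h0, C.nn_xg K α t ht, C.nn_xg K α (-1) (by simp)]
  refine C.L4_ext _ _ (fun v => ?_) (fun β => ?_)
  · have h1 : Matrix.diagonal (Sum.elim (fun _ => 1) (fun γ => t ^ (C.ip α.1 γ.1))) *ᵥ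
        C.L4_h K v = C.L4_h K v := by
      funext a
      rw [Matrix.mulVec_diagonal]
      rcases a with i | δ
      · simp
      · simp [L4_h_inr]
    rw [h1, ← Matrix.mulVec_mulVec, L4_nmat_h, L4_nmat_h]
    congr 1
    rw [ip_sub_left, ip_smul_left, α.2]
    module
  · have h1 : Matrix.diagonal (Sum.elim (fun _ => 1) (fun γ => t ^ (C.ip α.1 γ.1))) *ᵥ
        C.L4_e K β = (t ^ (C.ip α.1 β.1)) • C.L4_e K β := by
      funext a
      rw [Matrix.mulVec_diagonal]
      rcases a with i | δ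
      · simp [L4_e_inl]
      · rw [Pi.smul_apply, L4_e_inr]
        by_cases hδ : δ = β
        · simp [hδ]
        · simp [hδ]
    rw [h1, ← Matrix.mulVec_mulVec, L4_nmat_e, Matrix.mulVec_smul, L4_nmat_e, refl_refl, smul_smul,
      ip_refl, neg_neg]
    congr 1
    have h2 : (C.cs α β : K) * (-1) ^ (-C.ip α.1 β.1) * (C.cs α (C.refl α β) : K) = 1 := by
      have h3 := C.ip_refl α β
      rcases C.ip_cases α β with h | h | h | h | h
      · rw [h] at h3
        simp [cs, h, h3]
      · rw [h] at h3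
        have h4 : C.eps α.1 (C.refl α β).1 = - C.eps α.1 β.1 := by
          rw [refl_val, h]
          have h5 : β.1 - (-1 : ℤ) • α.1 = β.1 + α.1 := by module
          rw [h5, eps_add_right, eps_self]
          ring
        have hs : (C.eps α.1 β.1 : K) * (C.eps α.1 β.1 : K) = 1 := by
          rw [← Int.cast_mul, C.eps_sq, Int.cast_one]
        simp only [cs, h, h3, h4]
        norm_num
        linear_combination hs
      · rw [h] at h3
        simp [cs, h, h3]
      · rw [h] at h3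
        have h4 : C.eps α.1 (C.refl α β).1 = - C.eps α.1 β.1 := by
          rw [refl_val, h]
          have h5 : β.1 - (1 : ℤ) • α.1 = β.1 - α.1 := by module
          rw [h5, eps_sub_right, eps_self]
          ring
        have hs : (C.eps α.1 β.1 : K) * (C.eps α.1 β.1 : K) = 1 := by
          rw [← Int.cast_mul, C.eps_sq, Int.cast_one]
        simp only [cs, h, h3, h4]
        norm_num
        linear_combination hs
      · rw [h] at h3
        simp [cs, h, h3]
    calc (C.cs α β : K) * (-1) ^ (-C.ip α.1 β.1) * ((C.cs α (C.refl α β) : K) * t ^ C.ip α.1 β.1)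
        = ((C.cs α β : K) * (-1) ^ (-C.ip α.1 β.1) * (C.cs α (C.refl α β) : K)) *
            t ^ C.ip α.1 β.1 := by ring
      _ = t ^ C.ip α.1 β.1 := by rw [h2, one_mul]

end SLC

end Pool.Agent.H75.UL
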