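import Pool.Agent.H86.UL.P1

/-!
# Project UL (MP_978914_al), module P1

The fixed chamber is unique (from helper86's module).
-/

set_option autoImplicit false
open Matrix
universe u
namespace Pool.Agent.H75.UL

namespace SLC
variable {n : ℕ} (C : SLC n)

theorem unique_chamber (θ : C.Root) (hθ : C.IsHighest θ) {k : Type*} [Field k] [Infinite k]
    {H : Type*} [Group H] (S : StSys C k H) (L : Type*) [Field L] [IsAlgClosed L]
    (Ψ : H →* GL C.Idx L) (hΨ : ∀ β t, Ψ (S.x β t) ∈ C.Gad L) (hne : Ψ (S.x θ 1) ≠ 1) :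
    ∃ g ∈ C.Gad L, (∀ u ∈ S.U 1, g⁻¹ * Ψ u * g ∈ (C.adS L).U 1) ∧
      ∀ g' ∈ C.Gad L, (∀ u ∈ S.U 1,
        C.Fil 0 ((g'⁻¹ * Ψ u * g' : GL C.Idx L) : Matrix C.Idx C.Idx L)) →
        C.Fil 0 ((g⁻¹ * g' : GL C.Idx L) : Matrix C.Idx C.Idx L) :=
  C.unique_chamber' θ hθ S L Ψ hΨ hne

end SLC

end Pool.Agent.H75.UL
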