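import Pool.Agent.H75.UL.Defs

/-!
# Project UL, module R1: the sign cocycle, inner products of roots, reflections
-/

set_option autoImplicit false
open Matrix
universe u
namespace Pool.Agent.H75.UL

namespace SLC
variable {n : ℕ} (C : SLC n)

theorem hm_add_transpose : C.hm + C.hmᵀ = C.A := by
  ext i j
  simp only [hm, Matrix.add_apply, Matrix.transpose_apply]
  rcases lt_trichotomy i j with h | h | h
  · simp [h, h.not_gt, h.ne, C.symm i j, h.ne']
  · subst h
    simp [C.diag]
  · simp [h, h.not_gt, h.ne, h.ne']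

theorem hf_add_hf (v w : Fin n → ℤ) : C.hf v w + C.hf w v = C.ip v w := by
  have h : C.hf w v = v ⬝ᵥ C.hmᵀ *ᵥ w := by
    unfold hf
    rw [mulVec_transpose, dotProduct_comm, dotProduct_comm, dotProduct_mulVec, dotProduct_comm]
  rw [h]
  unfold hf ip
  rw [← dotProduct_add, ← add_mulVec, hm_add_transpose]

theorem hf_add_left (u v w : Fin n → ℤ) : C.hf (u + v) w = C.hf u w + C.hf v w := by
  simp [hf, add_dotProduct]

theorem hf_add_right (u v w : Fin n → ℤ) : C.hf u (v + w) = C.hf u v + C.hf u w := by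
  simp [hf, mulVec_add, dotProduct_add]

theorem hf_neg_left (v w : Fin n → ℤ) : C.hf (-v) w = -C.hf v w := by
  simp [hf]

theorem hf_neg_right (v w : Fin n → ℤ) : C.hf v (-w) = -C.hf v w := by
  simp [hf, mulVec_neg]

theorem eps_eq_one_or (v w : Fin n → ℤ) : C.eps v w = 1 ∨ C.eps v w = -1 := by
  unfold eps
  rcases Int.units_eq_one_or (C.hf v w).negOnePow with h | h <;> simp [h]

theorem eps_sq (v w : Fin n → ℤ) : C.eps v w * C.eps v w = 1 := by
  rcases C.eps_eq_one_or v w with h | h <;> simp [h]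

theorem eps_ne_zero (v w : Fin n → ℤ) : C.eps v w ≠ 0 := by
  rcases C.eps_eq_one_or v w with h | h <;> simp [h]

theorem eps_add_left (u v w : Fin n → ℤ) : C.eps (u + v) w = C.eps u w * C.eps v w := by
  unfold eps
  rw [hf_add_left, Int.negOnePow_add, Units.val_mul]

theorem eps_add_right (u v w : Fin n → ℤ) : C.eps u (v + w) = C.eps u v * C.eps u w := by
  unfold eps
  rw [hf_add_right, Int.negOnePow_add, Units.val_mul]

theorem eps_neg_left (v w : Fin n → ℤ) : C.eps (-v) w = C.eps v w := by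
  unfold eps
  rw [hf_neg_left, Int.negOnePow_neg]

theorem eps_neg_right (v w : Fin n → ℤ) : C.eps v (-w) = C.eps v w := by
  unfold eps
  rw [hf_neg_right, Int.negOnePow_neg]

theorem eps_sub_left (u v w : Fin n → ℤ) : C.eps (u - v) w = C.eps u w * C.eps v w := by
  rw [sub_eq_add_neg, eps_add_left, eps_neg_left]

theorem eps_sub_right (u v w : Fin n → ℤ) : C.eps u (v - w) = C.eps u v * C.eps u w := by
  rw [sub_eq_add_neg, eps_add_right, eps_neg_right]

theorem eps_self (α : C.Root) : C.eps α.1 α.1 = -1 := by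
  have h := C.hf_add_hf α.1 α.1
  rw [α.2] at h
  have h1 : C.hf α.1 α.1 = 1 := by omega
  unfold eps
  rw [h1]
  simp

theorem eps_swap (v w : Fin n → ℤ) :
    C.eps w v = C.eps v w * ((C.ip v w).negOnePow : ℤˣ) := by
  have h : C.hf w v = C.ip v w - C.hf v w := by
    have := C.hf_add_hf v w
    omega
  unfold eps
  rw [h, Int.negOnePow_sub, Units.val_mul, mul_comm]

theorem eps_swap_of_odd (v w : Fin n → ℤ) (h : C.ip v w = 1 ∨ C.ip v w = -1) :
    C.eps w v = - C.eps v w := by
  rw [eps_swap]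
  rcases h with h | h <;> simp [h]

theorem eps_swap_of_zero (v w : Fin n → ℤ) (h : C.ip v w = 0) :
    C.eps w v = C.eps v w := by
  rw [eps_swap, h]
  simp

theorem ip_add_sq (α β : C.Root) :
    C.ip (α.1 + β.1) (α.1 + β.1) = 4 + 2 * C.ip α.1 β.1 := by
  rw [ip_add_left, ip_add_right, ip_add_right, α.2, β.2, C.ip_comm β.1 α.1]
  ring

theorem ip_sub_sq (α β : C.Root) :
    C.ip (β.1 - α.1) (β.1 - α.1) = 4 - 2 * C.ip α.1 β.1 := by
  rw [ip_sub_left, ip_sub_right, ip_sub_right, α.2, β.2, C.ip_comm β.1 α.1]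
  ring

theorem ip_le_two (α β : C.Root) : C.ip α.1 β.1 ≤ 2 := by
  have h := C.ip_nonneg (β.1 - α.1)
  rw [ip_sub_sq] at h
  omega

theorem neg_two_le_ip (α β : C.Root) : -2 ≤ C.ip α.1 β.1 := by
  have h := C.ip_nonneg (α.1 + β.1)
  rw [ip_add_sq] at h
  omega

theorem ip_eq_two_iff (α β : C.Root) : C.ip α.1 β.1 = 2 ↔ α = β := by
  constructor
  · intro h
    by_contra hne
    have h1 : β.1 - α.1 ≠ 0 := fun h2 => hne (Root.ext (sub_eq_zero.mp h2).symm)
    have h2 := C.ip_pos _ h1
    rw [ip_sub_sq, h] at h2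
    omega
  · rintro rfl
    exact α.2

theorem ip_eq_neg_two_iff (α β : C.Root) : C.ip α.1 β.1 = -2 ↔ β = -α := by
  constructor
  · intro h
    by_contra hne
    have h1 : α.1 + β.1 ≠ 0 := fun h2 => hne (Root.ext (by
      rw [Root.neg_val]
      exact (neg_eq_of_add_eq_zero_right h2).symm))
    have h2 := C.ip_pos _ h1
    rw [ip_add_sq, h] at h2
    omega
  · rintro rfl
    rw [Root.neg_val, ip_neg_right, α.2]

/-- The five possible values of the inner product. -/
theorem ip_cases (α β : C.Root) : C.ip α.1 β.1 = -2 ∨ C.ip α.1 β.1 = -1 ∨ C.ip α.1 β.1 = 0 ∨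
    C.ip α.1 β.1 = 1 ∨ C.ip α.1 β.1 = 2 := by
  have h1 := C.ip_le_two α β
  have h2 := C.neg_two_le_ip α β
  omega

theorem exists_add (α β : C.Root) (h : C.ip α.1 β.1 = -1) :
    ∃ γ : C.Root, γ.1 = α.1 + β.1 :=
  ⟨⟨α.1 + β.1, by rw [ip_add_sq, h]; norm_num⟩, rfl⟩

theorem exists_sub (α β : C.Root) (h : C.ip α.1 β.1 = 1) :
    ∃ γ : C.Root, γ.1 = β.1 - α.1 :=
  ⟨⟨β.1 - α.1, by rw [ip_sub_sq, h]; norm_num⟩, rfl⟩

theorem refl_norm (α β : C.Root) :
    C.ip (β.1 - C.ip α.1 β.1 • α.1) (β.1 - C.ip α.1 β.1 • α.1) = 2 := by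
  rw [ip_sub_left, ip_sub_right, ip_sub_right, ip_smul_left, ip_smul_left, ip_smul_right,
    ip_smul_right, α.2, β.2, C.ip_comm β.1 α.1]
  ring

/-- The reflection in `α`. -/
def refl (α β : C.Root) : C.Root := ⟨β.1 - C.ip α.1 β.1 • α.1, C.refl_norm α β⟩

theorem refl_val (α β : C.Root) : (C.refl α β).1 = β.1 - C.ip α.1 β.1 • α.1 := rfl

theorem ip_refl (α β : C.Root) : C.ip α.1 (C.refl α β).1 = - C.ip α.1 β.1 := by
  rw [refl_val, ip_sub_right, ip_smul_right, α.2]
  ring

theorem refl_refl (α β : C.Root) : C.refl α (C.refl α β) = β := by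
  apply Root.ext
  rw [refl_val, ip_refl, refl_val]
  module

/-- The reflection in `α` as a permutation of the roots. -/
def reflE (α : C.Root) : Equiv.Perm C.Root :=
  ⟨C.refl α, C.refl α, C.refl_refl α, C.refl_refl α⟩

@[simp] theorem reflE_apply (α β : C.Root) : C.reflE α β = C.refl α β := rfl

theorem reflE_mul_self (α : C.Root) : C.reflE α * C.reflE α = 1 := by
  ext β : 1
  exact C.refl_refl α β

theorem refl_neg_left (α β : C.Root) : C.refl (-α) β = C.refl α β := by
  apply Root.ext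
  rw [refl_val, refl_val, Root.neg_val, ip_neg_left]
  module

theorem refl_neg (α β : C.Root) : C.refl α (-β) = - C.refl α β := by
  apply Root.ext
  rw [refl_val, Root.neg_val, Root.neg_val, refl_val, ip_neg_right]
  module

theorem refl_self (α : C.Root) : C.refl α α = -α := by
  apply Root.ext
  rw [refl_val, Root.neg_val, α.2]
  module

theorem neg_neg_root (α : C.Root) : - -α = α := by
  apply Root.ext
  rw [Root.neg_val, Root.neg_val, neg_neg]

end SLC

end Pool.Agent.H75.UL
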