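import Pool.Agent.H75.UL.R2

/-!
# Project UL (MP_978914_al), module R4a

The Weyl group.

`W_lin`: the reflection `v ↦ v - ip α v • α` is an additive automorphism of `ℤ^n` preserving `ip`
(it is its own inverse); closure induction (products and inverses).
`exists_wd`: closure induction; `reflE α` is its own inverse.
`exists_W_simple`: for positive `β` by induction on the height: if `β` is not simple, `exists_descent`
gives `β = α_i + γ`, `γ` positive; then `ip α_i γ = -1` (`ip_add_root`), so `refl α_i γ = β`; and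
`γ = w α_j`. For negative `β`: `-β = w α_j`, and `β = w (s_j α_j)` (`w (-γ) = - w γ` by `W_lin`).
`reflE_conj`: from `W_lin`. `reflE_mem_W`: `α = w α_i`, so `reflE α = w * reflE α_i * w⁻¹`.
-/

set_option autoImplicit false
open Matrix
universe u
namespace Pool.Agent.H75.UL

namespace SLC
variable {n : ℕ} (C : SLC n)

private theorem R4a_invol (α : C.Root) (v : Fin n → ℤ) :
    (v - C.ip α.1 v • α.1) - C.ip α.1 (v - C.ip α.1 v • α.1) • α.1 = v := by
  rw [ip_sub_right, ip_smul_right, α.2]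
  module

private theorem R4a_iso (α : C.Root) (u v : Fin n → ℤ) :
    C.ip (u - C.ip α.1 u • α.1) (v - C.ip α.1 v • α.1) = C.ip u v := by
  rw [ip_sub_left, ip_sub_right, ip_sub_right, ip_smul_left, ip_smul_left, ip_smul_right,
    ip_smul_right, α.2, C.ip_comm u α.1]
  ring

/-- the reflection as an automorphism of the lattice -/
private def R4a_rf (α : C.Root) : (Fin n → ℤ) ≃+ (Fin n → ℤ) where
  toFun v := v - C.ip α.1 v • α.1
  invFun v := v - C.ip α.1 v • α.1
  left_inv v := R4a_invol C α v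
  right_inv v := R4a_invol C α v
  map_add' u v := by
    rw [ip_add_right]
    module

theorem W_lin (w : Equiv.Perm C.Root) (hw : w ∈ C.W) :
    ∃ f : (Fin n → ℤ) ≃+ (Fin n → ℤ), (∀ β : C.Root, (w β).1 = f β.1) ∧
      ∀ u v, C.ip (f u) (f v) = C.ip u v := by
  unfold W at hw
  induction hw using Subgroup.closure_induction with
  | mem x hx =>
    obtain ⟨i, rfl⟩ := hx
    exact ⟨R4a_rf C (C.simple i), fun β => rfl, fun u v => R4a_iso C (C.simple i) u v⟩
  | one => exact ⟨AddEquiv.refl _, fun β => rfl, fun u v => rfl⟩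
  | mul x y hx hy ihx ihy =>
    obtain ⟨f, hf1, hf2⟩ := ihx
    obtain ⟨g, hg1, hg2⟩ := ihy
    refine ⟨g.trans f, fun β => ?_, fun u v => ?_⟩
    · rw [Equiv.Perm.mul_apply, hf1, hg1]
      rfl
    · rw [AddEquiv.trans_apply, AddEquiv.trans_apply, hf2, hg2]
  | inv x hx ih =>
    obtain ⟨f, hf1, hf2⟩ := ih
    refine ⟨f.symm, fun β => ?_, fun u v => ?_⟩
    · have h1 := hf1 (x⁻¹ β)
      have h2 : x (x⁻¹ β) = β := Equiv.apply_symm_apply x β
      rw [h2] at h1
      rw [h1, AddEquiv.symm_apply_apply]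
    · have h1 := hf2 (f.symm u) (f.symm v)
      rw [AddEquiv.apply_symm_apply, AddEquiv.apply_symm_apply] at h1
      exact h1.symm

theorem W_neg (w : Equiv.Perm C.Root) (hw : w ∈ C.W) (β : C.Root) : w (-β) = - w β := by
  obtain ⟨f, hf1, -⟩ := C.W_lin w hw
  apply Root.ext
  rw [hf1, Root.neg_val, Root.neg_val, map_neg, hf1]

theorem W_add (w : Equiv.Perm C.Root) (hw : w ∈ C.W) (α β γ : C.Root) (h : γ.1 = α.1 + β.1) :
    (w γ).1 = (w α).1 + (w β).1 := by
  obtain ⟨f, hf1, -⟩ := C.W_lin w hw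
  rw [hf1, hf1, hf1, h, map_add]

theorem W_ip (w : Equiv.Perm C.Root) (hw : w ∈ C.W) (α β : C.Root) :
    C.ip (w α).1 (w β).1 = C.ip α.1 β.1 := by
  obtain ⟨f, hf1, hf2⟩ := C.W_lin w hw
  rw [hf1, hf1, hf2]

theorem simple_mem_W (i : Fin n) : C.reflE (C.simple i) ∈ C.W :=
  Subgroup.subset_closure ⟨i, rfl⟩

theorem wd_mem_W (l : List (Fin n)) : C.wd l ∈ C.W := by
  unfold wd
  apply Subgroup.list_prod_mem
  intro x hx
  rw [List.mem_map] at hx
  obtain ⟨i, -, rfl⟩ := hx
  exact C.simple_mem_W i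

private theorem R4a_wd_append (l l' : List (Fin n)) : C.wd (l ++ l') = C.wd l * C.wd l' := by
  unfold wd
  rw [List.map_append, List.prod_append]

private theorem R4a_wd_inv (l : List (Fin n)) : (C.wd l)⁻¹ = C.wd l.reverse := by
  induction l with
  | nil => simp [wd]
  | cons i l ih =>
    have h1 : C.wd (i :: l) = C.reflE (C.simple i) * C.wd l := by simp [wd]
    have h2 : (C.reflE (C.simple i))⁻¹ = C.reflE (C.simple i) :=
      inv_eq_of_mul_eq_one_left (C.reflE_mul_self _)
    have h3 : C.wd [i] = C.reflE (C.simple i) := by simp [wd]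
    rw [h1, _root_.mul_inv_rev, ih, h2, List.reverse_cons, R4a_wd_append, h3]

theorem exists_wd (w : Equiv.Perm C.Root) (hw : w ∈ C.W) : ∃ l, w = C.wd l := by
  unfold W at hw
  induction hw using Subgroup.closure_induction with
  | mem x hx =>
    obtain ⟨i, rfl⟩ := hx
    exact ⟨[i], by simp [wd]⟩
  | one => exact ⟨[], by simp [wd]⟩
  | mul x y hx hy ihx ihy =>
    obtain ⟨l, rfl⟩ := ihx
    obtain ⟨l', rfl⟩ := ihy
    exact ⟨l ++ l', (R4a_wd_append C l l').symm⟩
  | inv x hx ih =>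
    obtain ⟨l, rfl⟩ := ih
    exact ⟨l.reverse, R4a_wd_inv C l⟩

private theorem R4a_pos (N : ℕ) : ∀ β : C.Root, C.Pos β → ht β.1 ≤ N →
    ∃ w ∈ C.W, ∃ i, w (C.simple i) = β := by
  induction N with
  | zero =>
    intro β h1 h2
    unfold Pos at h1
    exfalso
    push_cast at h2
    omega
  | succ N ih =>
    intro β h1 h2
    by_cases hs : ∀ i, β ≠ C.simple i
    · obtain ⟨i, γ, hγ, hβ⟩ := C.exists_descent β h1 hs
      have h3 : ht γ.1 ≤ N := by
        have h4 := congrArg ht hβ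
        rw [ht_add, ht_simple] at h4
        push_cast at h2
        omega
      obtain ⟨w, hw, j, hj⟩ := ih γ hγ h3
      refine ⟨C.reflE (C.simple i) * w, C.W.mul_mem (C.simple_mem_W i) hw, j, ?_⟩
      rw [Equiv.Perm.mul_apply, hj, reflE_apply]
      apply Root.ext
      rw [refl_val, C.ip_add_root _ _ _ hβ, hβ]
      module
    · push Not at hs
      obtain ⟨i, rfl⟩ := hs
      exact ⟨1, C.W.one_mem, i, rfl⟩

theorem exists_W_simple (β : C.Root) : ∃ w ∈ C.W, ∃ i, w (C.simple i) = β := by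
  by_cases h : C.Pos β
  · refine R4a_pos C (ht β.1).toNat β h ?_
    unfold Pos at h
    omega
  · rw [not_pos_iff] at h
    obtain ⟨w, hw, j, hj⟩ := R4a_pos C (ht (-β).1).toNat (-β) h (by unfold Pos at h; omega)
    refine ⟨w * C.reflE (C.simple j), C.W.mul_mem hw (C.simple_mem_W j), j, ?_⟩
    rw [Equiv.Perm.mul_apply, reflE_apply, refl_self, C.W_neg w hw, hj, neg_neg_root]

theorem reflE_conj (w : Equiv.Perm C.Root) (hw : w ∈ C.W) (α : C.Root) :
    C.reflE (w α) = w * C.reflE α * w⁻¹ := by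
  obtain ⟨f, hf1, hf2⟩ := C.W_lin w hw
  rw [eq_mul_inv_iff_mul_eq]
  ext β : 1
  rw [Equiv.Perm.mul_apply, Equiv.Perm.mul_apply, reflE_apply, reflE_apply]
  apply Root.ext
  rw [refl_val, hf1, hf1, hf1, hf2, refl_val, map_sub, map_zsmul]

theorem reflE_mem_W (α : C.Root) : C.reflE α ∈ C.W := by
  obtain ⟨w, hw, i, rfl⟩ := C.exists_W_simple α
  rw [C.reflE_conj w hw]
  exact C.W.mul_mem (C.W.mul_mem hw (C.simple_mem_W i)) (C.W.inv_mem hw)

end SLC

end Pool.Agent.H75.UL
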