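import Pool.Agent.H75.UL.S2
import Pool.Agent.H75.UL.R4b

/-!
# Project UL (MP_978914_al), module S5

The monomial group `N` and the Weyl group.

Work with the stronger predicate `Acts' g w`: as `Acts`, with moreover `c (-β) = (c β)⁻¹`. It holds
for `nn α t` and `refl α` (`n_conj_all`: `c β = cs α β * t^(-ip α β)`, and `cs α (-β) = cs α β`), for
`τ ∈ T` and `1` (`T_acts'`), and is multiplicative and stable under inverses (for `w ∈ C.W`, by
`W_neg`). Let `n_i = nn (simple i) 1` and `ν l = ∏ n_i` for a word `l`; `Acts' (ν l) (wd l)`.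
(1) If `Acts' g w` and `w α = β` then `g * nn α t * g⁻¹ = nn β (c α * t)`, hence
`g * hh α t * g⁻¹ = hh β (c α t) * (hh β (c α))⁻¹ = hh β t` (`h_mul`): `T` is normalized by `N`.
(2) `N` is generated by `T` and the `n_i`: `nn α t` with `α = w α_i`, `w = wd l`: by (1)
`nn α t = ν l * nn α_i t' * (ν l)⁻¹` and `nn α_i t' = hh α_i t' * n_i` (`nn_inv`). So every element
of `N` is `ν l * τ` with `τ ∈ T`; note `n_i⁻¹ = n_i * hh..` because `n_i * n_i = (hh α_i (-1))⁻¹ ∈ T`.
(3) If `wd l = 1` then `ν l ∈ T`: strong induction on the length; `l = []` is clear; otherwise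
`eq_one_word`: `l = l₁ ++ j :: l₂ ++ [k]`, `wd l₂ α_k = α_j`, so `ν l₂ * n_k * (ν l₂)⁻¹ =
nn α_j (±..) ∈ n_j T` and `ν l = ν l₁ * n_j * (ν l₂ * n_k * (ν l₂)⁻¹) * ν l₂ ∈ ν l₁ * T * ν l₂ =
T * ν (l₁ ++ l₂)`.
`N_acts`: `ν = ν l * τ`, `w = wd l`. `N_word` is (2).
-/

set_option autoImplicit false
open Matrix
universe u
namespace Pool.Agent.H75.UL

namespace StSys
variable {n : ℕ} {C : SLC n} {K : Type*} [Field K] {H : Type*} [Group H] (S : StSys C K H)

/-- `nn_word l` is the product of the `n_i(1)`, `i` in the word `l`. -/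
def nword (l : List (Fin n)) : H := (l.map fun i => nn S.x (C.simple i) 1).prod

/-- the stronger predicate -/
private def S5_A (g : H) (w : Equiv.Perm C.Root) : Prop :=
  w ∈ C.W ∧ ∃ c : C.Root → K, (∀ β, c β ≠ 0) ∧ (∀ β, c (-β) = (c β)⁻¹) ∧
    ∀ β u, g * S.x β u * g⁻¹ = S.x (w β) (c β * u)

private theorem S5_A_acts {g : H} {w : Equiv.Perm C.Root} (h : S5_A S g w) : S.Acts g w := by
  obtain ⟨_, c, h1, _, h3⟩ := h
  exact ⟨c, h1, h3⟩

private theorem S5_A_one : S5_A S 1 1 := by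
  refine ⟨C.W.one_mem, fun _ => 1, fun _ => one_ne_zero, fun _ => inv_one.symm, fun β u => ?_⟩
  rw [one_mul, inv_one, mul_one, one_mul, Equiv.Perm.one_apply]

private theorem S5_A_mul {g g' : H} {w w' : Equiv.Perm C.Root} (h : S5_A S g w)
    (h' : S5_A S g' w') : S5_A S (g * g') (w * w') := by
  obtain ⟨hw, c, h1, h2, h3⟩ := h
  obtain ⟨hw', c', h1', h2', h3'⟩ := h'
  refine ⟨C.W.mul_mem hw hw', fun β => c (w' β) * c' β, fun β => mul_ne_zero (h1 _) (h1' _),
    fun β => ?_, fun β u => ?_⟩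
  · simp only
    rw [C.W_neg w' hw', h2, h2', mul_inv]
  · have e1 : g * g' * S.x β u * (g * g')⁻¹ = g * (g' * S.x β u * g'⁻¹) * g⁻¹ := by group
    rw [e1, h3', h3, Equiv.Perm.mul_apply, mul_assoc]

private theorem S5_apply_inv {C : SLC n} (w : Equiv.Perm C.Root) (β : C.Root) :
    w (w⁻¹ β) = β := by
  rw [← Equiv.Perm.mul_apply, mul_inv_cancel, Equiv.Perm.one_apply]

private theorem S5_A_inv {g : H} {w : Equiv.Perm C.Root} (h : S5_A S g w) :
    S5_A S g⁻¹ w⁻¹ := by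
  obtain ⟨hw, c, h1, h2, h3⟩ := h
  refine ⟨C.W.inv_mem hw, fun β => (c (w⁻¹ β))⁻¹, fun β => inv_ne_zero (h1 _),
    fun β => ?_, fun β u => ?_⟩
  · simp only
    rw [C.W_neg w⁻¹ (C.W.inv_mem hw), h2]
  · have e1 := h3 (w⁻¹ β) ((c (w⁻¹ β))⁻¹ * u)
    rw [← mul_assoc (c (w⁻¹ β)), mul_inv_cancel₀ (h1 _), one_mul, S5_apply_inv] at e1
    rw [← e1]
    group

private theorem S5_cs_neg (α β : C.Root) : C.cs α (-β) = C.cs α β := by
  unfold SLC.cs
  rw [SLC.Root.neg_val, SLC.ip_neg_right, SLC.eps_neg_right]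
  by_cases h : C.ip α.1 β.1 = 1 ∨ C.ip α.1 β.1 = -1
  · rw [if_pos h, if_pos (by rcases h with h | h <;> simp [h])]
  · rw [if_neg h, if_neg]
    intro hc
    apply h
    rcases hc with hc | hc
    · right; omega
    · left; omega

private theorem S5_cs (α β : C.Root) : C.cs α β = 1 ∨ C.cs α β = -1 := by
  unfold SLC.cs
  split_ifs
  · exact C.eps_eq_one_or _ _
  · exact Or.inl rfl

private theorem S5_A_nn (α : C.Root) (t : K) (ht : t ≠ 0) :
    S5_A S (nn S.x α t) (C.reflE α) := by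
  refine ⟨C.reflE_mem_W α, fun β => (C.cs α β : K) * t ^ (- C.ip α.1 β.1), fun β => ?_,
    fun β => ?_, fun β u => ?_⟩
  · apply mul_ne_zero
    · rcases S5_cs (C := C) α β with h | h <;> simp [h]
    · exact zpow_ne_zero _ ht
  · simp only
    rw [S5_cs_neg, SLC.Root.neg_val, SLC.ip_neg_right, neg_neg, mul_inv, _root_.zpow_neg, inv_inv]
    rcases S5_cs (C := C) α β with h | h <;> simp [h, inv_neg]
  · rw [S.n_conj_all α β t u ht]
    rfl

private theorem S5_A_T {τ : H} (hτ : τ ∈ S.T) : S5_A S τ 1 := by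
  obtain ⟨c, h1, h2, h3⟩ := S.T_acts' τ hτ
  exact ⟨C.W.one_mem, c, h1, h2, h3⟩

private theorem S5_nn_mem (α : C.Root) (t : K) (ht : t ≠ 0) : nn S.x α t ∈ S.N :=
  Subgroup.subset_closure ⟨α, t, ht, rfl⟩

private theorem S5_hh_mem (α : C.Root) (t : K) (ht : t ≠ 0) : hh S.x α t ∈ S.T :=
  Subgroup.subset_closure ⟨α, t, ht, rfl⟩

private theorem S5_A_N {ν : H} (hν : ν ∈ S.N) : ∃ w, S5_A S ν w := by
  refine Subgroup.closure_induction (p := fun ν _ => ∃ w, S5_A S ν w) ?_ ?_ ?_ ?_ hν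
  · rintro _ ⟨α, t, ht, rfl⟩
    exact ⟨_, S5_A_nn S α t ht⟩
  · exact ⟨1, S5_A_one S⟩
  · rintro x y _ _ ⟨w, hw⟩ ⟨w', hw'⟩
    exact ⟨w * w', S5_A_mul S hw hw'⟩
  · rintro x _ ⟨w, hw⟩
    exact ⟨w⁻¹, S5_A_inv S hw⟩

/-- conjugates of `nn` -/
private theorem S5_conj_nn {g : H} {w : Equiv.Perm C.Root} (hw : w ∈ C.W) {c : C.Root → K}
    (h2 : ∀ β, c (-β) = (c β)⁻¹)
    (h3 : ∀ β u, g * S.x β u * g⁻¹ = S.x (w β) (c β * u)) (α : C.Root) (t : K) :
    g * nn S.x α t * g⁻¹ = nn S.x (w α) (c α * t) := by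
  unfold nn
  have e1 : g * (S.x α t * S.x (-α) t⁻¹ * S.x α t) * g⁻¹ =
      (g * S.x α t * g⁻¹) * (g * S.x (-α) t⁻¹ * g⁻¹) * (g * S.x α t * g⁻¹) := by group
  rw [e1, h3, h3, h2, C.W_neg w hw, mul_inv]

/-- `nn α t = hh α t * nn α 1` -/
private theorem S5_nn_eq (α : C.Root) (t : K) : nn S.x α t = hh S.x α t * nn S.x α 1 := by
  unfold hh
  have h := S.nn_inv α 1
  rw [← h]
  group

/-- `n_i * n_i ∈ T` -/
private theorem S5_sq (α : C.Root) : nn S.x α 1 * nn S.x α 1 ∈ S.T := by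
  have h1 := S5_hh_mem S α (-1) (neg_ne_zero.2 one_ne_zero)
  have h2 : hh S.x α (-1) = (nn S.x α 1 * nn S.x α 1)⁻¹ := by
    unfold hh
    rw [← S.nn_inv α 1]
    group
  rw [h2] at h1
  exact inv_mem_iff.1 h1

theorem nword_mem (l : List (Fin n)) : S.nword l ∈ S.N := by
  unfold nword
  apply Subgroup.list_prod_mem
  intro x hx
  rw [List.mem_map] at hx
  obtain ⟨i, _, rfl⟩ := hx
  exact S5_nn_mem S _ _ one_ne_zero

private theorem S5_nword_A (l : List (Fin n)) : S5_A S (S.nword l) (C.wd l) := by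
  induction l with
  | nil => exact S5_A_one S
  | cons i l ih =>
    have h := S5_A_mul S (S5_A_nn S (C.simple i) 1 one_ne_zero) ih
    have e1 : S.nword (i :: l) = nn S.x (C.simple i) 1 * S.nword l := by
      unfold nword
      rw [List.map_cons, List.prod_cons]
    have e2 : C.wd (i :: l) = C.reflE (C.simple i) * C.wd l := by
      unfold SLC.wd
      rw [List.map_cons, List.prod_cons]
    rw [e1, e2]
    exact h

theorem nword_acts (l : List (Fin n)) : S.Acts (S.nword l) (C.wd l) :=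
  S5_A_acts S (S5_nword_A S l)

theorem exists_N (w : Equiv.Perm C.Root) (hw : w ∈ C.W) : ∃ ν ∈ S.N, S.Acts ν w := by
  obtain ⟨l, rfl⟩ := C.exists_wd w hw
  exact ⟨S.nword l, S.nword_mem l, S.nword_acts l⟩

theorem N_conj_T (ν τ : H) (hν : ν ∈ S.N) (hτ : τ ∈ S.T) : ν * τ * ν⁻¹ ∈ S.T := by
  obtain ⟨w, hw, c, h1, h2, h3⟩ := S5_A_N S hν
  refine Subgroup.closure_induction (p := fun τ _ => ν * τ * ν⁻¹ ∈ S.T) ?_ ?_ ?_ ?_ hτ
  · rintro _ ⟨α, t, ht, rfl⟩
    have e1 : ν * hh S.x α t * ν⁻¹ = hh S.x (w α) (c α * t) * (hh S.x (w α) (c α))⁻¹ := by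
      have e2 : ν * hh S.x α t * ν⁻¹ = (ν * nn S.x α t * ν⁻¹) * (ν * nn S.x α (-1) * ν⁻¹) := by
        unfold hh
        group
      rw [e2, S5_conj_nn S hw h2 h3, S5_conj_nn S hw h2 h3]
      have e3 : nn S.x (w α) (c α * -1) = (nn S.x (w α) (c α))⁻¹ := by
        rw [S.nn_inv]
        congr 1
        ring
      rw [e3]
      unfold hh
      group
    rw [e1]
    exact S.T.mul_mem (S5_hh_mem S _ _ (mul_ne_zero (h1 _) ht))
      (S.T.inv_mem (S5_hh_mem S _ _ (h1 _)))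
  · rw [mul_one, mul_inv_cancel]
    exact S.T.one_mem
  · intro x y _ _ hx hy
    have e1 : ν * (x * y) * ν⁻¹ = (ν * x * ν⁻¹) * (ν * y * ν⁻¹) := by group
    rw [e1]
    exact S.T.mul_mem hx hy
  · intro x _ hx
    have e1 : ν * x⁻¹ * ν⁻¹ = (ν * x * ν⁻¹)⁻¹ := by group
    rw [e1]
    exact S.T.inv_mem hx

private theorem S5_nword_append (l l' : List (Fin n)) :
    S.nword (l ++ l') = S.nword l * S.nword l' := by
  unfold nword
  rw [List.map_append, List.prod_append]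

private theorem S5_nword_single (i : Fin n) : S.nword [i] = nn S.x (C.simple i) 1 := by
  unfold nword
  rw [List.map_singleton, List.prod_singleton]

private def S5_P (ν : H) : Prop := ∃ l : List (Fin n), ∃ τ ∈ S.T, ν = S.nword l * τ

private theorem S5_P_mul {ν ν' : H} (h : S5_P S ν) (h' : S5_P S ν') : S5_P S (ν * ν') := by
  obtain ⟨l, τ, hτ, rfl⟩ := h
  obtain ⟨l', τ', hτ', rfl⟩ := h'
  refine ⟨l ++ l', (S.nword l')⁻¹ * τ * ((S.nword l')⁻¹)⁻¹ * τ', ?_, ?_⟩
  · exact S.T.mul_mem (S.N_conj_T _ _ (S.N.inv_mem (S.nword_mem l')) hτ) hτ'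
  · rw [S5_nword_append]
    group

private theorem S5_P_T {τ : H} (h : τ ∈ S.T) : S5_P S τ :=
  ⟨[], τ, h, by unfold nword; simp⟩

private theorem S5_P_word (l : List (Fin n)) : S5_P S (S.nword l) :=
  ⟨l, 1, S.T.one_mem, by rw [mul_one]⟩

private theorem S5_P_ninv (l : List (Fin n)) : S5_P S (S.nword l)⁻¹ := by
  induction l with
  | nil =>
    have : (S.nword ([] : List (Fin n)))⁻¹ = 1 := by unfold nword; simp
    rw [this]
    exact S5_P_T S S.T.one_mem
  | cons i l ih =>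
    have e1 : S.nword (i :: l) = S.nword [i] * S.nword l := S5_nword_append S [i] l
    rw [e1, _root_.mul_inv_rev]
    apply S5_P_mul S ih
    have e2 : (S.nword [i])⁻¹ = S.nword [i] * (S.nword [i] * S.nword [i])⁻¹ := by group
    rw [e2]
    apply S5_P_mul S (S5_P_word S [i])
    apply S5_P_T
    apply S.T.inv_mem
    rw [S5_nword_single]
    exact S5_sq S _

private theorem S5_P_inv {ν : H} (h : S5_P S ν) : S5_P S ν⁻¹ := by
  obtain ⟨l, τ, hτ, rfl⟩ := h
  rw [_root_.mul_inv_rev]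
  exact S5_P_mul S (S5_P_T S (S.T.inv_mem hτ)) (S5_P_ninv S l)

theorem N_word (ν : H) (hν : ν ∈ S.N) : ∃ l : List (Fin n), ∃ τ ∈ S.T, ν = S.nword l * τ := by
  show S5_P S ν
  refine Subgroup.closure_induction (p := fun ν _ => S5_P S ν) ?_ ?_ ?_ ?_ hν
  · rintro _ ⟨α, t, ht, rfl⟩
    obtain ⟨w, hw, i, hi⟩ := C.exists_W_simple α
    obtain ⟨l, rfl⟩ := C.exists_wd w hw
    obtain ⟨_, c, h1, h2, h3⟩ := S5_nword_A S l
    have e1 := S5_conj_nn S hw h2 h3 (C.simple i) ((c (C.simple i))⁻¹ * t)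
    rw [← mul_assoc (c (C.simple i)), mul_inv_cancel₀ (h1 _), one_mul, hi] at e1
    rw [← e1]
    apply S5_P_mul S _ (S5_P_ninv S l)
    apply S5_P_mul S (S5_P_word S l)
    rw [S5_nn_eq]
    apply S5_P_mul S
    · apply S5_P_T
      exact S5_hh_mem S _ _ (mul_ne_zero (inv_ne_zero (h1 _)) ht)
    · rw [← S5_nword_single]
      exact S5_P_word S [i]
  · exact S5_P_T S S.T.one_mem
  · intro x y _ _ hx hy
    exact S5_P_mul S hx hy
  · intro x _ hx
    exact S5_P_inv S hx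

theorem nword_mem_T (l : List (Fin n)) (h : C.wd l = 1) : S.nword l ∈ S.T := by
  have key : ∀ m : ℕ, ∀ l : List (Fin n), l.length = m → C.wd l = 1 → S.nword l ∈ S.T := by
    intro m
    induction m using Nat.strong_induction_on with
    | _ m ih =>
      intro l hl h
      by_cases hne : l = []
      · subst hne
        have : S.nword ([] : List (Fin n)) = 1 := by unfold nword; simp
        rw [this]
        exact S.T.one_mem
      · obtain ⟨l₁, j, l₂, k, rfl, h1, h2⟩ := C.eq_one_word l hne h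
        have hlen : (l₁ ++ l₂).length < m := by
          rw [← hl]
          simp only [List.length_append, List.length_cons, List.length_nil]
          omega
        have hT := ih _ hlen (l₁ ++ l₂) rfl h2
        rw [S5_nword_append] at hT
        obtain ⟨hw, c, g1, g2, g3⟩ := S5_nword_A S l₂
        have e1 := S5_conj_nn S hw g2 g3 (C.simple k) 1
        rw [mul_one, h1] at e1
        have e2 : S.nword (l₁ ++ j :: l₂ ++ [k]) =
            S.nword l₁ * (nn S.x (C.simple j) 1 *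
              (S.nword l₂ * nn S.x (C.simple k) 1 * (S.nword l₂)⁻¹)) * (S.nword l₁)⁻¹ *
              (S.nword l₁ * S.nword l₂) := by
          have e3 : l₁ ++ j :: l₂ ++ [k] = l₁ ++ ([j] ++ (l₂ ++ [k])) := by simp
          rw [e3, S5_nword_append, S5_nword_append, S5_nword_append, S5_nword_single,
            S5_nword_single]
          group
        rw [e2, e1]
        apply S.T.mul_mem _ hT
        apply S.N_conj_T _ _ (S.nword_mem l₁)
        rw [S5_nn_eq S (C.simple j) (c (C.simple k))]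
        have e4 : nn S.x (C.simple j) 1 * (hh S.x (C.simple j) (c (C.simple k)) *
            nn S.x (C.simple j) 1) = (nn S.x (C.simple j) 1 *
            hh S.x (C.simple j) (c (C.simple k)) * (nn S.x (C.simple j) 1)⁻¹) *
            (nn S.x (C.simple j) 1 * nn S.x (C.simple j) 1) := by group
        rw [e4]
        exact S.T.mul_mem (S.N_conj_T _ _ (S5_nn_mem S _ _ one_ne_zero)
          (S5_hh_mem S _ _ (g1 _))) (S5_sq S _)
  exact key l.length l rfl h

theorem N_acts (ν : H) (hν : ν ∈ S.N) :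
    ∃ w ∈ C.W, S.Acts ν w ∧ (w = 1 → ν ∈ S.T) := by
  obtain ⟨l, τ, hτ, rfl⟩ := S.N_word ν hν
  refine ⟨C.wd l, C.wd_mem_W l, ?_, ?_⟩
  · have h := S5_A_mul S (S5_nword_A S l) (S5_A_T S hτ)
    rw [mul_one] at h
    exact S5_A_acts S h
  · intro h
    exact S.T.mul_mem (S.nword_mem_T l h) hτ

end StSys

end Pool.Agent.H75.UL
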