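import Pool.Agent.H75.UL.Base

/-!
# Project UL (MP_978914_al), module T1

The height filtration of matrices.

`Fil m M` means `M a b ≠ 0 → hti a ≥ hti b + m`. `Fil_mul`: a nonzero term `M a c * N c b` has
`hti a ≥ hti c + m ≥ hti b + k + m`. `Fil_E`, `Fil_F`: look at the nonzero entries (`ht_add`,
`ht_neg`). `exists_Fil_eq_zero'`: `Idx` is finite, take `m₀ > max hti - min hti` (independent of `R`).
`Fil_inv`: `A = g - 1` satisfies `Fil m A`, `A ^ k` satisfies `Fil (k m)`, so `A` is nilpotent and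
`g⁻¹ = ∑ (-A)^k`; or: `B = g⁻¹ - 1 = -A - A * B`, show `Fil j B → Fil (j+1) B` as long as `j < m`
starting from a very negative `j` (`Fil j` holds for every matrix if `j` is small) and then `Fil m B`.
`Fil_comm_lead`: `g h - h g = (g-1)(h-1) - (h-1)(g-1)` is `A B - B A` modulo `Fil (m+k+1)`;
`g h g⁻¹ h⁻¹ - 1 = (g h - h g) g⁻¹ h⁻¹` and `g⁻¹ h⁻¹ - 1` satisfies `Fil 1`.
-/

set_option autoImplicit false
open Matrix
universe u
namespace Pool.Agent.H75.UL

namespace SLC
variable {n : ℕ} (C : SLC n)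

theorem Fil_mono {R : Type*} [CommRing R] {m k : ℤ} (h : k ≤ m) {M : Matrix C.Idx C.Idx R}
    (hM : C.Fil m M) : C.Fil k M := by
  intro a b hab
  exact hM a b (by linarith)


theorem Fil_zero {R : Type*} [CommRing R] (m : ℤ) : C.Fil m (0 : Matrix C.Idx C.Idx R) := by
  intro a b _
  rfl


theorem Fil_one {R : Type*} [CommRing R] : C.Fil 0 (1 : Matrix C.Idx C.Idx R) := by
  intro a b hab
  apply Matrix.one_apply_ne
  rintro rfl
  omega


theorem Fil_add {R : Type*} [CommRing R] {m : ℤ} {M N : Matrix C.Idx C.Idx R}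
    (hM : C.Fil m M) (hN : C.Fil m N) : C.Fil m (M + N) := by
  intro a b hab
  rw [Matrix.add_apply, hM a b hab, hN a b hab, add_zero]


theorem Fil_neg {R : Type*} [CommRing R] {m : ℤ} {M : Matrix C.Idx C.Idx R}
    (hM : C.Fil m M) : C.Fil m (-M) := by
  intro a b hab
  rw [Matrix.neg_apply, hM a b hab, neg_zero]


theorem Fil_sub {R : Type*} [CommRing R] {m : ℤ} {M N : Matrix C.Idx C.Idx R}
    (hM : C.Fil m M) (hN : C.Fil m N) : C.Fil m (M - N) := by
  intro a b hab
  rw [Matrix.sub_apply, hM a b hab, hN a b hab, sub_zero]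


theorem Fil_smul {R : Type*} [CommRing R] {m : ℤ} (c : R) {M : Matrix C.Idx C.Idx R}
    (hM : C.Fil m M) : C.Fil m (c • M) := by
  intro a b hab
  rw [Matrix.smul_apply, hM a b hab, smul_zero]


theorem Fil_sum {R ι : Type*} [CommRing R] {m : ℤ} (s : Finset ι) (M : ι → Matrix C.Idx C.Idx R)
    (hM : ∀ i ∈ s, C.Fil m (M i)) : C.Fil m (∑ i ∈ s, M i) := by
  intro a b hab
  rw [Matrix.sum_apply]
  exact Finset.sum_eq_zero fun i hi => hM i hi a b hab


theorem Fil_mul {R : Type*} [CommRing R] {m k : ℤ} {M N : Matrix C.Idx C.Idx R}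
    (hM : C.Fil m M) (hN : C.Fil k N) : C.Fil (m + k) (M * N) := by
  intro a b hab
  rw [Matrix.mul_apply]
  refine Finset.sum_eq_zero fun c _ => ?_
  by_cases h : C.hti a < C.hti c + m
  · rw [hM a c h, zero_mul]
  · rw [hN c b (by omega), mul_zero]


theorem Fil_map {R R' : Type*} [CommRing R] [CommRing R'] (f : R →+* R') {m : ℤ}
    {M : Matrix C.Idx C.Idx R} (hM : C.Fil m M) : C.Fil m (M.map f) := by
  intro a b hab
  rw [Matrix.map_apply, hM a b hab, map_zero]


theorem Fil_E (R : Type*) [CommRing R] (α : C.Root) :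
    C.Fil (ht α.1) ((C.E α).map (Int.cast : ℤ → R)) := by
  intro a b hab
  rw [Matrix.map_apply]
  have h : C.E α a b = 0 := by
    rcases a with i | γ <;> rcases b with j | β
    · rfl
    · simp only [E]
      rw [if_neg]
      intro h
      simp only [hti, Sum.elim_inl, Sum.elim_inr] at hab
      rw [h, ht_neg] at hab
      omega
    · simp only [E]
      rw [if_neg]
      intro h
      simp only [hti, Sum.elim_inl, Sum.elim_inr] at hab
      rw [h] at hab
      omega
    · simp only [E]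
      rw [if_neg]
      intro h
      simp only [hti, Sum.elim_inr] at hab
      rw [h, ht_add] at hab
      omega
  rw [h, Int.cast_zero]


theorem Fil_F (R : Type*) [CommRing R] (α : C.Root) :
    C.Fil (2 * ht α.1) ((C.F α).map (Int.cast : ℤ → R)) := by
  intro a b hab
  rw [Matrix.map_apply]
  have h : C.F α a b = 0 := by
    rcases a with i | γ <;> rcases b with j | β
    · rfl
    · rfl
    · rfl
    · simp only [F]
      rw [if_neg]
      rintro ⟨h1, h2⟩
      simp only [hti, Sum.elim_inr] at hab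
      rw [h1, h2, ht_neg] at hab
      omega
  rw [h, Int.cast_zero]


private theorem hti_bound : ∃ B : ℤ, 0 ≤ B ∧ ∀ a b : C.Idx, C.hti a < C.hti b + B := by
  refine ⟨∑ c : C.Idx, (2 * |C.hti c| + 1), Finset.sum_nonneg fun c _ => by positivity, fun a b => ?_⟩
  have h1 : ∀ c : C.Idx, 2 * |C.hti c| + 1 ≤ ∑ c : C.Idx, (2 * |C.hti c| + 1) := fun c =>
    Finset.single_le_sum (f := fun c : C.Idx => 2 * |C.hti c| + 1) (fun c _ => by positivity)
      (Finset.mem_univ c)
  have h2 := h1 a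
  have h3 := h1 b
  have h4 := le_abs_self (C.hti a)
  have h5 := neg_abs_le (C.hti b)
  omega

theorem exists_Fil_eq_zero : ∃ m₀ : ℤ, ∀ (R : Type) [CommRing R] (M : Matrix C.Idx C.Idx R),
    C.Fil m₀ M → M = 0 := by
  obtain ⟨B, _, hB⟩ := C.hti_bound
  refine ⟨B, fun R _ M hM => ?_⟩
  ext a b
  exact hM a b (hB a b)


theorem exists_Fil_eq_zero' (R : Type*) [CommRing R] : ∃ m₀ : ℤ, ∀ M : Matrix C.Idx C.Idx R,
    C.Fil m₀ M → M = 0 := by
  obtain ⟨B, _, hB⟩ := C.hti_bound
  refine ⟨B, fun M hM => ?_⟩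
  ext a b
  exact hM a b (hB a b)


theorem Fil_inv {R : Type*} [CommRing R] (g : GL C.Idx R) (m : ℤ) (hm : 1 ≤ m)
    (hg : C.Fil m ((g : Matrix C.Idx C.Idx R) - 1)) :
    C.Fil m (((g⁻¹ : GL C.Idx R) : Matrix C.Idx C.Idx R) - 1) := by
  obtain ⟨B₀, _, hB₀⟩ := C.hti_bound
  set G : Matrix C.Idx C.Idx R := (g : Matrix C.Idx C.Idx R) with hG
  set G' : Matrix C.Idx C.Idx R := ((g⁻¹ : GL C.Idx R) : Matrix C.Idx C.Idx R) with hG'
  have h1 : G * G' = 1 := by
    rw [hG, hG', ← Units.val_mul, mul_inv_cancel, Units.val_one]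
  have h2 : G' - 1 = -(G - 1) - (G - 1) * (G' - 1) := by
    rw [sub_mul, mul_sub, mul_sub, h1]
    simp only [mul_one, one_mul]
    abel
  have h3 : ∀ k : ℕ, C.Fil (min m (-B₀ + k)) (G' - 1) := by
    intro k
    induction k with
    | zero =>
      refine C.Fil_mono (min_le_right _ _) ?_
      intro a b hab
      exfalso
      have := hB₀ b a
      push_cast at hab
      omega
    | succ k ih =>
      rw [h2]
      refine C.Fil_sub (C.Fil_mono (min_le_left _ _) (C.Fil_neg hg)) ?_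
      refine C.Fil_mono ?_ (C.Fil_mul hg ih)
      push_cast
      rcases le_total m (-B₀ + k) with h | h
      · rw [min_eq_left h]
        have := min_le_left m (-B₀ + (k + 1))
        omega
      · rw [min_eq_right h]
        have := min_le_right m (-B₀ + (k + 1))
        omega
  have h4 := h3 (m + B₀).toNat
  refine C.Fil_mono ?_ h4
  have h5 := Int.self_le_toNat (m + B₀)
  exact le_min le_rfl (by omega)


theorem Fil_comm_lead {R : Type*} [CommRing R] (g h : GL C.Idx R) (m k : ℤ) (hm : 1 ≤ m)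
    (hk : 1 ≤ k) (A B : Matrix C.Idx C.Idx R) (hA : C.Fil m A) (hB : C.Fil k B)
    (hg : C.Fil (m + 1) ((g : Matrix C.Idx C.Idx R) - 1 - A))
    (hh : C.Fil (k + 1) ((h : Matrix C.Idx C.Idx R) - 1 - B)) :
    C.Fil (m + k + 1) (((g * h * g⁻¹ * h⁻¹ : GL C.Idx R) : Matrix C.Idx C.Idx R) - 1 -
      (A * B - B * A)) := by
  set G : Matrix C.Idx C.Idx R := (g : Matrix C.Idx C.Idx R) with hG
  set H : Matrix C.Idx C.Idx R := (h : Matrix C.Idx C.Idx R) with hH
  set G' : Matrix C.Idx C.Idx R := ((g⁻¹ : GL C.Idx R) : Matrix C.Idx C.Idx R) with hG'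
  set H' : Matrix C.Idx C.Idx R := ((h⁻¹ : GL C.Idx R) : Matrix C.Idx C.Idx R) with hH'
  have hGG : G * G' = 1 := by
    rw [hG, hG', ← Units.val_mul, mul_inv_cancel, Units.val_one]
  have hHH : H * H' = 1 := by
    rw [hH, hH', ← Units.val_mul, mul_inv_cancel, Units.val_one]
  have hG1 : C.Fil m (G - 1) := by
    have h1 : G - 1 = (G - 1 - A) + A := by abel
    rw [h1]
    exact C.Fil_add (C.Fil_mono (by omega) hg) hA
  have hH1 : C.Fil k (H - 1) := by
    have h1 : H - 1 = (H - 1 - B) + B := by abel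
    rw [h1]
    exact C.Fil_add (C.Fil_mono (by omega) hh) hB
  have hGi : C.Fil 1 (G' - 1) := C.Fil_mono hm (C.Fil_inv g m hm hG1)
  have hHi : C.Fil 1 (H' - 1) := C.Fil_mono hk (C.Fil_inv h k hk hH1)
  have hP : C.Fil 1 (G' * H' - 1) := by
    have h1 : G' * H' - 1 = (G' - 1) * (H' - 1) + (G' - 1) + (H' - 1) := by
      rw [sub_mul, mul_sub, mul_sub]
      simp only [mul_one, one_mul]
      abel
    rw [h1]
    exact C.Fil_add (C.Fil_add (C.Fil_mono (by norm_num) (C.Fil_mul hGi hHi)) hGi) hHi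
  have hD1 : C.Fil (m + k + 1) ((G - 1) * (H - 1) - A * B) := by
    have h1 : (G - 1) * (H - 1) - A * B = (G - 1 - A) * (H - 1) + A * (H - 1 - B) := by
      noncomm_ring
    rw [h1]
    exact C.Fil_add (C.Fil_mono (by omega) (C.Fil_mul hg hH1)) (C.Fil_mono (by omega) (C.Fil_mul hA hh))
  have hD2 : C.Fil (m + k + 1) ((H - 1) * (G - 1) - B * A) := by
    have h1 : (H - 1) * (G - 1) - B * A = (H - 1 - B) * (G - 1) + B * (G - 1 - A) := by
      noncomm_ring
    rw [h1]
    exact C.Fil_add (C.Fil_mono (by omega) (C.Fil_mul hh hG1)) (C.Fil_mono (by omega) (C.Fil_mul hB hg))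
  have hD : C.Fil (m + k) (G * H - H * G) := by
    have h1 : G * H - H * G = (G - 1) * (H - 1) - (H - 1) * (G - 1) := by
      noncomm_ring
    rw [h1]
    exact C.Fil_sub (C.Fil_mul hG1 hH1) (C.Fil_mono (by omega) (C.Fil_mul hH1 hG1))
  have hval : ((g * h * g⁻¹ * h⁻¹ : GL C.Idx R) : Matrix C.Idx C.Idx R) = G * H * G' * H' := by
    rw [Units.val_mul, Units.val_mul, Units.val_mul]
  rw [hval]
  have h2 : H * G * (G' * H') = 1 := by
    rw [mul_assoc, ← mul_assoc G, hGG, one_mul, hHH]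
  have h3 : G * H * G' * H' - 1 - (A * B - B * A) =
      (G * H - H * G) * (G' * H' - 1) + (((G - 1) * (H - 1) - A * B) - ((H - 1) * (G - 1) - B * A)) := by
    have h4 : (G * H - H * G) * (G' * H' - 1) =
        G * H * G' * H' - H * G * (G' * H') - (G * H - H * G) := by
      noncomm_ring
    rw [h4, h2]
    noncomm_ring
  rw [h3]
  exact C.Fil_add (C.Fil_mul hD hP) (C.Fil_sub hD1 hD2)


end SLC

end Pool.Agent.H75.UL
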