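import Pool.Agent.H75.UL.Ad
import Pool.Agent.H75.UL.S5
import Pool.Agent.H75.UL.R5

/-!
# Project UL (MP_978914_al), module T6

Diagonal and monomial elements.

`T_diag`: closure induction; `hh_xg`: `h_α(t)` has the entry `t^{(α,γ)} = ∏_j (t^{(α,α_j)})^{γ_j}` at
`γ` (`sum_ip_single`), so `c j = t^{(α,α_j)}` for the generators; products and inverses.
`T_fix`: the converse bookkeeping: `τ * xg β u * τ⁻¹ = xg β (chi τ β * u)` (conjugate the entries:
`E_γβ` entries scale by `χ(γ)/χ(β)` and `χ` is multiplicative; or from `T_acts'`).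
`xg_inj`: the entries of `X β u` at `(inl i, inr (-β))`, `u β_i`, and at `(inr β, inr (-β))`, `u²`,
show that `xg β u = xg β' u'`, `u ≠ 0`, forces `β = β'`, `u = u'` (`u² ≠ 0` at `(inr β, inr -β)`,
which for `X β' u'` is `0` unless `β' = β`; for `β' = -β`.. the entry at `(inr β, inr (-β))` of
`X (-β) u'` is `0`; and then `u β_i = u' β_i`).
`N_mono`: `ν = nword l * τ` (`N_word`), both factors are monomial (`nn_xg`, `T_diag`), with the
permutation `wd l` on the root vectors; `wd l = w` because both describe the conjugation of the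
root elements (`xg_inj`). The last part: the entry at `(w γ, γ)` is nonzero because `ν` is invertible.
-/

set_option autoImplicit false
open Matrix
universe u
namespace Pool.Agent.H75.UL

namespace SLC
variable {n : ℕ} (C : SLC n) {K : Type*} [Field K]

private theorem T6_X_apply (β : C.Root) (u : K) (a b : C.Idx) :
    C.X K β u a b = (1 : Matrix C.Idx C.Idx K) a b + u * ((C.E β a b : ℤ) : K) +
      u ^ 2 * ((C.F β a b : ℤ) : K) := by
  unfold X
  rw [Matrix.add_apply, Matrix.add_apply, Matrix.smul_apply, Matrix.smul_apply, Matrix.map_apply,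
    Matrix.map_apply, smul_eq_mul, smul_eq_mul]

private theorem T6_X_top (β : C.Root) (u : K) : C.X K β u (Sum.inr β) (Sum.inr (-β)) = u ^ 2 := by
  rw [T6_X_apply]
  have hE : C.E β (Sum.inr β) (Sum.inr (-β)) = 0 := by
    simp only [E]
    rw [if_neg]
    intro h3
    rw [Root.neg_val, add_neg_cancel] at h3
    exact C.root_ne_zero β h3
  have hF : C.F β (Sum.inr β) (Sum.inr (-β)) = 1 := by
    simp only [F, Root.neg_val, and_self, if_true]
  have hne' : (Sum.inr β : C.Idx) ≠ Sum.inr (-β) := by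
    intro h3
    have h4 := congrArg Root.val (Sum.inr.inj h3)
    rw [Root.neg_val] at h4
    exact C.neg_ne_self β h4.symm
  rw [hE, hF, Matrix.one_apply_ne hne', Int.cast_zero, mul_zero, Int.cast_one, mul_one, add_zero, zero_add]

theorem xg_inj (β β' : C.Root) (u u' : K) (hu : u ≠ 0) (h : C.xg K β u = C.xg K β' u') :
    β = β' ∧ u = u' := by
  have h1 : C.X K β u = C.X K β' u' := congrArg Units.val h
  have hββ : β = β' := by
    by_contra hne
    have h2 := congrFun (congrFun h1 (Sum.inr β)) (Sum.inr (-β))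
    rw [T6_X_top C β u, T6_X_apply] at h2
    have hE : C.E β' (Sum.inr β) (Sum.inr (-β)) = 0 := by
      simp only [E]
      rw [if_neg]
      intro h3
      refine C.root_add_self β β' ?_
      rw [Root.neg_val] at h3
      have h4 : β'.1 = β.1 + β.1 := by
        funext i
        have h5 := congrFun h3 i
        simp only [Pi.add_apply, Pi.neg_apply] at h5 ⊢
        omega
      exact h4
    have hF : C.F β' (Sum.inr β) (Sum.inr (-β)) = 0 := by
      simp only [F]
      rw [if_neg]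
      rintro ⟨h3, _⟩
      exact hne (Root.ext h3)
    have hne' : (Sum.inr β : C.Idx) ≠ Sum.inr (-β) := by
      intro h3
      have h4 := congrArg Root.val (Sum.inr.inj h3)
      rw [Root.neg_val] at h4
      exact C.neg_ne_self β h4.symm
    rw [hE, hF, Matrix.one_apply_ne hne', Int.cast_zero, mul_zero, mul_zero, add_zero, add_zero] at h2
    exact pow_ne_zero 2 hu h2
  subst hββ
  refine ⟨rfl, ?_⟩
  obtain ⟨i, hi⟩ := C.exists_coeff_ne_zero β K
  have h2 := congrFun (congrFun h1 (Sum.inl i)) (Sum.inr (-β))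
  rw [T6_X_apply, T6_X_apply] at h2
  have hE : C.E β (Sum.inl i) (Sum.inr (-β)) = - β.1 i := by
    simp only [E, Root.neg_val, if_true]
  have hF : C.F β (Sum.inl i) (Sum.inr (-β)) = 0 := rfl
  have hne' : (Sum.inl i : C.Idx) ≠ Sum.inr (-β) := Sum.inl_ne_inr
  rw [hE, hF, Matrix.one_apply_ne hne', Int.cast_zero, mul_zero, mul_zero, add_zero, add_zero, zero_add,
    zero_add, Int.cast_neg] at h2
  exact mul_right_cancel₀ (neg_ne_zero.2 hi) h2


private noncomputable def T6_d (c : Fin n → Kˣ) : C.Idx → K :=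
  Sum.elim (fun _ => 1) (fun γ => ((∏ j, c j ^ γ.1 j : Kˣ) : K))

private theorem T6_zpow_sum (t : Kˣ) (s : Finset (Fin n)) (f : Fin n → ℤ) :
    t ^ (∑ j ∈ s, f j) = ∏ j ∈ s, t ^ f j := by
  induction s using Finset.induction_on with
  | empty => simp
  | insert a s ha ih => rw [Finset.sum_insert ha, Finset.prod_insert ha, _root_.zpow_add, ih]

theorem T_diag (τ : GL C.Idx K) (hτ : τ ∈ (C.adS K).T) : ∃ c : Fin n → Kˣ,
    (τ : Matrix C.Idx C.Idx K) =
      Matrix.diagonal (Sum.elim (fun _ => 1) (fun γ => ((∏ j, c j ^ γ.1 j : Kˣ) : K))) := by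
  refine Subgroup.closure_induction (p := fun (τ : GL C.Idx K) _ => ∃ c : Fin n → Kˣ,
    (τ : Matrix C.Idx C.Idx K) = Matrix.diagonal (T6_d C c)) ?_ ?_ ?_ ?_ hτ
  · rintro τ ⟨α, t, ht, rfl⟩
    refine ⟨fun j => (Units.mk0 t ht) ^ (C.ip (Pi.single j 1) α.1), ?_⟩
    rw [adS_x, hh_xg C K α t ht]
    congr 1
    funext a
    rcases a with i | γ
    · rfl
    · simp only [Sum.elim_inr, T6_d]
      have h1 : ∏ j, ((Units.mk0 t ht) ^ (C.ip (Pi.single j 1) α.1)) ^ γ.1 j =
          (Units.mk0 t ht) ^ (C.ip α.1 γ.1) := by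
        rw [C.ip_comm α.1 γ.1, ← C.sum_ip_single γ.1 α.1, T6_zpow_sum]
        refine Finset.prod_congr rfl fun j _ => ?_
        rw [← _root_.zpow_mul, mul_comm]
      rw [h1, Units.val_zpow_eq_zpow_val, Units.val_mk0]
  · refine ⟨fun _ => 1, ?_⟩
    rw [Units.val_one, ← Matrix.diagonal_one]
    congr 1
    funext a
    rcases a with i | γ
    · rfl
    · simp [T6_d]
  · rintro x y _ _ ⟨c, hc⟩ ⟨c', hc'⟩
    refine ⟨fun j => c j * c' j, ?_⟩
    rw [Units.val_mul, hc, hc', Matrix.diagonal_mul_diagonal]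
    congr 1
    funext a
    rcases a with i | γ
    · simp [T6_d]
    · simp only [T6_d, Sum.elim_inr]
      rw [← Units.val_mul, ← Finset.prod_mul_distrib]
      congr 1
      refine Finset.prod_congr rfl fun j _ => ?_
      rw [mul_zpow]
  · rintro x _ ⟨c, hc⟩
    refine ⟨fun j => (c j)⁻¹, ?_⟩
    have h1 : Matrix.diagonal (T6_d C (fun j => (c j)⁻¹)) * (x : Matrix C.Idx C.Idx K) = 1 := by
      rw [hc, Matrix.diagonal_mul_diagonal, ← Matrix.diagonal_one]
      congr 1
      funext a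
      rcases a with i | γ
      · simp [T6_d]
      · simp only [T6_d, Sum.elim_inr]
        rw [← Units.val_mul, ← Finset.prod_mul_distrib]
        have h2 : ∏ j, ((c j)⁻¹ ^ γ.1 j * c j ^ γ.1 j) = 1 := by
          refine Finset.prod_eq_one fun j _ => ?_
          rw [← mul_zpow, inv_mul_cancel, _root_.one_zpow]
        rw [h2, Units.val_one]
    calc ((x⁻¹ : GL C.Idx K) : Matrix C.Idx C.Idx K)
        = (Matrix.diagonal (T6_d C (fun j => (c j)⁻¹)) * (x : Matrix C.Idx C.Idx K)) *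
          ((x⁻¹ : GL C.Idx K) : Matrix C.Idx C.Idx K) := by rw [h1, one_mul]
      _ = Matrix.diagonal (T6_d C (fun j => (c j)⁻¹)) := by
          rw [mul_assoc, ← Units.val_mul, mul_inv_cancel, Units.val_one, mul_one]


private noncomputable def T6_chi (c : Fin n → Kˣ) (v : Fin n → ℤ) : Kˣ := ∏ j, c j ^ v j

private theorem T6_chi_add (c : Fin n → Kˣ) (v w : Fin n → ℤ) :
    T6_chi c (v + w) = T6_chi c v * T6_chi c w := by
  unfold T6_chi
  rw [← Finset.prod_mul_distrib]
  refine Finset.prod_congr rfl fun j _ => ?_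
  rw [Pi.add_apply, _root_.zpow_add]

private theorem T6_chi_zero (c : Fin n → Kˣ) : T6_chi c 0 = 1 := by
  unfold T6_chi
  simp

theorem T_fix (τ : GL C.Idx K) (hτ : τ ∈ (C.adS K).T) (β : C.Root) (u : K) :
    C.chi (τ : Matrix C.Idx C.Idx K) β ≠ 0 ∧
    τ * C.xg K β u * τ⁻¹ = C.xg K β (C.chi (τ : Matrix C.Idx C.Idx K) β * u) := by
  obtain ⟨c, hc⟩ := C.T_diag τ hτ
  have hchi : C.chi (τ : Matrix C.Idx C.Idx K) β = (T6_chi c β.1 : K) := by
    unfold chi
    rw [hc, Matrix.diagonal_apply_eq]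
    rfl
  have hneg : ((T6_chi c β.1 : Kˣ) : K) * ((T6_chi c (-β.1) : Kˣ) : K) = 1 := by
    rw [← Units.val_mul, ← T6_chi_add, add_neg_cancel, T6_chi_zero, Units.val_one]
  refine ⟨by rw [hchi]; exact Units.ne_zero _, ?_⟩
  rw [mul_inv_eq_iff_eq_mul]
  apply Units.ext
  rw [Units.val_mul, Units.val_mul, hchi]
  show (τ : Matrix C.Idx C.Idx K) * C.X K β u = C.X K β ((T6_chi c β.1 : K) * u) * (τ : Matrix C.Idx C.Idx K)
  rw [hc]
  ext a b
  rw [Matrix.diagonal_mul, Matrix.mul_diagonal, T6_X_apply, T6_X_apply]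
  have h1 : (Sum.elim (fun _ => (1 : K)) (fun γ : C.Root => ((∏ j, c j ^ γ.1 j : Kˣ) : K)) a) *
      (1 : Matrix C.Idx C.Idx K) a b = (1 : Matrix C.Idx C.Idx K) a b *
      (Sum.elim (fun _ => (1 : K)) (fun γ : C.Root => ((∏ j, c j ^ γ.1 j : Kˣ) : K)) b) := by
    by_cases hab : a = b
    · subst hab
      ring
    · rw [Matrix.one_apply_ne hab]
      ring
  have h2 : (Sum.elim (fun _ => (1 : K)) (fun γ : C.Root => ((∏ j, c j ^ γ.1 j : Kˣ) : K)) a) *
      ((C.E β a b : ℤ) : K) = (T6_chi c β.1 : K) * ((C.E β a b : ℤ) : K) *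
      (Sum.elim (fun _ => (1 : K)) (fun γ : C.Root => ((∏ j, c j ^ γ.1 j : Kˣ) : K)) b) := by
    rcases a with i | γ <;> rcases b with j | δ
    · simp [E]
    · simp only [E, Sum.elim_inl, Sum.elim_inr]
      split_ifs with h
      · have h3 : ((∏ j, c j ^ δ.1 j : Kˣ) : K) = ((T6_chi c (-β.1) : Kˣ) : K) := by
          rw [h]
          rfl
        rw [h3, one_mul, mul_right_comm, hneg, one_mul]
      · simp
    · simp only [E, Sum.elim_inl, Sum.elim_inr]
      split_ifs with h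
      · have h3 : ((∏ j, c j ^ γ.1 j : Kˣ) : K) = ((T6_chi c β.1 : Kˣ) : K) := by
          rw [h]
          rfl
        rw [h3, mul_one]
      · simp
    · simp only [E, Sum.elim_inr]
      split_ifs with h
      · have h3 : ((∏ j, c j ^ γ.1 j : Kˣ) : K) = ((T6_chi c β.1 : Kˣ) : K) * ((∏ j, c j ^ δ.1 j : Kˣ) : K) := by
          rw [h, ← Units.val_mul]
          have h4 := T6_chi_add c β.1 δ.1
          unfold T6_chi at h4 ⊢
          rw [h4]
        rw [h3]
        ring
      · simp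
  have h3 : (Sum.elim (fun _ => (1 : K)) (fun γ : C.Root => ((∏ j, c j ^ γ.1 j : Kˣ) : K)) a) *
      ((C.F β a b : ℤ) : K) = (T6_chi c β.1 : K) ^ 2 * ((C.F β a b : ℤ) : K) *
      (Sum.elim (fun _ => (1 : K)) (fun γ : C.Root => ((∏ j, c j ^ γ.1 j : Kˣ) : K)) b) := by
    rcases a with i | γ <;> rcases b with j | δ
    · simp [F]
    · simp [F]
    · simp [F]
    · simp only [F, Sum.elim_inr]
      split_ifs with h
      · have h4 : ((∏ j, c j ^ γ.1 j : Kˣ) : K) = ((T6_chi c β.1 : Kˣ) : K) := by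
          rw [h.1]
          rfl
        have h5 : ((∏ j, c j ^ δ.1 j : Kˣ) : K) = ((T6_chi c (-β.1) : Kˣ) : K) := by
          rw [h.2]
          rfl
        rw [h4, h5]
        linear_combination (-(T6_chi c β.1 : K)) * ((1 : ℤ) : K) * hneg
      · simp
  linear_combination h1 + u * h2 + u ^ 2 * h3


theorem T_ext (τ τ' : GL C.Idx K) (hτ : τ ∈ (C.adS K).T) (hτ' : τ' ∈ (C.adS K).T)
    (h : ∀ j, C.chi (τ : Matrix C.Idx C.Idx K) (C.simple j) =
      C.chi (τ' : Matrix C.Idx C.Idx K) (C.simple j)) : τ = τ' := by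
  obtain ⟨c, hc⟩ := C.T_diag τ hτ
  obtain ⟨c', hc'⟩ := C.T_diag τ' hτ'
  have hcc : c = c' := by
    funext j
    have h1 := h j
    unfold chi at h1
    rw [hc, hc', Matrix.diagonal_apply_eq, Matrix.diagonal_apply_eq] at h1
    simp only [Sum.elim_inr, simple_val] at h1
    have h2 : ∀ e : Fin n → Kˣ, ∏ i, e i ^ (Pi.single j (1 : ℤ) : Fin n → ℤ) i = e j := by
      intro e
      rw [Finset.prod_eq_single j]
      · rw [Pi.single_eq_same, zpow_one]
      · intro i _ hi
        rw [Pi.single_eq_of_ne hi, zpow_zero]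
      · intro hj
        exact absurd (Finset.mem_univ j) hj
    rw [h2, h2] at h1
    exact Units.ext h1
  apply Units.ext
  rw [hc, hc', hcc]


private def T6_Mono (M : Matrix C.Idx C.Idx K) (w : Equiv.Perm C.Root) : Prop :=
  (∀ i γ, M (Sum.inl i) (Sum.inr γ) = 0) ∧ (∀ i γ, M (Sum.inr γ) (Sum.inl i) = 0) ∧
  (∀ γ γ', γ' ≠ w γ → M (Sum.inr γ') (Sum.inr γ) = 0) ∧ (∀ γ, M (Sum.inr (w γ)) (Sum.inr γ) ≠ 0)

private theorem T6_mono_mul {M M' : Matrix C.Idx C.Idx K} {w w' : Equiv.Perm C.Root} (h : T6_Mono C M w)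
    (h' : T6_Mono C M' w') : T6_Mono C (M * M') (w * w') := by
  refine ⟨fun i γ => ?_, fun i γ => ?_, fun γ γ' hγ => ?_, fun γ => ?_⟩
  · rw [Matrix.mul_apply, Fintype.sum_sum_type]
    rw [Finset.sum_eq_zero fun j _ => by rw [h'.1, mul_zero],
      Finset.sum_eq_zero fun δ _ => by rw [h.1, zero_mul], add_zero]
  · rw [Matrix.mul_apply, Fintype.sum_sum_type]
    rw [Finset.sum_eq_zero fun j _ => by rw [h.2.1, zero_mul],
      Finset.sum_eq_zero fun δ _ => by rw [h'.2.1, mul_zero], add_zero]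
  · rw [Matrix.mul_apply, Fintype.sum_sum_type]
    rw [Finset.sum_eq_zero fun j _ => by rw [h.2.1, zero_mul], zero_add]
    refine Finset.sum_eq_zero fun δ _ => ?_
    by_cases hδ : δ = w' γ
    · subst hδ
      rw [h.2.2.1 _ _ hγ, zero_mul]
    · rw [h'.2.2.1 _ _ hδ, mul_zero]
  · rw [Matrix.mul_apply, Fintype.sum_sum_type]
    rw [Finset.sum_eq_zero fun j _ => by rw [h.2.1, zero_mul], zero_add, Finset.sum_eq_single (w' γ)]
    · exact mul_ne_zero (h.2.2.2 _) (h'.2.2.2 _)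
    · intro δ _ hδ
      rw [h'.2.2.1 _ _ hδ, mul_zero]
    · intro hn
      exact absurd (Finset.mem_univ _) hn

private theorem T6_mono_T (τ : GL C.Idx K) (hτ : τ ∈ (C.adS K).T) :
    T6_Mono C (τ : Matrix C.Idx C.Idx K) 1 := by
  obtain ⟨c, hc⟩ := C.T_diag τ hτ
  rw [hc]
  refine ⟨fun i γ => ?_, fun i γ => ?_, fun γ γ' hγ => ?_, fun γ => ?_⟩
  · exact Matrix.diagonal_apply_ne _ Sum.inl_ne_inr
  · exact Matrix.diagonal_apply_ne _ Sum.inr_ne_inl
  · exact Matrix.diagonal_apply_ne _ fun h => hγ (Sum.inr.inj h)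
  · rw [Equiv.Perm.one_apply, Matrix.diagonal_apply_eq]
    exact Units.ne_zero _

private theorem T6_mono_nn (α : C.Root) (t : K) (ht : t ≠ 0) :
    T6_Mono C ((nn (C.xg K) α t : GL C.Idx K) : Matrix C.Idx C.Idx K) (C.reflE α) := by
  rw [C.nn_xg K α t ht]
  refine ⟨fun i γ => rfl, fun i γ => rfl, fun γ γ' hγ => ?_, fun γ => ?_⟩
  · show (if γ' = C.refl α γ then (C.cs α γ : K) * t ^ (- C.ip α.1 γ.1) else 0) = 0
    exact if_neg hγ
  · show (if C.refl α γ = C.refl α γ then (C.cs α γ : K) * t ^ (- C.ip α.1 γ.1) else 0) ≠ 0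
    rw [if_pos rfl]
    refine mul_ne_zero ?_ (zpow_ne_zero _ ht)
    have h1 : C.cs α γ = 1 ∨ C.cs α γ = -1 := by
      unfold cs
      split_ifs
      · exact C.eps_eq_one_or _ _
      · exact Or.inl rfl
    rcases h1 with h1 | h1 <;> rw [h1] <;> simp

private theorem T6_mono_nword (l : List (Fin n)) :
    T6_Mono C (((C.adS K).nword l : GL C.Idx K) : Matrix C.Idx C.Idx K) (C.wd l) := by
  induction l with
  | nil =>
    unfold StSys.nword wd
    rw [List.map_nil, List.map_nil, List.prod_nil, List.prod_nil, Units.val_one]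
    refine ⟨fun i γ => ?_, fun i γ => ?_, fun γ γ' hγ => ?_, fun γ => ?_⟩
    · exact Matrix.one_apply_ne Sum.inl_ne_inr
    · exact Matrix.one_apply_ne Sum.inr_ne_inl
    · exact Matrix.one_apply_ne fun h => hγ (Sum.inr.inj h)
    · rw [Equiv.Perm.one_apply, Matrix.one_apply_eq]
      exact one_ne_zero
  | cons i l ih =>
    have h1 : (C.adS K).nword (i :: l) = nn (C.xg K) (C.simple i) 1 * (C.adS K).nword l := by
      unfold StSys.nword
      rw [List.map_cons, List.prod_cons, adS_x]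
    have h2 : C.wd (i :: l) = C.reflE (C.simple i) * C.wd l := by
      unfold wd
      rw [List.map_cons, List.prod_cons]
    rw [h1, h2, Units.val_mul]
    exact T6_mono_mul C (T6_mono_nn C _ 1 one_ne_zero) ih

private theorem T6_acts_unique (ν : GL C.Idx K) (w w' : Equiv.Perm C.Root) (h : (C.adS K).Acts ν w)
    (h' : (C.adS K).Acts ν w') : w = w' := by
  obtain ⟨c, hc0, hc⟩ := h
  obtain ⟨c', _, hc'⟩ := h'
  ext β : 1
  have h1 := (hc β 1).symm.trans (hc' β 1)
  rw [adS_x, mul_one, mul_one] at h1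
  exact (C.xg_inj _ _ _ _ (hc0 β) h1).1

theorem N_mono (ν : GL C.Idx K) (w : Equiv.Perm C.Root) (h : (C.adS K).Acts ν w)
    (hν : ν ∈ (C.adS K).N) : w ∈ C.W ∧
    (∀ i γ, (ν : Matrix C.Idx C.Idx K) (Sum.inl i) (Sum.inr γ) = 0) ∧
    (∀ i γ, (ν : Matrix C.Idx C.Idx K) (Sum.inr γ) (Sum.inl i) = 0) ∧
    (∀ γ γ', γ' ≠ w γ → (ν : Matrix C.Idx C.Idx K) (Sum.inr γ') (Sum.inr γ) = 0) ∧
    (∀ γ, (ν : Matrix C.Idx C.Idx K) (Sum.inr (w γ)) (Sum.inr γ) ≠ 0) := by
  obtain ⟨l, τ, hτ, rfl⟩ := (C.adS K).N_word ν hν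
  have hmono : T6_Mono C (((C.adS K).nword l * τ : GL C.Idx K) : Matrix C.Idx C.Idx K) (C.wd l * 1) := by
    rw [Units.val_mul]
    exact T6_mono_mul C (T6_mono_nword C l) (T6_mono_T C τ hτ)
  have hact : (C.adS K).Acts ((C.adS K).nword l * τ) (C.wd l) := by
    obtain ⟨c, hc0, hc⟩ := (C.adS K).nword_acts l
    refine ⟨fun β => c β * C.chi (τ : Matrix C.Idx C.Idx K) β,
      fun β => mul_ne_zero (hc0 β) (C.T_fix τ hτ β 0).1, fun β u => ?_⟩
    have h1 := (C.T_fix τ hτ β u).2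
    rw [_root_.mul_inv_rev]
    calc (C.adS K).nword l * τ * (C.adS K).x β u * (τ⁻¹ * ((C.adS K).nword l)⁻¹)
        = (C.adS K).nword l * (τ * C.xg K β u * τ⁻¹) * ((C.adS K).nword l)⁻¹ := by
          rw [adS_x]
          group
      _ = (C.adS K).x (C.wd l β) (c β * C.chi (τ : Matrix C.Idx C.Idx K) β * u) := by
          rw [h1, mul_assoc (c β)]
          exact hc β _
  have hw := T6_acts_unique C _ w (C.wd l) h hact
  rw [mul_one] at hmono
  rw [hw]
  exact ⟨C.wd_mem_W l, hmono.1, hmono.2.1, hmono.2.2.1, hmono.2.2.2⟩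


/-- In the adjoint group: if `ν ∈ N` acts by `1` then `ν ∈ T`. -/
theorem N_one (ν : GL C.Idx K) (h : (C.adS K).Acts ν 1) (hν : ν ∈ (C.adS K).N) :
    ν ∈ (C.adS K).T := by
  obtain ⟨w, _, hw, h1⟩ := (C.adS K).N_acts ν hν
  exact h1 (T6_acts_unique C ν w 1 hw h)


end SLC

end Pool.Agent.H75.UL
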